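import Pool.Agent.Work.MP_3a3367_nt_log.Interface

/-!
# Block AS: the almost sure core statement
-/

set_option autoImplicit false

namespace Pool.Agent.Work.MP_3a3367_nt_log

open Finset Filter MeasureTheory ProbabilityTheory
open scoped Classical

namespace ASaux

lemma mem_UP_empty {y : ℝ} (hy : 0 ≤ y) (p : ℕ) : p ∈ UP ∅ y ↔ p.Prime ∧ (p : ℝ) ≤ y := by
  unfold UP
  rw [Finset.sdiff_empty, Finset.mem_filter, Finset.mem_range, Nat.lt_succ_iff,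
    Nat.le_floor_iff hy]
  tauto

lemma mem_UP {M : Finset ℕ} {y : ℝ} (hy : 0 ≤ y) (p : ℕ) :
    p ∈ UP M y ↔ p.Prime ∧ (p : ℝ) ≤ y ∧ p ∉ M := by
  unfold UP
  rw [Finset.mem_sdiff, Finset.mem_filter, Finset.mem_range, Nat.lt_succ_iff,
    Nat.le_floor_iff hy]
  tauto

lemma VV_mono {M : Finset ℕ} {y : ℝ} (hy : 0 ≤ y) : VV (UP ∅ y) ≤ VV (UP M y) := by
  unfold VV
  have hsub : UP M y ⊆ UP ∅ y := by
    intro p hp
    rw [mem_UP hy] at hp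
    rw [mem_UP_empty hy]
    exact ⟨hp.1, hp.2.1⟩
  rw [← Finset.prod_sdiff hsub]
  have hpos : ∀ p ∈ UP ∅ y, 0 ≤ 1 - 1 / (p : ℝ) ∧ 1 - 1 / (p : ℝ) ≤ 1 := by
    intro p hp
    rw [mem_UP_empty hy] at hp
    have h2 : (1 : ℝ) ≤ p := by exact_mod_cast hp.1.one_lt.le
    have h3 : 1 / (p : ℝ) ≤ 1 := by
      rw [div_le_one (by linarith)]
      exact h2
    have h4 : 0 ≤ 1 / (p : ℝ) := by positivity
    constructor <;> linarith
  have h1 : ∏ p ∈ UP ∅ y \ UP M y, (1 - 1 / (p : ℝ)) ≤ 1 :=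
    Finset.prod_le_one (fun p hp => (hpos p (Finset.mem_sdiff.1 hp).1).1)
      (fun p hp => (hpos p (Finset.mem_sdiff.1 hp).1).2)
  have h2 : 0 ≤ ∏ p ∈ UP M y, (1 - 1 / (p : ℝ)) :=
    Finset.prod_nonneg (fun p hp => (hpos p (hsub hp)).1)
  calc (∏ p ∈ UP ∅ y \ UP M y, (1 - 1 / (p : ℝ))) * ∏ p ∈ UP M y, (1 - 1 / (p : ℝ))
      ≤ 1 * ∏ p ∈ UP M y, (1 - 1 / (p : ℝ)) := mul_le_mul_of_nonneg_right h1 h2
    _ = _ := one_mul _

/-- The asymptotic facts. -/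
lemma asymp {β θ s cm : ℝ} (hβ : 0 < β) (hβ1 : β ≤ 1 / 100) (hθ : 0 < θ) (hθ1 : θ ≤ 1 / 10)
    (hθs : θ * s ≤ β / 8) (hcm : 0 < cm) (P : ℝ) :
    ∀ᶠ x : ℕ in atTop, 1 ≤ x ∧ 2 ≤ (x : ℝ) ^ θ ∧ P ≤ (x : ℝ) ^ θ ∧
      (x : ℝ) ^ (1 / 2 - β / 3) ≤ (⌊(x : ℝ) ^ (1 / 2 - β / 4)⌋₊ : ℝ) ∧
      (⌊(x : ℝ) ^ (1 / 2 - β / 4)⌋₊ : ℝ) ≤ (x : ℝ) ^ (1 / 2 : ℝ) ∧
      ⌊(x : ℝ) ^ (1 / 2 - β / 4)⌋₊ ≤ x ∧
      ((x : ℝ) ^ θ) ^ s * (2 * (x : ℝ) ^ (1 / 2 - β)) ≤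
        (⌊(x : ℝ) ^ (1 / 2 - β / 4)⌋₊ : ℝ) * (cm / Real.log ((x : ℝ) ^ θ)) ∧
      2 * (x : ℝ) ^ (1 / 2 - β) ≤ (x : ℝ) ^ (1 / 2 : ℝ) ∧
      (x : ℝ) ^ θ ≤ 2 * (x : ℝ) ^ (1 / 2 - β) := by
  have htend : ∀ a : ℝ, 0 < a → Tendsto (fun x : ℕ => (x : ℝ) ^ a) atTop atTop := fun a ha =>
    (tendsto_rpow_atTop ha).comp tendsto_natCast_atTop_atTop
  have e1 := (htend θ hθ).eventually_ge_atTop (max 2 P)
  have e2 := (htend (β / 12) (by positivity)).eventually_ge_atTop 2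
  have e3 := (htend (5 * β / 12) (by positivity)).eventually_ge_atTop (16 / (β * cm))
  have e4 := (htend β hβ).eventually_ge_atTop 2
  filter_upwards [e1, e2, e3, e4, eventually_ge_atTop 2] with x h1 h2 h3 h4 hx2
  have hx1 : (1 : ℝ) ≤ x := by exact_mod_cast (by omega : 1 ≤ x)
  have hx2' : (2 : ℝ) ≤ x := by exact_mod_cast hx2
  have hx0 : (0 : ℝ) < x := by linarith
  have hz2 : 2 ≤ (x : ℝ) ^ θ := le_trans (le_max_left _ _) h1
  have hfl : (x : ℝ) ^ (1 / 2 - β / 3) ≤ (⌊(x : ℝ) ^ (1 / 2 - β / 4)⌋₊ : ℝ) := by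
    have ha : (x : ℝ) ^ (1 / 2 - β / 4) = (x : ℝ) ^ (1 / 2 - β / 3) * (x : ℝ) ^ (β / 12) := by
      rw [← Real.rpow_add hx0]; congr 1; ring
    have hb : 1 ≤ (x : ℝ) ^ (1 / 2 - β / 3) := Real.one_le_rpow hx1 (by linarith)
    have hc : 2 * (x : ℝ) ^ (1 / 2 - β / 3) ≤ (x : ℝ) ^ (1 / 2 - β / 4) := by
      rw [ha, mul_comm 2]
      exact mul_le_mul_of_nonneg_left h2 (by linarith)
    have hd := (Nat.sub_one_lt_floor ((x : ℝ) ^ (1 / 2 - β / 4))).le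
    linarith
  have hflu : (⌊(x : ℝ) ^ (1 / 2 - β / 4)⌋₊ : ℝ) ≤ (x : ℝ) ^ (1 / 2 - β / 4) :=
    Nat.floor_le (by positivity)
  have hhalf : (x : ℝ) ^ (1 / 2 - β / 4) ≤ (x : ℝ) ^ (1 / 2 : ℝ) :=
    Real.rpow_le_rpow_of_exponent_le hx1 (by linarith)
  have hhalf1 : (x : ℝ) ^ (1 / 2 : ℝ) ≤ (x : ℝ) := by
    calc (x : ℝ) ^ (1 / 2 : ℝ) ≤ (x : ℝ) ^ (1 : ℝ) :=
          Real.rpow_le_rpow_of_exponent_le hx1 (by norm_num)
      _ = x := Real.rpow_one _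
  refine ⟨by omega, hz2, le_trans (le_max_right _ _) h1, hfl, hflu.trans hhalf, ?_, ?_, ?_, ?_⟩
  · have : (⌊(x : ℝ) ^ (1 / 2 - β / 4)⌋₊ : ℝ) ≤ (x : ℝ) := hflu.trans (hhalf.trans hhalf1)
    exact_mod_cast this
  · have hlogz : 0 < Real.log ((x : ℝ) ^ θ) := Real.log_pos (by linarith)
    have hlog1 : Real.log ((x : ℝ) ^ θ) ≤ (x : ℝ) ^ (β / 8) * (8 / β) := by
      rw [Real.log_rpow hx0]
      have hl := Real.log_le_rpow_div hx0.le (by positivity : 0 < β / 8)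
      have hlx : 0 ≤ Real.log x := Real.log_nonneg hx1
      calc θ * Real.log x ≤ 1 * Real.log x := mul_le_mul_of_nonneg_right (by linarith) hlx
        _ = Real.log x := one_mul _
        _ ≤ (x : ℝ) ^ (β / 8) / (β / 8) := hl
        _ = _ := by field_simp
    have hA : ((x : ℝ) ^ θ) ^ s ≤ (x : ℝ) ^ (β / 8) := by
      rw [← Real.rpow_mul hx0.le]
      exact Real.rpow_le_rpow_of_exponent_le hx1 hθs
    rw [mul_div_assoc', le_div_iff₀ hlogz]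
    have h16 : 16 / β ≤ cm * (x : ℝ) ^ (5 * β / 12) := by
      have := mul_le_mul_of_nonneg_left h3 hcm.le
      calc 16 / β = cm * (16 / (β * cm)) := by field_simp
        _ ≤ _ := this
    calc ((x : ℝ) ^ θ) ^ s * (2 * (x : ℝ) ^ (1 / 2 - β)) * Real.log ((x : ℝ) ^ θ)
        ≤ (x : ℝ) ^ (β / 8) * (2 * (x : ℝ) ^ (1 / 2 - β)) * ((x : ℝ) ^ (β / 8) * (8 / β)) := by
          gcongr
      _ = (16 / β) * ((x : ℝ) ^ (β / 8) * (x : ℝ) ^ (1 / 2 - β) * (x : ℝ) ^ (β / 8)) := by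
          field_simp; ring
      _ = (16 / β) * (x : ℝ) ^ (1 / 2 - 3 * β / 4) := by
          rw [← Real.rpow_add hx0, ← Real.rpow_add hx0]; congr 2; ring
      _ ≤ cm * (x : ℝ) ^ (5 * β / 12) * (x : ℝ) ^ (1 / 2 - 3 * β / 4) := by gcongr
      _ = cm * (x : ℝ) ^ (1 / 2 - β / 3) := by
          rw [mul_assoc, ← Real.rpow_add hx0]; congr 2; ring
      _ ≤ cm * (⌊(x : ℝ) ^ (1 / 2 - β / 4)⌋₊ : ℝ) := by gcongr
      _ = _ := mul_comm _ _
  · calc 2 * (x : ℝ) ^ (1 / 2 - β) ≤ (x : ℝ) ^ β * (x : ℝ) ^ (1 / 2 - β) := by gcongr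
      _ = (x : ℝ) ^ (1 / 2 : ℝ) := by rw [← Real.rpow_add hx0]; congr 1; ring
  · calc (x : ℝ) ^ θ ≤ (x : ℝ) ^ (1 / 2 - β) :=
          Real.rpow_le_rpow_of_exponent_le hx1 (by linarith)
      _ ≤ 2 * (x : ℝ) ^ (1 / 2 - β) := by
          have : 0 ≤ (x : ℝ) ^ (1 / 2 - β) := by positivity
          linarith

/-- Products of sets of relevant prime factors of elements of `WW`. -/
lemma prod_le_of_mem_WW {β θ : ℝ} {M : Finset ℕ} {x h m : ℕ} {z : ℝ} (hx : 1 ≤ x) (hh : h ≤ x)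
    (hm : m ∈ WW β θ M x h) {D : Finset ℕ} (hD : D ⊆ PF z ((x : ℝ) ^ (1 / 2 + β)) m) :
    (∏ p ∈ D, (p : ℝ)) ≤ 2 * (x : ℝ) ^ (1 / 2 - β) := by
  unfold WW at hm
  rw [Finset.mem_filter] at hm
  obtain ⟨hmR, P, hP, hPm, hyP⟩ := hm
  unfold Rg at hmR
  rw [Finset.mem_filter, Finset.mem_Ioc] at hmR
  have hm0 : m ≠ 0 := by omega
  have hx0 : (0 : ℝ) < x := by exact_mod_cast (by omega : 0 < x)
  have hPD : P ∉ D := by
    intro h
    have := hD h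
    unfold PF at this
    rw [Finset.mem_filter] at this
    linarith [this.2.2]
  have hsub : insert P D ⊆ m.primeFactors := by
    intro q hq
    rw [Finset.mem_insert] at hq
    rcases hq with rfl | hq
    · exact Nat.mem_primeFactors.2 ⟨hP, hPm, hm0⟩
    · have := hD hq
      unfold PF at this
      exact (Finset.mem_filter.1 this).1
  have hdvd : ∏ p ∈ insert P D, p ∣ m :=
    (Finset.prod_dvd_prod_of_subset _ _ _ hsub).trans (Nat.prod_primeFactors_dvd m)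
  rw [Finset.prod_insert hPD] at hdvd
  have hle : P * ∏ p ∈ D, p ≤ m := Nat.le_of_dvd (by omega) hdvd
  have hle2 : (P : ℝ) * ∏ p ∈ D, (p : ℝ) ≤ 2 * x := by
    have h1 : P * ∏ p ∈ D, p ≤ 2 * x := by omega
    have h2 : ((P * ∏ p ∈ D, p : ℕ) : ℝ) ≤ ((2 * x : ℕ) : ℝ) := Nat.cast_le.2 h1
    push_cast at h2
    exact h2
  have hpr : 0 ≤ ∏ p ∈ D, (p : ℝ) := by positivity
  have hy0 : 0 < (x : ℝ) ^ (1 / 2 + β) := by positivity
  have h3 : (x : ℝ) ^ (1 / 2 + β) * ∏ p ∈ D, (p : ℝ) ≤ 2 * x :=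
    le_trans (mul_le_mul_of_nonneg_right hyP.le hpr) hle2
  have h4 : (2 * (x : ℝ) ^ (1 / 2 - β)) * (x : ℝ) ^ (1 / 2 + β) = 2 * x := by
    rw [mul_assoc, ← Real.rpow_add hx0]
    have : (1 / 2 - β + (1 / 2 + β)) = (1 : ℝ) := by ring
    rw [this, Real.rpow_one]
  refine le_of_mul_le_mul_right ?_ hy0
  rw [h4, mul_comm]
  exact h3

/-- The possible relevant primes. -/
noncomputable def QQ (β θ : ℝ) (x : ℕ) : Finset ℕ :=
  UP ∅ (2 * (x : ℝ) ^ (1 / 2 - β)) \ UP ∅ ((x : ℝ) ^ θ)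

lemma mem_QQ {β θ : ℝ} {x : ℕ} (q : ℕ) :
    q ∈ QQ β θ x ↔ q.Prime ∧ (x : ℝ) ^ θ < q ∧ (q : ℝ) ≤ 2 * (x : ℝ) ^ (1 / 2 - β) := by
  unfold QQ
  rw [Finset.mem_sdiff, mem_UP_empty (by positivity), mem_UP_empty (by positivity)]
  constructor
  · rintro ⟨⟨h1, h2⟩, h3⟩
    refine ⟨h1, ?_, h2⟩
    by_contra h
    exact h3 ⟨h1, not_lt.1 h⟩
  · rintro ⟨h1, h2, h3⟩
    exact ⟨⟨h1, h3⟩, fun h => absurd h.2 (not_le.2 h2)⟩

lemma HQ {β θ : ℝ} {M : Finset ℕ} {x h m : ℕ} (hx : 1 ≤ x) (hh : h ≤ x)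
    (hm : m ∈ WW β θ M x h) :
    PF ((x : ℝ) ^ θ) ((x : ℝ) ^ (1 / 2 + β)) m ⊆ QQ β θ x := by
  intro q hq
  have hq' := hq
  unfold PF at hq
  rw [Finset.mem_filter] at hq
  rw [mem_QQ]
  refine ⟨Nat.prime_of_mem_primeFactors hq.1, hq.2.1, ?_⟩
  have := prod_le_of_mem_WW hx hh hm (D := {q}) (Finset.singleton_subset_iff.2 hq')
  simpa using this

lemma card_le {β θ : ℝ} (hθ : 0 < θ) {M : Finset ℕ} {x h m : ℕ} (hx : 1 ≤ x) (hh : h ≤ x)
    (hz : 2 ≤ (x : ℝ) ^ θ) (hh2 : 2 * (x : ℝ) ^ (1 / 2 - β) ≤ (x : ℝ) ^ (1 / 2 : ℝ))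
    (hm : m ∈ WW β θ M x h) :
    #(PF ((x : ℝ) ^ θ) ((x : ℝ) ^ (1 / 2 + β)) m) ≤ ⌈1 / θ⌉₊ := by
  have h1 := prod_le_of_mem_WW hx hh hm (D := PF ((x : ℝ) ^ θ) ((x : ℝ) ^ (1 / 2 + β)) m)
    (Finset.Subset.refl _)
  set D := PF ((x : ℝ) ^ θ) ((x : ℝ) ^ (1 / 2 + β)) m with hDdef
  have hx1 : (1 : ℝ) ≤ x := by exact_mod_cast hx
  have hx0 : (0 : ℝ) < x := by linarith
  have hx2 : (1 : ℝ) < x := by
    by_contra hcon
    have : (x : ℝ) = 1 := le_antisymm (not_lt.1 hcon) hx1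
    rw [this, Real.one_rpow] at hz
    norm_num at hz
  have h2 : ((x : ℝ) ^ θ) ^ #D ≤ ∏ p ∈ D, (p : ℝ) := by
    rw [← Finset.prod_const]
    refine Finset.prod_le_prod (fun p _ => by positivity) (fun p hp => ?_)
    rw [hDdef] at hp
    unfold PF at hp
    exact (Finset.mem_filter.1 hp).2.1.le
  have h3 : (x : ℝ) ^ (θ * #D) ≤ (x : ℝ) ^ (1 : ℝ) := by
    rw [Real.rpow_mul hx0.le, Real.rpow_natCast]
    exact le_trans h2 (le_trans h1 (le_trans hh2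
      (Real.rpow_le_rpow_of_exponent_le hx1 (by norm_num))))
  have h4 : θ * #D ≤ 1 := (Real.rpow_le_rpow_left_iff hx2).1 h3
  have h5 : (#D : ℝ) ≤ 1 / θ := by
    rw [le_div_iff₀ hθ, mul_comm]
    exact h4
  exact_mod_cast h5.trans (Nat.le_ceil _)

lemma prod_pos_of_QQ {β θ : ℝ} {x : ℕ} {D : Finset ℕ} (hD : D ⊆ QQ β θ x) :
    0 < ∏ q ∈ D, (q : ℝ) :=
  Finset.prod_pos (fun q hq => by
    have := (mem_QQ q).1 (hD hq)
    exact_mod_cast this.1.pos)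

/-- The sieve bound for `ND`. -/
lemma ND_le {β θ s cm : ℝ} {M : Finset ℕ} {x h : ℕ} (hx : 1 ≤ x) (hh : h ≤ x)
    (hz : 2 ≤ (x : ℝ) ^ θ)
    (hlow : cm / Real.log ((x : ℝ) ^ θ) ≤ VV (UP ∅ ((x : ℝ) ^ θ)))
    (hbig : ((x : ℝ) ^ θ) ^ s * (2 * (x : ℝ) ^ (1 / 2 - β)) ≤
        (h : ℝ) * (cm / Real.log ((x : ℝ) ^ θ)))
    (hVV : 0 < VV (UP M ((x : ℝ) ^ θ)))
    (hSAP : ∀ (P : Finset ℕ) (z : ℝ), 2 ≤ z →
      (∀ p ∈ P, p.Prime ∧ (p : ℝ) ≤ z) → ∀ (x h q c : ℕ), 0 < q → (∀ p ∈ P, Nat.Coprime q p) →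
      (#((Rg P x h).filter (fun m => m ≡ c [MOD q])) : ℝ) ≤ (1 + 1) * (h / q * VV P) + z ^ s)
    {D : Finset ℕ} (hD : D ⊆ QQ β θ x) :
    (#(ND (WW β θ M x h) (PF ((x : ℝ) ^ θ) ((x : ℝ) ^ (1 / 2 + β))) D) : ℝ) ≤
      3 * (h * VV (UP M ((x : ℝ) ^ θ)) / ∏ q ∈ D, (q : ℝ)) := by
  have hpos := prod_pos_of_QQ hD
  have hz0 : (0 : ℝ) ≤ (x : ℝ) ^ θ := by positivity
  by_cases hbigD : 2 * (x : ℝ) ^ (1 / 2 - β) < ∏ q ∈ D, (q : ℝ)
  · have hempty : ND (WW β θ M x h) (PF ((x : ℝ) ^ θ) ((x : ℝ) ^ (1 / 2 + β))) D = ∅ := by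
      rw [Finset.eq_empty_iff_forall_notMem]
      intro m hm
      unfold ND at hm
      rw [Finset.mem_filter] at hm
      exact absurd (prod_le_of_mem_WW hx hh hm.1 hm.2) (not_le.2 hbigD)
    rw [hempty]
    simp only [Finset.card_empty, Nat.cast_zero]
    positivity
  · push Not at hbigD
    have h1 := hSAP (UP M ((x : ℝ) ^ θ)) ((x : ℝ) ^ θ) hz
      (fun p hp => by
        rw [mem_UP hz0] at hp
        exact ⟨hp.1, hp.2.1⟩) x h (∏ q ∈ D, q) 0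
      (Finset.prod_pos (fun q hq => ((mem_QQ q).1 (hD hq)).1.pos))
      (fun p hp => by
        rw [mem_UP hz0] at hp
        rw [Nat.coprime_prod_left_iff]
        intro q hq
        have hq' := (mem_QQ q).1 (hD hq)
        rw [Nat.coprime_primes hq'.1 hp.1]
        rintro rfl
        linarith [hq'.2.1, hp.2.1])
    have h2 : ND (WW β θ M x h) (PF ((x : ℝ) ^ θ) ((x : ℝ) ^ (1 / 2 + β))) D ⊆
        (Rg (UP M ((x : ℝ) ^ θ)) x h).filter (fun m => m ≡ 0 [MOD ∏ q ∈ D, q]) := by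
      intro m hm
      unfold ND at hm
      rw [Finset.mem_filter] at hm
      have hm1 := hm.1
      unfold WW at hm1
      rw [Finset.mem_filter] at hm1
      rw [Finset.mem_filter]
      refine ⟨hm1.1, ?_⟩
      rw [Nat.modEq_zero_iff_dvd]
      have hsub : D ⊆ m.primeFactors := by
        intro q hq
        have := hm.2 hq
        unfold PF at this
        exact (Finset.mem_filter.1 this).1
      exact (Finset.prod_dvd_prod_of_subset _ _ _ hsub).trans (Nat.prod_primeFactors_dvd m)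
    have h3 : (#(ND (WW β θ M x h) (PF ((x : ℝ) ^ θ) ((x : ℝ) ^ (1 / 2 + β))) D) : ℝ) ≤
        (#((Rg (UP M ((x : ℝ) ^ θ)) x h).filter (fun m => m ≡ 0 [MOD ∏ q ∈ D, q])) : ℝ) := by
      exact_mod_cast Finset.card_le_card h2
    have hcast : ((∏ q ∈ D, q : ℕ) : ℝ) = ∏ q ∈ D, (q : ℝ) := by push_cast; rfl
    rw [hcast] at h1
    have h4 : ((x : ℝ) ^ θ) ^ s ≤ h * VV (UP M ((x : ℝ) ^ θ)) / ∏ q ∈ D, (q : ℝ) := by
      rw [le_div_iff₀ hpos]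
      calc ((x : ℝ) ^ θ) ^ s * ∏ q ∈ D, (q : ℝ)
          ≤ ((x : ℝ) ^ θ) ^ s * (2 * (x : ℝ) ^ (1 / 2 - β)) :=
            mul_le_mul_of_nonneg_left hbigD (by positivity)
        _ ≤ (h : ℝ) * (cm / Real.log ((x : ℝ) ^ θ)) := hbig
        _ ≤ (h : ℝ) * VV (UP M ((x : ℝ) ^ θ)) :=
            mul_le_mul_of_nonneg_left (hlow.trans (VV_mono hz0)) (by positivity)
    calc (#(ND (WW β θ M x h) (PF ((x : ℝ) ^ θ) ((x : ℝ) ^ (1 / 2 + β))) D) : ℝ)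
        ≤ (1 + 1) * (h / (∏ q ∈ D, (q : ℝ)) * VV (UP M ((x : ℝ) ^ θ))) + ((x : ℝ) ^ θ) ^ s :=
          h3.trans h1
      _ ≤ (1 + 1) * (h / (∏ q ∈ D, (q : ℝ)) * VV (UP M ((x : ℝ) ^ θ))) +
            h * VV (UP M ((x : ℝ) ^ θ)) / ∏ q ∈ D, (q : ℝ) := by linarith
      _ = _ := by ring

lemma VV_pos {M : Finset ℕ} {y : ℝ} (hy : 0 ≤ y) : 0 < VV (UP M y) := by
  unfold VV
  refine Finset.prod_pos (fun p hp => ?_)
  rw [mem_UP hy] at hp
  have h2 : (1 : ℝ) < p := by exact_mod_cast hp.1.one_lt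
  have h3 : 1 / (p : ℝ) < 1 := by
    rw [div_lt_one (by linarith)]
    exact h2
  linarith

lemma log_aux {β θ Cm : ℝ} {x : ℕ} (hθ0 : 0 < θ) (hx0 : (0 : ℝ) < x) (hz2 : 2 ≤ (x : ℝ) ^ θ)
    (hzy : (x : ℝ) ^ θ ≤ 2 * (x : ℝ) ^ (1 / 2 - β)) (hyx : 2 * (x : ℝ) ^ (1 / 2 - β) ≤ x) :
    Real.log (Real.log (2 * (x : ℝ) ^ (1 / 2 - β)) / Real.log ((x : ℝ) ^ θ)) + Cm ≤
      Real.log (1 / θ) + Cm := by
  have hz : 0 < Real.log ((x : ℝ) ^ θ) := Real.log_pos (by linarith)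
  have hl1 : Real.log (2 * (x : ℝ) ^ (1 / 2 - β)) ≤ Real.log x :=
    Real.log_le_log (by positivity) hyx
  have hl2 : 0 < Real.log (2 * (x : ℝ) ^ (1 / 2 - β)) := Real.log_pos (by linarith)
  have hl3 : Real.log (2 * (x : ℝ) ^ (1 / 2 - β)) / Real.log ((x : ℝ) ^ θ) ≤ 1 / θ := by
    rw [div_le_div_iff₀ hz hθ0, Real.log_rpow hx0]
    have := mul_le_mul_of_nonneg_right hl1 hθ0.le
    linarith
  have hl4 : 0 < Real.log (2 * (x : ℝ) ^ (1 / 2 - β)) / Real.log ((x : ℝ) ^ θ) :=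
    div_pos hl2 hz
  have := Real.log_le_log hl4 hl3
  linarith

end ASaux

open ASaux in
theorem stmt_AS.{u} (hSAP : Stmt_SAP) (hMER : Stmt_MER) (hCT : Stmt_CT) (hDP : Stmt_DP)
    (hRL : Stmt_RL.{u}) : Stmt_AS.{u} := by
  intro σ hσ
  obtain ⟨Cm, cm, hCm, hcm, hMer⟩ := hMER
  obtain ⟨β, hβ0, hβ1, hCT⟩ := hCT
  obtain ⟨θ₁, hθ₁, hCT⟩ := hCT β hβ0 le_rfl
  obtain ⟨s, hs1, hSAP⟩ := hSAP 1 one_pos
  obtain ⟨θ, hθ0, hθθ₁, hθσ, hθs, hθ10⟩ : ∃ θ : ℝ, 0 < θ ∧ θ ≤ θ₁ ∧ σ * θ ≤ β ∧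
      θ * s ≤ β / 8 ∧ θ ≤ 1 / 10 := by
    refine ⟨min θ₁ (min (β / σ) (min (β / 8 / s) (1 / 10))), ?_, min_le_left _ _, ?_, ?_, ?_⟩
    · positivity
    · rw [← le_div_iff₀' (by linarith)]
      exact (min_le_right _ _).trans (min_le_left _ _)
    · rw [← le_div_iff₀ (by linarith)]
      exact (min_le_right _ _).trans ((min_le_right _ _).trans (min_le_left _ _))
    · exact (min_le_right _ _).trans ((min_le_right _ _).trans (min_le_right _ _))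
  set J : ℕ := ⌈1 / θ⌉₊ with hJ
  set Λ : ℝ := Real.log (1 / θ) + Cm with hΛ
  have hΛ1 : 1 ≤ Λ := by
    have : 0 ≤ Real.log (1 / θ) := Real.log_nonneg (by
      rw [le_div_iff₀ hθ0]; linarith)
    rw [hΛ]; linarith
  have hΛ4 : 1 ≤ 4 * Λ := by linarith
  set κ₀ : ℝ := 1 / 4 / (4 * Λ) ^ J / (4 * 3) with hκ₀
  have hκ₀pos : 0 < κ₀ := by positivity
  set κ : ℝ := 1 / 4 / (4 * Λ) ^ J / 2 with hκ
  have hκpos : 0 < κ := by positivity
  set K : ℝ := 4 / (θ * κ₀) with hK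
  have hκ₀le : κ₀ ≤ 1 := by
    rw [hκ₀]
    have h1 : (1 : ℝ) ≤ (4 * Λ) ^ J := one_le_pow₀ hΛ4
    rw [div_div, div_div, div_le_one (by positivity)]
    linarith
  have hK1 : 1 ≤ K := by
    rw [hK, le_div_iff₀ (by positivity)]
    nlinarith
  refine ⟨β, θ, κ, K, hβ0, hβ1, hθ0, hθσ, hκpos, hK1, ?_⟩
  intro Ω _ μ _ E hE hind hprob
  obtain ⟨p₀, hp₀⟩ := eventually_atTop.1 hprob
  have hev := asymp hβ0 hβ1 hθ0 hθ10 hθs hcm (p₀ : ℝ)
  obtain ⟨x₀, hx₀⟩ := hCT θ hθ0 hθθ₁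
  -- the bad events
  set A : ℕ → Finset ℕ := fun x => (Finset.range (⌊(x : ℝ) ^ θ⌋₊ + 1)).filter Nat.Prime with hA
  set h : ℕ → ℕ := fun x => ⌊(x : ℝ) ^ (1 / 2 - β / 4)⌋₊ with hh
  set G : ℕ → Finset ℕ → ℕ → Finset ℕ := fun x M i =>
    Good (WW β θ M x (h x)) (QQ β θ x) (PF ((x : ℝ) ^ θ) ((x : ℝ) ^ (1 / 2 + β)))
      (h x * VV (UP M ((x : ℝ) ^ θ))) Λ (1 / 4) i.primeFactors with hG
  set I : ℕ → Finset ℕ → Finset ℕ := fun x M =>
    (Finset.range (⌊2 * (x : ℝ) ^ (1 / 2 - β)⌋₊ + 1)).filter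
      (fun i => κ₀ ≤ ∑ q ∈ G x M i, 1 / (q : ℝ)) with hI
  set Bad : ℕ → Set Ω := fun x => {ω | ∃ i ∈ I x ((A x).filter (fun p => ω ∈ E p)),
    ∀ q ∈ G x ((A x).filter (fun p => ω ∈ E p)) i, ω ∉ E q} with hBad
  have hbound : ∀ᶠ x : ℕ in atTop, μ.real (Bad x) ≤ 2 * ((x : ℝ) ^ 2)⁻¹ := by
    filter_upwards [hev, eventually_ge_atTop 2] with x hx hx2
    obtain ⟨hx1, hz2, hzP, hh1, hh2, hh3, hbig, hhalf, hzy⟩ := hx
    have hx2' : (2 : ℝ) ≤ x := by exact_mod_cast hx2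
    have hx0 : (0 : ℝ) < x := by linarith
    have hlogx : 0 < Real.log x := Real.log_pos (by linarith)
    have key := hRL μ E hE hind (A x) (I x) (G x) (2 * x) (4 * Real.log x) (by linarith)
      (fun M _ => by
        constructor
        · have h1 : #(I x M) ≤ ⌊2 * (x : ℝ) ^ (1 / 2 - β)⌋₊ + 1 := by
            refine le_trans (Finset.card_filter_le _ _) ?_
            rw [Finset.card_range]
          have h2 : (⌊2 * (x : ℝ) ^ (1 / 2 - β)⌋₊ : ℝ) ≤ 2 * (x : ℝ) ^ (1 / 2 - β) :=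
            Nat.floor_le (by positivity)
          have h3 : (x : ℝ) ^ (1 / 2 : ℝ) ≤ x := by
            calc (x : ℝ) ^ (1 / 2 : ℝ) ≤ (x : ℝ) ^ (1 : ℝ) :=
                  Real.rpow_le_rpow_of_exponent_le (by linarith) (by norm_num)
              _ = x := Real.rpow_one _
          have h4 : (#(I x M) : ℝ) ≤ (⌊2 * (x : ℝ) ^ (1 / 2 - β)⌋₊ : ℝ) + 1 := by
            exact_mod_cast h1
          linarith
        · intro i hi
          have hGQ : G x M i ⊆ QQ β θ x := by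
            intro q hq
            rw [hG] at hq
            simp only at hq
            unfold Good at hq
            exact (Finset.mem_sdiff.1 (Finset.mem_filter.1 hq).1).1
          constructor
          · rw [Finset.disjoint_left]
            intro q hq hqA
            have h1 := (mem_QQ q).1 (hGQ hq)
            rw [hA] at hqA
            simp only [Finset.mem_filter, Finset.mem_range, Nat.lt_succ_iff] at hqA
            have h2 : (q : ℝ) ≤ (x : ℝ) ^ θ := (Nat.le_floor_iff (by positivity)).1 hqA.1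
            linarith [h1.2.1]
          · rw [hI] at hi
            simp only [Finset.mem_filter] at hi
            have h1 : ∀ q ∈ G x M i, (K * (θ * Real.log x)) * (1 / (q : ℝ)) ≤ μ.real (E q) := by
              intro q hq
              have h2 := (mem_QQ q).1 (hGQ hq)
              have h3 : p₀ ≤ q := by
                have : (p₀ : ℝ) ≤ q := hzP.trans h2.2.1.le
                exact_mod_cast this
              refine le_trans ?_ (hp₀ q h3 h2.1)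
              rw [mul_assoc, mul_one_div]
              have hq0 : (0 : ℝ) < q := by exact_mod_cast h2.1.pos
              have h4 : θ * Real.log x ≤ Real.log q := by
                rw [← Real.log_rpow hx0]
                exact Real.log_le_log (by positivity) h2.2.1.le
              have hK0 : 0 ≤ K := by linarith
              gcongr
            calc 4 * Real.log x = (K * (θ * Real.log x)) * κ₀ := by
                  rw [hK]; field_simp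
              _ ≤ (K * (θ * Real.log x)) * ∑ q ∈ G x M i, 1 / (q : ℝ) := by
                  have hK0 : 0 ≤ K := by linarith
                  exact mul_le_mul_of_nonneg_left hi.2 (by positivity)
              _ = ∑ q ∈ G x M i, (K * (θ * Real.log x)) * (1 / (q : ℝ)) := by
                  rw [Finset.mul_sum]
              _ ≤ _ := Finset.sum_le_sum h1)
    refine le_trans key ?_
    have h5 : Real.exp (-(4 * Real.log x)) = ((x : ℝ) ^ 4)⁻¹ := by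
      rw [Real.exp_neg]
      congr 1
      rw [show (4 : ℝ) * Real.log x = ((4 : ℕ) : ℝ) * Real.log x by norm_num, Real.exp_nat_mul,
        Real.exp_log hx0]
    rw [h5]
    have h6 : 2 * (x : ℝ) * ((x : ℝ) ^ 4)⁻¹ = 2 * ((x : ℝ) ^ 3)⁻¹ := by
      field_simp
    rw [h6]
    have h7 : ((x : ℝ) ^ 3)⁻¹ ≤ ((x : ℝ) ^ 2)⁻¹ := by
      apply inv_anti₀ (by positivity)
      exact pow_le_pow_right₀ (by linarith) (by norm_num)
    linarith
  have hae : ∀ᵐ ω ∂μ, ∀ᶠ x : ℕ in atTop, ω ∉ Bad x := by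
    obtain ⟨x₁, hx₁⟩ := eventually_atTop.1 hbound
    have hsum : ∑' x : ℕ, μ (if x₁ ≤ x then Bad x else ∅) ≠ ⊤ := by
      have hle : ∀ x : ℕ, μ (if x₁ ≤ x then Bad x else ∅) ≤
          ENNReal.ofReal (2 * ((x : ℝ) ^ 2)⁻¹) := by
        intro x
        by_cases hx : x₁ ≤ x
        · rw [if_pos hx, ← ofReal_measureReal (measure_ne_top μ _)]
          exact ENNReal.ofReal_le_ofReal (hx₁ x hx)
        · rw [if_neg hx, measure_empty]
          exact zero_le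
      have hs2 : Summable (fun x : ℕ => 2 * ((x : ℝ) ^ 2)⁻¹) :=
        (Real.summable_nat_pow_inv.2 (by norm_num)).mul_left 2
      refine ne_top_of_le_ne_top ?_ (ENNReal.tsum_le_tsum hle)
      rw [← ENNReal.ofReal_tsum_of_nonneg (fun x => by positivity) hs2]
      exact ENNReal.ofReal_ne_top
    have hbc := ae_eventually_notMem hsum
    filter_upwards [hbc] with ω hω
    filter_upwards [hω, eventually_ge_atTop x₁] with x hx hx1
    rw [if_pos hx1] at hx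
    exact hx
  filter_upwards [hae] with ω hω
  filter_upwards [hω, hev, eventually_ge_atTop x₀] with x hxBad hx hxx₀
  obtain ⟨hx1, hz2, hzP, hh1, hh2, hh3, hbig, hhalf, hzy⟩ := hx
  have hMV : MV E ((x : ℝ) ^ θ) ω = (A x).filter (fun p => ω ∈ E p) := rfl
  rw [hMV]
  set M := (A x).filter (fun p => ω ∈ E p) with hM
  have hx0 : (0 : ℝ) < x := by exact_mod_cast (by omega : 0 < x)
  have hx1' : (1 : ℝ) ≤ x := by exact_mod_cast hx1
  have hz0 : (0 : ℝ) ≤ (x : ℝ) ^ θ := by positivity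
  have hVV : 0 < VV (UP M ((x : ℝ) ^ θ)) := VV_pos hz0
  have hh0 : (0 : ℝ) < (h x : ℝ) := lt_of_lt_of_le (by positivity) hh1
  obtain ⟨_, _, _, hlow, _, _⟩ := hMer ((x : ℝ) ^ θ) hz2
  have hyx : 2 * (x : ℝ) ^ (1 / 2 - β) ≤ x := by
    refine hhalf.trans ?_
    calc (x : ℝ) ^ (1 / 2 : ℝ) ≤ (x : ℝ) ^ (1 : ℝ) :=
          Real.rpow_le_rpow_of_exponent_le hx1' (by norm_num)
      _ = x := Real.rpow_one _
  have hsumQ : ∑ q ∈ QQ β θ x, 1 / (q : ℝ) ≤ Λ := by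
    obtain ⟨_, _, _, _, _, h6⟩ := hMer (2 * (x : ℝ) ^ (1 / 2 - β)) (hz2.trans hzy)
    exact (h6 ((x : ℝ) ^ θ) hz2 hzy).trans (log_aux hθ0 hx0 hz2 hzy hyx)
  obtain ⟨D, hDQ, hDT, hDcard⟩ := hDP (WW β θ M x (h x)) (QQ β θ x)
    (PF ((x : ℝ) ^ θ) ((x : ℝ) ^ (1 / 2 + β))) (h x * VV (UP M ((x : ℝ) ^ θ))) Λ 3 (1 / 4) J
    {p | ω ∈ E p} (by positivity) hΛ1 (by norm_num) (by norm_num)
    (fun m hm => ⟨HQ hx1 hh3 hm, card_le hθ0 hx1 hh3 hz2 hhalf hm⟩)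
    (fun q hq => ((mem_QQ q).1 hq).1.pos) hsumQ
    (hx₀ x hxx₀ (h x) hh1 hh2 M)
    (fun D hD => ND_le hx1 hh3 hz2 hlow hbig hVV
      (fun P z hz hP x h q c hq hco => (hSAP P z hz hP x h q c hq hco).2) hD)
    (fun D hD hDT hDJ hne hsum => by
      by_contra hcon
      apply hxBad
      obtain ⟨m, hm⟩ := hne
      unfold ND at hm
      rw [Finset.mem_filter] at hm
      have hprod := prod_le_of_mem_WW hx1 hh3 hm.1 hm.2
      have hpf : (∏ p ∈ D, p).primeFactors = D :=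
        Nat.primeFactors_prod (fun p hp => ((mem_QQ p).1 (hD hp)).1)
      rw [hBad]
      refine ⟨∏ p ∈ D, p, ?_, ?_⟩
      · rw [hI]
        simp only [Finset.mem_filter, Finset.mem_range, Nat.lt_succ_iff]
        constructor
        · rw [Nat.le_floor_iff (by positivity)]
          push_cast
          exact hprod
        · rw [hG]
          simp only [hpf]
          refine le_trans ?_ hsum
          rw [hκ₀]
          have h1 : (4 * Λ) ^ #D ≤ (4 * Λ) ^ J := pow_le_pow_right₀ hΛ4 hDJ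
          gcongr
      · intro q hq hqE
        apply hcon
        refine ⟨q, ?_, hqE⟩
        rw [hG] at hq
        simp only [hpf] at hq
        exact hq)
  refine ⟨D, fun p hp => ⟨((mem_QQ p).1 (hDQ hp)).1, ((mem_QQ p).1 (hDQ hp)).2.1, hDT hp⟩, ?_, ?_⟩
  · have hpos := prod_pos_of_QQ hDQ
    have hcp : 0 < (#((WW β θ M x (h x)).filter
        (fun m => PF ((x : ℝ) ^ θ) ((x : ℝ) ^ (1 / 2 + β)) m = D)) : ℝ) := by
      refine lt_of_lt_of_le ?_ hDcard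
      positivity
    have hcp' : 0 < #((WW β θ M x (h x)).filter
        (fun m => PF ((x : ℝ) ^ θ) ((x : ℝ) ^ (1 / 2 + β)) m = D)) := by exact_mod_cast hcp
    obtain ⟨m, hm⟩ := Finset.card_pos.1 hcp'
    rw [Finset.mem_filter] at hm
    exact prod_le_of_mem_WW hx1 hh3 hm.1 (D := D) (z := (x : ℝ) ^ θ) (by rw [hm.2])
  · exact hDcard

end Pool.Agent.Work.MP_3a3367_nt_log
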