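import Pool.Agent.Work.MP_3a3367_nt_log.Interface

/-!
# Block CN1 (helper96): the sum of the reciprocals of the moved primes
-/

set_option autoImplicit false

namespace Pool.Agent.Work.MP_3a3367_nt_log

open Finset Filter MeasureTheory ProbabilityTheory
open scoped Classical

theorem stmt_CN1.{u} : Stmt_CN1.{u} := by
  intro Ω _ μ _ E hE κ hκ h
  -- the series of the expectations
  set X : ℕ → Ω → ℝ := fun p ω => if p.Prime ∧ ω ∈ E p then 1 / (p : ℝ) else 0 with hX
  have hX0 : ∀ p ω, 0 ≤ X p ω := by
    intro p ω
    simp only [hX]
    split_ifs <;> positivity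
  have hXm : ∀ p, Measurable (X p) := by
    intro p
    by_cases hp : p.Prime
    · have : X p = (E p).indicator (fun _ => 1 / (p : ℝ)) := by
        funext ω
        simp only [hX, hp, true_and, Set.indicator_apply]
      rw [this]
      exact measurable_const.indicator (hE p)
    · have : X p = fun _ => 0 := by
        funext ω
        simp only [hX, hp, false_and, if_false]
      rw [this]
      exact measurable_const
  have hI : ∀ p, ∫⁻ ω, ENNReal.ofReal (X p ω) ∂μ =
      ENNReal.ofReal (if p.Prime then μ.real (E p) / (p : ℝ) else 0) := by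
    intro p
    by_cases hp : p.Prime
    · have h1 : ∀ ω, ENNReal.ofReal (X p ω) =
          (E p).indicator (fun _ => ENNReal.ofReal (1 / (p : ℝ))) ω := by
        intro ω
        simp only [hX, hp, true_and, Set.indicator_apply]
        split_ifs <;> simp
      simp only [h1]
      rw [lintegral_indicator_const (hE p), if_pos hp,
        show μ.real (E p) / (p : ℝ) = 1 / (p : ℝ) * μ.real (E p) by ring,
        ENNReal.ofReal_mul (by positivity), Measure.real, ENNReal.ofReal_toReal (measure_ne_top _ _)]
    · have h1 : ∀ ω, ENNReal.ofReal (X p ω) = 0 := by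
        intro ω
        simp only [hX, hp, false_and, if_false, ENNReal.ofReal_zero]
      simp only [h1, lintegral_zero, hp, if_false, ENNReal.ofReal_zero]
  have hs : Summable (fun p : ℕ => if p.Prime then μ.real (E p) / (p : ℝ) else 0) := by
    have hg : Summable (fun p : ℕ => (p : ℝ) ^ (κ - 2)) :=
      Real.summable_nat_rpow.2 (by linarith)
    refine Summable.of_norm_bounded_eventually_nat hg ?_
    filter_upwards [h, eventually_ge_atTop 1] with p hp hp1
    have hp0 : (0 : ℝ) < p := by exact_mod_cast hp1
    split_ifs with hpp
    · rw [Real.norm_of_nonneg (by positivity), div_le_iff₀ hp0]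
      refine (hp hpp).trans (le_of_eq ?_)
      rw [← Real.rpow_add_one hp0.ne']
      congr 1
      ring
    · rw [norm_zero]
      positivity
  have hfin : ∫⁻ ω, ∑' p, ENNReal.ofReal (X p ω) ∂μ ≠ ⊤ := by
    rw [lintegral_tsum (fun p => ((hXm p).ennreal_ofReal).aemeasurable)]
    simp only [hI]
    exact hs.tsum_ofReal_ne_top
  have hae := ae_lt_top' (Measurable.aemeasurable (Measurable.tsum
    (fun p => (hXm p).ennreal_ofReal))) hfin
  filter_upwards [hae] with ω hω
  have h2 := ENNReal.summable_toReal hω.ne
  refine h2.congr ?_
  intro p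
  rw [ENNReal.toReal_ofReal (hX0 p ω)]

end Pool.Agent.Work.MP_3a3367_nt_log
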