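import Pool.Agent.Work.MP_3a3367_nt_log.Interface

/-!
# CN2: the number of moved primes, crude bound (owner helper4)

The sum of `p ^ (-κ')` over the moved primes has finite expectation.
-/

set_option autoImplicit false

namespace Pool.Agent.Work.MP_3a3367_nt_log

open Finset Filter MeasureTheory ProbabilityTheory
open scoped Classical

theorem stmt_CN2.{u} : Stmt_CN2.{u} := by
  intro Ω _ μ _ E hE κ κ' h0 hκ hev
  have hκ' : 0 < κ' := h0.trans hκ
  set E' : ℕ → Set Ω := fun p => if p.Prime then E p else ∅ with hE'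
  have hE'm : ∀ p, MeasurableSet (E' p) := by
    intro p
    simp only [hE']
    split_ifs
    · exact hE p
    · exact MeasurableSet.empty
  set g : ℕ → ℝ := fun p => (p : ℝ) ^ (-κ') with hg
  have hg0 : ∀ p, 0 ≤ g p := fun p => Real.rpow_nonneg (Nat.cast_nonneg p) _
  set f : ℕ → Ω → ENNReal := fun p => (E' p).indicator (fun _ => ENNReal.ofReal (g p)) with hf
  have hint : ∀ p, ∫⁻ ω, f p ω ∂μ = ENNReal.ofReal (g p * μ.real (E' p)) := by
    intro p
    simp only [hf]
    rw [lintegral_indicator_const (hE'm p), ENNReal.ofReal_mul (hg0 p), ofReal_measureReal]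
  have hsum : Summable (fun p => g p * μ.real (E' p)) := by
    refine Summable.of_norm_bounded_eventually_nat
      (Real.summable_nat_rpow.2 (by linarith : κ - 1 - κ' < -1)) ?_
    filter_upwards [hev, eventually_gt_atTop 0] with p hp hp0
    have hp0' : (0 : ℝ) < p := by exact_mod_cast hp0
    rw [Real.norm_of_nonneg (mul_nonneg (hg0 p) measureReal_nonneg)]
    have h1 : μ.real (E' p) ≤ (p : ℝ) ^ (κ - 1) := by
      simp only [hE']
      split_ifs with hpp
      · exact hp hpp
      · simp only [measureReal_empty]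
        exact Real.rpow_nonneg hp0'.le _
    calc g p * μ.real (E' p) ≤ (p : ℝ) ^ (-κ') * (p : ℝ) ^ (κ - 1) :=
          mul_le_mul_of_nonneg_left h1 (hg0 p)
      _ = (p : ℝ) ^ (κ - 1 - κ') := by
          rw [← Real.rpow_add hp0']
          congr 1
          ring
  have hlt : ∫⁻ ω, ∑' p, f p ω ∂μ ≠ ⊤ := by
    have e1 : ∫⁻ ω, ∑' p, f p ω ∂μ = ∑' p, ∫⁻ ω, f p ω ∂μ :=
      lintegral_tsum (fun p => (measurable_const.indicator (hE'm p)).aemeasurable)
    rw [e1, tsum_congr hint]
    exact hsum.tsum_ofReal_ne_top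
  have hae : ∀ᵐ ω ∂μ, ∑' p, f p ω < ⊤ :=
    ae_lt_top (Measurable.tsum fun p => measurable_const.indicator (hE'm p)) hlt
  filter_upwards [hae] with ω hω
  have hS : Summable (fun p => (f p ω).toReal) := ENNReal.summable_toReal hω.ne
  obtain ⟨s, hs⟩ := summable_iff_vanishing_norm.1 hS (1 / 2) (by norm_num)
  have hlim : Tendsto (fun N : ℕ => (N : ℝ) ^ κ') atTop atTop :=
    (tendsto_rpow_atTop hκ').comp tendsto_natCast_atTop_atTop
  filter_upwards [hlim.eventually_ge_atTop (2 * (#s : ℝ)), eventually_gt_atTop 0] with N hN hN0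
  have hN0' : (0 : ℝ) < N := by exact_mod_cast hN0
  have hNp : (0 : ℝ) < (N : ℝ) ^ κ' := Real.rpow_pos_of_pos hN0' _
  have hmem : ∀ p ∈ MV E N ω, p.Prime ∧ p ≤ N ∧ ω ∈ E p := by
    intro p hp
    simp only [MV, mem_filter, mem_range, Nat.floor_natCast] at hp
    exact ⟨hp.1.2, by omega, hp.2⟩
  have h1 := hs (MV E N ω \ s) sdiff_disjoint
  have h2 : (#(MV E N ω \ s) : ℝ) * (N : ℝ) ^ (-κ') ≤ ∑ p ∈ MV E N ω \ s, (f p ω).toReal := by
    rw [← nsmul_eq_mul]
    apply card_nsmul_le_sum
    intro p hp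
    obtain ⟨hpp, hpN, hpE⟩ := hmem p (mem_sdiff.1 hp).1
    have h3 : f p ω = ENNReal.ofReal (g p) := by
      simp only [hf]
      apply Set.indicator_of_mem
      simp only [hE']
      rw [if_pos hpp]
      exact hpE
    rw [h3, ENNReal.toReal_ofReal (hg0 p)]
    simp only [hg]
    exact Real.rpow_le_rpow_of_nonpos (by exact_mod_cast hpp.pos) (by exact_mod_cast hpN)
      (by linarith)
  have h4 : (#(MV E N ω \ s) : ℝ) * (N : ℝ) ^ (-κ') < 1 / 2 :=
    lt_of_le_of_lt (h2.trans (le_abs_self _)) h1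
  have h5 : (#(MV E N ω \ s) : ℝ) ≤ (N : ℝ) ^ κ' / 2 := by
    rw [Real.rpow_neg hN0'.le, ← div_eq_mul_inv, div_lt_iff₀ hNp] at h4
    linarith
  have h6 : (#(MV E N ω) : ℝ) ≤ #(MV E N ω \ s) + #s := by
    have : #(MV E N ω) ≤ #(MV E N ω \ s) + #s := by
      calc #(MV E N ω) ≤ #((MV E N ω \ s) ∪ s) := by
            apply card_le_card
            intro p hp
            by_cases hps : p ∈ s
            · exact mem_union_right _ hps
            · exact mem_union_left _ (mem_sdiff.2 ⟨hp, hps⟩)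
        _ ≤ _ := card_union_le _ _
    exact_mod_cast this
  linarith

end Pool.Agent.Work.MP_3a3367_nt_log
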