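import Pool.Agent.Work.MP_3a3367_nt_log.Interface
import Pool.Agent.Work.MP_b0c12c_nt_helper41.Mert

/-!
# Block CN3 (helper96): the number of moved primes, exponential moment
-/

set_option autoImplicit false

namespace Pool.Agent.Work.MP_3a3367_nt_log

open Finset Filter MeasureTheory ProbabilityTheory
open scoped Classical

namespace CN3Aux

/-- the primes `≤ N` -/
noncomputable def Pr (N : ℕ) : Finset ℕ := (Finset.range (N + 1)).filter Nat.Prime

theorem card_MV {Ω : Type*} (E : ℕ → Set Ω) (N : ℕ) (ω : Ω) :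
    (#(MV E N ω) : ℝ) = ∑ p ∈ Pr N, (E p).indicator (fun _ => (1 : ℝ)) ω := by
  unfold MV Pr
  rw [Nat.floor_natCast, Finset.card_filter]
  push_cast
  refine sum_congr rfl fun p _ => ?_
  rw [Set.indicator_apply]

theorem sum_Pr (N : ℕ) (hN : 1 ≤ N) :
    ∑ p ∈ Pr N, Real.log p / p ≤ Real.log N + 6 := by
  have h := Pool.Agent.Work.MP_b0c12c_nt_helper41.FF_le hN
  unfold Pool.Agent.Work.MP_b0c12c_nt_helper41.FF at h
  refine le_trans (le_of_eq ?_) h
  refine sum_congr ?_ fun _ _ => rfl
  unfold Pr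
  ext p
  simp only [mem_filter, mem_range, mem_Icc]
  constructor
  · rintro ⟨h1, h2⟩
    exact ⟨⟨h2.one_lt.le, by omega⟩, h2⟩
  · rintro ⟨⟨_, h1⟩, h2⟩
    exact ⟨by omega, h2⟩

theorem mgf_ind {Ω : Type*} [MeasurableSpace Ω] (μ : Measure Ω) [IsProbabilityMeasure μ]
    (A : Set Ω) (hA : MeasurableSet A) :
    mgf (A.indicator (fun _ => (1 : ℝ))) μ 1 ≤ Real.exp (2 * μ.real A) := by
  have h1 : ∀ ω, Real.exp (1 * (A.indicator (fun _ => (1 : ℝ))) ω) =
      1 + (A.indicator (fun _ => Real.exp 1 - 1)) ω := by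
    intro ω
    rw [Set.indicator_apply, Set.indicator_apply]
    split_ifs
    · rw [one_mul]; ring
    · rw [mul_zero, Real.exp_zero, add_zero]
  unfold mgf
  simp only [h1]
  rw [integral_add (integrable_const _) ((integrable_const _).indicator hA), integral_const,
    integral_indicator_const _ hA]
  simp only [probReal_univ, smul_eq_mul, mul_one]
  have h2 : Real.exp 1 - 1 ≤ 2 := by
    have := Real.exp_one_lt_d9
    linarith
  have h3 : (0 : ℝ) ≤ μ.real A := measureReal_nonneg
  have h4 := Real.add_one_le_exp (2 * μ.real A)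
  nlinarith

end CN3Aux

open CN3Aux in
theorem stmt_CN3.{u} : Stmt_CN3.{u} := by
  intro Ω _ μ _ E hE hind K h
  obtain ⟨P0, hP0⟩ := eventually_atTop.1 h
  set K' : ℝ := max K 0 with hK'
  have hK0 : 0 ≤ K' := le_max_right _ _
  set A : ℝ := 2 * K' + 2 with hA
  -- sum of the probabilities
  have hsum : ∀ N : ℕ, 1 ≤ N → ∑ p ∈ Pr N, μ.real (E p) ≤ P0 + K' * (Real.log N + 6) := by
    intro N hN
    have h1 : ∀ p ∈ Pr N, μ.real (E p) ≤ (if p < P0 then (1 : ℝ) else 0) +
        K' * (Real.log p / p) := by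
      intro p hp
      have hpp : p.Prime := (mem_filter.1 hp).2
      have hl : 0 ≤ Real.log p / p := by
        have : 0 ≤ Real.log (p : ℝ) := Real.log_natCast_nonneg p
        positivity
      split_ifs with hlt
      · have : μ.real (E p) ≤ 1 := measureReal_le_one
        nlinarith [mul_nonneg hK0 hl]
      · have h2 := hP0 p (by omega) hpp
        have h3 : K * (Real.log p / p) ≤ K' * (Real.log p / p) :=
          mul_le_mul_of_nonneg_right (le_max_left _ _) hl
        linarith
    refine (sum_le_sum h1).trans ?_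
    rw [sum_add_distrib, ← mul_sum]
    have h4 : ∑ p ∈ Pr N, (if p < P0 then (1 : ℝ) else 0) ≤ P0 := by
      rw [← sum_filter, sum_const, nsmul_eq_mul, mul_one]
      have h5 : (Pr N).filter (fun p => p < P0) ⊆ range P0 := by
        intro p hp
        exact mem_range.2 (mem_filter.1 hp).2
      have := card_le_card h5
      rw [card_range] at this
      exact_mod_cast this
    have h6 := mul_le_mul_of_nonneg_left (sum_Pr N hN) hK0
    linarith
  -- Chernoff
  have hX : iIndepFun (fun p => (E p).indicator (fun _ => (1 : ℝ))) μ := hind.iIndepFun_indicator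
  have hXm : ∀ p, Measurable ((E p).indicator (fun _ => (1 : ℝ))) := fun p =>
    measurable_const.indicator (hE p)
  have hch : ∀ N : ℕ, 1 ≤ N →
      μ.real {ω | A * Real.log N ≤ (∑ p ∈ Pr N, (E p).indicator (fun _ => (1 : ℝ))) ω} ≤
        Real.exp (2 * P0 + 12 * K') * (1 / (N : ℝ) ^ 2) := by
    intro N hN
    have hN0 : (0 : ℝ) < N := by exact_mod_cast hN
    have hint : Integrable (fun ω => Real.exp (1 *
        (∑ p ∈ Pr N, (E p).indicator (fun _ => (1 : ℝ))) ω)) μ := by
      refine Integrable.of_bound (C := Real.exp (#(Pr N))) ?_ ?_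
      · have : Measurable (∑ p ∈ Pr N, (E p).indicator (fun _ => (1 : ℝ))) := by
          have h0 := Finset.measurable_sum (Pr N) (fun p _ => hXm p)
          have h1 : (∑ p ∈ Pr N, (E p).indicator (fun _ => (1 : ℝ))) =
              fun ω => ∑ p ∈ Pr N, (E p).indicator (fun _ => (1 : ℝ)) ω := by
            funext ω
            rw [Finset.sum_apply]
          rw [h1]
          exact h0
        exact ((this.const_mul 1).exp).aestronglyMeasurable
      · filter_upwards with ω
        rw [Real.norm_of_nonneg (Real.exp_pos _).le, one_mul]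
        refine Real.exp_le_exp.2 ?_
        rw [Finset.sum_apply]
        calc ∑ p ∈ Pr N, (E p).indicator (fun _ => (1 : ℝ)) ω ≤ ∑ p ∈ Pr N, 1 := by
              refine sum_le_sum fun p _ => ?_
              rw [Set.indicator_apply]
              split_ifs <;> norm_num
          _ = _ := by simp
    have h1 := measure_ge_le_exp_mul_mgf (A * Real.log N) (zero_le_one) hint
    refine h1.trans ?_
    rw [hX.mgf_sum hXm]
    have h2 : ∏ p ∈ Pr N, mgf ((E p).indicator (fun _ => (1 : ℝ))) μ 1 ≤
        Real.exp (2 * (P0 + K' * (Real.log N + 6))) := by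
      calc ∏ p ∈ Pr N, mgf ((E p).indicator (fun _ => (1 : ℝ))) μ 1
          ≤ ∏ p ∈ Pr N, Real.exp (2 * μ.real (E p)) :=
            prod_le_prod (fun p _ => mgf_nonneg) (fun p _ => mgf_ind μ _ (hE p))
        _ = Real.exp (∑ p ∈ Pr N, 2 * μ.real (E p)) := (Real.exp_sum _ _).symm
        _ ≤ _ := by
            refine Real.exp_le_exp.2 ?_
            rw [← mul_sum]
            exact mul_le_mul_of_nonneg_left (hsum N hN) (by norm_num)
    calc Real.exp (-1 * (A * Real.log N)) * ∏ p ∈ Pr N, mgf ((E p).indicator (fun _ => (1 : ℝ))) μ 1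
        ≤ Real.exp (-1 * (A * Real.log N)) * Real.exp (2 * (P0 + K' * (Real.log N + 6))) :=
          mul_le_mul_of_nonneg_left h2 (Real.exp_pos _).le
      _ = Real.exp (2 * P0 + 12 * K') * Real.exp (-(2 * Real.log N)) := by
          rw [← Real.exp_add, ← Real.exp_add]
          congr 1
          rw [hA]
          ring
      _ = _ := by
          congr 1
          rw [Real.exp_neg, show 2 * Real.log (N : ℝ) = Real.log N + Real.log N by ring,
            Real.exp_add, Real.exp_log hN0, one_div, sq]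
  -- Borel-Cantelli
  have hBC : ∀ᵐ ω ∂μ, ∀ᶠ N : ℕ in atTop,
      ω ∉ {ω | A * Real.log N ≤ (∑ p ∈ Pr N, (E p).indicator (fun _ => (1 : ℝ))) ω} := by
    refine ae_eventually_notMem ?_
    have hs : Summable (fun N : ℕ => μ.real
        {ω | A * Real.log N ≤ (∑ p ∈ Pr N, (E p).indicator (fun _ => (1 : ℝ))) ω}) := by
      have hg : Summable (fun N : ℕ => Real.exp (2 * P0 + 12 * K') * (1 / (N : ℝ) ^ 2)) :=
        (Real.summable_one_div_nat_pow.2 (by norm_num)).mul_left _
      refine Summable.of_norm_bounded_eventually_nat hg ?_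
      filter_upwards [eventually_ge_atTop 1] with N hN
      rw [Real.norm_of_nonneg measureReal_nonneg]
      exact hch N hN
    have h2 := hs.tsum_ofReal_ne_top
    have h3 : ∀ N : ℕ, ENNReal.ofReal (μ.real
        {ω | A * Real.log N ≤ (∑ p ∈ Pr N, (E p).indicator (fun _ => (1 : ℝ))) ω}) =
        μ {ω | A * Real.log N ≤ (∑ p ∈ Pr N, (E p).indicator (fun _ => (1 : ℝ))) ω} := by
      intro N
      rw [Measure.real, ENNReal.ofReal_toReal (measure_ne_top _ _)]
    simpa only [h3] using h2
  filter_upwards [hBC] with ω hω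
  obtain ⟨N1, hN1⟩ := eventually_atTop.1 hω
  have hl2 : 0 < Real.log 2 := Real.log_pos (by norm_num)
  refine ⟨A + (N1 + 1) / Real.log 2, ?_⟩
  intro N hN
  have hN2 : (2 : ℝ) ≤ N := by exact_mod_cast hN
  have hlN : Real.log 2 ≤ Real.log N := Real.log_le_log (by norm_num) hN2
  have hA0 : 0 ≤ A := by rw [hA]; positivity
  have hq0 : 0 ≤ ((N1 : ℝ) + 1) / Real.log 2 := by positivity
  rw [add_mul]
  rcases le_or_gt N1 N with h1 | h1
  · have h2 := hN1 N h1
    simp only [not_le, Finset.sum_apply] at h2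
    rw [card_MV]
    have : 0 ≤ ((N1 : ℝ) + 1) / Real.log 2 * Real.log N := mul_nonneg hq0 (by linarith)
    linarith
  · have h2 : #(MV E N ω) ≤ N + 1 := by
      unfold MV
      refine (card_filter_le _ _).trans ((card_filter_le _ _).trans ?_)
      rw [card_range, Nat.floor_natCast]
    have h3 : (#(MV E N ω) : ℝ) ≤ (N1 : ℝ) + 1 := by
      have : #(MV E N ω) ≤ N1 + 1 := by omega
      exact_mod_cast this
    have h4 : ((N1 : ℝ) + 1) / Real.log 2 * Real.log 2 ≤ ((N1 : ℝ) + 1) / Real.log 2 * Real.log N :=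
      mul_le_mul_of_nonneg_left hlN hq0
    rw [div_mul_cancel₀ _ hl2.ne'] at h4
    have h5 : 0 ≤ A * Real.log N := mul_nonneg hA0 (by linarith)
    linarith

end Pool.Agent.Work.MP_3a3367_nt_log
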