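import Pool.Agent.Work.MP_3a3367_nt_log.Interface2
import Pool.Agent.Work.MP_3a3367_nt_log.CN3

/-!
# Block CN4 (helper96): the number of moved primes is at most twice its expectation
-/

set_option autoImplicit false

namespace Pool.Agent.Work.MP_3a3367_nt_log

open Finset Filter MeasureTheory ProbabilityTheory
open scoped Classical

namespace CN4Aux

theorem sum_Pr_eq (N : ℕ) :
    ∑ p ∈ CN3Aux.Pr N, Real.log p / p = Pool.Agent.Work.MP_b0c12c_nt_helper41.FF N := by
  unfold Pool.Agent.Work.MP_b0c12c_nt_helper41.FF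
  refine sum_congr ?_ fun _ _ => rfl
  unfold CN3Aux.Pr
  ext p
  simp only [mem_filter, mem_range, mem_Icc]
  constructor
  · rintro ⟨h1, h2⟩
    exact ⟨⟨h2.one_lt.le, by omega⟩, h2⟩
  · rintro ⟨⟨_, h1⟩, h2⟩
    exact ⟨by omega, h2⟩

theorem mgf_ind2 {Ω : Type*} [MeasurableSpace Ω] (μ : Measure Ω) [IsProbabilityMeasure μ]
    (A : Set Ω) (hA : MeasurableSet A) :
    mgf (A.indicator (fun _ => (1 : ℝ))) μ (Real.log 2) ≤ Real.exp (μ.real A) := by
  have h1 : ∀ ω, Real.exp (Real.log 2 * (A.indicator (fun _ => (1 : ℝ))) ω) =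
      1 + (A.indicator (fun _ => (1 : ℝ))) ω := by
    intro ω
    rw [Set.indicator_apply]
    split_ifs
    · rw [mul_one, Real.exp_log (by norm_num)]; norm_num
    · rw [mul_zero, Real.exp_zero, add_zero]
  unfold mgf
  simp only [h1]
  rw [integral_add (integrable_const _) ((integrable_const _).indicator hA), integral_const,
    integral_indicator_const _ hA]
  simp only [probReal_univ, smul_eq_mul, mul_one]
  have h4 := Real.add_one_le_exp (μ.real A)
  linarith

end CN4Aux

open CN3Aux CN4Aux in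
theorem stmt_CN4.{u} : Stmt_CN4.{u} := by
  intro Ω _ μ _ E hE hind h
  obtain ⟨P0, hP0⟩ := eventually_atTop.1 h
  obtain ⟨C, hC, hM⟩ := Pool.Agent.Work.MP_b0c12c_nt_helper41.mertens1
  set e : ℕ → ℝ := fun N => ∑ p ∈ Pr N, μ.real (E p) with he
  set D : ℝ := 12 * (C + ∑ p ∈ Pr P0, Real.log p / p) with hD
  -- lower bound for the expectation
  have hlow : ∀ N : ℕ, 1 ≤ N → 12 * Real.log N - D ≤ e N := by
    intro N hN
    have h1 : ∀ p ∈ Pr N, 12 * (Real.log p / p) - (if p ∈ Pr P0 then 12 * (Real.log p / p) else 0)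
        ≤ μ.real (E p) := by
      intro p hp
      have hpp : p.Prime := (mem_filter.1 hp).2
      split_ifs with hlt
      · have : 0 ≤ μ.real (E p) := measureReal_nonneg
        linarith
      · have h2 : P0 ≤ p := by
          by_contra hcon
          refine hlt (mem_filter.2 ⟨mem_range.2 (by omega), hpp⟩)
        have := hP0 p h2 hpp
        linarith
    have h2 := sum_le_sum h1
    rw [sum_sub_distrib, ← mul_sum, ← sum_filter] at h2
    have h3 : ∑ p ∈ (Pr N).filter (fun p => p ∈ Pr P0), 12 * (Real.log p / p) ≤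
        12 * ∑ p ∈ Pr P0, Real.log p / p := by
      rw [mul_sum]
      refine sum_le_sum_of_subset_of_nonneg (fun p hp => (mem_filter.1 hp).2) ?_
      intro p _ _
      have : 0 ≤ Real.log (p : ℝ) := Real.log_natCast_nonneg p
      positivity
    have h4 := hM N hN
    rw [← sum_Pr_eq] at h4
    have h5 := (abs_le.1 h4).1
    simp only [he, hD]
    linarith
  -- Chernoff
  have hX : iIndepFun (fun p => (E p).indicator (fun _ => (1 : ℝ))) μ := hind.iIndepFun_indicator
  have hXm : ∀ p, Measurable ((E p).indicator (fun _ => (1 : ℝ))) := fun p =>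
    measurable_const.indicator (hE p)
  have hl2 : (3 : ℝ) / 8 ≤ 2 * Real.log 2 - 1 := by
    have := Real.log_two_gt_d9
    linarith
  have hl20 : 0 ≤ Real.log 2 := Real.log_nonneg (by norm_num)
  have hch : ∀ N : ℕ, 1 ≤ N →
      μ.real {ω | 2 * e N ≤ (∑ p ∈ Pr N, (E p).indicator (fun _ => (1 : ℝ))) ω} ≤
        Real.exp (3 / 8 * D) * (1 / (N : ℝ) ^ 2) := by
    intro N hN
    have hN0 : (0 : ℝ) < N := by exact_mod_cast hN
    have hN1 : (1 : ℝ) ≤ N := by exact_mod_cast hN
    have hlN : 0 ≤ Real.log N := Real.log_nonneg hN1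
    have hint : Integrable (fun ω => Real.exp (Real.log 2 *
        (∑ p ∈ Pr N, (E p).indicator (fun _ => (1 : ℝ))) ω)) μ := by
      refine Integrable.of_bound (C := Real.exp (Real.log 2 * #(Pr N))) ?_ ?_
      · have : Measurable (∑ p ∈ Pr N, (E p).indicator (fun _ => (1 : ℝ))) := by
          have h0 := Finset.measurable_sum (Pr N) (fun p _ => hXm p)
          have h1 : (∑ p ∈ Pr N, (E p).indicator (fun _ => (1 : ℝ))) =
              fun ω => ∑ p ∈ Pr N, (E p).indicator (fun _ => (1 : ℝ)) ω := by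
            funext ω
            rw [Finset.sum_apply]
          rw [h1]
          exact h0
        exact ((this.const_mul (Real.log 2)).exp).aestronglyMeasurable
      · filter_upwards with ω
        rw [Real.norm_of_nonneg (Real.exp_pos _).le]
        refine Real.exp_le_exp.2 (mul_le_mul_of_nonneg_left ?_ hl20)
        rw [Finset.sum_apply]
        calc ∑ p ∈ Pr N, (E p).indicator (fun _ => (1 : ℝ)) ω ≤ ∑ p ∈ Pr N, 1 := by
              refine sum_le_sum fun p _ => ?_
              rw [Set.indicator_apply]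
              split_ifs <;> norm_num
          _ = _ := by simp
    have h1 := measure_ge_le_exp_mul_mgf (2 * e N) hl20 hint
    refine h1.trans ?_
    rw [hX.mgf_sum hXm]
    have h2 : ∏ p ∈ Pr N, mgf ((E p).indicator (fun _ => (1 : ℝ))) μ (Real.log 2) ≤
        Real.exp (e N) := by
      calc ∏ p ∈ Pr N, mgf ((E p).indicator (fun _ => (1 : ℝ))) μ (Real.log 2)
          ≤ ∏ p ∈ Pr N, Real.exp (μ.real (E p)) :=
            prod_le_prod (fun p _ => mgf_nonneg) (fun p _ => mgf_ind2 μ _ (hE p))
        _ = Real.exp (e N) := (Real.exp_sum _ _).symm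
    have he0 : 0 ≤ e N := sum_nonneg fun _ _ => measureReal_nonneg
    calc Real.exp (-Real.log 2 * (2 * e N)) *
          ∏ p ∈ Pr N, mgf ((E p).indicator (fun _ => (1 : ℝ))) μ (Real.log 2)
        ≤ Real.exp (-Real.log 2 * (2 * e N)) * Real.exp (e N) :=
          mul_le_mul_of_nonneg_left h2 (Real.exp_pos _).le
      _ = Real.exp (-((2 * Real.log 2 - 1) * e N)) := by
          rw [← Real.exp_add]
          congr 1
          ring
      _ ≤ Real.exp (3 / 8 * D + -(2 * Real.log N)) := by
          refine Real.exp_le_exp.2 ?_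
          have h3 : 3 / 8 * e N ≤ (2 * Real.log 2 - 1) * e N :=
            mul_le_mul_of_nonneg_right hl2 he0
          have h4 := hlow N hN
          linarith
      _ = _ := by
          rw [Real.exp_add]
          congr 1
          rw [Real.exp_neg, show 2 * Real.log (N : ℝ) = Real.log N + Real.log N by ring,
            Real.exp_add, Real.exp_log hN0, one_div, sq]
  -- Borel-Cantelli
  have hBC : ∀ᵐ ω ∂μ, ∀ᶠ N : ℕ in atTop,
      ω ∉ {ω | 2 * e N ≤ (∑ p ∈ Pr N, (E p).indicator (fun _ => (1 : ℝ))) ω} := by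
    refine ae_eventually_notMem ?_
    have hs : Summable (fun N : ℕ => μ.real
        {ω | 2 * e N ≤ (∑ p ∈ Pr N, (E p).indicator (fun _ => (1 : ℝ))) ω}) := by
      have hg : Summable (fun N : ℕ => Real.exp (3 / 8 * D) * (1 / (N : ℝ) ^ 2)) :=
        (Real.summable_one_div_nat_pow.2 (by norm_num)).mul_left _
      refine Summable.of_norm_bounded_eventually_nat hg ?_
      filter_upwards [eventually_ge_atTop 1] with N hN
      rw [Real.norm_of_nonneg measureReal_nonneg]
      exact hch N hN
    have h2 := hs.tsum_ofReal_ne_top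
    have h3 : ∀ N : ℕ, ENNReal.ofReal (μ.real
        {ω | 2 * e N ≤ (∑ p ∈ Pr N, (E p).indicator (fun _ => (1 : ℝ))) ω}) =
        μ {ω | 2 * e N ≤ (∑ p ∈ Pr N, (E p).indicator (fun _ => (1 : ℝ))) ω} := by
      intro N
      rw [Measure.real, ENNReal.ofReal_toReal (measure_ne_top _ _)]
    simpa only [h3] using h2
  filter_upwards [hBC] with ω hω
  filter_upwards [hω] with N hN
  simp only [not_le, Finset.sum_apply] at hN
  rw [card_MV]
  have h2 := hN.le
  simpa only [he, Pr] using h2

end Pool.Agent.Work.MP_3a3367_nt_log
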