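import Pool.Agent.Work.MP_3a3367_nt_log.Interface

/-!
# The core theorem (Chebyshev and Hooley)
-/

set_option autoImplicit false

namespace Pool.Agent.Work.MP_3a3367_nt_log

open Finset Filter MeasureTheory ProbabilityTheory
open scoped Classical

namespace CTaux

lemma mem_UP {M : Finset ℕ} {z : ℝ} (hz : 0 ≤ z) {p : ℕ} :
    p ∈ UP M z ↔ (p : ℝ) ≤ z ∧ p.Prime ∧ p ∉ M := by
  unfold UP
  rw [Finset.mem_sdiff, Finset.mem_filter, Finset.mem_range, Nat.lt_succ_iff, Nat.le_floor_iff hz]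
  tauto

/-- the valuation is the number of dividing powers -/
lemma val_le {m p K : ℕ} (hm : 0 < m) (hp : p.Prime) (hK : m < 2 ^ (K + 1)) :
    ((m.factorization p : ℕ) : ℝ) * Real.log p ≤
      ∑ k ∈ Finset.Icc 1 K, (if p ^ k ∣ m then Real.log p else 0) := by
  have hlog : 0 ≤ Real.log (p : ℝ) := Real.log_natCast_nonneg p
  rw [← Finset.sum_filter, Finset.sum_const, nsmul_eq_mul]
  refine mul_le_mul_of_nonneg_right ?_ hlog
  have hsub : Finset.Icc 1 (m.factorization p) ⊆ (Finset.Icc 1 K).filter (fun k => p ^ k ∣ m) := by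
    intro k hk
    rw [Finset.mem_Icc] at hk
    have hdvd : p ^ k ∣ m := (pow_dvd_pow p hk.2).trans (Nat.ordProj_dvd m p)
    refine Finset.mem_filter.2 ⟨Finset.mem_Icc.2 ⟨hk.1, ?_⟩, hdvd⟩
    have h1 : 2 ^ k ≤ m := (Nat.pow_le_pow_left hp.two_le k).trans (Nat.le_of_dvd hm hdvd)
    have h2 : 2 ^ k < 2 ^ (K + 1) := lt_of_le_of_lt h1 hK
    have := (Nat.pow_lt_pow_iff_right (by norm_num : 1 < 2)).1 h2
    omega
  have := Finset.card_le_card hsub
  rw [Nat.card_Icc, Nat.add_sub_cancel] at this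
  exact_mod_cast this

/-- the pointwise bound -/
lemma pw {z y₁ y₂ : ℝ} (hz0 : 0 ≤ z) (hzy : z ≤ y₁) (hyy : y₁ ≤ y₂) {m x K : ℕ} (hm : 0 < m)
    (hmx : m ≤ 2 * x) (hy2 : (2 * x : ℝ) < y₂ ^ 2) (hK : 2 * x < 2 ^ (K + 1))
    (hsq : ¬ ∃ p : ℕ, p.Prime ∧ z < p ∧ p ^ 2 ∣ m) :
    Real.log m ≤ ∑ p ∈ UP ∅ z, ∑ k ∈ Finset.Icc 1 K, (if p ^ k ∣ m then Real.log p else 0) +
      ∑ p ∈ UP ∅ y₁ \ UP ∅ z, (if p ∣ m then Real.log p else 0) +
      ∑ p ∈ (Finset.Ioc ⌊y₁⌋₊ ⌊y₂⌋₊).filter Nat.Prime, (if p ∣ m then Real.log p else 0) +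
      (if ∃ P : ℕ, P.Prime ∧ P ∣ m ∧ y₂ < P then Real.log (2 * x : ℕ) else 0) := by
  have hy10 : 0 ≤ y₁ := hz0.trans hzy
  have hy20 : 0 ≤ y₂ := hy10.trans hyy
  have hlog0 : ∀ p : ℕ, 0 ≤ Real.log (p : ℝ) := Real.log_natCast_nonneg
  rw [Real.log_nat_eq_sum_factorization, Finsupp.sum, Nat.support_factorization]
  set A : ℕ → ℝ := fun p => if p ∈ UP ∅ z then
    ∑ k ∈ Finset.Icc 1 K, (if p ^ k ∣ m then Real.log p else 0) else 0 with hA
  set B : ℕ → ℝ := fun p => if p ∈ UP ∅ y₁ \ UP ∅ z then Real.log p else 0 with hB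
  set C : ℕ → ℝ := fun p => if p ∈ (Finset.Ioc ⌊y₁⌋₊ ⌊y₂⌋₊).filter Nat.Prime then Real.log p else 0
    with hC
  set E : ℕ → ℝ := fun p => if y₂ < p then Real.log p else 0 with hE
  have hA0 : ∀ p, 0 ≤ A p := by
    intro p
    simp only [hA]
    split_ifs
    · exact Finset.sum_nonneg (fun k _ => by split_ifs <;> simp [hlog0 p])
    · exact le_refl _
  have hB0 : ∀ p, 0 ≤ B p := by intro p; simp only [hB]; split_ifs <;> simp [hlog0 p]
  have hC0 : ∀ p, 0 ≤ C p := by intro p; simp only [hC]; split_ifs <;> simp [hlog0 p]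
  have hE0 : ∀ p, 0 ≤ E p := by intro p; simp only [hE]; split_ifs <;> simp [hlog0 p]
  have hpt : ∀ p ∈ m.primeFactors, ((m.factorization p : ℕ) : ℝ) * Real.log p ≤
      A p + B p + C p + E p := by
    intro p hp
    have hpp := Nat.prime_of_mem_primeFactors hp
    have hpd := Nat.dvd_of_mem_primeFactors hp
    by_cases h1 : (p : ℝ) ≤ z
    · have : A p = ∑ k ∈ Finset.Icc 1 K, (if p ^ k ∣ m then Real.log p else 0) := by
        simp only [hA]
        rw [if_pos ((mem_UP hz0).2 ⟨h1, hpp, Finset.notMem_empty _⟩)]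
      have h2 := val_le (K := K) hm hpp (lt_of_le_of_lt hmx hK)
      rw [← this] at h2
      linarith [hB0 p, hC0 p, hE0 p]
    · push Not at h1
      have hv : m.factorization p ≤ 1 := by
        by_contra hcon
        push Not at hcon
        exact hsq ⟨p, hpp, h1, (pow_dvd_pow p hcon).trans (Nat.ordProj_dvd m p)⟩
      have hv' : ((m.factorization p : ℕ) : ℝ) * Real.log p ≤ Real.log p := by
        have : ((m.factorization p : ℕ) : ℝ) ≤ 1 := by exact_mod_cast hv
        nlinarith [hlog0 p]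
      by_cases h2 : (p : ℝ) ≤ y₁
      · have : B p = Real.log p := by
          simp only [hB]
          rw [if_pos]
          refine Finset.mem_sdiff.2 ⟨(mem_UP hy10).2 ⟨h2, hpp, Finset.notMem_empty _⟩, ?_⟩
          intro hcon
          exact absurd ((mem_UP hz0).1 hcon).1 (not_le.2 h1)
        linarith [hA0 p, hC0 p, hE0 p]
      · push Not at h2
        by_cases h3 : (p : ℝ) ≤ y₂
        · have : C p = Real.log p := by
            simp only [hC]
            rw [if_pos]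
            refine Finset.mem_filter.2 ⟨Finset.mem_Ioc.2 ⟨(Nat.floor_lt hy10).2 h2,
              (Nat.le_floor_iff hy20).2 h3⟩, hpp⟩
          linarith [hA0 p, hB0 p, hE0 p]
        · push Not at h3
          have : E p = Real.log p := by simp only [hE]; rw [if_pos h3]
          linarith [hA0 p, hB0 p, hC0 p]
  refine (Finset.sum_le_sum hpt).trans ?_
  rw [Finset.sum_add_distrib, Finset.sum_add_distrib, Finset.sum_add_distrib]
  refine add_le_add (add_le_add (add_le_add ?_ ?_) ?_) ?_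
  · simp only [hA]
    rw [← Finset.sum_filter]
    refine Finset.sum_le_sum_of_subset_of_nonneg (fun p hp => (Finset.mem_filter.1 hp).2) ?_
    intro p _ _
    exact Finset.sum_nonneg (fun k _ => by split_ifs <;> simp [hlog0 p])
  · simp only [hB]
    rw [← Finset.sum_filter, ← Finset.sum_filter]
    refine Finset.sum_le_sum_of_subset_of_nonneg ?_ (fun p _ _ => hlog0 p)
    intro p hp
    rw [Finset.mem_filter] at hp ⊢
    exact ⟨hp.2, Nat.dvd_of_mem_primeFactors hp.1⟩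
  · simp only [hC]
    rw [← Finset.sum_filter, ← Finset.sum_filter]
    refine Finset.sum_le_sum_of_subset_of_nonneg ?_ (fun p _ _ => hlog0 p)
    intro p hp
    rw [Finset.mem_filter] at hp ⊢
    exact ⟨hp.2, Nat.dvd_of_mem_primeFactors hp.1⟩
  · simp only [hE]
    rw [← Finset.sum_filter]
    by_cases hne : (m.primeFactors.filter (fun p : ℕ => y₂ < (p : ℝ))).Nonempty
    · obtain ⟨P, hP⟩ := hne
      have hP' := Finset.mem_filter.1 hP
      have hPp := Nat.prime_of_mem_primeFactors hP'.1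
      have hPd := Nat.dvd_of_mem_primeFactors hP'.1
      have hsing : m.primeFactors.filter (fun p : ℕ => y₂ < (p : ℝ)) = {P} := by
        refine Finset.eq_singleton_iff_unique_mem.2 ⟨hP, ?_⟩
        intro q hq
        by_contra hne
        have hq' := Finset.mem_filter.1 hq
        have hqp := Nat.prime_of_mem_primeFactors hq'.1
        have hqd := Nat.dvd_of_mem_primeFactors hq'.1
        have hmul : q * P ∣ m := Nat.Coprime.mul_dvd_of_dvd_of_dvd
          ((Nat.coprime_primes hqp hPp).2 hne) hqd hPd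
        have hle : ((q * P : ℕ) : ℝ) ≤ 2 * x := by
          exact_mod_cast (Nat.le_of_dvd hm hmul).trans hmx
        push_cast at hle
        have : y₂ ^ 2 < (q : ℝ) * P := by
          rw [sq]
          exact mul_lt_mul'' hq'.2 hP'.2 hy20 hy20
        linarith
      rw [hsing, Finset.sum_singleton, if_pos ⟨P, hPp, hPd, hP'.2⟩]
      refine Real.log_le_log (by exact_mod_cast hPp.pos) ?_
      exact_mod_cast (Nat.le_of_dvd hm hPd).trans hmx
    · rw [Finset.not_nonempty_iff_eq_empty] at hne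
      rw [hne, Finset.sum_empty]
      split_ifs
      · exact hlog0 _
      · exact le_refl _

/-- growth comparison -/
lemma grow {a b : ℝ} (hab : a < b) (A : ℝ) :
    ∀ᶠ X : ℝ in atTop, A * (Real.log (2 * X) * X ^ a) ≤ X ^ b := by
  have h1 := (isLittleO_log_rpow_atTop (r := (b - a)) (by linarith)).bound
    (show (0 : ℝ) < 1 / (2 * |A| + 1) by positivity)
  filter_upwards [h1, eventually_ge_atTop (2 : ℝ)] with X hX hX2
  have hX0 : 0 < X := by linarith
  have hlogpos : 0 ≤ Real.log X := Real.log_nonneg (by linarith)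
  rw [Real.norm_of_nonneg hlogpos, Real.norm_of_nonneg (Real.rpow_nonneg hX0.le _)] at hX
  have h2 : Real.log (2 * X) ≤ 2 * Real.log X := by
    rw [Real.log_mul (by norm_num) hX0.ne']
    have := Real.log_le_log (by norm_num : (0:ℝ) < 2) hX2
    linarith
  have h2' : 0 ≤ Real.log (2 * X) := Real.log_nonneg (by linarith)
  have h3 : X ^ b = X ^ (b - a) * X ^ a := by
    rw [← Real.rpow_add hX0]; ring_nf
  have h4 : A * Real.log (2 * X) ≤ X ^ (b - a) := by
    have hpos : (0 : ℝ) < 2 * |A| + 1 := by positivity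
    have h5 : (2 * |A| + 1) * Real.log X ≤ X ^ (b - a) := by
      rw [div_mul_eq_mul_div, one_mul, le_div_iff₀ hpos] at hX
      linarith
    calc A * Real.log (2 * X) ≤ |A| * Real.log (2 * X) :=
          mul_le_mul_of_nonneg_right (le_abs_self A) h2'
      _ ≤ |A| * (2 * Real.log X) := mul_le_mul_of_nonneg_left h2 (abs_nonneg A)
      _ ≤ (2 * |A| + 1) * Real.log X := by nlinarith
      _ ≤ _ := h5
  rw [h3, ← mul_assoc]
  exact mul_le_mul_of_nonneg_right h4 (Real.rpow_nonneg hX0.le _)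

/-- monotonicity of the product -/
lemma VV_mono {P Q : Finset ℕ} (hPQ : P ⊆ Q) (hQ : ∀ p ∈ Q, 1 ≤ p) : VV Q ≤ VV P := by
  unfold VV
  rw [← Finset.prod_sdiff hPQ]
  have h0 : 0 ≤ ∏ p ∈ P, (1 - 1 / (p : ℝ)) := Finset.prod_nonneg (fun p hp => by
    have : (1 : ℝ) ≤ p := by exact_mod_cast hQ p (hPQ hp)
    have h2 : 1 / (p : ℝ) ≤ 1 := by rw [div_le_one (by linarith)]; exact this
    linarith)
  have h1 : ∏ p ∈ Q \ P, (1 - 1 / (p : ℝ)) ≤ 1 := Finset.prod_le_one (fun p hp => by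
    have : (1 : ℝ) ≤ p := by exact_mod_cast hQ p (Finset.mem_sdiff.1 hp).1
    have h2 : 1 / (p : ℝ) ≤ 1 := by rw [div_le_one (by linarith)]; exact this
    linarith) (fun p hp => by
    have : (0 : ℝ) ≤ 1 / (p : ℝ) := by positivity
    linarith)
  nlinarith

/-- geometric sum -/
lemma geo {p : ℕ} (hp : 2 ≤ p) (K : ℕ) :
    ∑ k ∈ Finset.Icc 1 K, 1 / (p : ℝ) ^ k ≤ 1 / ((p : ℝ) - 1) := by
  have hp' : (2 : ℝ) ≤ p := by exact_mod_cast hp
  have key : ∀ K : ℕ, ∑ k ∈ Finset.Icc 1 K, 1 / (p : ℝ) ^ k = (1 - 1 / (p : ℝ) ^ K) / ((p : ℝ) - 1) := by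
    intro K
    induction K with
    | zero => simp
    | succ K ih =>
      rw [Finset.sum_Icc_succ_top (by omega), ih]
      have h1 : (p : ℝ) - 1 ≠ 0 := by linarith
      have h2 : (p : ℝ) ≠ 0 := by linarith
      field_simp
      ring
  rw [key]
  refine div_le_div_of_nonneg_right ?_ (by linarith)
  have : (0 : ℝ) ≤ 1 / (p : ℝ) ^ K := by positivity
  linarith

lemma total {M : Finset ℕ} {z y₁ y₂ D τ V C : ℝ} {x h K : ℕ} (hz2 : 2 ≤ z) (hzy : z ≤ y₁)
    (hyy : y₁ ≤ y₂) (hhx : h ≤ x) (hy2 : (2 * x : ℝ) < y₂ ^ 2) (hK : 2 * x < 2 ^ (K + 1))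
    (hτ : 0 ≤ τ) (hV : 0 ≤ V) (hD : 0 ≤ D)
    (hS : ∀ q : ℕ, 0 < q → (∀ p ∈ UP M z, Nat.Coprime q p) →
      (#((Rg (UP M z) x h).filter (fun m => q ∣ m)) : ℝ) ≤ (1 + τ) * (h / q * V) + D)
    (hm1 : ∑ p ∈ UP ∅ y₁, Real.log p / p ≤ Real.log y₁ + C)
    (hm2 : ∑ p ∈ UP ∅ z, Real.log p / (p - 1) ≤ Real.log z + C)
    (hm3 : ∑ p ∈ UP ∅ y₁, Real.log p ≤ C * y₁)
    (hm4 : ∑ p ∈ UP ∅ z, Real.log p ≤ C * z) :
    ∑ m ∈ Rg (UP M z) x h, Real.log m ≤
      Real.log (2 * x : ℕ) * (#((Finset.Ioc x (x + h)).filter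
        (fun m => ∃ p : ℕ, p.Prime ∧ z < p ∧ p ^ 2 ∣ m)) : ℝ) +
      ((1 + τ) * (h * V) * (Real.log z + C) + K * D * (C * z)) +
      ((1 + τ) * (h * V) * (Real.log y₁ + C) + D * (C * y₁)) +
      ∑ p ∈ (Finset.Ioc ⌊y₁⌋₊ ⌊y₂⌋₊).filter Nat.Prime,
        Real.log p * (#((Rg (UP M z) x h).filter (fun m => p ∣ m)) : ℝ) +
      Real.log (2 * x : ℕ) * (#((Rg (UP M z) x h).filter
        (fun m => ∃ P : ℕ, P.Prime ∧ P ∣ m ∧ y₂ < P)) : ℝ) := by
  have hz0 : 0 ≤ z := by linarith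
  have hy10 : 0 ≤ y₁ := hz0.trans hzy
  have hlog0 : ∀ p : ℕ, 0 ≤ Real.log (p : ℝ) := Real.log_natCast_nonneg
  set R := Rg (UP M z) x h with hR
  set L2 := Real.log (2 * x : ℕ) with hL2
  have hL20 : 0 ≤ L2 := hlog0 _
  -- pointwise
  have hpt : ∀ m ∈ R, Real.log m ≤ (if ∃ p : ℕ, p.Prime ∧ z < p ∧ p ^ 2 ∣ m then L2 else 0) +
      ∑ p ∈ UP ∅ z, ∑ k ∈ Finset.Icc 1 K, (if p ^ k ∣ m then Real.log p else 0) +
      ∑ p ∈ UP ∅ y₁ \ UP ∅ z, (if p ∣ m then Real.log p else 0) +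
      ∑ p ∈ (Finset.Ioc ⌊y₁⌋₊ ⌊y₂⌋₊).filter Nat.Prime, (if p ∣ m then Real.log p else 0) +
      (if ∃ P : ℕ, P.Prime ∧ P ∣ m ∧ y₂ < P then L2 else 0) := by
    intro m hm
    have hm' := (Finset.mem_Ioc.1 (Finset.mem_filter.1 hm).1)
    have hmpos : 0 < m := by omega
    have hmx : m ≤ 2 * x := by omega
    have e1 : 0 ≤ ∑ p ∈ UP ∅ z, ∑ k ∈ Finset.Icc 1 K, (if p ^ k ∣ m then Real.log (p : ℝ) else 0) :=
      Finset.sum_nonneg (fun p _ => Finset.sum_nonneg (fun k _ => by split_ifs <;> simp [hlog0 p]))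
    have e2 : 0 ≤ ∑ p ∈ UP ∅ y₁ \ UP ∅ z, (if p ∣ m then Real.log (p : ℝ) else 0) :=
      Finset.sum_nonneg (fun p _ => by split_ifs <;> simp [hlog0 p])
    have e3 : 0 ≤ ∑ p ∈ (Finset.Ioc ⌊y₁⌋₊ ⌊y₂⌋₊).filter Nat.Prime,
        (if p ∣ m then Real.log (p : ℝ) else 0) :=
      Finset.sum_nonneg (fun p _ => by split_ifs <;> simp [hlog0 p])
    have e4 : 0 ≤ (if ∃ P : ℕ, P.Prime ∧ P ∣ m ∧ y₂ < P then L2 else 0) := by
      split_ifs
      · exact hL20
      · exact le_refl _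
    by_cases hsq : ∃ p : ℕ, p.Prime ∧ z < p ∧ p ^ 2 ∣ m
    · rw [if_pos hsq]
      have : Real.log (m : ℝ) ≤ L2 := Real.log_le_log (by exact_mod_cast hmpos) (by exact_mod_cast hmx)
      linarith
    · rw [if_neg hsq]
      have := pw hz0 hzy hyy hmpos hmx hy2 hK hsq
      linarith
  refine (Finset.sum_le_sum hpt).trans ?_
  rw [Finset.sum_add_distrib, Finset.sum_add_distrib, Finset.sum_add_distrib,
    Finset.sum_add_distrib]
  -- counting of the multiples
  have hcnt : ∀ (p k : ℕ), p.Prime → 1 ≤ k →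
      (#(R.filter (fun m => p ^ k ∣ m)) : ℝ) ≤ (1 + τ) * (h / (p : ℝ) ^ k * V) + D := by
    intro p k hp hk
    by_cases hmem : p ∈ UP M z
    · have : R.filter (fun m => p ^ k ∣ m) = ∅ := by
        refine Finset.filter_eq_empty_iff.2 ?_
        intro m hm hd
        exact (Finset.mem_filter.1 hm).2 p hmem ((dvd_pow_self p (by omega)).trans hd)
      rw [this, Finset.card_empty]
      push_cast
      positivity
    · have := hS (p ^ k) (pow_pos hp.pos k) (by
        intro q hq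
        have hqp := ((mem_UP hz0).1 hq).2.1
        refine Nat.Coprime.pow_left k ((Nat.coprime_primes hp hqp).2 ?_)
        rintro rfl
        exact hmem hq)
      push_cast at this
      exact this
  refine add_le_add (add_le_add (add_le_add (add_le_add ?_ ?_) ?_) ?_) ?_
  · rw [← Finset.sum_filter, Finset.sum_const, nsmul_eq_mul, mul_comm]
    refine mul_le_mul_of_nonneg_left ?_ hL20
    have : R.filter (fun m => ∃ p : ℕ, p.Prime ∧ z < p ∧ p ^ 2 ∣ m) ⊆
        (Finset.Ioc x (x + h)).filter (fun m => ∃ p : ℕ, p.Prime ∧ z < p ∧ p ^ 2 ∣ m) := by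
      intro m hm
      rw [Finset.mem_filter] at hm ⊢
      exact ⟨(Finset.mem_filter.1 hm.1).1, hm.2⟩
    exact_mod_cast Finset.card_le_card this
  · rw [Finset.sum_comm]
    have hp1 : ∀ p ∈ UP ∅ z, ∑ m ∈ R, ∑ k ∈ Finset.Icc 1 K, (if p ^ k ∣ m then Real.log (p : ℝ) else 0) ≤
        (1 + τ) * (h * V) * (Real.log p / (p - 1)) + K * D * Real.log p := by
      intro p hp
      have hpp := ((mem_UP hz0).1 hp).2.1
      rw [Finset.sum_comm]
      calc ∑ k ∈ Finset.Icc 1 K, ∑ m ∈ R, (if p ^ k ∣ m then Real.log (p : ℝ) else 0)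
          = ∑ k ∈ Finset.Icc 1 K, (#(R.filter (fun m => p ^ k ∣ m)) : ℝ) * Real.log p := by
            refine Finset.sum_congr rfl (fun k _ => ?_)
            rw [← Finset.sum_filter, Finset.sum_const, nsmul_eq_mul]
        _ ≤ ∑ k ∈ Finset.Icc 1 K, ((1 + τ) * (h / (p : ℝ) ^ k * V) + D) * Real.log p := by
            refine Finset.sum_le_sum (fun k hk => ?_)
            exact mul_le_mul_of_nonneg_right (hcnt p k hpp (Finset.mem_Icc.1 hk).1) (hlog0 p)
        _ = (1 + τ) * (h * V) * Real.log p * (∑ k ∈ Finset.Icc 1 K, 1 / (p : ℝ) ^ k) +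
            K * D * Real.log p := by
            rw [← Finset.sum_mul, Finset.sum_add_distrib, Finset.sum_const, Nat.card_Icc,
              Nat.add_sub_cancel, nsmul_eq_mul, add_mul, Finset.sum_mul, Finset.mul_sum]
            refine congrArg₂ (· + ·) (Finset.sum_congr rfl (fun k _ => ?_)) rfl
            ring
        _ ≤ (1 + τ) * (h * V) * Real.log p * (1 / ((p : ℝ) - 1)) + K * D * Real.log p := by
            have hnn : 0 ≤ (1 + τ) * (h * V) * Real.log p := by
              have := hlog0 p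
              positivity
            have := mul_le_mul_of_nonneg_left (geo hpp.two_le K) hnn
            linarith
        _ = _ := by ring
    refine (Finset.sum_le_sum hp1).trans ?_
    rw [Finset.sum_add_distrib, ← Finset.mul_sum, ← Finset.mul_sum]
    refine add_le_add (mul_le_mul_of_nonneg_left hm2 (by positivity))
      (mul_le_mul_of_nonneg_left hm4 (by positivity))
  · rw [Finset.sum_comm]
    have hp1 : ∀ p ∈ UP ∅ y₁ \ UP ∅ z, ∑ m ∈ R, (if p ∣ m then Real.log (p : ℝ) else 0) ≤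
        (1 + τ) * (h * V) * (Real.log p / p) + D * Real.log p := by
      intro p hp
      have hpp := ((mem_UP hy10).1 (Finset.mem_sdiff.1 hp).1).2.1
      rw [← Finset.sum_filter, Finset.sum_const, nsmul_eq_mul]
      have h1 := hcnt p 1 hpp le_rfl
      rw [pow_one] at h1
      have h2 := mul_le_mul_of_nonneg_right h1 (hlog0 p)
      calc _ ≤ _ := h2
        _ = _ := by ring
    refine (Finset.sum_le_sum hp1).trans ?_
    have hnn : ∀ p ∈ UP ∅ y₁, p ∉ UP ∅ y₁ \ UP ∅ z →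
        0 ≤ (1 + τ) * (h * V) * (Real.log p / p) + D * Real.log p := by
      intro p _ _
      have := hlog0 p
      positivity
    refine (Finset.sum_le_sum_of_subset_of_nonneg Finset.sdiff_subset hnn).trans ?_
    rw [Finset.sum_add_distrib, ← Finset.mul_sum, ← Finset.mul_sum]
    refine add_le_add (mul_le_mul_of_nonneg_left hm1 (by positivity))
      (mul_le_mul_of_nonneg_left hm3 hD)
  · rw [Finset.sum_comm]
    refine Finset.sum_le_sum (fun p _ => ?_)
    rw [← Finset.sum_filter, Finset.sum_const, nsmul_eq_mul, mul_comm]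
  · rw [← Finset.sum_filter, Finset.sum_const, nsmul_eq_mul, mul_comm]

end CTaux

open CTaux in
/-- CT. -/
theorem stmt_CT (hSAP : Stmt_SAP) (hMER : Stmt_MER) (hMID : Stmt_MID) (hSQ : Stmt_SQ) :
    Stmt_CT := by
  obtain ⟨s, hs1, hS⟩ := hSAP (1 / 100) (by norm_num)
  obtain ⟨C, c, hC, hc, hM⟩ := hMER
  obtain ⟨C₀, β₁, θM, hC0, hβ1, hβ1', hθM, hMid⟩ := hMID
  obtain ⟨Cq, hCq, hQ⟩ := hSQ
  have hC0' : (0 : ℝ) < 1 / (16 * C₀) := by positivity
  refine ⟨min β₁ (1 / (16 * C₀)), lt_min hβ1 hC0', (min_le_left _ _).trans hβ1', ?_⟩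
  intro β hβ hβ2
  have hββ1 : β ≤ β₁ := hβ2.trans (min_le_left _ _)
  have hβ100 : β ≤ 1 / 100 := hββ1.trans hβ1'
  have hβC : C₀ * β ≤ 1 / 16 := by
    have := hβ2.trans (min_le_right _ _)
    rw [le_div_iff₀ (by positivity)] at this
    linarith
  have hs0 : 0 < s := by linarith
  refine ⟨min (min θM (β / (4 * s))) (1 / 100), lt_min (lt_min hθM (by positivity)) (by norm_num), ?_⟩
  intro θ hθ hθ1
  have hθM' : θ ≤ θM := hθ1.trans ((min_le_left _ _).trans (min_le_left _ _))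
  have hθs : θ * s ≤ β / 4 := by
    have := hθ1.trans ((min_le_left _ _).trans (min_le_right _ _))
    rw [le_div_iff₀ (by positivity)] at this
    linarith
  have hθ100 : θ ≤ 1 / 100 := hθ1.trans (min_le_right _ _)
  obtain ⟨x₁, hx₁⟩ := hMid β θ hβ hββ1 hθ hθM'
  -- the growth conditions
  have ev : ∀ᶠ X : ℝ in atTop,
      (100 * θ / c) * (Real.log (2 * X) * X ^ (β / 4)) ≤ X ^ (1 / 2 - β / 3) ∧
      (100 * θ / c * Cq) * (Real.log (2 * X) * X ^ (0 : ℝ)) ≤ X ^ θ ∧
      (100 * θ / c * Cq) * (Real.log (2 * X) * X ^ (1 / 3 : ℝ)) ≤ X ^ (1 / 2 - β / 3) ∧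
      (100 * θ / c * (2 * C)) * (Real.log (2 * X) * X ^ (β / 4 + θ)) ≤ X ^ (1 / 2 - β / 3) ∧
      (100 * θ / c * C) * (Real.log (2 * X) * X ^ (β / 4 + (1 / 2 - β))) ≤ X ^ (1 / 2 - β / 3) ∧
      2 ≤ X ^ θ ∧ 3 ≤ X ^ (2 * β) ∧ 300 * C ≤ Real.log X ∧ 3 ≤ X := by
    refine (grow (by linarith) _).and ((grow hθ _).and ((grow (by linarith) _).and
      ((grow (by linarith) _).and ((grow (by linarith) _).and ?_))))
    exact ((tendsto_rpow_atTop hθ).eventually_ge_atTop 2).and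
      (((tendsto_rpow_atTop (by linarith : 0 < 2 * β)).eventually_ge_atTop 3).and
      ((Real.tendsto_log_atTop.eventually_ge_atTop (300 * C)).and (eventually_ge_atTop 3)))
  have evn := tendsto_natCast_atTop_atTop.eventually ev
  obtain ⟨x₂, hx₂⟩ := Filter.eventually_atTop.1 evn
  refine ⟨max x₁ x₂, ?_⟩
  intro x hx h hh1 hh2 M
  obtain ⟨g1, g2, g3, g4, g5, hz2, hy3, hL, hX3⟩ := hx₂ x (le_trans (le_max_right _ _) hx)
  have hmid := hx₁ x (le_trans (le_max_left _ _) hx) h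
    ((Real.rpow_le_rpow_of_exponent_le (by linarith) (by linarith)).trans hh1) hh2 M
  set X : ℝ := (x : ℝ) with hX
  have hX1 : (1 : ℝ) ≤ X := by linarith
  have hX0 : (0 : ℝ) < X := by linarith
  set z : ℝ := X ^ θ with hz
  set y₁ : ℝ := X ^ (1 / 2 - β) with hy₁
  set y₂ : ℝ := X ^ (1 / 2 + β) with hy₂
  set L : ℝ := Real.log X with hLd
  have hL300 : 300 ≤ L := by linarith
  have hL0 : 0 < L := by linarith
  set V : ℝ := VV (UP M z) with hVd
  set D : ℝ := z ^ s with hDd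
  have hz0 : 0 < z := by linarith
  have hD0 : 0 ≤ D := Real.rpow_nonneg hz0.le _
  have hDle : D ≤ X ^ (β / 4) := by
    rw [hDd, hz, ← Real.rpow_mul hX0.le]
    exact Real.rpow_le_rpow_of_exponent_le hX1 hθs
  have hzy : z ≤ y₁ := Real.rpow_le_rpow_of_exponent_le hX1 (by linarith)
  have hyy : y₁ ≤ y₂ := Real.rpow_le_rpow_of_exponent_le hX1 (by linarith)
  have hhx : h ≤ x := by
    have h1 : (h : ℝ) ≤ (x : ℝ) := hh2.trans (by
      calc X ^ (1 / 2 : ℝ) ≤ X ^ (1 : ℝ) := Real.rpow_le_rpow_of_exponent_le hX1 (by norm_num)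
        _ = X := Real.rpow_one X)
    exact_mod_cast h1
  have hhpos : (1 : ℝ) ≤ h := (Real.one_le_rpow hX1 (by linarith)).trans hh1
  have hh1' : 1 ≤ h := by exact_mod_cast hhpos
  have hy2 : (2 * x : ℝ) < y₂ ^ 2 := by
    have : y₂ ^ 2 = X ^ (2 * β) * X := by
      rw [hy₂, ← Real.rpow_natCast, ← Real.rpow_mul hX0.le]
      conv_rhs => rw [← Real.rpow_one X, ← Real.rpow_mul hX0.le, ← Real.rpow_add hX0]
      congr 1
      push_cast
      ring
    rw [this]
    have h1 := mul_le_mul_of_nonneg_right hy3 hX0.le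
    have h2 : (2 * x : ℝ) = 2 * X := rfl
    rw [h2]
    linarith
  set K : ℕ := Nat.log 2 (2 * x) with hK
  have hxpos : 0 < x := by
    have h1 : (0 : ℝ) < (x : ℝ) := hX0
    exact_mod_cast h1
  have hKlt : 2 * x < 2 ^ (K + 1) := Nat.lt_pow_succ_log_self (by norm_num) _
  have hlog2X : Real.log (2 * x : ℕ) = Real.log (2 * X) := by push_cast; rfl
  have hKle : (K : ℝ) ≤ 2 * Real.log (2 * X) := by
    have h1 : 2 ^ K ≤ 2 * x := Nat.pow_log_le_self 2 (by omega)
    have h2 : (2 : ℝ) ^ K ≤ 2 * (x : ℝ) := by exact_mod_cast h1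
    have h3 := Real.log_le_log (by positivity) h2
    rw [Real.log_pow] at h3
    have h4 := Real.log_two_gt_d9
    have h5 : (0 : ℝ) ≤ K := Nat.cast_nonneg K
    have h6 := mul_le_mul_of_nonneg_left (show (1 / 2 : ℝ) ≤ Real.log 2 by linarith) h5
    have h7 : (K : ℝ) * Real.log 2 ≤ Real.log (2 * X) := h3
    linarith
  have hlog2 : Real.log (2 * X) = Real.log 2 + L := by
    rw [Real.log_mul (by norm_num) hX0.ne']
  have hlog2b : Real.log 2 ≤ 1 := by
    have := Real.log_two_lt_d9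
    linarith
  have hlog20 : 0 ≤ Real.log 2 := Real.log_nonneg (by norm_num)
  have hLL : Real.log (2 * X) ≤ 11 / 10 * L := by rw [hlog2]; linarith
  have hLL1 : 1 ≤ Real.log (2 * X) := by rw [hlog2]; linarith
  have hLleLL : L ≤ Real.log (2 * X) := by rw [hlog2]; linarith
  -- the lower bound for V
  have hUPp : ∀ p ∈ UP ∅ z, 1 ≤ p := fun p hp => ((mem_UP hz0.le).1 hp).2.1.one_lt.le
  have hVlow : c / (θ * L) ≤ V := by
    have h1 := (hM z hz2).2.2.2.1
    have h2 : Real.log z = θ * L := by rw [hz, Real.log_rpow hX0]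
    rw [h2] at h1
    refine h1.trans (VV_mono ?_ hUPp)
    intro p hp
    rw [mem_UP hz0.le] at hp ⊢
    exact ⟨hp.1, hp.2.1, Finset.notMem_empty _⟩
  have hVpos : 0 < V := lt_of_lt_of_le (by positivity) hVlow
  set G : ℝ := h * V with hG
  have hh0 : (0 : ℝ) < h := by linarith
  have hG0 : 0 < G := by positivity
  have hGL : c / θ * h ≤ G * L := by
    have h1 : c / θ = c / (θ * L) * L := by field_simp
    rw [h1, hG]
    have h2 := mul_le_mul_of_nonneg_right (mul_le_mul_of_nonneg_right hVlow hL0.le) hh0.le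
    have h3 : V * L * h = h * V * L := by ring
    rw [← h3]
    exact h2
  -- the error terms
  have small : ∀ {A B : ℝ}, (100 * θ / c * A) * B ≤ (h : ℝ) → A * B ≤ G * L / 100 := by
    intro A B hAB
    have h1 : A * B = c / θ * ((100 * θ / c * A) * B) / 100 := by field_simp
    rw [h1]
    have h2 : 0 < c / θ := by positivity
    have := mul_le_mul_of_nonneg_left hAB h2.le
    linarith
  have hlogm : ∀ m ∈ Rg (UP M z) x h, L ≤ Real.log (m : ℝ) := by
    intro m hm
    have hm' := (Finset.mem_Ioc.1 (Finset.mem_filter.1 hm).1)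
    refine Real.log_le_log hX0 ?_
    rw [hX]
    exact_mod_cast hm'.1.le
  have hPz : ∀ p ∈ UP M z, p.Prime ∧ (p : ℝ) ≤ z := fun p hp =>
    ⟨((mem_UP hz0.le).1 hp).2.1, ((mem_UP hz0.le).1 hp).1⟩
  have hlower : L * (99 / 100 * G - D) ≤ ∑ m ∈ Rg (UP M z) x h, Real.log m := by
    have h1 := (hS (UP M z) z hz2 hPz x h 1 0 one_pos (fun p _ => Nat.coprime_one_left p)).1
    have h2 : (Rg (UP M z) x h).filter (fun m => m ≡ 0 [MOD 1]) = Rg (UP M z) x h :=
      Finset.filter_true_of_mem (fun m _ => Nat.modEq_one)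
    rw [h2] at h1
    have h3 : 99 / 100 * G - D ≤ (#(Rg (UP M z) x h) : ℝ) := by
      have : (1 - 1 / 100 : ℝ) * ((h : ℝ) / (1 : ℕ) * V) - D = 99 / 100 * G - D := by
        push_cast; rw [hG]; ring
      rw [← this]; exact h1
    calc L * (99 / 100 * G - D) ≤ L * (#(Rg (UP M z) x h) : ℝ) :=
          mul_le_mul_of_nonneg_left h3 hL0.le
      _ = ∑ m ∈ Rg (UP M z) x h, L := by rw [Finset.sum_const, nsmul_eq_mul, mul_comm]
      _ ≤ _ := Finset.sum_le_sum hlogm
  have hSq : ∀ q : ℕ, 0 < q → (∀ p ∈ UP M z, Nat.Coprime q p) →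
      (#((Rg (UP M z) x h).filter (fun m => q ∣ m)) : ℝ) ≤ (1 + 1 / 100) * (h / q * V) + D := by
    intro q hq hcop
    have h1 := (hS (UP M z) z hz2 hPz x h q 0 hq hcop).2
    have h2 : (Rg (UP M z) x h).filter (fun m => m ≡ 0 [MOD q]) =
        (Rg (UP M z) x h).filter (fun m => q ∣ m) :=
      Finset.filter_congr (fun m _ => Nat.modEq_zero_iff_dvd)
    rw [h2] at h1
    exact h1
  have hy12 : 2 ≤ y₁ := hz2.trans hzy
  have htot := total (τ := 1 / 100) (V := V) (D := D) (C := C) (M := M) hz2 hzy hyy hhx hy2 hKlt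
    (by norm_num) hVpos.le hD0 hSq (hM y₁ hy12).1 (hM z hz2).2.1 (hM y₁ hy12).2.2.1
    (hM z hz2).2.2.1
  have hsqb := hQ x h z hz2 hh1' (by rw [Real.sqrt_eq_rpow]; exact hh2)
  rw [hlog2X] at htot
  have hlogz : Real.log z = θ * L := by rw [hz, Real.log_rpow hX0]
  have hlogy : Real.log y₁ = (1 / 2 - β) * L := by rw [hy₁, Real.log_rpow hX0]
  rw [hlogz, hlogy] at htot
  set SQn : ℝ := (#((Finset.Ioc x (x + h)).filter
        (fun m => ∃ p : ℕ, p.Prime ∧ z < p ∧ p ^ 2 ∣ m)) : ℝ) with hSQn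
  have hWW : WW β θ M x h = (Rg (UP M z) x h).filter
        (fun m => ∃ P : ℕ, P.Prime ∧ P ∣ m ∧ y₂ < P) := rfl
  rw [hWW]
  set W : ℝ := (#((Rg (UP M z) x h).filter
        (fun m => ∃ P : ℕ, P.Prime ∧ P ∣ m ∧ y₂ < P)) : ℝ) with hW
  set LL : ℝ := Real.log (2 * X) with hLLd
  have hXb0 : 0 ≤ X ^ (β / 4) := Real.rpow_nonneg hX0.le _
  -- e1
  have e1 : L * D ≤ G * L / 100 := by
    have h1 : L * D ≤ 1 * (LL * X ^ (β / 4)) := by
      rw [one_mul]; exact mul_le_mul hLleLL hDle hD0 (by linarith)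
    refine h1.trans (small ?_)
    rw [mul_one]
    exact g1.trans hh1
  -- e2
  have e2 : LL * SQn ≤ G * L / 100 + G * L / 100 := by
    have h1 : LL * SQn ≤ LL * (Cq * (h / z + X ^ (1 / 3 : ℝ))) :=
      mul_le_mul_of_nonneg_left hsqb (by linarith)
    have h2 : LL * (Cq * (h / z + X ^ (1 / 3 : ℝ))) =
        Cq * (LL * (h / z)) + Cq * (LL * X ^ (1 / 3 : ℝ)) := by ring
    rw [h2] at h1
    refine h1.trans (add_le_add (small ?_) (small (g3.trans hh1)))
    have h3 : 100 * θ / c * Cq * (LL * (h / z)) = (100 * θ / c * Cq * (LL * X ^ (0 : ℝ))) * (h / z) := by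
      rw [Real.rpow_zero]; ring
    rw [h3]
    have h4 : (h : ℝ) = z * (h / z) := by field_simp
    conv_rhs => rw [h4]
    exact mul_le_mul_of_nonneg_right g2 (by positivity)
  -- e5
  have hK0 : (0 : ℝ) ≤ K := Nat.cast_nonneg K
  have e5 : K * D * (C * z) ≤ G * L / 100 := by
    have h1 : (K : ℝ) * D * (C * z) ≤ (2 * C) * (LL * X ^ (β / 4 + θ)) := by
      rw [Real.rpow_add hX0]
      calc (K : ℝ) * D * (C * z) ≤ (2 * LL) * X ^ (β / 4) * (C * z) := by
            refine mul_le_mul_of_nonneg_right ?_ (by positivity)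
            exact mul_le_mul hKle hDle hD0 (by linarith)
        _ = _ := by rw [hz]; ring
    exact h1.trans (small (g4.trans hh1))
  -- e6
  have hy10 : 0 ≤ y₁ := by linarith
  have e6 : D * (C * y₁) ≤ G * L / 100 := by
    have h1 : D * (C * y₁) ≤ C * (LL * X ^ (β / 4 + (1 / 2 - β))) := by
      rw [Real.rpow_add hX0]
      calc D * (C * y₁) ≤ X ^ (β / 4) * (C * y₁) :=
            mul_le_mul_of_nonneg_right hDle (by positivity)
        _ = 1 * (C * (X ^ (β / 4) * X ^ (1 / 2 - β))) := by rw [hy₁]; ring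
        _ ≤ LL * (C * (X ^ (β / 4) * X ^ (1 / 2 - β))) :=
            mul_le_mul_of_nonneg_right hLL1 (by positivity)
        _ = _ := by ring
    exact h1.trans (small (g5.trans hh1))
  have hW0 : 0 ≤ W := Nat.cast_nonneg _
  -- e4
  have e4 : G * C ≤ G * L / 300 := by
    have := mul_le_mul_of_nonneg_left hL hG0.le
    linarith
  have emid : C₀ * β * G * L ≤ G * L / 16 := by
    have h1 : 0 ≤ G * L := by positivity
    have := mul_le_mul_of_nonneg_right hβC h1
    linarith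
  have eW : LL * W ≤ 11 / 10 * L * W := mul_le_mul_of_nonneg_right hLL hW0
  have eθ : θ * (G * L) ≤ 1 / 100 * (G * L) := mul_le_mul_of_nonneg_right hθ100 (by positivity)
  have eβ : 0 ≤ β * (G * L) := by positivity
  have hfin : 352 / 1000 * (G * L) ≤ 11 / 10 * (L * W) := by
    have h1 := hlower.trans htot
    have h2 : L * (99 / 100 * G - D) = 99 / 100 * (G * L) - L * D := by ring
    have h3 : (1 + 1 / 100 : ℝ) * G * (θ * L + C) = 101 / 100 * (θ * (G * L)) + 101 / 100 * (G * C) := by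
      ring
    have h4 : (1 + 1 / 100 : ℝ) * G * ((1 / 2 - β) * L + C) =
        101 / 200 * (G * L) - 101 / 100 * (β * (G * L)) + 101 / 100 * (G * C) := by ring
    rw [h2, h3, h4] at h1
    have hmid' : ∑ p ∈ (Finset.Ioc ⌊y₁⌋₊ ⌊y₂⌋₊).filter Nat.Prime,
        Real.log p * (#((Rg (UP M z) x h).filter (fun m => p ∣ m)) : ℝ) ≤ C₀ * β * G * L := hmid
    have h5 : (11 / 10 * L * W : ℝ) = 11 / 10 * (L * W) := by ring
    rw [h5] at eW
    have h6 : 0 ≤ G * L := by positivity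
    clear_value G L D W LL SQn V
    linarith
  have : 1 / 4 * G * L ≤ W * L := by
    have h1 : 0 ≤ G * L := by positivity
    have h2 : 1 / 4 * G * L = 1 / 4 * (G * L) := by ring
    rw [h2, mul_comm W L]
    linarith
  have h2 := le_of_mul_le_mul_right this hL0
  exact h2

end Pool.Agent.Work.MP_3a3367_nt_log
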