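import Pool.Agent.Work.MP_3a3367_nt_log.Interface

/-!
# Block DP: the deterministic chain argument
-/

set_option autoImplicit false

namespace Pool.Agent.Work.MP_3a3367_nt_log

open Finset
open scoped Classical

theorem dp_step (W Q : Finset ℕ) (H : ℕ → Finset ℕ) (B Λ C₂ c₀ : ℝ) (J : ℕ)
    (hB : 0 < B) (hΛ : 1 ≤ Λ) (hC₂ : 1 ≤ C₂) (hc₀ : 0 < c₀)
    (hH : ∀ m ∈ W, H m ⊆ Q ∧ #(H m) ≤ J) (hQ : ∀ q ∈ Q, 0 < q)
    (hsum : ∑ q ∈ Q, 1 / (q : ℝ) ≤ Λ)
    (hND : ∀ D ⊆ Q, (#(ND W H D) : ℝ) ≤ C₂ * (B / ∏ q ∈ D, (q : ℝ)))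
    (D : Finset ℕ) (hD : D ⊆ Q)
    (hDN : c₀ / (4 * Λ) ^ #D * (B / ∏ q ∈ D, (q : ℝ)) ≤ (#(ND W H D) : ℝ))
    (hnot : (#(W.filter (fun m => H m = D)) : ℝ) < c₀ / (4 * Λ) ^ #D / 2 * (B / ∏ q ∈ D, (q : ℝ))) :
    c₀ / (4 * Λ) ^ #D / (4 * C₂) ≤ ∑ q ∈ Good W Q H B Λ c₀ D, 1 / (q : ℝ) := by
  set c : ℝ := c₀ / (4 * Λ) ^ #D with hc
  set P : ℝ := ∏ q ∈ D, (q : ℝ) with hP
  have hP0 : 0 < P := by
    apply prod_pos
    intro q hq
    exact_mod_cast hQ q (hD hq)
  have hΛ0 : 0 < Λ := by linarith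
  have hc0 : 0 < c := by positivity
  have hBP : 0 < B / P := by positivity
  -- elements with a further relevant prime
  have h1 : (#(ND W H D) : ℝ) ≤ (#(W.filter (fun m => H m = D)) : ℝ) +
      ∑ q ∈ Q \ D, (#(ND W H (insert q D)) : ℝ) := by
    have h2 : ND W H D ⊆ W.filter (fun m => H m = D) ∪
        (Q \ D).biUnion (fun q => ND W H (insert q D)) := by
      intro m hm
      rw [ND, mem_filter] at hm
      rw [mem_union]
      by_cases h : H m = D
      · left
        rw [mem_filter]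
        exact ⟨hm.1, h⟩
      · right
        have h3 : ¬ H m ⊆ D := fun h4 => h (Subset.antisymm h4 hm.2)
        rw [not_subset] at h3
        obtain ⟨q, hq1, hq2⟩ := h3
        rw [mem_biUnion]
        refine ⟨q, mem_sdiff.2 ⟨(hH m hm.1).1 hq1, hq2⟩, ?_⟩
        rw [ND, mem_filter]
        exact ⟨hm.1, insert_subset hq1 hm.2⟩
    have h3 := card_le_card h2
    have h4 := h3.trans (card_union_le _ _)
    have h5 := h4.trans (Nat.add_le_add_left card_biUnion_le _)
    exact_mod_cast h5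
  have h2 : c / 2 * (B / P) ≤ ∑ q ∈ Q \ D, (#(ND W H (insert q D)) : ℝ) := by
    linarith
  -- split into good and bad continuations
  have h3 : ∑ q ∈ Q \ D, (#(ND W H (insert q D)) : ℝ) ≤
      ∑ q ∈ Good W Q H B Λ c₀ D, C₂ * (B / P) * (1 / (q : ℝ)) +
      ∑ q ∈ Q \ D, c / (4 * Λ) * (B / P) * (1 / (q : ℝ)) := by
    rw [← sum_filter_add_sum_filter_not (Q \ D)
      (fun q => c₀ / (4 * Λ) ^ (#D + 1) * (B / (q * ∏ p ∈ D, (p : ℝ))) ≤
        (#(ND W H (insert q D)) : ℝ))]
    apply add_le_add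
    · apply sum_le_sum
      intro q hq
      rw [mem_filter, mem_sdiff] at hq
      have h4 := hND (insert q D) (insert_subset hq.1.1 hD)
      rw [prod_insert hq.1.2, ← hP] at h4
      have hq0 : (0 : ℝ) < q := by exact_mod_cast hQ q hq.1.1
      refine h4.trans (le_of_eq ?_)
      field_simp
    · have h4 : ∑ q ∈ (Q \ D).filter (fun q => ¬ c₀ / (4 * Λ) ^ (#D + 1) *
            (B / (q * ∏ p ∈ D, (p : ℝ))) ≤ (#(ND W H (insert q D)) : ℝ)),
            (#(ND W H (insert q D)) : ℝ) ≤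
          ∑ q ∈ (Q \ D).filter (fun q => ¬ c₀ / (4 * Λ) ^ (#D + 1) *
            (B / (q * ∏ p ∈ D, (p : ℝ))) ≤ (#(ND W H (insert q D)) : ℝ)),
            c / (4 * Λ) * (B / P) * (1 / (q : ℝ)) := by
        apply sum_le_sum
        intro q hq
        rw [mem_filter, mem_sdiff] at hq
        have hq0 : (0 : ℝ) < q := by exact_mod_cast hQ q hq.1.1
        have h5 := (not_le.1 hq.2).le
        refine h5.trans (le_of_eq ?_)
        rw [hc, ← hP, pow_succ]
        field_simp
      refine h4.trans ?_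
      apply sum_le_sum_of_subset_of_nonneg (filter_subset _ _)
      intro q hq _
      positivity
  have h4 : ∑ q ∈ Q \ D, c / (4 * Λ) * (B / P) * (1 / (q : ℝ)) ≤ c / 4 * (B / P) := by
    rw [← mul_sum]
    have h5 : ∑ q ∈ Q \ D, 1 / (q : ℝ) ≤ Λ :=
      (sum_le_sum_of_subset_of_nonneg sdiff_subset (fun q _ _ => by positivity)).trans hsum
    calc c / (4 * Λ) * (B / P) * ∑ q ∈ Q \ D, 1 / (q : ℝ)
        ≤ c / (4 * Λ) * (B / P) * Λ := by
          apply mul_le_mul_of_nonneg_left h5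
          positivity
      _ = c / 4 * (B / P) := by field_simp
  rw [← mul_sum] at h3
  set S : ℝ := ∑ q ∈ Good W Q H B Λ c₀ D, 1 / (q : ℝ) with hS
  have h5 : c / 4 * (B / P) ≤ C₂ * (B / P) * S := by linarith
  have h6 : c / 4 ≤ C₂ * S := by
    have h7 : c / 4 * (B / P) ≤ C₂ * S * (B / P) := by linarith
    exact le_of_mul_le_mul_right h7 hBP
  rw [div_le_iff₀ (by linarith)]
  linarith

theorem stmt_DP : Stmt_DP := by
  intro W Q H B Λ C₂ c₀ J T hB hΛ hC₂ hc₀ hH hQ hsum hW hND hhit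
  have hΛ0 : 0 < Λ := by linarith
  have hmono : ∀ i : ℕ, i ≤ J → c₀ / (4 * Λ) ^ J ≤ c₀ / (4 * Λ) ^ i := by
    intro i hi
    apply div_le_div_of_nonneg_left hc₀.le (by positivity)
    exact pow_le_pow_right₀ (by linarith) hi
  have key : ∀ k : ℕ, ∀ D ⊆ Q, (D : Set ℕ) ⊆ T → #D + k = J →
      c₀ / (4 * Λ) ^ #D * (B / ∏ q ∈ D, (q : ℝ)) ≤ (#(ND W H D) : ℝ) →
      ∃ D ⊆ Q, (D : Set ℕ) ⊆ T ∧
        c₀ / (4 * Λ) ^ J / 2 * (B / ∏ q ∈ D, (q : ℝ)) ≤
          (#(W.filter (fun m => H m = D)) : ℝ) := by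
    intro k
    induction k with
    | zero =>
      intro D hD hDT hk hDN
      refine ⟨D, hD, hDT, ?_⟩
      have hP0 : 0 < ∏ q ∈ D, (q : ℝ) := by
        apply prod_pos
        intro q hq
        exact_mod_cast hQ q (hD hq)
      have h1 : ND W H D = W.filter (fun m => H m = D) := by
        apply filter_congr
        intro m hm
        constructor
        · intro h
          exact (eq_of_subset_of_card_le h (by have := (hH m hm).2; omega)).symm
        · intro h
          rw [h]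
      rw [← h1]
      refine le_trans ?_ hDN
      have h2 := hmono #D (by omega)
      have h3 : 0 < B / ∏ q ∈ D, (q : ℝ) := by positivity
      have h4 : 0 < c₀ / (4 * Λ) ^ J := by positivity
      apply mul_le_mul_of_nonneg_right _ h3.le
      linarith
    | succ k ih =>
      intro D hD hDT hk hDN
      have hP0 : 0 < ∏ q ∈ D, (q : ℝ) := by
        apply prod_pos
        intro q hq
        exact_mod_cast hQ q (hD hq)
      have hBP : 0 < B / ∏ q ∈ D, (q : ℝ) := by positivity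
      by_cases hcase : c₀ / (4 * Λ) ^ #D / 2 * (B / ∏ q ∈ D, (q : ℝ)) ≤
          (#(W.filter (fun m => H m = D)) : ℝ)
      · refine ⟨D, hD, hDT, le_trans ?_ hcase⟩
        apply mul_le_mul_of_nonneg_right _ hBP.le
        have h2 := hmono #D (by omega)
        linarith
      · have h1 := dp_step W Q H B Λ C₂ c₀ J hB hΛ hC₂ hc₀ hH hQ hsum hND D hD hDN
          (not_le.1 hcase)
        have hne : (ND W H D).Nonempty := by
          rw [← card_pos]
          have h2 : (0 : ℝ) < #(ND W H D) := lt_of_lt_of_le (by positivity) hDN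
          exact_mod_cast h2
        obtain ⟨q, hq, hqT⟩ := hhit D hD hDT (by omega) hne h1
        rw [Good, mem_filter, mem_sdiff] at hq
        apply ih (insert q D) (insert_subset hq.1.1 hD)
        · rw [coe_insert]
          exact Set.insert_subset hqT hDT
        · rw [card_insert_of_notMem hq.1.2]
          omega
        · rw [card_insert_of_notMem hq.1.2, prod_insert hq.1.2]
          exact hq.2
  apply key J ∅ (empty_subset _) (by simp) (by simp)
  simp only [card_empty, pow_zero, div_one, prod_empty]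
  have h1 : ND W H ∅ = W := by
    unfold ND
    apply filter_true_of_mem
    intro m _
    exact empty_subset _
  rw [h1]
  exact hW

end Pool.Agent.Work.MP_3a3367_nt_log
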