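import Mathlib

/-!
# Moving `O(log N)` sieving primes: interface

Statements of all blocks. See `BLUEPRINT.md` for the proofs.
-/

set_option autoImplicit false

namespace Pool.Agent.Work.MP_3a3367_nt_log

open Finset Filter MeasureTheory ProbabilityTheory
open scoped Classical

/-! ## Sieve -/

/-- The primes `p ≤ z` outside `M`. -/
noncomputable def UP (M : Finset ℕ) (z : ℝ) : Finset ℕ :=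
  ((Finset.range (⌊z⌋₊ + 1)).filter Nat.Prime) \ M

/-- `∏ (1 - 1/p)` over a finite set. -/
noncomputable def VV (P : Finset ℕ) : ℝ := ∏ p ∈ P, (1 - 1 / (p : ℝ))

/-- The integers in `(x, x + h]` without prime factor in `P`. -/
noncomputable def Rg (P : Finset ℕ) (x h : ℕ) : Finset ℕ :=
  (Finset.Ioc x (x + h)).filter (fun m => ∀ p ∈ P, ¬ p ∣ m)

/-- Upper and lower bound sieve weights for the primes in `P`, of level `D`. -/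
structure Wt (P : Finset ℕ) (D τ : ℝ) (up lo : ℕ → ℝ) : Prop where
  up_bd : ∀ d, |up d| ≤ 1
  lo_bd : ∀ d, |lo d| ≤ 1
  up_supp : ∀ d, up d ≠ 0 → d ∣ ∏ p ∈ P, p ∧ (d : ℝ) ≤ D
  lo_supp : ∀ d, lo d ≠ 0 → d ∣ ∏ p ∈ P, p ∧ (d : ℝ) ≤ D
  up_ge : ∀ n : ℕ, 0 < n → (if ∀ p ∈ P, ¬ p ∣ n then (1 : ℝ) else 0) ≤ ∑ d ∈ n.divisors, up d
  lo_le : ∀ n : ℕ, 0 < n → ∑ d ∈ n.divisors, lo d ≤ (if ∀ p ∈ P, ¬ p ∣ n then (1 : ℝ) else 0)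
  up_main : ∑ d ∈ (∏ p ∈ P, p).divisors, up d / d ≤ (1 + τ) * VV P
  up_nonneg : 0 ≤ ∑ d ∈ (∏ p ∈ P, p).divisors, up d / d
  lo_main : (1 - τ) * VV P ≤ ∑ d ∈ (∏ p ∈ P, p).divisors, lo d / d

/-- FL: the fundamental lemma of the sieve, for arbitrary sets of primes `≤ z`. -/
def Stmt_FL : Prop := ∀ τ : ℝ, 0 < τ → ∃ s : ℝ, 1 ≤ s ∧ ∀ (P : Finset ℕ) (z : ℝ), 2 ≤ z →
  (∀ p ∈ P, p.Prime ∧ (p : ℝ) ≤ z) → ∃ up lo : ℕ → ℝ, Wt P (z ^ s) τ up lo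

/-- SAP: sieve bounds in arithmetic progressions. -/
def Stmt_SAP : Prop := ∀ τ : ℝ, 0 < τ → ∃ s : ℝ, 1 ≤ s ∧ ∀ (P : Finset ℕ) (z : ℝ), 2 ≤ z →
  (∀ p ∈ P, p.Prime ∧ (p : ℝ) ≤ z) → ∀ (x h q c : ℕ), 0 < q → (∀ p ∈ P, Nat.Coprime q p) →
  (1 - τ) * (h / q * VV P) - z ^ s ≤ (#((Rg P x h).filter (fun m => m ≡ c [MOD q])) : ℝ) ∧
  (#((Rg P x h).filter (fun m => m ≡ c [MOD q])) : ℝ) ≤ (1 + τ) * (h / q * VV P) + z ^ s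

/-! ## Mertens and Chebyshev bounds -/

/-- MER: the bounds of Chebyshev and Mertens which are used. -/
def Stmt_MER : Prop := ∃ C c : ℝ, 1 ≤ C ∧ 0 < c ∧ ∀ y : ℝ, 2 ≤ y →
  ∑ p ∈ UP ∅ y, Real.log p / p ≤ Real.log y + C ∧
  ∑ p ∈ UP ∅ y, Real.log p / (p - 1) ≤ Real.log y + C ∧
  ∑ p ∈ UP ∅ y, Real.log p ≤ C * y ∧
  c / Real.log y ≤ VV (UP ∅ y) ∧ VV (UP ∅ y) ≤ C / Real.log y ∧
  ∀ w : ℝ, 2 ≤ w → w ≤ y → ∑ p ∈ UP ∅ y \ UP ∅ w, 1 / (p : ℝ) ≤ Real.log (Real.log y / Real.log w) + C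

/-! ## The exponential sum -/

/-- `ψ(t) = {t} - 1/2`. -/
noncomputable def psi (t : ℝ) : ℝ := Int.fract t - 1 / 2

/-- `e(t) = exp (2 π i t)`. -/
noncomputable def ee (t : ℝ) : ℂ := Complex.exp (2 * Real.pi * Complex.I * t)

/-- ET: the inequality of Erdős and Turán for `ψ` (with a harmless logarithm). -/
def Stmt_ET : Prop := ∃ C : ℝ, 1 ≤ C ∧ ∀ (S : Finset ℕ) (f : ℕ → ℝ) (H : ℕ), 1 ≤ H →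
  |∑ u ∈ S, psi (f u)| ≤ C * (1 + Real.log H) *
    (#S / H + ∑ j ∈ Finset.Icc 1 H, 1 / (j : ℝ) * ‖∑ u ∈ S, ee (j * f u)‖)

/-- VD: power saving for `∑ ψ(X / u)`. -/
def Stmt_VD : Prop := ∃ C c : ℝ, 1 ≤ C ∧ 0 < c ∧ c ≤ 1 / 10 ∧ ∀ (A B : ℕ) (X : ℝ), 1 ≤ A → A ≤ B →
  B ≤ 2 * A → (A : ℝ) ^ (17 / 10 : ℝ) ≤ X → X ≤ (A : ℝ) ^ (13 / 5 : ℝ) →
  |∑ u ∈ Finset.Ioc A B, psi (X / u)| ≤ C * (A : ℝ) ^ (1 - c)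

/-- VDL: the same bound for long ranges. -/
def Stmt_VDL : Prop := ∃ C c : ℝ, 1 ≤ C ∧ 0 < c ∧ c ≤ 1 / 10 ∧ ∀ (A B : ℕ) (X : ℝ), 1 ≤ A → A ≤ B →
  (B : ℝ) ^ (17 / 10 : ℝ) ≤ X → X ≤ (A : ℝ) ^ (13 / 5 : ℝ) →
  |∑ u ∈ Finset.Ioc A B, psi (X / u)| ≤ C * (B : ℝ) ^ (1 - c)

/-- The number of pairs `(u, t)` with `e ∣ u`, `f ∣ t`, `Y₁ < u ≤ Y₂` and `x < u t ≤ x + h`. -/
noncomputable def NP (x h Y₁ Y₂ e f : ℕ) : ℕ :=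
  #((Finset.Ioc Y₁ Y₂ ×ˢ Finset.Icc 1 (x + h)).filter
    (fun v => e ∣ v.1 ∧ f ∣ v.2 ∧ x < v.1 * v.2 ∧ v.1 * v.2 ≤ x + h))

/-- PC: the number of pairs. -/
def Stmt_PC : Prop := ∃ C c : ℝ, 1 ≤ C ∧ 0 < c ∧ c ≤ 1 / 10 ∧ ∀ (x h Y₁ Y₂ e f : ℕ), 1 ≤ e → 1 ≤ f →
  2 * e ≤ Y₁ → Y₁ ≤ Y₂ → 1 ≤ h → h ≤ x → ((Y₂ : ℝ) / e) ^ (17 / 10 : ℝ) ≤ (x : ℝ) / (e * f) →
  2 * ((x : ℝ) / (e * f)) ≤ ((Y₁ : ℝ) / (2 * e)) ^ (13 / 5 : ℝ) →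
  |(NP x h Y₁ Y₂ e f : ℝ) - h / (e * f) * Real.log (Y₂ / Y₁)| ≤
    C * (h / (f * Y₁)) + C * (Y₂ : ℝ) ^ (1 - c)

/-! ## Prime factors near `√x` -/

/-- MID: few elements of `Rg` have a prime factor in `(x^(1/2-β), x^(1/2+β)]`. -/
def Stmt_MID : Prop := ∃ C₀ β₁ θ₁ : ℝ, 1 ≤ C₀ ∧ 0 < β₁ ∧ β₁ ≤ 1 / 100 ∧ 0 < θ₁ ∧
  ∀ β θ : ℝ, 0 < β → β ≤ β₁ → 0 < θ → θ ≤ θ₁ → ∃ x₀ : ℕ, ∀ x : ℕ, x₀ ≤ x → ∀ h : ℕ,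
  (x : ℝ) ^ (1 / 2 - β₁) ≤ h → (h : ℝ) ≤ (x : ℝ) ^ (1 / 2 : ℝ) → ∀ M : Finset ℕ,
  ∑ p ∈ (Finset.Ioc ⌊(x : ℝ) ^ (1 / 2 - β)⌋₊ ⌊(x : ℝ) ^ (1 / 2 + β)⌋₊).filter Nat.Prime,
    Real.log p * (#((Rg (UP M ((x : ℝ) ^ θ)) x h).filter (fun m => p ∣ m)) : ℝ) ≤
    C₀ * β * (h * VV (UP M ((x : ℝ) ^ θ))) * Real.log x

/-- SQ: few integers in short intervals are divisible by the square of a large prime. -/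
def Stmt_SQ : Prop := ∃ C : ℝ, 1 ≤ C ∧ ∀ (x h : ℕ) (z : ℝ), 2 ≤ z → 1 ≤ h → (h : ℝ) ≤ Real.sqrt x →
  (#((Finset.Ioc x (x + h)).filter (fun m => ∃ p : ℕ, p.Prime ∧ z < p ∧ p ^ 2 ∣ m)) : ℝ) ≤
    C * (h / z + (x : ℝ) ^ (1 / 3 : ℝ))

/-- The elements of `Rg` with a prime factor `> x^(1/2+β)`. -/
noncomputable def WW (β θ : ℝ) (M : Finset ℕ) (x h : ℕ) : Finset ℕ :=
  (Rg (UP M ((x : ℝ) ^ θ)) x h).filter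
    (fun m => ∃ P : ℕ, P.Prime ∧ P ∣ m ∧ (x : ℝ) ^ (1 / 2 + β) < P)

/-- CT: the core theorem (Chebyshev and Hooley). -/
def Stmt_CT : Prop := ∃ β₂ : ℝ, 0 < β₂ ∧ β₂ ≤ 1 / 100 ∧ ∀ β : ℝ, 0 < β → β ≤ β₂ →
  ∃ θ₁ : ℝ, 0 < θ₁ ∧ ∀ θ : ℝ, 0 < θ → θ ≤ θ₁ → ∃ x₀ : ℕ, ∀ x : ℕ, x₀ ≤ x → ∀ h : ℕ,
  (x : ℝ) ^ (1 / 2 - β / 3) ≤ h → (h : ℝ) ≤ (x : ℝ) ^ (1 / 2 : ℝ) → ∀ M : Finset ℕ,
  1 / 4 * (h * VV (UP M ((x : ℝ) ^ θ))) ≤ (#(WW β θ M x h) : ℝ)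

/-! ## The chain of moved primes -/

/-- The prime factors of `m` in `(z, y]`. -/
noncomputable def PF (z y : ℝ) (m : ℕ) : Finset ℕ :=
  m.primeFactors.filter (fun p => z < (p : ℝ) ∧ (p : ℝ) ≤ y)

/-- The elements of `W` whose set of relevant primes contains `D`. -/
noncomputable def ND (W : Finset ℕ) (H : ℕ → Finset ℕ) (D : Finset ℕ) : Finset ℕ :=
  W.filter (fun m => D ⊆ H m)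

/-- The good continuations of `D`. -/
noncomputable def Good (W Q : Finset ℕ) (H : ℕ → Finset ℕ) (B Λ c₀ : ℝ) (D : Finset ℕ) : Finset ℕ :=
  (Q \ D).filter (fun q => c₀ / (4 * Λ) ^ (#D + 1) * (B / (q * ∏ p ∈ D, (p : ℝ))) ≤
    (#(ND W H (insert q D)) : ℝ))

/-- DP: the deterministic chain argument. -/
def Stmt_DP : Prop := ∀ (W Q : Finset ℕ) (H : ℕ → Finset ℕ) (B Λ C₂ c₀ : ℝ) (J : ℕ) (T : Set ℕ),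
  0 < B → 1 ≤ Λ → 1 ≤ C₂ → 0 < c₀ → (∀ m ∈ W, H m ⊆ Q ∧ #(H m) ≤ J) → (∀ q ∈ Q, 0 < q) →
  ∑ q ∈ Q, 1 / (q : ℝ) ≤ Λ → c₀ * B ≤ #W →
  (∀ D ⊆ Q, (#(ND W H D) : ℝ) ≤ C₂ * (B / ∏ q ∈ D, (q : ℝ))) →
  (∀ D ⊆ Q, (D : Set ℕ) ⊆ T → #D ≤ J → (ND W H D).Nonempty →
    c₀ / (4 * Λ) ^ #D / (4 * C₂) ≤ ∑ q ∈ Good W Q H B Λ c₀ D, 1 / (q : ℝ) →
    ∃ q ∈ Good W Q H B Λ c₀ D, q ∈ T) →
  ∃ D ⊆ Q, (D : Set ℕ) ⊆ T ∧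
    c₀ / (4 * Λ) ^ J / 2 * (B / ∏ q ∈ D, (q : ℝ)) ≤ (#(W.filter (fun m => H m = D)) : ℝ)

/-- RL: random hitting. -/
def Stmt_RL.{u} : Prop := ∀ {Ω : Type u} [MeasurableSpace Ω] (μ : Measure Ω)
  [IsProbabilityMeasure μ] (E : ℕ → Set Ω), (∀ p, MeasurableSet (E p)) → iIndepSet E μ →
  ∀ (A : Finset ℕ) (I : Finset ℕ → Finset ℕ) (G : Finset ℕ → ℕ → Finset ℕ) (N R : ℝ), 0 ≤ N →
  (∀ M ⊆ A, (#(I M) : ℝ) ≤ N ∧ ∀ i ∈ I M, Disjoint (G M i) A ∧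
    R ≤ ∑ q ∈ G M i, μ.real (E q)) →
  μ.real {ω | ∃ i ∈ I (A.filter (fun p => ω ∈ E p)),
    ∀ q ∈ G (A.filter (fun p => ω ∈ E p)) i, ω ∉ E q} ≤ N * Real.exp (-R)

/-- The moved primes `≤ z`. -/
noncomputable def MV {Ω : Type*} (E : ℕ → Set Ω) (z : ℝ) (ω : Ω) : Finset ℕ :=
  ((Finset.range (⌊z⌋₊ + 1)).filter Nat.Prime).filter (fun p => ω ∈ E p)

/-- AS: the almost sure core statement. `E p` is the event that `p` is moved. -/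
def Stmt_AS.{u} : Prop := ∀ σ : ℝ, 1 ≤ σ → ∃ β θ κ K : ℝ, 0 < β ∧ β ≤ 1 / 100 ∧ 0 < θ ∧
  σ * θ ≤ β ∧ 0 < κ ∧ 1 ≤ K ∧
  ∀ {Ω : Type u} [MeasurableSpace Ω] (μ : Measure Ω) [IsProbabilityMeasure μ] (E : ℕ → Set Ω),
  (∀ p, MeasurableSet (E p)) → iIndepSet E μ →
  (∀ᶠ p : ℕ in atTop, p.Prime → K * (Real.log p / p) ≤ μ.real (E p)) →
  ∀ᵐ ω ∂μ, ∀ᶠ x : ℕ in atTop, ∃ D : Finset ℕ,
    (∀ p ∈ D, p.Prime ∧ (x : ℝ) ^ θ < p ∧ ω ∈ E p) ∧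
    (∏ p ∈ D, (p : ℝ)) ≤ 2 * (x : ℝ) ^ (1 / 2 - β) ∧
    κ * (⌊(x : ℝ) ^ (1 / 2 - β / 4)⌋₊ * VV (UP (MV E ((x : ℝ) ^ θ) ω) ((x : ℝ) ^ θ)) /
        ∏ p ∈ D, (p : ℝ)) ≤
      (#((WW β θ (MV E ((x : ℝ) ^ θ) ω) x ⌊(x : ℝ) ^ (1 / 2 - β / 4)⌋₊).filter
        (fun m => PF ((x : ℝ) ^ θ) ((x : ℝ) ^ (1 / 2 + β)) m = D)) : ℝ)

/-! ## Counting moved primes -/

/-- CN1: the sum of the reciprocals of the moved primes is finite. -/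
def Stmt_CN1.{u} : Prop := ∀ {Ω : Type u} [MeasurableSpace Ω] (μ : Measure Ω)
  [IsProbabilityMeasure μ] (E : ℕ → Set Ω), (∀ p, MeasurableSet (E p)) →
  ∀ κ : ℝ, κ < 1 → (∀ᶠ p : ℕ in atTop, p.Prime → μ.real (E p) ≤ (p : ℝ) ^ (κ - 1)) →
  ∀ᵐ ω ∂μ, Summable (fun p : ℕ => if p.Prime ∧ ω ∈ E p then 1 / (p : ℝ) else 0)

/-- CN2: the number of moved primes, crude bound. -/
def Stmt_CN2.{u} : Prop := ∀ {Ω : Type u} [MeasurableSpace Ω] (μ : Measure Ω)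
  [IsProbabilityMeasure μ] (E : ℕ → Set Ω), (∀ p, MeasurableSet (E p)) →
  ∀ κ κ' : ℝ, 0 < κ → κ < κ' →
  (∀ᶠ p : ℕ in atTop, p.Prime → μ.real (E p) ≤ (p : ℝ) ^ (κ - 1)) →
  ∀ᵐ ω ∂μ, ∀ᶠ N : ℕ in atTop, (#(MV E N ω) : ℝ) ≤ (N : ℝ) ^ κ'

/-- CN3: the number of moved primes, probabilities `≤ K log p / p`. -/
def Stmt_CN3.{u} : Prop := ∀ {Ω : Type u} [MeasurableSpace Ω] (μ : Measure Ω)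
  [IsProbabilityMeasure μ] (E : ℕ → Set Ω), (∀ p, MeasurableSet (E p)) → iIndepSet E μ →
  ∀ K : ℝ, (∀ᶠ p : ℕ in atTop, p.Prime → μ.real (E p) ≤ K * (Real.log p / p)) →
  ∀ᵐ ω ∂μ, ∃ C : ℝ, ∀ N : ℕ, 2 ≤ N → (#(MV E N ω) : ℝ) ≤ C * Real.log N

/-- SP: independent events with given probabilities. -/
def Stmt_SP : Prop := ∀ r : ℕ → ℝ, (∀ p, 0 ≤ r p ∧ r p ≤ 1) → ∃ (Ω : Type) (_ : MeasurableSpace Ω)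
  (μ : Measure Ω) (_ : IsProbabilityMeasure μ) (E : ℕ → Set Ω), (∀ p, MeasurableSet (E p)) ∧
  iIndepSet E μ ∧ ∀ p, μ.real (E p) = r p

/-! ## The final statements -/

/-- The integers `n ≥ 2` which are not congruent to `u p` modulo `p` for any prime `p ≤ √n`. If
`u = 0` these are exactly the primes. -/
def Sieve (u : ℕ → ℤ) : Set ℕ :=
  {n | 2 ≤ n ∧ ∀ p : ℕ, p.Prime → p * p ≤ n → ¬ (n : ℤ) ≡ u p [ZMOD p]}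

/-- FIN1: the sieve of Eratosthenes with few moved primes. -/
def Stmt_FIN1.{u} : Prop := ∃ K κ δ : ℝ, 1 ≤ K ∧ 0 < κ ∧ 0 < δ ∧
  ∀ {Ω : Type u} [MeasurableSpace Ω] (μ : Measure Ω) [IsProbabilityMeasure μ] (u : ℕ → Ω → ℤ),
  (∀ p, Measurable (u p)) → iIndepFun u μ →
  (∀ᶠ p : ℕ in atTop, p.Prime → K * (Real.log p / p) ≤ μ.real {ω | ¬ (p : ℤ) ∣ u p ω} ∧
    μ.real {ω | ¬ (p : ℤ) ∣ u p ω} ≤ (p : ℝ) ^ (κ - 1)) →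
  ∀ᵐ ω ∂μ, ∀ᶠ n : ℕ in atTop, (n : ℝ) ^ κ ≤
    (((Sieve fun p => u p ω) ∩ {m | n < m ∧ (m : ℝ) ≤ n + (n : ℝ) ^ (1 / 2 - δ)}).ncard : ℝ)

/-- FIN2: a thin set of primes. -/
def Stmt_FIN2 : Prop := ∃ C δ : ℝ, 1 ≤ C ∧ 0 < δ ∧ ∃ T : Set ℕ, (∀ p ∈ T, p.Prime) ∧
  (∀ N : ℕ, 2 ≤ N → ((T ∩ Set.Iic N).ncard : ℝ) ≤ C * Real.log N) ∧
  ∀ᶠ n : ℕ in atTop, ∃ m P : ℕ, n < m ∧ (m : ℝ) ≤ n + (n : ℝ) ^ (1 / 2 - δ) ∧ P.Prime ∧ P ∣ m ∧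
    (n : ℝ) ^ (1 / 2 + δ) < P ∧ ∀ q : ℕ, q.Prime → q ∣ m / P → q ∈ T

end Pool.Agent.Work.MP_3a3367_nt_log
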