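import Mathlib
import Pool.Agent.Work.MP_3a3367_nt_log.Interface
import Pool.Agent.Work.MP_0b7501_nt.BlockE3

/-!
# A weak inequality of Erdos and Turan for the sawtooth function (helper21)
-/

set_option autoImplicit false

namespace Pool.Agent.Work.MP_3a3367_nt_log

open Finset MeasureTheory
open Pool.Agent.Work.MP_0b7501_nt (ex Ker norm_ex ex_add ex_zero ex_neg ex_int Ker_expand Ker_nonneg)

lemma ee_eq_ex (x : ℝ) : ee x = ex x := by
  unfold ee ex
  congr 1
  push_cast
  ring

lemma psi_abs (t : ℝ) : |psi t| ≤ 1 / 2 := by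
  unfold psi
  have h0 := Int.fract_nonneg t
  have h1 := Int.fract_lt_one t
  rw [abs_le]
  constructor <;> linarith

lemma psi_add_le (t : ℝ) {v : ℝ} (hv : 0 ≤ v) : psi (t + v) ≤ psi t + v := by
  unfold psi
  have h1 : ⌊t⌋ ≤ ⌊t + v⌋ := Int.floor_le_floor (by linarith)
  have h2 : (⌊t⌋ : ℝ) ≤ ⌊t + v⌋ := by exact_mod_cast h1
  have h3 : Int.fract (t + v) = t + v - ⌊t + v⌋ := rfl
  have h4 : Int.fract t = t - ⌊t⌋ := rfl
  rw [h3, h4]
  linarith

lemma psi_le_sub (t : ℝ) {v : ℝ} (hv : 0 ≤ v) : psi t ≤ psi (t - v) + v := by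
  have := psi_add_le (t - v) hv
  rwa [sub_add_cancel] at this

lemma psi_periodic : Function.Periodic psi 1 := by
  intro x
  unfold psi
  rw [Int.fract_add_one]

lemma psi_meas : Measurable psi := by
  unfold psi
  exact measurable_fract.sub_const _

lemma ex_cont : Continuous ex := by
  unfold ex
  fun_prop

lemma ex_periodic (n : ℤ) : Function.Periodic (fun v : ℝ => ex (n * v)) 1 := by
  intro x
  show ex (n * (x + 1)) = ex (n * x)
  rw [mul_add, ex_add, mul_one, ex_int, mul_one]

/-- Fourier coefficients of `psi` -/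
noncomputable def cf (n : ℤ) : ℂ := ∫ v in (0 : ℝ)..1, ex (n * v) * (psi v : ℂ)

lemma cf_norm (n : ℤ) : ‖cf n‖ ≤ 1 / 2 := by
  unfold cf
  refine (intervalIntegral.norm_integral_le_of_norm_le_const (C := 1 / 2) ?_).trans ?_
  · intro v _
    rw [norm_mul, norm_ex, one_mul, Complex.norm_real, Real.norm_eq_abs]
    exact psi_abs v
  · norm_num

lemma cf_zero : cf 0 = 0 := by
  unfold cf
  have h1 : ∀ v : ℝ, ex ((0 : ℤ) * v) * (psi v : ℂ) = (psi v : ℂ) := by
    intro v
    rw [Int.cast_zero, zero_mul, ex_zero, one_mul]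
  simp only [h1]
  rw [intervalIntegral.integral_ofReal]
  have h2 : ∫ v in (0 : ℝ)..1, psi v = ∫ v in (0 : ℝ)..1, (v - 1 / 2) := by
    apply intervalIntegral.integral_congr_ae
    have h3 : ∀ᵐ v : ℝ, v ≠ 1 := by
      rw [ae_iff]
      simp
    filter_upwards [h3] with v hv hm
    rw [Set.uIoc_of_le zero_le_one] at hm
    unfold psi
    rw [Int.fract_eq_self.2 ⟨hm.1.le, lt_of_le_of_ne hm.2 hv⟩]
  rw [h2, intervalIntegral.integral_sub (by simp) (by simp)]
  simp

lemma int_ex {n : ℤ} (hn : n ≠ 0) (a : ℝ) : ∫ v in (0 : ℝ)..1, ex (n * (v - a)) = 0 := by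
  have h1 : ∀ v : ℝ, ex (n * (v - a)) = ex (-(n * a)) *
      Complex.exp ((2 * Real.pi * Complex.I * n) * v) := by
    intro v
    unfold ex
    rw [← Complex.exp_add]
    congr 1
    push_cast
    ring
  simp only [h1]
  rw [intervalIntegral.integral_const_mul, integral_exp_mul_complex]
  · have h2 : Complex.exp (2 * Real.pi * Complex.I * n * ((1 : ℝ) : ℂ)) = 1 := by
      rw [Complex.exp_eq_one_iff]
      exact ⟨n, by push_cast; ring⟩
    rw [h2]
    simp
  · have h3 : (n : ℂ) ≠ 0 := by exact_mod_cast hn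
    have h4 : (Real.pi : ℂ) ≠ 0 := by exact_mod_cast Real.pi_ne_zero
    simp [h3, h4, Complex.I_ne_zero]

lemma Ker_cont (H : ℕ) : Continuous (Ker H) := by
  unfold Ker
  have := ex_cont
  fun_prop

lemma int_Ker (H : ℕ) (a : ℝ) : ∫ v in (0 : ℝ)..1, Ker H (v - a) = H := by
  have h1 : ((∫ v in (0 : ℝ)..1, Ker H (v - a) : ℝ) : ℂ) = (H : ℂ) := by
    rw [← intervalIntegral.integral_ofReal]
    simp only [Ker_expand]
    have hc := ex_cont
    rw [intervalIntegral.integral_finsetSum
      (fun i _ => Continuous.intervalIntegrable (by fun_prop) _ _)]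
    have h2 : ∀ i ∈ range H, ∫ v in (0 : ℝ)..1, ∑ j ∈ range H, ex (((i : ℝ) - j) * (v - a)) = 1 := by
      intro i hi
      rw [intervalIntegral.integral_finsetSum
        (fun i _ => Continuous.intervalIntegrable (by fun_prop) _ _)]
      rw [sum_eq_single_of_mem i hi]
      · simp [ex_zero]
      · intro j _ hj
        have h3 := int_ex (n := (i : ℤ) - j) (by omega) a
        push_cast at h3
        exact h3
    rw [sum_congr rfl h2]
    simp
  exact_mod_cast h1

lemma sin_Ker (H : ℕ) (w : ℝ) : Real.sin (Real.pi * w) ^ 2 * Ker H w ≤ 1 := by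
  have h1 : (ex w - 1) * ∑ h ∈ range H, ex (h * w) = ex (H * w) - 1 := by
    have h2 : ∀ h : ℕ, ex (h * w) = ex w ^ h := by
      intro h
      unfold ex
      rw [← Complex.exp_nat_mul]
      congr 1
      push_cast
      ring
    simp only [h2]
    rw [mul_comm, geom_sum_mul]
  have h3 : ∀ y : ℝ, ‖ex y - 1‖ ^ 2 = 4 * Real.sin (Real.pi * y) ^ 2 := by
    intro y
    have h4 := Complex.norm_exp_I_mul_ofReal_sub_one (2 * Real.pi * y)
    unfold ex
    rw [mul_comm, h4, Real.norm_eq_abs, sq_abs]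
    have h5 : 2 * Real.pi * y / 2 = Real.pi * y := by ring
    rw [h5]
    ring
  have h6 : ‖ex w - 1‖ ^ 2 * Ker H w = ‖ex (H * w) - 1‖ ^ 2 := by
    unfold Ker
    rw [← mul_pow, ← norm_mul, h1]
  rw [h3, h3] at h6
  have h7 : Real.sin (Real.pi * (H * w)) ^ 2 ≤ 1 := Real.sin_sq_le_one _
  linarith

lemma sin_lower {a w : ℝ} (ha : 0 ≤ a) (h1 : a ≤ w) (h2 : w ≤ 1 - a) :
    2 * a ≤ Real.sin (Real.pi * w) := by
  have hpi := Real.pi_pos
  have key : ∀ y : ℝ, 0 ≤ y → y ≤ 1 / 2 → 2 * y ≤ Real.sin (Real.pi * y) := by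
    intro y hy0 hy1
    have h := Real.mul_le_sin (x := Real.pi * y) (by positivity) (by nlinarith)
    have : 2 / Real.pi * (Real.pi * y) = 2 * y := by field_simp
    linarith
  rcases le_total w (1 / 2) with h | h
  · have := key w (by linarith) h
    linarith
  · have h3 := key (1 - w) (by linarith) (by linarith)
    have h4 : Real.sin (Real.pi * (1 - w)) = Real.sin (Real.pi * w) := by
      rw [mul_sub, mul_one, Real.sin_pi_sub]
    rw [h4] at h3
    linarith

lemma pt_bd {a v : ℝ} (ha : 0 < a) (_h0 : 0 ≤ v) (h1 : v ≤ 1) :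
    v ≤ 2 * a + Real.sin (Real.pi * (v - a)) ^ 2 / (4 * a ^ 2) := by
  rcases le_total v (2 * a) with h | h
  · have : 0 ≤ Real.sin (Real.pi * (v - a)) ^ 2 / (4 * a ^ 2) := by positivity
    linarith
  · have h2 : 2 * a ≤ Real.sin (Real.pi * (v - a)) :=
      sin_lower ha.le (by linarith) (by linarith)
    have h3 : 1 ≤ Real.sin (Real.pi * (v - a)) ^ 2 / (4 * a ^ 2) := by
      rw [le_div_iff₀ (by positivity)]
      nlinarith
    linarith

lemma int_v_Ker (H : ℕ) {a : ℝ} (ha : 0 < a) :
    ∫ v in (0 : ℝ)..1, v * Ker H (v - a) ≤ 2 * a * H + 1 / (4 * a ^ 2) := by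
  have hc := Ker_cont H
  have h1 : ∫ v in (0 : ℝ)..1, v * Ker H (v - a) ≤
      ∫ v in (0 : ℝ)..1, (2 * a * Ker H (v - a) + 1 / (4 * a ^ 2)) := by
    apply intervalIntegral.integral_mono_on zero_le_one
      (Continuous.intervalIntegrable (by fun_prop) _ _)
      (Continuous.intervalIntegrable (by fun_prop) _ _)
    intro v hv
    have h2 := pt_bd ha hv.1 hv.2
    have h3 := Ker_nonneg H (v - a)
    have h4 := sin_Ker H (v - a)
    have h5 : 0 < 1 / (4 * a ^ 2) := by positivity
    calc v * Ker H (v - a) ≤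
        (2 * a + Real.sin (Real.pi * (v - a)) ^ 2 / (4 * a ^ 2)) * Ker H (v - a) :=
          mul_le_mul_of_nonneg_right h2 h3
      _ = 2 * a * Ker H (v - a) +
          1 / (4 * a ^ 2) * (Real.sin (Real.pi * (v - a)) ^ 2 * Ker H (v - a)) := by ring
      _ ≤ 2 * a * Ker H (v - a) + 1 / (4 * a ^ 2) * 1 := by
          have := mul_le_mul_of_nonneg_left h4 h5.le
          linarith
      _ = _ := by rw [mul_one]
  refine h1.trans (le_of_eq ?_)
  rw [intervalIntegral.integral_add (Continuous.intervalIntegrable (by fun_prop) _ _)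
    (by simp), intervalIntegral.integral_const_mul, int_Ker]
  simp

lemma psi_int (g : ℝ → ℝ) (hg : Measurable g) (F : ℝ → ℂ) (hF : Continuous F) (a b : ℝ) :
    IntervalIntegrable (fun v => F v * (psi (g v) : ℂ)) volume a b := by
  have h1 : IntervalIntegrable (fun v => (psi (g v) : ℂ)) volume a b := by
    have hc : IntervalIntegrable (fun _ : ℝ => (1 / 2 : ℝ)) volume a b := by simp
    refine hc.mono_fun' ?_ ?_
    · exact (Complex.measurable_ofReal.comp (psi_meas.comp hg)).aestronglyMeasurable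
    · filter_upwards with v
      rw [Complex.norm_real, Real.norm_eq_abs]
      exact psi_abs _
  exact h1.continuousOn_mul hF.continuousOn

lemma shift_plus (n : ℤ) (a x : ℝ) :
    ∫ v in (0 : ℝ)..1, ex (n * (v - a)) * (psi (x + v) : ℂ) =
      ex (-(n * a)) * cf n * ex (-(n * x)) := by
  have h1 : ∀ v : ℝ, ex (n * (v - a)) * (psi (x + v) : ℂ) =
      ex (-(n * a)) * ex (-(n * x)) * (ex (n * (x + v)) * (psi (x + v) : ℂ)) := by
    intro v
    have : ex (n * (v - a)) = ex (-(n * a)) * ex (-(n * x)) * ex (n * (x + v)) := by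
      rw [← ex_add, ← ex_add]
      congr 1
      ring
    rw [this]
    ring
  simp only [h1]
  rw [intervalIntegral.integral_const_mul]
  have h2 := intervalIntegral.integral_comp_add_left
    (fun v : ℝ => ex (n * v) * (psi v : ℂ)) (a := 0) (b := 1) x
  rw [h2]
  have hp : Function.Periodic (fun v : ℝ => ex (n * v) * (psi v : ℂ)) 1 := by
    intro v
    show ex (n * (v + 1)) * (psi (v + 1) : ℂ) = ex (n * v) * (psi v : ℂ)
    rw [psi_periodic v]
    have := ex_periodic n v
    simp only at this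
    rw [this]
  have h3 := hp.intervalIntegral_add_eq x 0
  rw [add_zero, h3, zero_add]
  unfold cf
  ring

lemma shift_minus (n : ℤ) (a x : ℝ) :
    ∫ v in (0 : ℝ)..1, ex (n * (v - a)) * (psi (x - v) : ℂ) =
      ex (-(n * a)) * cf (-n) * ex (n * x) := by
  have h1 : ∀ v : ℝ, ex (n * (v - a)) * (psi (x - v) : ℂ) =
      ex (-(n * a)) * ex (n * x) * (ex ((-n : ℤ) * (x - v)) * (psi (x - v) : ℂ)) := by
    intro v
    have : ex (n * (v - a)) = ex (-(n * a)) * ex (n * x) * ex ((-n : ℤ) * (x - v)) := by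
      rw [← ex_add, ← ex_add]
      congr 1
      push_cast
      ring
    rw [this]
    ring
  simp only [h1]
  rw [intervalIntegral.integral_const_mul]
  have h2 := intervalIntegral.integral_comp_sub_left
    (fun v : ℝ => ex ((-n : ℤ) * v) * (psi v : ℂ)) (a := 0) (b := 1) x
  rw [h2]
  have hp : Function.Periodic (fun v : ℝ => ex ((-n : ℤ) * v) * (psi v : ℂ)) 1 := by
    intro v
    show ex ((-n : ℤ) * (v + 1)) * (psi (v + 1) : ℂ) = ex ((-n : ℤ) * v) * (psi v : ℂ)
    rw [psi_periodic v]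
    have := ex_periodic (-n) v
    simp only at this
    rw [this]
  have h3 := hp.intervalIntegral_add_eq (x - 1) 0
  rw [sub_add_cancel, zero_add] at h3
  rw [sub_zero, h3]
  unfold cf
  ring

/-- the core estimate, abstract form -/
lemma avg_bd (S : Finset ℕ) (H : ℕ) (hH : 1 ≤ H) (E a : ℝ) (hE : 0 ≤ E) (P : ℕ → ℝ → ℝ)
    (co : ℤ → ℂ) (f : ℕ → ℝ) (sg : ℤ)
    (hco : ∀ n, ‖co n‖ ≤ 1 / 2) (hco0 : co 0 = 0) (hsg : sg = 1 ∨ sg = -1)
    (hint : ∀ u, ∀ n : ℤ, IntervalIntegrable (fun v => ex (n * (v - a)) * (P u v : ℂ)) volume 0 1)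
    (hP : ∀ u (n : ℤ), ∫ v in (0 : ℝ)..1, ex (n * (v - a)) * (P u v : ℂ) =
      ex (-(n * a)) * co n * ex ((sg * n : ℤ) * f u))
    (hS : ∀ m : ℕ, 1 ≤ m → m < H → ‖∑ u ∈ S, ex (m * f u)‖ ≤ E) :
    |∑ u ∈ S, ∫ v in (0 : ℝ)..1, Ker H (v - a) * P u v| ≤ (H : ℝ) ^ 2 * E := by
  have hc := ex_cont
  have hall : ∀ m : ℤ, m ≠ 0 → m.natAbs < H → ‖∑ u ∈ S, ex (m * f u)‖ ≤ E := by
    intro m hm hmH
    rcases lt_or_gt_of_ne hm with h | h
    · have h1 := hS m.natAbs (by omega) (by omega)
      have h2 : ∀ u, ex (m * f u) = (starRingEnd ℂ) (ex ((m.natAbs : ℕ) * f u)) := by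
        intro u
        rw [← ex_neg]
        congr 1
        have : ((m.natAbs : ℕ) : ℝ) = -(m : ℝ) := by
          have h3 : ((m.natAbs : ℕ) : ℤ) = -m := by omega
          rw [← Int.cast_natCast, h3, Int.cast_neg]
        rw [this]
        ring
      simp only [h2]
      rw [← map_sum, Complex.norm_conj]
      exact h1
    · have h1 := hS m.natAbs (by omega) (by omega)
      have : ((m.natAbs : ℕ) : ℝ) = (m : ℝ) := by
        have h3 : ((m.natAbs : ℕ) : ℤ) = m := by omega
        rw [← Int.cast_natCast, h3]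
      rw [this] at h1
      exact h1
  have h1 : ∀ u, ((∫ v in (0 : ℝ)..1, Ker H (v - a) * P u v : ℝ) : ℂ) =
      ∑ i ∈ range H, ∑ j ∈ range H, ex (-(((i : ℤ) - j : ℤ) * a)) * co ((i : ℤ) - j) *
        ex ((sg * ((i : ℤ) - j) : ℤ) * f u) := by
    intro u
    rw [← intervalIntegral.integral_ofReal]
    have h2 : ∀ v : ℝ, ((Ker H (v - a) * P u v : ℝ) : ℂ) =
        ∑ i ∈ range H, ∑ j ∈ range H, ex ((((i : ℤ) - j : ℤ) : ℝ) * (v - a)) * (P u v : ℂ) := by
      intro v
      push_cast
      rw [Ker_expand, sum_mul]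
      refine sum_congr rfl fun i _ => ?_
      rw [sum_mul]
    simp only [h2]
    rw [intervalIntegral.integral_finsetSum]
    · refine sum_congr rfl fun i _ => ?_
      rw [intervalIntegral.integral_finsetSum (fun j _ => hint u _)]
      refine sum_congr rfl fun j _ => ?_
      exact hP u _
    · intro i _
      have h5 := IntervalIntegrable.sum (range H) (fun j _ => hint u ((i : ℤ) - j))
      refine h5.congr (fun v _ => ?_)
      rw [Finset.sum_apply]
  have h3 : ((∑ u ∈ S, ∫ v in (0 : ℝ)..1, Ker H (v - a) * P u v : ℝ) : ℂ) =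
      ∑ i ∈ range H, ∑ j ∈ range H, ex (-(((i : ℤ) - j : ℤ) * a)) * co ((i : ℤ) - j) *
        ∑ u ∈ S, ex ((sg * ((i : ℤ) - j) : ℤ) * f u) := by
    rw [Complex.ofReal_sum]
    simp only [h1]
    rw [sum_comm]
    refine sum_congr rfl fun i _ => ?_
    rw [sum_comm]
    refine sum_congr rfl fun j _ => ?_
    rw [mul_sum]
  rw [← Real.norm_eq_abs, ← Complex.norm_real, h3]
  calc _ ≤ ∑ i ∈ range H, ∑ j ∈ range H, E := by
        refine (norm_sum_le _ _).trans (sum_le_sum fun i hi => ?_)
        refine (norm_sum_le _ _).trans (sum_le_sum fun j hj => ?_)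
        rw [mem_range] at hi hj
        rw [norm_mul, norm_mul, norm_ex, one_mul]
        by_cases hij : (i : ℤ) - j = 0
        · rw [hij, hco0, norm_zero, zero_mul]
          exact hE
        · have h4 := hall (sg * ((i : ℤ) - j)) (by
            rcases hsg with h | h <;> rw [h] <;> omega) (by
            rcases hsg with h | h <;> rw [h] <;> omega)
          have h5 := hco ((i : ℤ) - j)
          calc _ ≤ (1 / 2 : ℝ) * E := mul_le_mul h5 h4 (norm_nonneg _) (by norm_num)
            _ ≤ E := by linarith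
    _ = (H : ℝ) ^ 2 * E := by
        simp
        ring

/-- a weak form of the inequality of Erdos and Turan -/
theorem et_weak (S : Finset ℕ) (f : ℕ → ℝ) (H : ℕ) (hH : 1 ≤ H) (E a : ℝ) (hE : 0 ≤ E)
    (ha : 0 < a) (hS : ∀ m : ℕ, 1 ≤ m → m < H → ‖∑ u ∈ S, ex (m * f u)‖ ≤ E) :
    |∑ u ∈ S, psi (f u)| ≤ #S * (2 * a + 1 / (4 * a ^ 2 * H)) + H * E := by
  have hH0 : (0 : ℝ) < H := by exact_mod_cast hH
  have hc := Ker_cont H
  have hec := ex_cont
  have hI : ∀ g : ℝ → ℝ, Measurable g → IntervalIntegrable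
      (fun v => Ker H (v - a) * psi (g v)) volume 0 1 := by
    intro g hg
    have h1 : IntervalIntegrable (fun v => psi (g v)) volume (0 : ℝ) 1 := by
      have hc : IntervalIntegrable (fun _ : ℝ => (1 / 2 : ℝ)) volume 0 1 := by simp
      refine hc.mono_fun' (psi_meas.comp hg).aestronglyMeasurable ?_
      filter_upwards with v
      rw [Real.norm_eq_abs]
      exact psi_abs _
    exact h1.continuousOn_mul (by fun_prop)
  have hplus := avg_bd S H hH E a hE (fun u v => psi (f u + v)) cf f (-1) cf_norm cf_zero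
    (Or.inr rfl)
    (fun u n => psi_int (fun v => f u + v) (by fun_prop) (fun v => ex (n * (v - a)))
      (by fun_prop) 0 1)
    (fun u n => by
      rw [shift_plus]
      congr 2
      push_cast
      ring) hS
  have hminus := avg_bd S H hH E a hE (fun u v => psi (f u - v)) (fun n => cf (-n)) f 1
    (fun n => cf_norm _) (by simpa using cf_zero)
    (Or.inl rfl)
    (fun u n => psi_int (fun v => f u - v) (by fun_prop) (fun v => ex (n * (v - a)))
      (by fun_prop) 0 1)
    (fun u n => by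
      rw [shift_minus]
      congr 2
      push_cast
      ring) hS
  have hv := int_v_Ker H ha
  have hk := int_Ker H a
  set ε : ℝ := 2 * a * H + 1 / (4 * a ^ 2) with hε
  have hlow : ∀ u, ∫ v in (0 : ℝ)..1, Ker H (v - a) * psi (f u + v) ≤ H * psi (f u) + ε := by
    intro u
    calc _ ≤ ∫ v in (0 : ℝ)..1, (Ker H (v - a) * psi (f u) + v * Ker H (v - a)) := by
          apply intervalIntegral.integral_mono_on zero_le_one (hI (fun v => f u + v) (by fun_prop))
            (Continuous.intervalIntegrable (by fun_prop) _ _)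
          intro v hv
          have h1 := psi_add_le (f u) hv.1
          have h2 := mul_le_mul_of_nonneg_left h1 (Ker_nonneg H (v - a))
          linarith
      _ = H * psi (f u) + ∫ v in (0 : ℝ)..1, v * Ker H (v - a) := by
          rw [intervalIntegral.integral_add (Continuous.intervalIntegrable (by fun_prop) _ _)
            (Continuous.intervalIntegrable (by fun_prop) _ _),
            intervalIntegral.integral_mul_const, hk]
      _ ≤ _ := by linarith
  have hupp : ∀ u, H * psi (f u) ≤ (∫ v in (0 : ℝ)..1, Ker H (v - a) * psi (f u - v)) + ε := by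
    intro u
    have h1 : ∫ v in (0 : ℝ)..1, Ker H (v - a) * psi (f u) ≤
        ∫ v in (0 : ℝ)..1, (Ker H (v - a) * psi (f u - v) + v * Ker H (v - a)) := by
      apply intervalIntegral.integral_mono_on zero_le_one
        (Continuous.intervalIntegrable (by fun_prop) _ _)
        ((hI (fun v => f u - v) (by fun_prop)).add
          (Continuous.intervalIntegrable (by fun_prop) _ _))
      intro v hv
      have h1 := psi_le_sub (f u) hv.1
      have h2 := mul_le_mul_of_nonneg_left h1 (Ker_nonneg H (v - a))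
      linarith
    rw [intervalIntegral.integral_mul_const, hk, intervalIntegral.integral_add
      (hI (fun v => f u - v) (by fun_prop)) (Continuous.intervalIntegrable (by fun_prop) _ _)] at h1
    linarith
  have h1 := sum_le_sum (fun u (_ : u ∈ S) => hlow u)
  have h2 := sum_le_sum (fun u (_ : u ∈ S) => hupp u)
  rw [sum_add_distrib, sum_const, nsmul_eq_mul, ← mul_sum] at h1
  rw [sum_add_distrib, sum_const, nsmul_eq_mul, ← mul_sum] at h2
  rw [abs_le] at hplus hminus
  have h3 : (#S : ℝ) * (2 * a + 1 / (4 * a ^ 2 * H)) + H * E =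
      (#S * ε + (H : ℝ) ^ 2 * E) / H := by
    rw [hε]
    field_simp
  rw [h3, abs_le]
  constructor
  · rw [neg_le_iff_add_nonneg, ← sub_neg_eq_add, sub_nonneg, ← neg_le_neg_iff, neg_neg]
    rw [le_div_iff₀ hH0]
    nlinarith [hplus.1]
  · rw [le_div_iff₀ hH0]
    nlinarith [hminus.2]

end Pool.Agent.Work.MP_3a3367_nt_log
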