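import Pool.Agent.Work.MP_3a3367_nt_log.FIN1B

/-!
# Block FIN1: the sieve of Eratosthenes with few moved primes
-/

set_option autoImplicit false

namespace Pool.Agent.Work.MP_3a3367_nt_log

open Finset Filter MeasureTheory ProbabilityTheory
open scoped Classical

namespace FIN1Aux

/-- The final real arithmetic. -/
theorem arith (κ W Y S B Z N H : ℝ) (hκ : 0 < κ) (hW : Y ≤ W) (h1 : κ * W ≤ S)
    (h2 : B ≤ κ / 8 * W + Z + N * (H + 1)) (h3 : Z ≤ κ / 16 * Y) (h4 : N * H ≤ κ / 16 * W)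
    (h5 : N ≤ κ / 16 * Y) (hY : 0 ≤ Y) : κ / 2 * Y ≤ S - B := by
  have h6 : κ * Y ≤ κ * W := mul_le_mul_of_nonneg_left hW hκ.le
  nlinarith

theorem det {Ω : Type*} (E : ℕ → Set Ω) (ω : Ω) (v : ℕ → ℤ)
    (hv : ∀ p, ω ∈ E p ↔ ¬ (p : ℤ) ∣ v p)
    (β θ κ s c : ℝ) (hβ : 0 < β) (hβ1 : β ≤ 1 / 100) (hθ : 0 < θ) (hσ : 8 * (s + 2) * θ ≤ β)
    (hs : 1 ≤ s) (hκ : 0 < κ) (hc : 0 < c)
    (hsap : ∀ (P : Finset ℕ) (z : ℝ), 2 ≤ z → (∀ p ∈ P, p.Prime ∧ (p : ℝ) ≤ z) →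
      ∀ (x h q c : ℕ), 0 < q → (∀ p ∈ P, Nat.Coprime q p) →
      (#((Rg P x h).filter (fun m => m ≡ c [MOD q])) : ℝ) ≤ 2 * (h / q * VV P) + z ^ s)
    (hmer : ∀ y : ℝ, 2 ≤ y → c / Real.log y ≤ VV (UP ∅ y))
    (w1 : ∀ᶠ x : ℕ in atTop, ∃ D : Finset ℕ,
      (∀ p ∈ D, p.Prime ∧ (x : ℝ) ^ θ < p ∧ ω ∈ E p) ∧
      (∏ p ∈ D, (p : ℝ)) ≤ 2 * (x : ℝ) ^ (1 / 2 - β) ∧
      κ * (⌊(x : ℝ) ^ (1 / 2 - β / 4)⌋₊ * VV (UP (MV E ((x : ℝ) ^ θ) ω) ((x : ℝ) ^ θ)) /
          ∏ p ∈ D, (p : ℝ)) ≤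
        (#((WW β θ (MV E ((x : ℝ) ^ θ) ω) x ⌊(x : ℝ) ^ (1 / 2 - β / 4)⌋₊).filter
          (fun m => PF ((x : ℝ) ^ θ) ((x : ℝ) ^ (1 / 2 + β)) m = D)) : ℝ))
    (w2 : Summable (fun p : ℕ => if p.Prime ∧ ω ∈ E p then 1 / (p : ℝ) else 0))
    (w3 : ∀ᶠ N : ℕ in atTop, (#(MV E N ω) : ℝ) ≤ (N : ℝ) ^ (min θ β / 8)) :
    ∀ᶠ n : ℕ in atTop, (n : ℝ) ^ (min θ β / 16) ≤
      (((Sieve v) ∩ {m | n < m ∧ (m : ℝ) ≤ n + (n : ℝ) ^ (1 / 2 - β / 5)}).ncard : ℝ) := by
  have hκ16 : 0 < κ / 16 := by linarith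
  obtain ⟨sv, hsv⟩ := summable_iff_vanishing_norm.1 w2 (κ / 16) hκ16
  let S0 : Finset ℕ := sv.filter (fun p => p.Prime ∧ ω ∈ E p)
  have hS0 : ∀ p, p ∈ S0 ↔ p ∈ sv ∧ p.Prime ∧ ω ∈ E p := fun p => Finset.mem_filter
  obtain ⟨M0, hM0⟩ : ∃ M0 : ℕ, M0 = ∏ p ∈ S0, p := ⟨_, rfl⟩
  have hM0pos : 0 < M0 := by
    rw [hM0]
    exact Finset.prod_pos (fun p hp => ((hS0 p).1 hp).2.1.pos)
  have hm1 : 0 < min θ β := lt_min hθ hβ
  have hm2 : min θ β ≤ θ := min_le_left _ _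
  have hm3 : min θ β ≤ β := min_le_right _ _
  obtain ⟨k, hk⟩ : ∃ k : ℝ, k = min θ β := ⟨_, rfl⟩
  rw [← hk] at hm1 hm2 hm3 w3 ⊢
  -- the asymptotics in `x`
  have hθ1 : θ ≤ β / 24 := by
    have : 24 * θ ≤ 8 * (s + 2) * θ := mul_le_mul_of_nonneg_right (by linarith) hθ.le
    linarith
  have a1 := ev1 2 0 θ hθ
  have a2 := ev2 (4 * θ / c) (5 * β / 8) (3 * β / 4) (by positivity) (by linarith)
  have a3 := ev1 (2 * (16 / κ)) (β / 8) (5 * β / 8) (by linarith)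
  have a4 := ev2 (16 * θ / (κ * c)) (k / 8 - θ) 0 (by positivity) (by linarith)
  have a5 := ev1 (16 / κ) (k / 8) (5 * β / 8) (by linarith)
  have a6 := ev1 ((2 * M0 : ℝ) ^ (k / 16) * (2 / κ)) (k / 16) (5 * β / 8) (by linarith)
  have a7 := ev1 M0 (1 / 2 - β / 4) (1 / 2 - β / 5) (by linarith)
  have a8 := ev1 (2 * M0) 1 (1 + 2 * β) (by linarith)
  have htend : Tendsto (fun x : ℕ => ⌊(x : ℝ) ^ (1 / 2 + β)⌋₊) atTop atTop :=
    tendsto_nat_floor_atTop.comp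
      ((tendsto_rpow_atTop (by linarith)).comp tendsto_natCast_atTop_atTop)
  have a9 := htend.eventually w3
  have hx : ∀ᶠ x : ℕ in atTop, ∀ n : ℕ, n / M0 = x → (n : ℝ) ^ (k / 16) ≤
      (((Sieve v) ∩ {m | n < m ∧ (m : ℝ) ≤ n + (n : ℝ) ^ (1 / 2 - β / 5)}).ncard : ℝ) := by
    filter_upwards [a1, a2, a3, a4, a5, a6, a7, a8, a9, w1, eventually_ge_atTop 2] with
      x b1 b2 b3 b4 b5 b6 b7 b8 b9 ⟨D, hD1, hD2, hD3⟩ hx1 n hn
    have hX1 : (1 : ℝ) ≤ x := by exact_mod_cast (by omega : 1 ≤ x)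
    have hX2 : (2 : ℝ) ≤ x := by exact_mod_cast hx1
    have hX0 : (0 : ℝ) < x := by linarith
    have hlog : 0 < Real.log x := Real.log_pos (by linarith)
    rw [Real.rpow_zero, mul_one] at b1
    rw [Real.rpow_zero] at b4
    rw [Real.rpow_one] at b8
    -- notation
    obtain ⟨z, hz⟩ : ∃ z : ℝ, z = (x : ℝ) ^ θ := ⟨_, rfl⟩
    obtain ⟨y, hy⟩ : ∃ y : ℝ, y = (x : ℝ) ^ (1 / 2 + β) := ⟨_, rfl⟩
    obtain ⟨h, hh⟩ : ∃ h : ℕ, h = ⌊(x : ℝ) ^ (1 / 2 - β / 4)⌋₊ := ⟨_, rfl⟩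
    rw [← hz, ← hy, ← hh] at hD3
    rw [← hz] at hD1 b1
    rw [← hy] at b9
    have hz0 : 0 ≤ z := by linarith
    have hy1 : z ≤ y := by
      rw [hz, hy]
      exact Real.rpow_le_rpow_of_exponent_le hX1 (by linarith)
    have hy0 : 0 ≤ y := hz0.trans hy1
    have hhle : (h : ℝ) ≤ (x : ℝ) ^ (1 / 2 - β / 4) := by
      rw [hh]; exact Nat.floor_le (Real.rpow_nonneg hX0.le _)
    have hhx : (h : ℝ) ≤ x := by
      refine hhle.trans ?_
      calc (x : ℝ) ^ (1 / 2 - β / 4) ≤ (x : ℝ) ^ (1 : ℝ) :=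
            Real.rpow_le_rpow_of_exponent_le hX1 (by linarith)
        _ = x := Real.rpow_one _
    have hhge : 1 / 2 * (x : ℝ) ^ (1 / 2 - β / 4) ≤ h := by
      have h1 : 1 ≤ (x : ℝ) ^ (1 / 2 - β / 4) := Real.one_le_rpow hX1 (by linarith)
      have h2 := Nat.lt_floor_add_one ((x : ℝ) ^ (1 / 2 - β / 4))
      have h3 : (1 : ℝ) ≤ h := by
        rw [hh]; exact_mod_cast Nat.le_floor (by exact_mod_cast h1)
      rw [← hh] at h2
      linarith
    let M := MV E z ω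
    let S := (WW β θ M x h).filter (fun m => PF z y m = D)
    let Q := (MV E y ω).filter (fun p => p ∉ S0 ∧ p ∉ D)
    have T : Setting v M0 S0 D M Q S z y s x h := by
      refine ⟨b1, hy1, hM0, ?_, ?_, ?_, ?_, ?_, ?_, by omega, ?_⟩
      · intro p hp
        obtain ⟨_, h1, h2⟩ := (hS0 p).1 hp
        exact ⟨h1, (hv p).1 h2⟩
      · intro p
        rw [← hv]
        exact mem_MV E z hz0 ω p
      · intro p hp
        obtain ⟨h1, h2, h3⟩ := hD1 p hp
        exact ⟨h1, h2, (hv p).1 h3⟩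
      · intro p
        rw [Finset.mem_filter, mem_MV E y hy0 ω p, hv]
        tauto
      · intro m hm
        rw [Finset.mem_filter] at hm
        refine ⟨?_, hm.2⟩
        have := hm.1
        unfold WW at this
        rw [← hz] at this
        exact (Finset.mem_filter.1 this).1
      · have h1 : y ^ 2 = (x : ℝ) ^ (1 + 2 * β) := by
          rw [hy, ← Real.rpow_natCast, ← Real.rpow_mul hX0.le]
          congr 1
          push_cast
          ring
        rw [h1]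
        refine le_trans ?_ b8
        have : (M0 : ℝ) * (x + h) ≤ M0 * (x + x) :=
          mul_le_mul_of_nonneg_left (by linarith) (Nat.cast_nonneg _)
        linarith
      · intro P hP q c hq hcop
        exact hsap P z b1 hP x h q c hq hcop
    have hX : ∑ p ∈ Q.filter (fun p : ℕ => (p : ℝ) ≤ z), 1 / (p : ℝ) ≤ κ / 16 := by
      have h1 := hsv (Q.filter (fun p : ℕ => (p : ℝ) ≤ z)) (by
        rw [Finset.disjoint_left]
        intro p hp hps
        rw [Finset.mem_filter] at hp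
        obtain ⟨-, h2, h3, h4, -⟩ := (T.hQ p).1 hp.1
        exact h4 ((hS0 p).2 ⟨hps, h2, (hv p).2 h3⟩))
      refine le_trans ?_ (h1.le)
      refine le_trans (le_of_eq ?_) (Real.le_norm_self _)
      refine Finset.sum_congr rfl (fun p hp => ?_)
      rw [Finset.mem_filter] at hp
      obtain ⟨-, h2, h3, -, -⟩ := (T.hQ p).1 hp.1
      rw [if_pos ⟨h2, (hv p).2 h3⟩]
    have hN : (#Q : ℝ) ≤ (x : ℝ) ^ (k / 8) := by
      have h1 : #Q ≤ #(MV E (⌊y⌋₊ : ℝ) ω) := by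
        refine Finset.card_le_card (fun p hp => ?_)
        have h2 := (Finset.mem_filter.1 hp).1
        rw [mem_MV E y hy0 ω p] at h2
        rw [mem_MV E _ (Nat.cast_nonneg _) ω p]
        refine ⟨?_, h2.2⟩
        exact_mod_cast (Nat.le_floor h2.1)
      have h2 : (#Q : ℝ) ≤ (#(MV E (⌊y⌋₊ : ℝ) ω) : ℝ) := by exact_mod_cast h1
      refine h2.trans (b9.trans ?_)
      refine Real.rpow_le_rpow (Nat.cast_nonneg _) ?_ (by linarith)
      refine (Nat.floor_le hy0).trans ?_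
      rw [hy]
      calc (x : ℝ) ^ (1 / 2 + β) ≤ (x : ℝ) ^ (1 : ℝ) :=
            Real.rpow_le_rpow_of_exponent_le hX1 (by linarith)
        _ = x := Real.rpow_one _
    have hbad := T.bad κ _ hX hN
    have hsurv := T.survivors {m | n < m ∧ (m : ℝ) ≤ n + (n : ℝ) ^ (1 / 2 - β / 5)} (by
        refine (Set.finite_Iic ⌊(n : ℝ) + (n : ℝ) ^ (1 / 2 - β / 5)⌋₊).subset ?_
        intro m hm
        exact Nat.le_floor hm.2) (by
        intro m hm _
        have h1 := (T.hS m hm).1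
        unfold Rg at h1
        rw [Finset.mem_filter, Finset.mem_Ioc] at h1
        obtain ⟨⟨h2, h3⟩, -⟩ := h1
        have h4 : n < M0 * (x + 1) := by
          rw [← hn]
          exact Nat.lt_mul_div_succ n hM0pos
        have h5 : M0 * x ≤ n := by
          rw [← hn]; exact Nat.mul_div_le n M0
        refine ⟨lt_of_lt_of_le h4 (Nat.mul_le_mul_left M0 h2), ?_⟩
        have h6 : ((M0 * m : ℕ) : ℝ) ≤ ((M0 * (x + h) : ℕ) : ℝ) := by
          exact_mod_cast Nat.mul_le_mul_left M0 h3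
        have h7 : ((M0 * x : ℕ) : ℝ) ≤ n := by exact_mod_cast h5
        have h8 : (x : ℝ) ≤ n := by
          have : x ≤ n := le_trans (Nat.le_mul_of_pos_left x hM0pos) h5
          exact_mod_cast this
        have h9 : (M0 : ℝ) * h ≤ (n : ℝ) ^ (1 / 2 - β / 5) := by
          calc (M0 : ℝ) * h ≤ M0 * (x : ℝ) ^ (1 / 2 - β / 4) :=
                mul_le_mul_of_nonneg_left hhle (Nat.cast_nonneg _)
            _ ≤ (x : ℝ) ^ (1 / 2 - β / 5) := b7
            _ ≤ (n : ℝ) ^ (1 / 2 - β / 5) := Real.rpow_le_rpow hX0.le h8 (by linarith)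
        push_cast at h6 h7 ⊢
        linarith)
    -- lower bound for `V`
    have hlogz : Real.log z = θ * Real.log x := by rw [hz, Real.log_rpow hX0]
    have hV : c / (θ * Real.log x) ≤ VV (UP M z) := by
      have h1 := hmer z b1
      rw [hlogz] at h1
      refine h1.trans (VV_anti ?_ ?_)
      · intro p hp
        rw [mem_UP _ _ _ hz0] at hp ⊢
        exact ⟨hp.1, hp.2.1, Finset.notMem_empty _⟩
      · intro p hp
        rw [mem_UP _ _ _ hz0] at hp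
        exact hp.2.1
    have hVpos : 0 < VV (UP M z) := lt_of_lt_of_le (by positivity) hV
    obtain ⟨d, hd⟩ : ∃ d : ℝ, d = ∏ p ∈ D, (p : ℝ) := ⟨_, rfl⟩
    have hdpos : 0 < d := by
      rw [hd]
      exact Finset.prod_pos (fun p hp => by exact_mod_cast (hD1 p hp).1.pos)
    rw [← hd] at hD2 hD3 hbad
    have hW : (x : ℝ) ^ (5 * β / 8) ≤ h * VV (UP M z) / d := by
      have h1 : (1 / 2 * (x : ℝ) ^ (1 / 2 - β / 4)) * (c / (θ * Real.log x)) ≤
          h * VV (UP M z) :=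
        mul_le_mul hhge hV (by positivity) (Nat.cast_nonneg _)
      rw [le_div_iff₀ hdpos]
      refine le_trans ?_ h1
      have h2 : (x : ℝ) ^ (5 * β / 8) * d ≤ (x : ℝ) ^ (5 * β / 8) * (2 * (x : ℝ) ^ (1 / 2 - β)) :=
        mul_le_mul_of_nonneg_left hD2 (Real.rpow_nonneg hX0.le _)
      refine h2.trans ?_
      have h3 : (x : ℝ) ^ (1 / 2 - β / 4) = (x : ℝ) ^ (3 * β / 4) * (x : ℝ) ^ (1 / 2 - β) := by
        rw [← Real.rpow_add hX0]; congr 1; ring
      have h4 : (x : ℝ) ^ (5 * β / 8) * 2 ≤ 1 / 2 * (x : ℝ) ^ (3 * β / 4) *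
          (c / (θ * Real.log x)) := by
        have h5 : 4 * θ / c * (x : ℝ) ^ (5 * β / 8) * Real.log x * (c / (2 * θ * Real.log x)) ≤
            (x : ℝ) ^ (3 * β / 4) * (c / (2 * θ * Real.log x)) :=
          mul_le_mul_of_nonneg_right b2 (by positivity)
        have h6 : 4 * θ / c * (x : ℝ) ^ (5 * β / 8) * Real.log x * (c / (2 * θ * Real.log x)) =
            (x : ℝ) ^ (5 * β / 8) * 2 := by
          field_simp
          ring
        have h7 : (x : ℝ) ^ (3 * β / 4) * (c / (2 * θ * Real.log x)) =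
            1 / 2 * (x : ℝ) ^ (3 * β / 4) * (c / (θ * Real.log x)) := by
          field_simp
        linarith
      rw [h3]
      have h8 := mul_le_mul_of_nonneg_right h4 (Real.rpow_nonneg hX0.le (1 / 2 - β))
      linarith
    have hZ : 2 * (z * z ^ s) ≤ κ / 16 * (x : ℝ) ^ (5 * β / 8) := by
      have h1 : z * z ^ s = (x : ℝ) ^ (θ + θ * s) := by
        rw [hz, ← Real.rpow_mul hX0.le, ← Real.rpow_add hX0]
      have h2 : (x : ℝ) ^ (θ + θ * s) ≤ (x : ℝ) ^ (β / 8) := by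
        refine Real.rpow_le_rpow_of_exponent_le hX1 ?_
        nlinarith
      rw [h1]
      have h3 := mul_le_mul_of_nonneg_left b3 hκ16.le
      have h4 : κ / 16 * (2 * (16 / κ) * (x : ℝ) ^ (β / 8)) = 2 * (x : ℝ) ^ (β / 8) := by
        field_simp
      linarith
    have hNH : (x : ℝ) ^ (k / 8) * (h / (d * z)) ≤ κ / 16 * (h * VV (UP M z) / d) := by
      have h1 : (x : ℝ) ^ (k / 8 - θ) ≤ κ / 16 * VV (UP M z) := by
        have h2 : 16 * θ / (κ * c) * (x : ℝ) ^ (k / 8 - θ) * Real.log x *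
            (κ / 16 * (c / (θ * Real.log x))) ≤ 1 * (κ / 16 * (c / (θ * Real.log x))) :=
          mul_le_mul_of_nonneg_right b4 (by positivity)
        have h3 : 16 * θ / (κ * c) * (x : ℝ) ^ (k / 8 - θ) * Real.log x *
            (κ / 16 * (c / (θ * Real.log x))) = (x : ℝ) ^ (k / 8 - θ) := by
          field_simp
        have h4 := mul_le_mul_of_nonneg_left hV hκ16.le
        linarith
      have hzpos : 0 < z := by linarith
      have h2 : (x : ℝ) ^ (k / 8) * (h / (d * z)) = (x : ℝ) ^ (k / 8 - θ) * (h / d) := by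
        rw [Real.rpow_sub hX0, ← hz]
        field_simp
      rw [h2]
      have h3 := mul_le_mul_of_nonneg_right h1 (by positivity : 0 ≤ (h : ℝ) / d)
      refine h3.trans (le_of_eq ?_)
      ring
    have hN2 : (x : ℝ) ^ (k / 8) ≤ κ / 16 * (x : ℝ) ^ (5 * β / 8) := by
      have h3 := mul_le_mul_of_nonneg_left b5 hκ16.le
      have h4 : κ / 16 * ((16 / κ) * (x : ℝ) ^ (k / 8)) = (x : ℝ) ^ (k / 8) := by
        field_simp
      linarith
    have hfin := arith κ _ _ _ _ _ _ _ hκ hW hD3 hbad hZ hNH hN2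
      (Real.rpow_nonneg hX0.le _)
    have hn2 : (n : ℝ) ^ (k / 16) ≤ κ / 2 * (x : ℝ) ^ (5 * β / 8) := by
      have h4 : n < M0 * (x + 1) := by
        rw [← hn]
        exact Nat.lt_mul_div_succ n hM0pos
      have h5 : (n : ℝ) ≤ 2 * M0 * x := by
        have h6 : n ≤ 2 * M0 * x := by
          have : M0 * (x + 1) ≤ 2 * M0 * x := by nlinarith
          omega
        exact_mod_cast h6
      have h6 : (n : ℝ) ^ (k / 16) ≤ (2 * M0 * x : ℝ) ^ (k / 16) :=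
        Real.rpow_le_rpow (Nat.cast_nonneg _) h5 (by linarith)
      rw [Real.mul_rpow (by positivity) hX0.le] at h6
      refine h6.trans ?_
      have h7 := mul_le_mul_of_nonneg_left b6 (by positivity : 0 ≤ κ / 2)
      have h8 : κ / 2 * ((2 * M0 : ℝ) ^ (k / 16) * (2 / κ) * (x : ℝ) ^ (k / 16)) =
          (2 * M0 : ℝ) ^ (k / 16) * (x : ℝ) ^ (k / 16) := by
        field_simp
      linarith
    linarith
  have hdiv : Tendsto (fun n : ℕ => n / M0) atTop atTop :=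
    Nat.tendsto_div_const_atTop hM0pos.ne'
  filter_upwards [hdiv.eventually hx] with n hn
  exact hn n rfl

end FIN1Aux

open FIN1Aux in
theorem stmt_FIN1.{u} (hAS : Stmt_AS.{u}) (hSAP : Stmt_SAP) (hMER : Stmt_MER)
    (hCN1 : Stmt_CN1.{u}) (hCN2 : Stmt_CN2.{u}) : Stmt_FIN1.{u} := by
  obtain ⟨s, hs1, hsap⟩ := hSAP 1 one_pos
  obtain ⟨C, c, hC, hc, hmer⟩ := hMER
  obtain ⟨β, θ, κ, K, hβ, hβ1, hθ, hσ, hκ, hK, has⟩ := hAS (8 * (s + 2)) (by linarith)
  have hm1 : 0 < min θ β := lt_min hθ hβ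
  have hm3 : min θ β ≤ β := min_le_right _ _
  refine ⟨K, min θ β / 16, β / 5, hK, by linarith, by linarith, ?_⟩
  intro Ω _ μ _ u hu hind hev
  let E : ℕ → Set Ω := fun p => {ω | ¬ (p : ℤ) ∣ u p ω}
  have hEp : ∀ p, E p = u p ⁻¹' {a : ℤ | ¬ (p : ℤ) ∣ a} := fun p => rfl
  have hE : ∀ p, MeasurableSet (E p) := fun p => by
    rw [hEp]; exact hu p (MeasurableSet.of_discrete)
  have hI : iIndepSet E μ := by
    rw [iIndepSet_iff_meas_biInter hE]
    intro t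
    have := hind.measure_inter_preimage_eq_mul t
      (sets := fun p : ℕ => {a : ℤ | ¬ (p : ℤ) ∣ a}) (fun p _ => MeasurableSet.of_discrete)
    exact this
  have h1 := has μ E hE hI (hev.mono (fun p hp hpp => (hp hpp).1))
  have h2 := hCN1 μ E hE (min θ β / 16) (by linarith) (hev.mono (fun p hp hpp => (hp hpp).2))
  have h3 := hCN2 μ E hE (min θ β / 16) (min θ β / 8) (by linarith) (by linarith)
    (hev.mono (fun p hp hpp => (hp hpp).2))
  filter_upwards [h1, h2, h3] with ω w1 w2 w3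
  refine det E ω (fun p => u p ω) (fun p => Iff.rfl) β θ κ s c hβ hβ1 hθ hσ hs1 hκ hc ?_ ?_
    w1 w2 w3
  · intro P z hz hP x h q c' hq hcop
    have := (hsap P z hz hP x h q c' hq hcop).2
    norm_num at this ⊢
    exact this
  · intro y hy
    exact (hmer y hy).2.2.2.1
end Pool.Agent.Work.MP_3a3367_nt_log
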