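import Pool.Agent.Work.MP_3a3367_nt_log.Interface

/-!
# Block FIN1, part A: combinatorics and elementary asymptotics
-/

set_option autoImplicit false

namespace Pool.Agent.Work.MP_3a3367_nt_log

open Finset Filter MeasureTheory ProbabilityTheory
open scoped Classical

namespace FIN1Aux

theorem mem_UP (M : Finset ℕ) (z : ℝ) (p : ℕ) (hz : 0 ≤ z) :
    p ∈ UP M z ↔ (p : ℝ) ≤ z ∧ p.Prime ∧ p ∉ M := by
  unfold UP
  rw [Finset.mem_sdiff, Finset.mem_filter, Finset.mem_range, Nat.lt_succ_iff, Nat.le_floor_iff hz]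
  tauto

theorem mem_MV {Ω : Type*} (E : ℕ → Set Ω) (z : ℝ) (hz : 0 ≤ z) (ω : Ω) (p : ℕ) :
    p ∈ MV E z ω ↔ (p : ℝ) ≤ z ∧ p.Prime ∧ ω ∈ E p := by
  unfold MV
  rw [Finset.mem_filter, Finset.mem_filter, Finset.mem_range, Nat.lt_succ_iff, Nat.le_floor_iff hz]
  tauto

theorem VV_anti {P Q : Finset ℕ} (h : P ⊆ Q) (hQ : ∀ p ∈ Q, p.Prime) : VV Q ≤ VV P := by
  unfold VV
  rw [← Finset.prod_sdiff h]
  have h1 : ∏ p ∈ Q \ P, (1 - 1 / (p : ℝ)) ≤ 1 := by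
    refine Finset.prod_le_one (fun p hp => ?_) (fun p hp => ?_)
    · have := (hQ p (Finset.mem_sdiff.1 hp).1).one_lt
      have h2 : (1 : ℝ) ≤ p := by exact_mod_cast this.le
      have : 1 / (p : ℝ) ≤ 1 := by rw [div_le_one (by linarith)]; exact h2
      linarith
    · have : 0 ≤ 1 / (p : ℝ) := by positivity
      linarith
  have h2 : 0 ≤ ∏ p ∈ P, (1 - 1 / (p : ℝ)) := by
    refine Finset.prod_nonneg (fun p hp => ?_)
    have := (hQ p (h hp)).one_lt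
    have h2 : (1 : ℝ) ≤ p := by exact_mod_cast this.le
    have : 1 / (p : ℝ) ≤ 1 := by rw [div_le_one (by linarith)]; exact h2
    linarith
  calc _ ≤ 1 * ∏ p ∈ P, (1 - 1 / (p : ℝ)) := mul_le_mul_of_nonneg_right h1 h2
    _ = _ := one_mul _

/-- A survivor. -/
theorem surv (v : ℕ → ℤ) (M0 : ℕ) (S0 D M : Finset ℕ) (z y : ℝ) (x h m : ℕ) (hz : 0 ≤ z)
    (hM0 : M0 = ∏ p ∈ S0, p) (hS0 : ∀ p ∈ S0, p.Prime ∧ ¬ (p : ℤ) ∣ v p)
    (hM : ∀ p ∈ M, ¬ (p : ℤ) ∣ v p) (hD : ∀ p ∈ D, ¬ (p : ℤ) ∣ v p)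
    (hm : m ∈ Rg (UP M z) x h) (hPF : PF z y m = D)
    (hy : (M0 : ℝ) * (x + h) ≤ y ^ 2) (hy0 : 0 ≤ y) (h2 : 2 ≤ M0 * m)
    (hbad : ∀ p : ℕ, p.Prime → (p : ℝ) ≤ y → ¬ (p : ℤ) ∣ v p → p ∉ S0 → p ∉ D →
      ¬ ((M0 * m : ℕ) : ℤ) ≡ v p [ZMOD p]) :
    M0 * m ∈ Sieve v := by
  unfold Rg at hm
  rw [Finset.mem_filter, Finset.mem_Ioc] at hm
  obtain ⟨⟨hxm, hmx⟩, hmU⟩ := hm
  have hm0 : m ≠ 0 := by omega
  refine ⟨h2, fun p hp hpp => ?_⟩
  have hpy : (p : ℝ) ≤ y := by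
    have h1 : ((p * p : ℕ) : ℝ) ≤ ((M0 * m : ℕ) : ℝ) := by exact_mod_cast hpp
    push_cast at h1
    have h3 : (m : ℝ) ≤ x + h := by exact_mod_cast hmx
    have h4 : (M0 : ℝ) * m ≤ M0 * (x + h) := mul_le_mul_of_nonneg_left h3 (Nat.cast_nonneg _)
    have h5 : (p : ℝ) ^ 2 ≤ y ^ 2 := by nlinarith
    exact (pow_le_pow_iff_left₀ (Nat.cast_nonneg _) hy0 (by norm_num)).1 h5
  by_cases hmv : (p : ℤ) ∣ v p
  · intro hc
    have hd : (p : ℤ) ∣ ((M0 * m : ℕ) : ℤ) := by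
      rw [Int.ModEq] at hc
      rw [Int.dvd_iff_emod_eq_zero] at hmv ⊢
      rw [hc]; exact hmv
    have hd2 : p ∣ M0 * m := by exact_mod_cast hd
    rcases (hp.dvd_mul).1 hd2 with h | h
    · rw [hM0, (hp.prime).dvd_finsetProd_iff] at h
      obtain ⟨q, hq, hpq⟩ := h
      have : p = q := (Nat.prime_dvd_prime_iff_eq hp (hS0 q hq).1).1 hpq
      subst this
      exact (hS0 p hq).2 hmv
    · by_cases hpz : (p : ℝ) ≤ z
      · refine hmU p ?_ h
        rw [mem_UP _ _ _ hz]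
        exact ⟨hpz, hp, fun hpM => hM p hpM hmv⟩
      · have : p ∈ PF z y m := by
          unfold PF
          rw [Finset.mem_filter]
          exact ⟨Nat.mem_primeFactors.2 ⟨hp, h, hm0⟩, lt_of_not_ge hpz, hpy⟩
        rw [hPF] at this
        exact hD p this hmv
  · by_cases hpS : p ∈ S0
    · intro hc
      have hd : p ∣ M0 * m := by
        rw [hM0]
        exact (Finset.dvd_prod_of_mem _ hpS).mul_right m
      have hd' : (p : ℤ) ∣ ((M0 * m : ℕ) : ℤ) := by exact_mod_cast hd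
      rw [Int.ModEq] at hc
      rw [Int.dvd_iff_emod_eq_zero] at hmv hd'
      exact hmv (by rw [← hc]; exact hd')
    · by_cases hpD : p ∈ D
      · intro hc
        have hpm : p ∣ m := by
          rw [← hPF] at hpD
          unfold PF at hpD
          rw [Finset.mem_filter] at hpD
          exact Nat.dvd_of_mem_primeFactors hpD.1
        have hd : p ∣ M0 * m := hpm.mul_left M0
        have hd' : (p : ℤ) ∣ ((M0 * m : ℕ) : ℤ) := by exact_mod_cast hd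
        rw [Int.ModEq] at hc
        rw [Int.dvd_iff_emod_eq_zero] at hmv hd'
        exact hmv (by rw [← hc]; exact hd')
      · exact hbad p hp hpy hmv hpS hpD

/-- The bad elements lie in one residue class. -/
theorem one_class (v : ℕ → ℤ) (M0 : ℕ) (D : Finset ℕ) (p : ℕ) (hp : p.Prime) (hM0 : ¬ p ∣ M0)
    (hD : ∀ q ∈ D, q.Prime) (hpD : p ∉ D) (m m' : ℕ) (hm : ∀ q ∈ D, q ∣ m)
    (hm' : ∀ q ∈ D, q ∣ m') (h1 : ((M0 * m : ℕ) : ℤ) ≡ v p [ZMOD p])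
    (h2 : ((M0 * m' : ℕ) : ℤ) ≡ v p [ZMOD p]) : m ≡ m' [MOD ((∏ q ∈ D, q) * p)] := by
  have hcop : Nat.Coprime (∏ q ∈ D, q) p := by
    refine Nat.Coprime.prod_left (fun q hq => ?_)
    rw [Nat.coprime_primes (hD q hq) hp]
    rintro rfl
    exact hpD hq
  rw [← Nat.modEq_and_modEq_iff_modEq_mul hcop]
  have hd : ∀ k : ℕ, (∀ q ∈ D, q ∣ k) → ∏ q ∈ D, q ∣ k := fun k hk =>
    Finset.prod_primes_dvd k (fun q hq => (hD q hq).prime) hk
  constructor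
  · exact ((Nat.modEq_zero_iff_dvd).2 (hd m hm)).trans ((Nat.modEq_zero_iff_dvd).2 (hd m' hm')).symm
  · have h3 : ((M0 * m : ℕ) : ℤ) ≡ ((M0 * m' : ℕ) : ℤ) [ZMOD p] := h1.trans h2.symm
    have h4 : M0 * m ≡ M0 * m' [MOD p] := (Int.natCast_modEq_iff).1 h3
    exact Nat.ModEq.cancel_left_of_coprime
      (by rw [← Nat.coprime_iff_gcd_eq_one]; exact (Nat.Prime.coprime_iff_not_dvd hp).2 hM0) h4

/-- The number of elements of a class in an interval. -/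
theorem class_card (x h q c : ℕ) (hq : 0 < q) :
    (#((Finset.Ioc x (x + h)).filter (fun m => m ≡ c [MOD q])) : ℝ) ≤ h / q + 1 := by
  have h1 := Nat.Ioc_filter_modEq_card x (x + h) hq c
  have hq' : (0 : ℚ) < q := by exact_mod_cast hq
  have h2 : ((#((Finset.Ioc x (x + h)).filter (fun m => m ≡ c [MOD q])) : ℤ) : ℚ) ≤ h / q + 1 := by
    rw [h1]
    push_cast
    refine max_le ?_ (by positivity)
    have h3 := Int.floor_le (((x : ℚ) + h - c) / q)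
    have h4 := Int.lt_floor_add_one (((x : ℚ) - c) / q)
    have h5 : ((x : ℚ) + h - c) / q = (x - c) / q + h / q := by
      field_simp
      ring
    linarith
  have h3 : (((#((Finset.Ioc x (x + h)).filter (fun m => m ≡ c [MOD q])) : ℤ) : ℚ) : ℝ) ≤
      (((h : ℚ) / q + 1 : ℚ) : ℝ) := by exact_mod_cast h2
  push_cast at h3
  exact h3

/-! ### Asymptotics -/

theorem ev1 (C a b : ℝ) (hab : a < b) : ∀ᶠ x : ℕ in atTop, C * (x : ℝ) ^ a ≤ (x : ℝ) ^ b := by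
  have h1 : Tendsto (fun x : ℕ => (x : ℝ) ^ (b - a)) atTop atTop :=
    (tendsto_rpow_atTop (sub_pos.2 hab)).comp tendsto_natCast_atTop_atTop
  filter_upwards [h1.eventually_ge_atTop C, eventually_ge_atTop 1] with x hx hx1
  have hx0 : (0 : ℝ) < x := by exact_mod_cast hx1
  have h2 : (x : ℝ) ^ b = (x : ℝ) ^ (b - a) * (x : ℝ) ^ a := by
    rw [← Real.rpow_add hx0]; congr 1; ring
  rw [h2]
  exact mul_le_mul_of_nonneg_right hx (Real.rpow_nonneg hx0.le _)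

theorem ev2 (C a b : ℝ) (hC : 0 ≤ C) (hab : a < b) :
    ∀ᶠ x : ℕ in atTop, C * (x : ℝ) ^ a * Real.log x ≤ (x : ℝ) ^ b := by
  have he : 0 < (b - a) / 2 := by linarith
  filter_upwards [ev1 (C / ((b - a) / 2)) (a + (b - a) / 2) b (by linarith),
    eventually_ge_atTop 1] with x hx hx1
  have hx0 : (0 : ℝ) < x := by exact_mod_cast hx1
  refine le_trans ?_ hx
  have h1 := Real.log_le_rpow_div hx0.le he
  calc C * (x : ℝ) ^ a * Real.log x ≤ C * (x : ℝ) ^ a * ((x : ℝ) ^ ((b - a) / 2) / ((b - a) / 2)) :=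
        mul_le_mul_of_nonneg_left h1 (mul_nonneg hC (Real.rpow_nonneg hx0.le _))
    _ = C / ((b - a) / 2) * (x : ℝ) ^ (a + (b - a) / 2) := by
        rw [Real.rpow_add hx0]; ring

end FIN1Aux

end Pool.Agent.Work.MP_3a3367_nt_log
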