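import Pool.Agent.Work.MP_3a3367_nt_log.FIN1A

/-!
# Block FIN1, part B: counting the bad elements
-/

set_option autoImplicit false

namespace Pool.Agent.Work.MP_3a3367_nt_log

open Finset Filter MeasureTheory ProbabilityTheory
open scoped Classical

namespace FIN1Aux

/-- The setting at a given `x`. -/
structure Setting (v : ℕ → ℤ) (M0 : ℕ) (S0 D M Q S : Finset ℕ) (z y s : ℝ) (x h : ℕ) : Prop where
  hz : 2 ≤ z
  hy : z ≤ y
  hM0 : M0 = ∏ p ∈ S0, p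
  hS0 : ∀ p ∈ S0, p.Prime ∧ ¬ (p : ℤ) ∣ v p
  hM : ∀ p, p ∈ M ↔ (p : ℝ) ≤ z ∧ p.Prime ∧ ¬ (p : ℤ) ∣ v p
  hD : ∀ p ∈ D, p.Prime ∧ z < (p : ℝ) ∧ ¬ (p : ℤ) ∣ v p
  hQ : ∀ p, p ∈ Q ↔ (p : ℝ) ≤ y ∧ p.Prime ∧ ¬ (p : ℤ) ∣ v p ∧ p ∉ S0 ∧ p ∉ D
  hS : ∀ m ∈ S, m ∈ Rg (UP M z) x h ∧ PF z y m = D
  hxy : (M0 : ℝ) * (x + h) ≤ y ^ 2
  hx : 1 ≤ x
  sap : ∀ (P : Finset ℕ), (∀ p ∈ P, p.Prime ∧ (p : ℝ) ≤ z) → ∀ (q c : ℕ), 0 < q →
    (∀ p ∈ P, Nat.Coprime q p) →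
    (#((Rg P x h).filter (fun m => m ≡ c [MOD q])) : ℝ) ≤ 2 * (h / q * VV P) + z ^ s

variable {v : ℕ → ℤ} {M0 : ℕ} {S0 D M Q S : Finset ℕ} {z y s : ℝ} {x h : ℕ}

/-- The bad elements for `p`. -/
noncomputable def Bp (v : ℕ → ℤ) (M0 : ℕ) (S : Finset ℕ) (p : ℕ) : Finset ℕ :=
  S.filter (fun m => ((M0 * m : ℕ) : ℤ) ≡ v p [ZMOD p])

theorem Setting.not_dvd_M0 (T : Setting v M0 S0 D M Q S z y s x h) {p : ℕ} (hp : p ∈ Q) :
    ¬ p ∣ M0 := by
  obtain ⟨-, hpp, -, hpS, -⟩ := (T.hQ p).1 hp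
  rw [T.hM0, (hpp.prime).dvd_finsetProd_iff]
  rintro ⟨q, hq, hpq⟩
  have : p = q := (Nat.prime_dvd_prime_iff_eq hpp (T.hS0 q hq).1).1 hpq
  subst this
  exact hpS hq

theorem Setting.M0_pos (T : Setting v M0 S0 D M Q S z y s x h) : 0 < M0 := by
  rw [T.hM0]
  exact Finset.prod_pos (fun p hp => (T.hS0 p hp).1.pos)

theorem Setting.D_dvd (T : Setting v M0 S0 D M Q S z y s x h) {m : ℕ} (hm : m ∈ S) :
    ∀ q ∈ D, q ∣ m := by
  intro q hq
  rw [← (T.hS m hm).2] at hq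
  unfold PF at hq
  rw [Finset.mem_filter] at hq
  exact Nat.dvd_of_mem_primeFactors hq.1

theorem Setting.cls (T : Setting v M0 S0 D M Q S z y s x h) {p : ℕ} (hp : p ∈ Q) :
    ∃ c : ℕ, ∀ m ∈ Bp v M0 S p, m ≡ c [MOD ((∏ q ∈ D, q) * p)] := by
  by_cases hne : (Bp v M0 S p).Nonempty
  · obtain ⟨c, hc⟩ := hne
    refine ⟨c, fun m hm => ?_⟩
    obtain ⟨-, hpp, -, -, hpD⟩ := (T.hQ p).1 hp
    unfold Bp at hc hm
    rw [Finset.mem_filter] at hc hm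
    exact one_class v M0 D p hpp (T.not_dvd_M0 hp) (fun q hq => (T.hD q hq).1) hpD m c
      (T.D_dvd hm.1) (T.D_dvd hc.1) hm.2 hc.2
  · rw [Finset.not_nonempty_iff_eq_empty] at hne
    exact ⟨0, by simp [hne]⟩

theorem Setting.q_pos (T : Setting v M0 S0 D M Q S z y s x h) {p : ℕ} (hp : p ∈ Q) :
    0 < (∏ q ∈ D, q) * p :=
  Nat.mul_pos (Finset.prod_pos (fun q hq => (T.hD q hq).1.pos)) ((T.hQ p).1 hp).2.1.pos

theorem Setting.bad_large (T : Setting v M0 S0 D M Q S z y s x h) {p : ℕ} (hp : p ∈ Q) :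
    (#(Bp v M0 S p) : ℝ) ≤ h / ((∏ q ∈ D, (q : ℝ)) * p) + 1 := by
  obtain ⟨c, hc⟩ := T.cls hp
  have h1 : Bp v M0 S p ⊆
      (Finset.Ioc x (x + h)).filter (fun m => m ≡ c [MOD ((∏ q ∈ D, q) * p)]) := by
    intro m hm
    rw [Finset.mem_filter]
    refine ⟨?_, hc m hm⟩
    unfold Bp at hm
    rw [Finset.mem_filter] at hm
    have := (T.hS m hm.1).1
    unfold Rg at this
    exact (Finset.mem_filter.1 this).1
  have h2 := class_card x h _ c (T.q_pos hp)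
  have h3 : (#(Bp v M0 S p) : ℝ) ≤
      (#((Finset.Ioc x (x + h)).filter (fun m => m ≡ c [MOD ((∏ q ∈ D, q) * p)])) : ℝ) := by
    exact_mod_cast Finset.card_le_card h1
  refine h3.trans (h2.trans (le_of_eq ?_))
  push_cast
  rfl

theorem Setting.bad_small (T : Setting v M0 S0 D M Q S z y s x h) {p : ℕ} (hp : p ∈ Q)
    (hpz : (p : ℝ) ≤ z) :
    (#(Bp v M0 S p) : ℝ) ≤ 2 * (h * VV (UP M z) / ∏ q ∈ D, (q : ℝ)) * (1 / p) + z ^ s := by
  obtain ⟨c, hc⟩ := T.cls hp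
  have hz0 : 0 ≤ z := by linarith [T.hz]
  have h1 : Bp v M0 S p ⊆
      (Rg (UP M z) x h).filter (fun m => m ≡ c [MOD ((∏ q ∈ D, q) * p)]) := by
    intro m hm
    rw [Finset.mem_filter]
    refine ⟨?_, hc m hm⟩
    unfold Bp at hm
    rw [Finset.mem_filter] at hm
    exact (T.hS m hm.1).1
  have h2 := T.sap (UP M z) (fun p hp => by
    rw [mem_UP _ _ _ hz0] at hp; exact ⟨hp.2.1, hp.1⟩) _ c (T.q_pos hp) (fun r hr => by
    rw [mem_UP _ _ _ hz0] at hr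
    obtain ⟨hrz, hrp, hrM⟩ := hr
    refine Nat.Coprime.mul_left ?_ ?_
    · refine Nat.Coprime.prod_left (fun q hq => ?_)
      rw [Nat.coprime_primes (T.hD q hq).1 hrp]
      rintro rfl
      exact absurd (T.hD q hq).2.1 (not_lt.2 hrz)
    · obtain ⟨-, hpp, hpm, -, -⟩ := (T.hQ p).1 hp
      rw [Nat.coprime_primes hpp hrp]
      rintro rfl
      exact hrM ((T.hM p).2 ⟨hpz, hpp, hpm⟩))
  have h3 : (#(Bp v M0 S p) : ℝ) ≤
      (#((Rg (UP M z) x h).filter (fun m => m ≡ c [MOD ((∏ q ∈ D, q) * p)])) : ℝ) := by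
    exact_mod_cast Finset.card_le_card h1
  refine h3.trans (h2.trans (le_of_eq ?_))
  push_cast
  have hd : (∏ q ∈ D, (q : ℝ)) ≠ 0 := by
    refine Finset.prod_ne_zero_iff.2 (fun q hq => ?_)
    exact_mod_cast (T.hD q hq).1.ne_zero
  have hp0 : (p : ℝ) ≠ 0 := by exact_mod_cast ((T.hQ p).1 hp).2.1.ne_zero
  field_simp

/-- The total number of bad elements. -/
theorem Setting.bad (T : Setting v M0 S0 D M Q S z y s x h) (κ N : ℝ)
    (hκ : ∑ p ∈ Q.filter (fun p : ℕ => (p : ℝ) ≤ z), 1 / (p : ℝ) ≤ κ / 16)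
    (hN : (#Q : ℝ) ≤ N) :
    (#(Q.biUnion (Bp v M0 S)) : ℝ) ≤
      κ / 8 * (h * VV (UP M z) / ∏ q ∈ D, (q : ℝ)) + 2 * (z * z ^ s) +
        N * (h / ((∏ q ∈ D, (q : ℝ)) * z) + 1) := by
  have hz0 : 0 < z := by linarith [T.hz]
  have hd : 0 < ∏ q ∈ D, (q : ℝ) := by
    refine Finset.prod_pos (fun q hq => ?_)
    exact_mod_cast (T.hD q hq).1.pos
  have hV : 0 ≤ VV (UP M z) := by
    unfold VV
    refine Finset.prod_nonneg (fun p hp => ?_)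
    rw [mem_UP _ _ _ hz0.le] at hp
    have h2 : (1 : ℝ) ≤ p := by exact_mod_cast hp.2.1.one_lt.le
    have : 1 / (p : ℝ) ≤ 1 := by rw [div_le_one (by linarith)]; exact h2
    linarith
  have hX : 0 ≤ h * VV (UP M z) / ∏ q ∈ D, (q : ℝ) := by positivity
  have h1 : (#(Q.biUnion (Bp v M0 S)) : ℝ) ≤ ∑ p ∈ Q, (#(Bp v M0 S p) : ℝ) := by
    exact_mod_cast Finset.card_biUnion_le
  have h2 := Finset.sum_filter_add_sum_filter_not Q (fun p : ℕ => (p : ℝ) ≤ z)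
    (fun p => (#(Bp v M0 S p) : ℝ))
  have h3 : ∑ p ∈ Q.filter (fun p : ℕ => (p : ℝ) ≤ z), (#(Bp v M0 S p) : ℝ) ≤
      κ / 8 * (h * VV (UP M z) / ∏ q ∈ D, (q : ℝ)) + 2 * (z * z ^ s) := by
    calc ∑ p ∈ Q.filter (fun p : ℕ => (p : ℝ) ≤ z), (#(Bp v M0 S p) : ℝ)
        ≤ ∑ p ∈ Q.filter (fun p : ℕ => (p : ℝ) ≤ z),
          (2 * (h * VV (UP M z) / ∏ q ∈ D, (q : ℝ)) * (1 / p) + z ^ s) :=
          Finset.sum_le_sum (fun p hp => by
            rw [Finset.mem_filter] at hp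
            exact T.bad_small hp.1 hp.2)
      _ = 2 * (h * VV (UP M z) / ∏ q ∈ D, (q : ℝ)) *
            (∑ p ∈ Q.filter (fun p : ℕ => (p : ℝ) ≤ z), 1 / (p : ℝ)) +
          #(Q.filter (fun p : ℕ => (p : ℝ) ≤ z)) * z ^ s := by
          rw [Finset.sum_add_distrib, ← Finset.mul_sum, Finset.sum_const, nsmul_eq_mul]
      _ ≤ 2 * (h * VV (UP M z) / ∏ q ∈ D, (q : ℝ)) * (κ / 16) + (2 * z) * z ^ s := by
          refine add_le_add (mul_le_mul_of_nonneg_left hκ (by linarith)) ?_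
          refine mul_le_mul_of_nonneg_right ?_ (Real.rpow_nonneg hz0.le _)
          have h4 : Q.filter (fun p : ℕ => (p : ℝ) ≤ z) ⊆ Finset.range (⌊z⌋₊ + 1) := by
            intro p hp
            rw [Finset.mem_filter] at hp
            rw [Finset.mem_range, Nat.lt_succ_iff, Nat.le_floor_iff hz0.le]
            exact hp.2
          have h5 : (#(Q.filter (fun p : ℕ => (p : ℝ) ≤ z)) : ℝ) ≤ (⌊z⌋₊ : ℝ) + 1 := by
            have := Finset.card_le_card h4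
            rw [Finset.card_range] at this
            exact_mod_cast this
          have h6 := Nat.floor_le hz0.le
          linarith [T.hz]
      _ = _ := by ring
  have h4 : ∑ p ∈ Q.filter (fun p : ℕ => ¬ (p : ℝ) ≤ z), (#(Bp v M0 S p) : ℝ) ≤
      N * (h / ((∏ q ∈ D, (q : ℝ)) * z) + 1) := by
    have hb : 0 ≤ (h : ℝ) / ((∏ q ∈ D, (q : ℝ)) * z) + 1 := by positivity
    calc ∑ p ∈ Q.filter (fun p : ℕ => ¬ (p : ℝ) ≤ z), (#(Bp v M0 S p) : ℝ)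
        ≤ ∑ p ∈ Q.filter (fun p : ℕ => ¬ (p : ℝ) ≤ z),
          ((h : ℝ) / ((∏ q ∈ D, (q : ℝ)) * z) + 1) := by
          refine Finset.sum_le_sum (fun p hp => ?_)
          rw [Finset.mem_filter, not_le] at hp
          refine (T.bad_large hp.1).trans ?_
          have : (h : ℝ) / ((∏ q ∈ D, (q : ℝ)) * p) ≤ h / ((∏ q ∈ D, (q : ℝ)) * z) :=
            div_le_div_of_nonneg_left (Nat.cast_nonneg _) (by positivity)
              (mul_le_mul_of_nonneg_left hp.2.le hd.le)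
          linarith
      _ = #(Q.filter (fun p : ℕ => ¬ (p : ℝ) ≤ z)) *
          ((h : ℝ) / ((∏ q ∈ D, (q : ℝ)) * z) + 1) := by
          rw [Finset.sum_const, nsmul_eq_mul]
      _ ≤ _ := by
          refine mul_le_mul_of_nonneg_right (le_trans ?_ hN) hb
          exact_mod_cast Finset.card_le_card (Finset.filter_subset _ _)
  linarith

/-- The survivors in the window. -/
theorem Setting.survivors (T : Setting v M0 S0 D M Q S z y s x h) (U : Set ℕ) (hU : U.Finite)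
    (hSU : ∀ m ∈ S, M0 * m ∈ Sieve v → M0 * m ∈ U) :
    (#S : ℝ) - #(Q.biUnion (Bp v M0 S)) ≤ ((Sieve v ∩ U).ncard : ℝ) := by
  have hz0 : 0 ≤ z := by linarith [T.hz]
  have hpos := T.M0_pos
  have h1 : (((S \ Q.biUnion (Bp v M0 S)).image (fun m => M0 * m) : Finset ℕ) : Set ℕ) ⊆
      Sieve v ∩ U := by
    intro k hk
    rw [Finset.mem_coe, Finset.mem_image] at hk
    obtain ⟨m, hm, rfl⟩ := hk
    rw [Finset.mem_sdiff, Finset.mem_biUnion] at hm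
    obtain ⟨hmS, hmB⟩ := hm
    have hm1 := T.hS m hmS
    have h2 : 2 ≤ M0 * m := by
      have h3 := hm1.1
      unfold Rg at h3
      rw [Finset.mem_filter, Finset.mem_Ioc] at h3
      have h4 := T.hx
      have h5 : 2 ≤ m := by omega
      calc 2 ≤ m := h5
        _ = 1 * m := (one_mul m).symm
        _ ≤ M0 * m := Nat.mul_le_mul_right m hpos
    have h3 : M0 * m ∈ Sieve v := by
      refine surv v M0 S0 D M z y x h m hz0 T.hM0 T.hS0 (fun p hp => ((T.hM p).1 hp).2.2)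
        (fun p hp => (T.hD p hp).2.2) hm1.1 hm1.2 T.hxy (hz0.trans T.hy) h2 ?_
      intro p hp hpy hpm hpS hpD hc
      refine hmB ⟨p, (T.hQ p).2 ⟨hpy, hp, hpm, hpS, hpD⟩, ?_⟩
      unfold Bp
      rw [Finset.mem_filter]
      exact ⟨hmS, hc⟩
    exact ⟨h3, hSU m hmS h3⟩
  have h2 : #(S \ Q.biUnion (Bp v M0 S)) ≤ (Sieve v ∩ U).ncard := by
    have h3 := Set.ncard_le_ncard h1 (hU.subset Set.inter_subset_right)
    rw [Set.ncard_coe_finset, Finset.card_image_of_injective] at h3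
    · exact h3
    · intro a b hab
      exact Nat.eq_of_mul_eq_mul_left hpos hab
  have h3 : #S - #(Q.biUnion (Bp v M0 S)) ≤ #(S \ Q.biUnion (Bp v M0 S)) :=
    Finset.le_card_sdiff _ _
  have h4 : (#S : ℝ) - #(Q.biUnion (Bp v M0 S)) ≤ (#(S \ Q.biUnion (Bp v M0 S)) : ℝ) := by
    have h5 : #S ≤ #(S \ Q.biUnion (Bp v M0 S)) + #(Q.biUnion (Bp v M0 S)) := by omega
    have h6 : (#S : ℝ) ≤ #(S \ Q.biUnion (Bp v M0 S)) + #(Q.biUnion (Bp v M0 S)) := by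
      exact_mod_cast h5
    linarith
  have h5 : (#(S \ Q.biUnion (Bp v M0 S)) : ℝ) ≤ ((Sieve v ∩ U).ncard : ℝ) := by
    exact_mod_cast h2
  linarith

end FIN1Aux

end Pool.Agent.Work.MP_3a3367_nt_log
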