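import Pool.Agent.Work.MP_3a3367_nt_log.Interface

/-!
# Interface, second part: the uniform form of the final theorem
-/

set_option autoImplicit false

namespace Pool.Agent.Work.MP_3a3367_nt_log

open Finset Filter MeasureTheory ProbabilityTheory
open scoped Classical

/-- FIN3: the final theorem for a random set of moved primes, uniform in the choice of the new
nonzero classes. -/
def Stmt_FIN3.{u} : Prop := ∃ K κ δ : ℝ, 1 ≤ K ∧ 0 < κ ∧ κ ≤ 1 / 2 ∧ 0 < δ ∧ δ ≤ 1 / 2 ∧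
  ∀ {Ω : Type u} [MeasurableSpace Ω] (μ : Measure Ω) [IsProbabilityMeasure μ] (E : ℕ → Set Ω),
  (∀ p, MeasurableSet (E p)) → iIndepSet E μ →
  (∀ᶠ p : ℕ in atTop, p.Prime → K * (Real.log p / p) ≤ μ.real (E p) ∧
    μ.real (E p) ≤ (p : ℝ) ^ (κ - 1)) →
  ∀ᵐ ω ∂μ, ∃ n₀ : ℕ, ∀ u : ℕ → ℤ, (∀ p : ℕ, p.Prime → ((p : ℤ) ∣ u p ↔ ω ∉ E p)) →
    ∀ n : ℕ, n₀ ≤ n → (n : ℝ) ^ κ ≤
      ((Sieve u ∩ {m | n < m ∧ (m : ℝ) ≤ n + (n : ℝ) ^ (1 / 2 - δ)}).ncard : ℝ)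

/-- CN4: the number of moved primes up to `N` is at most twice its expectation, for all large
`N`. -/
def Stmt_CN4.{u} : Prop := ∀ {Ω : Type u} [MeasurableSpace Ω] (μ : Measure Ω)
  [IsProbabilityMeasure μ] (E : ℕ → Set Ω), (∀ p, MeasurableSet (E p)) → iIndepSet E μ →
  (∀ᶠ p : ℕ in atTop, p.Prime → 12 * (Real.log p / p) ≤ μ.real (E p)) →
  ∀ᵐ ω ∂μ, ∀ᶠ N : ℕ in atTop, (#(MV E N ω) : ℝ) ≤
    2 * ∑ p ∈ (Finset.range (N + 1)).filter Nat.Prime, μ.real (E p)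

end Pool.Agent.Work.MP_3a3367_nt_log
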