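import Pool.Agent.Work.MP_3a3367_nt_log.Interface
import Pool.Agent.Work.MP_1ea053_nt.BHAux

/-!
# Block FL: the fundamental lemma of the sieve (Brun–Hooley weights)
-/

set_option autoImplicit false

namespace Pool.Agent.Work.MP_3a3367_nt_log.FL_

open Finset
open scoped Classical
open Pool.Agent.GapTwo (PR mem_PR)
open Pool.Agent.GapTwo.BH_

/-! ## The lower coefficients -/

/-- One factor of the correction term. -/
noncomputable def hh (b j i s : ℕ) : ℝ :=
  if i = j then (if s = 2 * (b + i) + 1 then 1 else 0) else cf (2 * (b + i)) s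

/-- The lower coefficients. -/
noncomputable def gL {α : Type*} (X : Finset α) (bk : α → ℕ) (b J : ℕ) (T : Finset α) : ℝ :=
  if T ⊆ X then ∏ j ∈ range J, cf (2 * (b + j)) (T.filter fun x => bk x = j).card -
    ∑ j ∈ range J, ∏ i ∈ range J, hh b j i (T.filter fun x => bk x = i).card else 0

lemma hh_abs (b j i s : ℕ) : |hh b j i s| ≤ 1 := by
  unfold hh
  split_ifs
  · simp
  · simp
  · exact cf_abs _ _

lemma cf_eq_zero {m s : ℕ} (h : m < s) : cf m s = 0 := by
  unfold cf
  rw [if_neg (by omega)]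

/-- The two cases. -/
lemma gL_cases {α : Type*} (X : Finset α) (bk : α → ℕ) (b J : ℕ) (T : Finset α) (hT : T ⊆ X) :
    ((∀ j < J, (T.filter fun x => bk x = j).card ≤ 2 * (b + j)) ∧
      gL X bk b J T = ∏ j ∈ range J, cf (2 * (b + j)) (T.filter fun x => bk x = j).card) ∨
    ∃ i₀ < J, 2 * (b + i₀) < (T.filter fun x => bk x = i₀).card ∧
      gL X bk b J T = - ∏ i ∈ range J, hh b i₀ i (T.filter fun x => bk x = i).card := by
  by_cases h : ∀ j < J, (T.filter fun x => bk x = j).card ≤ 2 * (b + j)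
  · left
    refine ⟨h, ?_⟩
    unfold gL
    rw [if_pos hT, sum_eq_zero, sub_zero]
    intro j hj
    rw [prod_eq_zero hj]
    unfold hh
    rw [if_pos rfl, if_neg]
    have := h j (mem_range.1 hj)
    omega
  · right
    push Not at h
    obtain ⟨i₀, hi₀, hc⟩ := h
    refine ⟨i₀, hi₀, hc, ?_⟩
    unfold gL
    have h0 : ∏ j ∈ range J, cf (2 * (b + j)) (T.filter fun x => bk x = j).card = 0 :=
      prod_eq_zero (mem_range.2 hi₀) (cf_eq_zero hc)
    rw [if_pos hT, h0, zero_sub]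
    congr 1
    refine sum_eq_single i₀ (fun j _ hj => ?_) fun h => absurd (mem_range.2 hi₀) h
    rw [prod_eq_zero (mem_range.2 hi₀)]
    unfold hh
    rw [if_neg (Ne.symm hj)]
    exact cf_eq_zero hc

lemma gL_abs {α : Type*} (X : Finset α) (bk : α → ℕ) (b J : ℕ) (T : Finset α) :
    |gL X bk b J T| ≤ 1 := by
  by_cases hT : T ⊆ X
  · rcases gL_cases X bk b J T hT with ⟨_, h⟩ | ⟨i₀, _, _, h⟩
    · rw [h, abs_prod]
      exact prod_le_one (fun j _ => abs_nonneg _) fun j _ => cf_abs _ _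
    · rw [h, abs_neg, abs_prod]
      exact prod_le_one (fun j _ => abs_nonneg _) fun j _ => hh_abs _ _ _ _
  · unfold gL
    rw [if_neg hT]
    simp

lemma gL_supp {α : Type*} {X : Finset α} {bk : α → ℕ} {b J : ℕ} {T : Finset α}
    (h : gL X bk b J T ≠ 0) :
    T ⊆ X ∧ ∀ j < J, (T.filter fun x => bk x = j).card ≤ 2 * (b + j) + 1 := by
  have hT : T ⊆ X := by
    by_contra hT
    apply h
    unfold gL
    rw [if_neg hT]
  refine ⟨hT, fun j hj => ?_⟩
  rcases gL_cases X bk b J T hT with ⟨h1, _⟩ | ⟨i₀, hi₀, h1, h2⟩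
  · exact (h1 j hj).trans (Nat.le_succ _)
  · rw [h2, neg_ne_zero, prod_ne_zero_iff] at h
    have h3 := h j (mem_range.2 hj)
    unfold hh at h3
    split_ifs at h3 with h4 h5
    · omega
    · exact absurd rfl h3
    · by_contra h6
      exact h3 (cf_eq_zero (by omega))

/-- The sum of the `(m + 1)`-fold products. -/
noncomputable def EE {α : Type*} (P : Finset α) (w : α → ℝ) (m : ℕ) : ℝ :=
  ∑ T ∈ P.powersetCard (m + 1), ∏ p ∈ T, w p

lemma sum_gL {α : Type*} (X S : Finset α) (hS : S ⊆ X) (bk : α → ℕ) (b J : ℕ)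
    (hX : ∀ x ∈ X, bk x < J) (w : α → ℝ) :
    ∑ T ∈ S.powerset, gL X bk b J T * ∏ x ∈ T, w x =
      ∏ j ∈ range J, AT (S.filter fun x => bk x = j) w (2 * (b + j)) -
      ∑ j ∈ range J, ∏ i ∈ range J, (if i = j then EE (S.filter fun x => bk x = i) w (2 * (b + i))
        else AT (S.filter fun x => bk x = i) w (2 * (b + i))) := by
  have h1 : ∑ T ∈ S.powerset, gL X bk b J T * ∏ x ∈ T, w x =
      ∑ T ∈ S.powerset, (∏ j ∈ range J, cf (2 * (b + j)) (T.filter fun x => bk x = j).card) *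
        ∏ x ∈ T, w x - ∑ j ∈ range J, ∑ T ∈ S.powerset,
        (∏ i ∈ range J, hh b j i (T.filter fun x => bk x = i).card) * ∏ x ∈ T, w x := by
    rw [sum_comm, ← sum_sub_distrib]
    refine sum_congr rfl fun T hT => ?_
    rw [mem_powerset] at hT
    unfold gL
    rw [if_pos (hT.trans hS), sub_mul, sum_mul]
  rw [h1, sum_blocks_w bk (fun j T => cf (2 * (b + j)) T.card) w J S (fun x hx => hX x (hS hx))]
  congr 1
  · refine sum_congr rfl fun j _ => ?_
    rw [sum_blocks_w bk (fun i T => hh b j i T.card) w J S (fun x hx => hX x (hS hx))]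
    refine prod_congr rfl fun i _ => ?_
    by_cases hij : i = j
    · rw [if_pos hij]
      unfold EE
      have h : (S.filter fun x => bk x = i).powersetCard (2 * (b + i) + 1) =
          (S.filter fun x => bk x = i).powerset.filter (fun T => T.card = 2 * (b + i) + 1) := by
        ext T
        rw [mem_powersetCard, mem_filter, mem_powerset]
      rw [h, sum_filter]
      refine sum_congr rfl fun T _ => ?_
      unfold hh
      rw [if_pos hij]
      split_ifs <;> simp
    · rw [if_neg hij]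
      unfold AT
      refine sum_congr rfl fun T _ => ?_
      unfold hh cf
      rw [if_neg hij]

lemma sum_cB {α : Type*} (X S : Finset α) (hS : S ⊆ X) (bk : α → ℕ) (b J : ℕ)
    (hX : ∀ x ∈ X, bk x < J) (w : α → ℝ) :
    ∑ T ∈ S.powerset, cB X bk b J T * ∏ x ∈ T, w x =
      ∏ j ∈ range J, AT (S.filter fun x => bk x = j) w (2 * (b + j)) := by
  have h1 : ∑ T ∈ S.powerset, cB X bk b J T * ∏ x ∈ T, w x =
      ∑ T ∈ S.powerset, (∏ j ∈ range J, cf (2 * (b + j)) (T.filter fun x => bk x = j).card) *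
        ∏ x ∈ T, w x := by
    refine sum_congr rfl fun T hT => ?_
    rw [mem_powerset] at hT
    unfold cB
    rw [if_pos (hT.trans hS)]
  rw [h1, sum_blocks_w bk (fun j T => cf (2 * (b + j)) T.card) w J S (fun x hx => hX x (hS hx))]
  rfl

lemma EE_nonneg {α : Type*} (P : Finset α) (w : α → ℝ) (hw : ∀ p ∈ P, 0 ≤ w p) (m : ℕ) :
    0 ≤ EE P w m := by
  unfold EE
  refine sum_nonneg fun T hT => prod_nonneg fun p hp => ?_
  rw [mem_powersetCard] at hT
  exact hw p (hT.1 hp)

/-- The two-sided bound for one block. -/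
lemma AT_bounds {α : Type*} (P : Finset α) (w : α → ℝ) (hw : ∀ p ∈ P, 0 ≤ w p ∧ w p ≤ 1) (m : ℕ)
    (hm : Even m) : ∏ p ∈ P, (1 - w p) ≤ AT P w m ∧ AT P w m ≤ ∏ p ∈ P, (1 - w p) + EE P w m := by
  refine ⟨(bonferroni w P hw m).1 hm, ?_⟩
  have h1 := (bonferroni w P hw (m + 1)).2 hm.add_one
  rw [AT_succ, hm.add_one.neg_one_pow] at h1
  unfold EE
  linarith

/-- The upper bound for the lower weights. -/
lemma low_le (V A E : ℕ → ℝ) (J : ℕ) (h : ∀ j < J, 0 ≤ V j ∧ V j ≤ A j ∧ A j ≤ V j + E j) :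
    ∏ j ∈ range J, A j - ∑ j ∈ range J, ∏ i ∈ range J, (if i = j then E i else A i) ≤
      ∏ j ∈ range J, V j := by
  induction J with
  | zero => simp
  | succ J ih =>
    have ih' := ih fun j hj => h j (by omega)
    obtain ⟨h1, h2, h3⟩ := h J (by omega)
    have hW : 0 ≤ ∏ j ∈ range J, V j :=
      prod_nonneg fun j hj => (h j (by rw [mem_range] at hj; omega)).1
    have hWA : ∏ j ∈ range J, V j ≤ ∏ j ∈ range J, A j :=
      prod_le_prod (fun j hj => (h j (by rw [mem_range] at hj; omega)).1)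
        fun j hj => (h j (by rw [mem_range] at hj; omega)).2.1
    have hE : 0 ≤ E J := by linarith
    have hs : ∑ j ∈ range (J + 1), ∏ i ∈ range (J + 1), (if i = j then E i else A i) =
        (∑ j ∈ range J, ∏ i ∈ range J, (if i = j then E i else A i)) * A J +
          (∏ i ∈ range J, A i) * E J := by
      rw [sum_range_succ, sum_mul]
      congr 1
      · refine sum_congr rfl fun j hj => ?_
        rw [mem_range] at hj
        rw [prod_range_succ, if_neg (by omega)]
      · rw [prod_range_succ, if_pos rfl]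
        congr 1
        refine prod_congr rfl fun i hi => ?_
        rw [mem_range] at hi
        rw [if_neg (by omega)]
    rw [hs, prod_range_succ, prod_range_succ]
    have h4 : (∏ j ∈ range J, A j - ∑ j ∈ range J, ∏ i ∈ range J, (if i = j then E i else A i)) *
        A J ≤ (∏ j ∈ range J, V j) * A J := mul_le_mul_of_nonneg_right ih' (h1.trans h2)
    have h5 : (∏ j ∈ range J, V j) * E J ≤ (∏ j ∈ range J, A j) * E J :=
      mul_le_mul_of_nonneg_right hWA hE
    have h6 : (∏ j ∈ range J, V j) * A J ≤ (∏ j ∈ range J, V j) * (V J + E J) :=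
      mul_le_mul_of_nonneg_left h3 hW
    nlinarith

/-- The lower bound for the lower weights. -/
lemma low_ge (V A E : ℕ → ℝ) (J : ℕ) (K : ℝ) (hK : 0 ≤ K) (hK1 : 2 * K ≤ 1)
    (h : ∀ j < J, 0 < V j ∧ V j ≤ A j ∧ 0 ≤ E j ∧ E j ≤ V j * (K * (1 / 4) ^ j)) :
    (1 - 2 * K) * ∏ j ∈ range J, V j ≤
      ∏ j ∈ range J, A j - ∑ j ∈ range J, ∏ i ∈ range J, (if i = j then E i else A i) := by
  have hA : ∀ j ∈ range J, 0 < A j := fun j hj =>
    (h j (mem_range.1 hj)).1.trans_le (h j (mem_range.1 hj)).2.1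
  have h1 : ∀ j ∈ range J, ∏ i ∈ range J, (if i = j then E i else A i) ≤
      (∏ i ∈ range J, A i) * (K * (1 / 4) ^ j) := by
    intro j hj
    have h2 : ∏ i ∈ range J, (if i = j then E i else A i) =
        (∏ i ∈ range J, A i) * (E j / A j) := by
      have h3 : ∀ i ∈ range J, (if i = j then E i else A i) =
          A i * (if i = j then E j / A j else 1) := by
        intro i hi
        by_cases hij : i = j
        · subst hij
          rw [if_pos rfl, if_pos rfl]
          field_simp [(hA i hi).ne']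
        · rw [if_neg hij, if_neg hij, mul_one]
      rw [prod_congr rfl h3, prod_mul_distrib, prod_ite_eq', if_pos hj]
    rw [h2]
    refine mul_le_mul_of_nonneg_left ?_ (prod_nonneg fun i hi => (hA i hi).le)
    obtain ⟨a1, a2, a3, a4⟩ := h j (mem_range.1 hj)
    rw [div_le_iff₀ (hA j hj)]
    have a5 : V j * (K * (1 / 4) ^ j) ≤ A j * (K * (1 / 4) ^ j) :=
      mul_le_mul_of_nonneg_right a2 (by positivity)
    linarith
  have h2 : ∑ j ∈ range J, ∏ i ∈ range J, (if i = j then E i else A i) ≤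
      (∏ i ∈ range J, A i) * (2 * K) := by
    refine (sum_le_sum h1).trans ?_
    rw [← mul_sum, ← mul_sum]
    refine mul_le_mul_of_nonneg_left ?_ (prod_nonneg fun i hi => (hA i hi).le)
    have h3 : ∀ J : ℕ, ∑ j ∈ range J, (1 / 4 : ℝ) ^ j = 4 / 3 - (1 / 4) ^ J * (4 / 3) := by
      intro J
      induction J with
      | zero => simp
      | succ J ih => rw [sum_range_succ, ih, pow_succ]; ring
    rw [h3]
    have h4 : (0 : ℝ) ≤ (1 / 4) ^ J * (4 / 3) := by positivity
    nlinarith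
  have h3 : ∏ j ∈ range J, V j ≤ ∏ j ∈ range J, A j :=
    prod_le_prod (fun j hj => (h j (mem_range.1 hj)).1.le) fun j hj => (h j (mem_range.1 hj)).2.1
  nlinarith

/-! ## Divisors of a product of primes -/

lemma sqf (P : Finset ℕ) (hP : ∀ p ∈ P, p.Prime) : Squarefree (∏ p ∈ P, p) := by
  refine Finset.squarefree_prod_of_pairwise_isCoprime (fun p hp q hq hpq ↦ ?_)
    fun p hp ↦ (hP p hp).squarefree
  simp only [← Nat.coprime_iff_isRelPrime, Function.onFun]
  exact (Nat.coprime_primes (hP p hp) (hP q hq)).mpr hpq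

lemma sum_divisors (P : Finset ℕ) (hP : ∀ p ∈ P, p.Prime) (n : ℕ) (hn : 0 < n) (F : ℕ → ℝ) :
    ∑ d ∈ n.divisors.filter (fun d => d ∣ ∏ p ∈ P, p), F d =
      ∑ T ∈ (P.filter fun p => p ∣ n).powerset, F (∏ p ∈ T, p) := by
  have hsq := sqf P hP
  have hpp : ∀ T ⊆ P.filter (fun p => p ∣ n), ∀ p ∈ T, p.Prime := fun T hT p hp =>
    hP p (mem_filter.1 (hT hp)).1
  refine sum_nbij' (fun d => d.primeFactors) (fun T => ∏ p ∈ T, p) ?_ ?_ ?_ ?_ ?_
  · intro d hd
    rw [mem_filter, Nat.mem_divisors] at hd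
    rw [mem_powerset]
    intro p hp
    rw [Nat.mem_primeFactors] at hp
    rw [mem_filter]
    refine ⟨?_, hp.2.1.trans hd.1.1⟩
    obtain ⟨q, hq, hpq⟩ := (hp.1.prime.dvd_finsetProd_iff (fun p => p)).1 (hp.2.1.trans hd.2)
    rwa [(Nat.prime_dvd_prime_iff_eq hp.1 (hP q hq)).1 hpq]
  · intro T hT
    rw [mem_powerset] at hT
    rw [mem_filter, Nat.mem_divisors]
    refine ⟨⟨?_, hn.ne'⟩, prod_dvd_prod_of_subset _ _ _ (hT.trans (filter_subset _ _))⟩
    exact Finset.prod_primes_dvd n (fun p hp => (hpp T hT p hp).prime)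
      fun p hp => (mem_filter.1 (hT hp)).2
  · intro d hd
    rw [mem_filter, Nat.mem_divisors] at hd
    exact Nat.prod_primeFactors_of_squarefree (hsq.squarefree_of_dvd hd.2)
  · intro T hT
    rw [mem_powerset] at hT
    exact Nat.primeFactors_prod (hpp T hT)
  · intro d hd
    rw [mem_filter, Nat.mem_divisors] at hd
    show F d = F (∏ p ∈ d.primeFactors, p)
    rw [Nat.prod_primeFactors_of_squarefree (hsq.squarefree_of_dvd hd.2)]

/-- The weights on integers. -/
noncomputable def wt (P : Finset ℕ) (g : Finset ℕ → ℝ) (d : ℕ) : ℝ :=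
  if d ∣ ∏ p ∈ P, p then g d.primeFactors else 0

lemma wt_abs (P : Finset ℕ) (g : Finset ℕ → ℝ) (hg : ∀ T, |g T| ≤ 1) (d : ℕ) :
    |wt P g d| ≤ 1 := by
  unfold wt
  split_ifs
  · exact hg _
  · simp

lemma wt_prod (P : Finset ℕ) (hP : ∀ p ∈ P, p.Prime) (g : Finset ℕ → ℝ) (T : Finset ℕ)
    (hT : T ⊆ P) : wt P g (∏ p ∈ T, p) = g T := by
  unfold wt
  rw [if_pos (prod_dvd_prod_of_subset _ _ _ hT), Nat.primeFactors_prod fun p hp => hP p (hT hp)]

lemma wt_sum (P : Finset ℕ) (hP : ∀ p ∈ P, p.Prime) (g : Finset ℕ → ℝ) (n : ℕ) (hn : 0 < n) :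
    ∑ d ∈ n.divisors, wt P g d = ∑ T ∈ (P.filter fun p => p ∣ n).powerset, g T := by
  have h1 : ∑ d ∈ n.divisors, wt P g d =
      ∑ d ∈ n.divisors.filter (fun d => d ∣ ∏ p ∈ P, p), wt P g d := by
    rw [sum_filter]
    refine sum_congr rfl fun d _ => ?_
    unfold wt
    split_ifs <;> rfl
  rw [h1, sum_divisors P hP n hn]
  refine sum_congr rfl fun T hT => ?_
  rw [mem_powerset] at hT
  exact wt_prod P hP g T (hT.trans (filter_subset _ _))

lemma wt_main (P : Finset ℕ) (hP : ∀ p ∈ P, p.Prime) (g : Finset ℕ → ℝ) :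
    ∑ d ∈ (∏ p ∈ P, p).divisors, wt P g d / d =
      ∑ T ∈ P.powerset, g T * ∏ p ∈ T, (1 / (p : ℝ)) := by
  have hpos : 0 < ∏ p ∈ P, p := prod_pos fun p hp => (hP p hp).pos
  have h1 : ∑ d ∈ (∏ p ∈ P, p).divisors, wt P g d / d =
      ∑ d ∈ (∏ p ∈ P, p).divisors.filter (fun d => d ∣ ∏ p ∈ P, p), wt P g d / d := by
    rw [filter_true_of_mem]
    intro d hd
    exact Nat.dvd_of_mem_divisors hd
  have h2 : P.filter (fun p => p ∣ ∏ p ∈ P, p) = P := by
    rw [filter_true_of_mem]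
    intro p hp
    exact dvd_prod_of_mem (fun p => p) hp
  rw [h1, sum_divisors P hP _ hpos, h2]
  refine sum_congr rfl fun T hT => ?_
  rw [mem_powerset] at hT
  rw [wt_prod P hP g T hT, div_eq_mul_inv]
  congr 1
  push_cast
  rw [← prod_inv_distrib]
  exact prod_congr rfl fun p _ => (one_div _).symm

lemma ind_prod (P : Finset ℕ) (n : ℕ) : ∏ p ∈ P.filter (fun p => p ∣ n), (1 - (1 : ℝ)) =
    if ∀ p ∈ P, ¬ p ∣ n then 1 else 0 := by
  split_ifs with h
  · rw [filter_false_of_mem h, prod_empty]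
  · push Not at h
    obtain ⟨p, hp, hpn⟩ := h
    exact prod_eq_zero (mem_filter.2 ⟨hp, hpn⟩) (by norm_num)

lemma prod_blocks (S : Finset ℕ) (bk : ℕ → ℕ) (J : ℕ) (hX : ∀ x ∈ S, bk x < J) (f : ℕ → ℝ) :
    ∏ j ∈ range J, ∏ x ∈ S.filter (fun x => bk x = j), f x = ∏ x ∈ S, f x :=
  prod_fiberwise_of_maps_to (fun x hx => mem_range.2 (hX x hx)) _

end Pool.Agent.Work.MP_3a3367_nt_log.FL_

namespace Pool.Agent.Work.MP_3a3367_nt_log

open Finset
open scoped Classical
open Pool.Agent.GapTwo (PR mem_PR)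
open Pool.Agent.GapTwo.BH_
open FL_

theorem stmt_FL : Stmt_FL := by
  intro τ hτ
  obtain ⟨C, hC, hblk⟩ := blk_sum
  have hl : 0 < Real.log (1 + τ) := Real.log_pos (by linarith)
  set ε : ℝ := min (Real.log (1 + τ)) 1 / 2 * Real.exp (-(4 * C)) with hε
  have hmin : 0 < min (Real.log (1 + τ)) 1 := lt_min hl one_pos
  have hε0 : 0 < ε := by positivity
  obtain ⟨b, hb⟩ := exists_pow_lt_of_lt_one hε0 (show (1 / 4 : ℝ) < 1 by norm_num)
  set K : ℝ := Real.exp (4 * C) * (1 / 4) ^ b with hK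
  have hK0 : 0 < K := by positivity
  have hK1 : 2 * K ≤ min (Real.log (1 + τ)) 1 := by
    have h1 : K ≤ Real.exp (4 * C) * ε := mul_le_mul_of_nonneg_left hb.le (Real.exp_pos _).le
    have h2 : Real.exp (4 * C) * ε = min (Real.log (1 + τ)) 1 / 2 := by
      rw [hε, mul_comm, mul_assoc, ← Real.exp_add]
      simp
    linarith
  have hK2 : 2 * K ≤ Real.log (1 + τ) := hK1.trans (min_le_left _ _)
  have hK3 : 2 * K ≤ 1 := hK1.trans (min_le_right _ _)
  have hK4 : Real.log (1 + τ) ≤ τ := by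
    have := Real.log_le_sub_one_of_pos (show 0 < 1 + τ by linarith)
    linarith
  refine ⟨((8 * b + 16 : ℕ) : ℝ), by push_cast; linarith [(Nat.cast_nonneg b : (0 : ℝ) ≤ b)], ?_⟩
  intro P z hz hP
  rw [Real.rpow_natCast]
  have hPp : ∀ p ∈ P, p.Prime := fun p hp => (hP p hp).1
  set bk : ℕ → ℕ := blk (2 * z) with hbk
  obtain ⟨J, hJ⟩ : ∃ J : ℕ, ∀ p ∈ P, bk p < J :=
    ⟨P.sup bk + 1, fun p hp => Nat.lt_succ_of_le (le_sup (f := bk) hp)⟩
  -- level
  have hlev : ∀ T ⊆ P, (∀ j < J, (T.filter fun x => bk x = j).card ≤ 2 * (b + j) + 1) →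
      ((∏ p ∈ T, p : ℕ) : ℝ) ≤ z ^ (8 * b + 16) := by
    intro T hT hc
    have h1 := level_le (fun p : ℕ => p) (2 * z) (by linarith) (b + 1) J T
      (fun p hp => ⟨(hPp p (hT hp)).two_le, by have := (hP p (hT hp)).2; linarith, hJ p (hT hp)⟩)
      (fun j hj => (hc j hj).trans (by omega))
    push_cast
    refine h1.trans ?_
    calc (2 * z) ^ (4 * (b + 1) + 4) ≤ (z ^ 2) ^ (4 * (b + 1) + 4) :=
          pow_le_pow_left₀ (by linarith) (by nlinarith) _
      _ = z ^ (8 * b + 16) := by rw [← pow_mul]; congr 1; ring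
  have hsupp : ∀ g : Finset ℕ → ℝ, (∀ T, g T ≠ 0 → T ⊆ P ∧
      ∀ j < J, (T.filter fun x => bk x = j).card ≤ 2 * (b + j) + 1) →
      ∀ d, wt P g d ≠ 0 → d ∣ ∏ p ∈ P, p ∧ (d : ℝ) ≤ z ^ (8 * b + 16) := by
    intro g hg d hd
    unfold wt at hd
    split_ifs at hd with h1
    · refine ⟨h1, ?_⟩
      have h2 := hg _ hd
      have h3 := hlev _ h2.1 h2.2
      rwa [Nat.prod_primeFactors_of_squarefree ((sqf P hPp).squarefree_of_dvd h1)] at h3
    · exact absurd rfl hd
  -- the blocks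
  have hw01 : ∀ p ∈ P, 0 ≤ 1 / (p : ℝ) ∧ 1 / (p : ℝ) ≤ 1 / 2 := by
    intro p hp
    have : (2 : ℝ) ≤ p := by exact_mod_cast (hPp p hp).two_le
    refine ⟨by positivity, ?_⟩
    rw [div_le_div_iff₀ (by linarith) (by norm_num)]
    linarith
  have hsum : ∀ j : ℕ, ∑ p ∈ P.filter (fun p => bk p = j), 1 / (p : ℝ) ≤ C := by
    intro j
    refine le_trans (sum_le_sum_of_subset_of_nonneg ?_ fun _ _ _ => by positivity)
      (hblk 2 (2 * z) le_rfl j)
    intro p hp
    rw [mem_filter] at hp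
    rw [mem_filter, mem_PR]
    refine ⟨⟨hPp p hp.1, by exact_mod_cast (hPp p hp.1).two_le, ?_⟩, hp.2⟩
    have := (hP p hp.1).2
    linarith
  set V : ℕ → ℝ := fun j => ∏ p ∈ P.filter (fun p => bk p = j), (1 - 1 / (p : ℝ)) with hV
  set A : ℕ → ℝ := fun j => AT (P.filter fun p => bk p = j) (fun p => 1 / (p : ℝ)) (2 * (b + j))
    with hA
  set E : ℕ → ℝ := fun j => EE (P.filter fun p => bk p = j) (fun p => 1 / (p : ℝ)) (2 * (b + j))
    with hE
  have hVP : ∏ j ∈ range J, V j = VV P := prod_blocks P bk J hJ _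
  have hVlow : ∀ j, Real.exp (-(2 * C)) ≤ V j := by
    intro j
    have h1 : Real.exp (-(2 * C)) ≤
        Real.exp (∑ p ∈ P.filter (fun p => bk p = j), (-(2 * (1 / (p : ℝ))))) := by
      apply Real.exp_le_exp.2
      rw [sum_neg_distrib, ← mul_sum]
      have := hsum j
      linarith
    refine h1.trans ?_
    rw [Real.exp_sum]
    refine prod_le_prod (fun p _ => (Real.exp_pos _).le) fun p hp => ?_
    rw [mem_filter] at hp
    obtain ⟨h2, h3⟩ := hw01 p hp.1
    set x : ℝ := 1 / (p : ℝ)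
    -- `exp (-2 x) ≤ 1 - x` for `0 ≤ x ≤ 1/2`
    have h4 : (1 - x) * Real.exp (2 * x) ≥ 1 := by
      have h5 := Real.add_one_le_exp (2 * x)
      nlinarith
    rw [Real.exp_neg]
    rw [inv_le_iff_one_le_mul₀ (Real.exp_pos _)]
    linarith
  have hVpos : ∀ j, 0 < V j := fun j => (Real.exp_pos _).trans_le (hVlow j)
  have hAB : ∀ j, V j ≤ A j ∧ A j ≤ V j + E j := fun j =>
    AT_bounds _ _ (fun p hp => by
      rw [mem_filter] at hp
      have := hw01 p hp.1
      exact ⟨this.1, by linarith⟩) _ (even_two_mul _)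
  have hE0 : ∀ j, 0 ≤ E j := fun j => EE_nonneg _ _ (fun p hp => (hw01 p (mem_filter.1 hp).1).1) _
  have hEle : ∀ j, E j ≤ V j * (K * (1 / 4) ^ j) := by
    intro j
    have h1 : E j ≤ ((2 : ℝ) ^ (2 * (b + j) + 1))⁻¹ * Real.exp (2 * C) := by
      have h2 := tail_le (P.filter fun p => bk p = j) (fun p => 1 / (p : ℝ))
        (fun p hp => (hw01 p (mem_filter.1 hp).1).1) (2 * (b + j)) 2 (by norm_num)
      have h3 : E j ≤ ∑ T ∈ (P.filter fun p => bk p = j).powerset.filter
          (fun T => 2 * (b + j) < T.card), ∏ p ∈ T, 1 / (p : ℝ) := by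
        refine sum_le_sum_of_subset_of_nonneg ?_ ?_
        · intro T hT
          rw [mem_powersetCard] at hT
          rw [mem_filter, mem_powerset]
          exact ⟨hT.1, by omega⟩
        · intro T hT _
          exact prod_nonneg fun p _ => by positivity
      refine (h3.trans h2).trans (mul_le_mul_of_nonneg_left ?_ (by positivity))
      exact Real.exp_le_exp.2 (mul_le_mul_of_nonneg_left (hsum j) (by norm_num))
    have h2 : ((2 : ℝ) ^ (2 * (b + j) + 1))⁻¹ ≤ (1 / 4) ^ b * (1 / 4) ^ j := by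
      rw [pow_succ, pow_mul, ← pow_add, mul_inv, ← inv_pow]
      norm_num
    have h3 : Real.exp (2 * C) = Real.exp (4 * C) * Real.exp (-(2 * C)) := by
      rw [← Real.exp_add]; congr 1; ring
    calc E j ≤ ((1 / 4) ^ b * (1 / 4) ^ j) * Real.exp (2 * C) :=
          h1.trans (mul_le_mul_of_nonneg_right h2 (Real.exp_pos _).le)
      _ = Real.exp (-(2 * C)) * (K * (1 / 4) ^ j) := by rw [h3, hK]; ring
      _ ≤ V j * (K * (1 / 4) ^ j) := mul_le_mul_of_nonneg_right (hVlow j) (by positivity)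
  have hV0 : 0 < VV P := by
    rw [← hVP]
    exact prod_pos fun j _ => hVpos j
  refine ⟨wt P (cB P bk b J), wt P (gL P bk b J), ?_⟩
  refine
    { up_bd := wt_abs P _ (cB_abs P bk b J)
      lo_bd := wt_abs P _ (gL_abs P bk b J)
      up_supp := hsupp _ fun T hT => ⟨(cB_supp hT).1, fun j hj =>
        ((cB_supp hT).2 j hj).trans (Nat.le_succ _)⟩
      lo_supp := hsupp _ fun T hT => gL_supp hT
      up_ge := ?_
      lo_le := ?_
      up_main := ?_
      up_nonneg := ?_
      lo_main := ?_ }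
  · intro n hn
    rw [wt_sum P hPp _ n hn, ← ind_prod]
    have h1 := sum_cB P (P.filter fun p => p ∣ n) (filter_subset _ _) bk b J hJ (fun _ => 1)
    simp only [prod_const_one, mul_one] at h1
    rw [h1, ← prod_blocks (P.filter fun p => p ∣ n) bk J (fun x hx => hJ x (mem_filter.1 hx).1)]
    refine prod_le_prod (fun j _ => prod_nonneg fun _ _ => by norm_num) fun j _ => ?_
    exact (AT_bounds _ _ (fun _ _ => by norm_num) _ (even_two_mul _)).1
  · intro n hn
    rw [wt_sum P hPp _ n hn, ← ind_prod]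
    have h1 := sum_gL P (P.filter fun p => p ∣ n) (filter_subset _ _) bk b J hJ (fun _ => 1)
    simp only [prod_const_one, mul_one] at h1
    rw [h1, ← prod_blocks (P.filter fun p => p ∣ n) bk J (fun x hx => hJ x (mem_filter.1 hx).1)]
    exact low_le _ _ _ J fun j _ => ⟨prod_nonneg fun _ _ => by norm_num,
      AT_bounds _ _ (fun _ _ => by norm_num) _ (even_two_mul _)⟩
  · rw [wt_main P hPp, sum_cB P P Subset.rfl bk b J hJ]
    have h1 : ∏ j ∈ range J, A j ≤ ∏ j ∈ range J, (V j * (1 + K * (1 / 4) ^ j)) := by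
      refine prod_le_prod (fun j _ => (hVpos j).le.trans (hAB j).1) fun j _ => ?_
      have := (hAB j).2
      have := hEle j
      linarith
    rw [prod_mul_distrib, hVP] at h1
    have h2 := prod_one_add_le J K (1 / 4) hK0.le (by norm_num) (by norm_num)
      (fun j => K * (1 / 4) ^ j) fun j _ => ⟨by positivity, le_rfl⟩
    have h3 : Real.exp (2 * K) ≤ 1 + τ := by
      calc Real.exp (2 * K) ≤ Real.exp (Real.log (1 + τ)) := Real.exp_le_exp.2 hK2
        _ = 1 + τ := Real.exp_log (by linarith)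
    calc ∏ j ∈ range J, A j ≤ VV P * ∏ j ∈ range J, (1 + K * (1 / 4) ^ j) := h1
      _ ≤ VV P * (1 + τ) := mul_le_mul_of_nonneg_left (h2.trans h3) hV0.le
      _ = (1 + τ) * VV P := mul_comm _ _
  · rw [wt_main P hPp, sum_cB P P Subset.rfl bk b J hJ]
    exact prod_nonneg fun j _ => (hVpos j).le.trans (hAB j).1
  · rw [wt_main P hPp, sum_gL P P Subset.rfl bk b J hJ]
    have h1 := low_ge V A E J K hK0.le hK3 fun j _ => ⟨hVpos j, (hAB j).1, hE0 j, hEle j⟩
    rw [hVP] at h1
    refine le_trans ?_ h1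
    exact mul_le_mul_of_nonneg_right (by linarith) hV0.le

end Pool.Agent.Work.MP_3a3367_nt_log
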