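import Pool.Agent.Work.MP_3a3367_nt_log.Interface
import Pool.Agent.Work.MP_b0c12c_nt_helper41.Mert

/-!
# Block MER: the bounds of Chebyshev and Mertens
-/

set_option autoImplicit false

namespace Pool.Agent.Work.MP_3a3367_nt_log

open Finset
open Pool.Agent.Work.MP_b0c12c_nt_helper41 (FF SS FF_le mertens2)

namespace MERaux

lemma UP_eq (y : ℝ) : UP ∅ y = (Icc 1 ⌊y⌋₊).filter Nat.Prime := by
  ext p
  unfold UP
  simp only [sdiff_empty, mem_filter, mem_range, mem_Icc]
  constructor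
  · rintro ⟨h1, h2⟩
    exact ⟨⟨h2.one_lt.le, by omega⟩, h2⟩
  · rintro ⟨⟨_, h1⟩, h2⟩
    exact ⟨by omega, h2⟩

/-- the telescoping bound for `∑ log n / (n (n-1))` -/
lemma step (n : ℕ) (hn : 2 ≤ n) :
    Real.log n / ((n : ℝ) * (n - 1)) ≤
      (Real.log (n - 1) + 2) / ((n : ℝ) - 1) - (Real.log n + 2) / n := by
  have h2 : (2 : ℝ) ≤ n := by exact_mod_cast hn
  have hn0 : (0 : ℝ) < n := by linarith
  have hn1 : (0 : ℝ) < (n : ℝ) - 1 := by linarith
  have hl : Real.log n - Real.log ((n : ℝ) - 1) ≤ 1 / ((n : ℝ) - 1) := by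
    rw [← Real.log_div hn0.ne' hn1.ne']
    refine (Real.log_le_sub_one_of_pos (by positivity)).trans (le_of_eq ?_)
    field_simp
    ring
  have h3 : (n : ℝ) * (Real.log n - Real.log ((n : ℝ) - 1)) ≤ 2 := by
    have h4 := mul_le_mul_of_nonneg_left hl hn0.le
    have h5 : (n : ℝ) * (1 / ((n : ℝ) - 1)) ≤ 2 := by
      rw [mul_one_div, div_le_iff₀ hn1]
      linarith
    linarith
  rw [div_sub_div _ _ hn1.ne' hn0.ne', mul_comm ((n : ℝ) - 1) (n : ℝ)]
  apply div_le_div_of_nonneg_right _ (by positivity)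
  nlinarith

lemma sum_step (N : ℕ) (hN : 1 ≤ N) :
    ∑ n ∈ Ioc 1 N, Real.log n / ((n : ℝ) * (n - 1)) ≤ 2 - (Real.log N + 2) / N := by
  induction N, hN using Nat.le_induction with
  | base => simp
  | succ N hN ih =>
    rw [sum_Ioc_succ_top (by omega)]
    have h := step (N + 1) (by omega)
    have h2 : ((N + 1 : ℕ) : ℝ) - 1 = N := by push_cast; ring
    rw [h2] at h ⊢
    linarith

lemma sum_sq (N : ℕ) (hN : 1 ≤ N) :
    ∑ n ∈ Ioc 1 N, 1 / (n : ℝ) ^ 2 ≤ 1 - 1 / (N : ℝ) := by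
  induction N, hN using Nat.le_induction with
  | base => simp
  | succ N hN ih =>
    rw [sum_Ioc_succ_top (by omega)]
    have hN0 : (0 : ℝ) < N := by exact_mod_cast hN
    have h : 1 / ((N + 1 : ℕ) : ℝ) ^ 2 ≤ 1 / (N : ℝ) - 1 / ((N + 1 : ℕ) : ℝ) := by
      push_cast
      rw [div_sub_div _ _ hN0.ne' (by positivity), div_le_div_iff₀ (by positivity) (by positivity)]
      nlinarith
    linarith

lemma logx {x : ℝ} (h1 : x ≤ 1 / 2) :
    -x - 2 * x ^ 2 ≤ Real.log (1 - x) ∧ Real.log (1 - x) ≤ -x := by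
  have h2 : 0 < 1 - x := by linarith
  constructor
  · have h3 := Real.log_le_sub_one_of_pos (x := (1 - x)⁻¹) (by positivity)
    rw [Real.log_inv] at h3
    have h4 : (1 - x)⁻¹ - 1 ≤ x + 2 * x ^ 2 := by
      rw [sub_le_iff_le_add, inv_le_iff_one_le_mul₀ h2]
      nlinarith [mul_nonneg (sq_nonneg x) (by linarith : (0 : ℝ) ≤ 1 - 2 * x)]
    linarith
  · have := Real.log_le_sub_one_of_pos (x := 1 - x) h2
    linarith

lemma prime_sum_le (N : ℕ) (f : ℕ → ℝ) (hf : ∀ n, 2 ≤ n → 0 ≤ f n) :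
    ∑ p ∈ (Icc 1 N).filter Nat.Prime, f p ≤ ∑ n ∈ Ioc 1 N, f n := by
  apply sum_le_sum_of_subset_of_nonneg
  · intro p hp
    rw [mem_filter, mem_Icc] at hp
    rw [mem_Ioc]
    exact ⟨hp.2.one_lt, hp.1.2⟩
  · intro n hn _
    rw [mem_Ioc] at hn
    exact hf n (by omega)

/-- bounds for `log VV` -/
lemma logVV (N : ℕ) (hN : 2 ≤ N) :
    0 < VV ((Icc 1 N).filter Nat.Prime) ∧
    -SS N - 2 ≤ Real.log (VV ((Icc 1 N).filter Nat.Prime)) ∧
    Real.log (VV ((Icc 1 N).filter Nat.Prime)) ≤ -SS N := by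
  have hx : ∀ p ∈ (Icc 1 N).filter Nat.Prime, 0 ≤ 1 / (p : ℝ) ∧ 1 / (p : ℝ) ≤ 1 / 2 := by
    intro p hp
    rw [mem_filter] at hp
    have h2 : (2 : ℝ) ≤ p := by exact_mod_cast hp.2.two_le
    exact ⟨by positivity, one_div_le_one_div_of_le (by norm_num) h2⟩
  have hpos : 0 < VV ((Icc 1 N).filter Nat.Prime) := by
    unfold VV
    apply prod_pos
    intro p hp
    have := hx p hp
    linarith
  have hlog : Real.log (VV ((Icc 1 N).filter Nat.Prime)) =
      ∑ p ∈ (Icc 1 N).filter Nat.Prime, Real.log (1 - 1 / (p : ℝ)) := by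
    unfold VV
    rw [Real.log_prod]
    intro p hp
    have := hx p hp
    linarith
  refine ⟨hpos, ?_, ?_⟩
  · rw [hlog]
    have h1 : ∑ p ∈ (Icc 1 N).filter Nat.Prime, (-(1 / (p : ℝ)) - 2 * (1 / (p : ℝ)) ^ 2) ≤
        ∑ p ∈ (Icc 1 N).filter Nat.Prime, Real.log (1 - 1 / (p : ℝ)) :=
      sum_le_sum fun p hp => (logx (hx p hp).2).1
    refine le_trans ?_ h1
    rw [sum_sub_distrib, sum_neg_distrib, ← mul_sum]
    have h2 : ∑ p ∈ (Icc 1 N).filter Nat.Prime, (1 / (p : ℝ)) ^ 2 ≤ 1 := by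
      refine (prime_sum_le N (fun n => (1 / (n : ℝ)) ^ 2) (fun n _ => by positivity)).trans ?_
      have h3 := sum_sq N (by omega)
      have h4 : ∑ n ∈ Ioc 1 N, (1 / (n : ℝ)) ^ 2 = ∑ n ∈ Ioc 1 N, 1 / (n : ℝ) ^ 2 :=
        sum_congr rfl fun n _ => by rw [div_pow, one_pow]
      have h5 : (0 : ℝ) ≤ 1 / N := by positivity
      linarith
    unfold SS
    linarith
  · rw [hlog]
    unfold SS
    rw [← sum_neg_distrib]
    exact sum_le_sum fun p hp => (logx (hx p hp).2).2

end MERaux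

open MERaux

theorem stmt_MER : Stmt_MER := by
  obtain ⟨C1, hC1, hM⟩ := mertens2
  have hl2 : 0 < Real.log 2 := Real.log_pos (by norm_num)
  have hl2' : Real.log 2 ≤ 1 := by
    have := Real.log_two_lt_d9
    linarith
  -- bounds for `SS N - log log N`
  obtain ⟨K, hK0, hK⟩ : ∃ K : ℝ, 0 < K ∧ ∀ N : ℕ, 2 ≤ N →
      |SS N - Real.log (Real.log N)| ≤ K := by
    refine ⟨C1 / Real.log 2 + |Real.log (Real.log 2)| + 1, by positivity, fun N hN => ?_⟩
    have h1 := hM 2 N le_rfl hN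
    have h2 : SS N - SS 2 = ∑ p ∈ (Ioc 2 N).filter Nat.Prime, 1 / (p : ℝ) :=
      Pool.Agent.Work.MP_b0c12c_nt_helper41.SS_sub hN
    have h3 : SS 2 = 1 / 2 := by
      unfold SS
      have : (Icc 1 2).filter Nat.Prime = {2} := by decide
      rw [this]
      simp
    rw [← h2, h3] at h1
    push_cast at h1
    have h4 := abs_le.1 h1
    have h5 := neg_abs_le (Real.log (Real.log 2))
    have h6 := le_abs_self (Real.log (Real.log 2))
    rw [abs_le]
    constructor <;> linarith [h4.1, h4.2]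
  refine ⟨8 + 2 * Real.exp K + C1 / Real.log 2 + Real.log 2 + Real.log 4, Real.exp (-K - 2),
    ?_, Real.exp_pos _, fun y hy => ?_⟩
  · have := Real.exp_pos K
    have h4 : 0 ≤ Real.log 4 := Real.log_nonneg (by norm_num)
    have : 0 < C1 / Real.log 2 := by positivity
    linarith
  have hy0 : (0 : ℝ) ≤ y := by linarith
  set N := ⌊y⌋₊ with hN
  have hN2 : 2 ≤ N := by
    rw [hN]
    exact Nat.le_floor (by exact_mod_cast hy)
  have hNy : (N : ℝ) ≤ y := Nat.floor_le hy0
  have hyN : y < N + 1 := Nat.lt_floor_add_one y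
  have hN2' : (2 : ℝ) ≤ N := by exact_mod_cast hN2
  have hlN : 0 < Real.log N := Real.log_pos (by linarith)
  have hly : 0 < Real.log y := Real.log_pos (by linarith)
  have hlNy : Real.log N ≤ Real.log y := Real.log_le_log (by linarith) hNy
  have half : ∀ (M : ℕ) (w : ℝ), 2 ≤ M → 0 < w → w < M + 1 → Real.log w ≤ 2 * Real.log M := by
    intro M w hM hw hwM
    have hM2 : (2 : ℝ) ≤ M := by exact_mod_cast hM
    have : 2 * Real.log (M : ℝ) = Real.log ((M : ℝ) ^ 2) := by
      rw [Real.log_pow]; norm_num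
    rw [this]
    apply Real.log_le_log hw
    nlinarith
  have hlyN : Real.log y ≤ 2 * Real.log N := half N y hN2 (by linarith) hyN
  have hCpos : 0 < Real.exp K := Real.exp_pos K
  have hD0 : 0 < C1 / Real.log 2 := by positivity
  have hl4 : 0 ≤ Real.log 4 := Real.log_nonneg (by norm_num)
  have hFF := FF_le (n := N) (by omega)
  rw [UP_eq y, ← hN]
  refine ⟨?_, ?_, ?_, ?_, ?_, ?_⟩
  · have : FF N = ∑ p ∈ (Icc 1 N).filter Nat.Prime, Real.log p / p := rfl
    rw [← this]
    linarith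
  · have h1 : ∑ p ∈ (Icc 1 N).filter Nat.Prime, Real.log p / ((p : ℝ) - 1) =
        FF N + ∑ p ∈ (Icc 1 N).filter Nat.Prime, Real.log p / ((p : ℝ) * (p - 1)) := by
      unfold FF
      rw [← sum_add_distrib]
      apply sum_congr rfl
      intro p hp
      rw [mem_filter] at hp
      have h2 : (2 : ℝ) ≤ p := by exact_mod_cast hp.2.two_le
      have h3 : (0 : ℝ) < p := by linarith
      have h4 : (0 : ℝ) < (p : ℝ) - 1 := by linarith
      field_simp
      ring
    have h2 := prime_sum_le N (fun n => Real.log n / ((n : ℝ) * (n - 1))) (fun n hn => by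
      have : (2 : ℝ) ≤ n := by exact_mod_cast hn
      have h5 : 0 ≤ Real.log n := Real.log_nonneg (by linarith)
      have h6 : (0 : ℝ) < (n : ℝ) * (n - 1) := mul_pos (by linarith) (by linarith)
      positivity)
    have h3 := sum_step N (by omega)
    have h4 : 0 ≤ (Real.log N + 2) / N := by positivity
    rw [h1]
    linarith
  · have h1 := Chebyshev.theta_le_log4_mul_x (x := y) hy0
    unfold Chebyshev.theta at h1
    rw [← hN] at h1
    have h2 : (Icc 1 N).filter Nat.Prime = (Ioc 0 N).filter Nat.Prime := by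
      ext p
      simp only [mem_filter, mem_Icc, mem_Ioc]
      constructor
      · rintro ⟨⟨h3, h4⟩, h5⟩
        exact ⟨⟨by omega, h4⟩, h5⟩
      · rintro ⟨⟨h3, h4⟩, h5⟩
        exact ⟨⟨by omega, h4⟩, h5⟩
    rw [h2]
    refine h1.trans (mul_le_mul_of_nonneg_right ?_ hy0)
    linarith
  · obtain ⟨h1, h2, h3⟩ := logVV N hN2
    have h4 := abs_le.1 (hK N hN2)
    rw [← Real.exp_log h1]
    have h5 : Real.exp (-K - 2) / Real.log y ≤ Real.exp (-K - 2) / Real.log N :=
      div_le_div_of_nonneg_left (Real.exp_pos _).le hlN hlNy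
    refine h5.trans ?_
    rw [← Real.exp_log hlN, ← Real.exp_sub]
    apply Real.exp_le_exp.2
    linarith [h4.2]
  · obtain ⟨h1, h2, h3⟩ := logVV N hN2
    have h4 := abs_le.1 (hK N hN2)
    have h5 : VV ((Icc 1 N).filter Nat.Prime) ≤ Real.exp K / Real.log N := by
      rw [← Real.exp_log h1, ← Real.exp_log hlN, ← Real.exp_sub]
      apply Real.exp_le_exp.2
      linarith [h4.1]
    have h6 : Real.exp K / Real.log N ≤ 2 * Real.exp K / Real.log y := by
      rw [div_le_div_iff₀ hlN hly]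
      nlinarith
    refine (h5.trans h6).trans (div_le_div_of_nonneg_right ?_ hly.le)
    linarith
  · intro w hw hwy
    rw [UP_eq w]
    set M := ⌊w⌋₊ with hM'
    have hM2 : 2 ≤ M := by
      rw [hM']
      exact Nat.le_floor (by exact_mod_cast hw)
    have hMN : M ≤ N := Nat.floor_mono hwy
    have hwM : w < M + 1 := Nat.lt_floor_add_one w
    have hM2' : (2 : ℝ) ≤ M := by exact_mod_cast hM2
    have hlM : 0 < Real.log M := Real.log_pos (by linarith)
    have hlw : 0 < Real.log w := Real.log_pos (by linarith)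
    have hh := half M w hM2 (by linarith) hwM
    have hset : (Icc 1 N).filter Nat.Prime \ (Icc 1 M).filter Nat.Prime =
        (Ioc M N).filter Nat.Prime := by
      ext p
      simp only [mem_sdiff, mem_filter, mem_Icc, mem_Ioc]
      constructor
      · rintro ⟨⟨⟨h1, h2⟩, h3⟩, h4⟩
        refine ⟨⟨?_, h2⟩, h3⟩
        by_contra h5
        exact h4 ⟨⟨h1, by omega⟩, h3⟩
      · rintro ⟨⟨h1, h2⟩, h3⟩
        exact ⟨⟨⟨by omega, h2⟩, h3⟩, fun h4 => by omega⟩
    rw [hset]
    have h1 := (abs_le.1 (hM M N hM2 hMN)).2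
    have h2 : C1 / Real.log M ≤ C1 / Real.log 2 :=
      div_le_div_of_nonneg_left hC1.le hl2 (Real.log_le_log (by norm_num) hM2')
    have h3 : Real.log (Real.log N) ≤ Real.log (Real.log y) := Real.log_le_log hlN hlNy
    have h4 : Real.log (Real.log w) ≤ Real.log 2 + Real.log (Real.log M) := by
      rw [← Real.log_mul (by norm_num) hlM.ne']
      exact Real.log_le_log hlw hh
    rw [Real.log_div hly.ne' hlw.ne']
    linarith

end Pool.Agent.Work.MP_3a3367_nt_log
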