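import Pool.Agent.Work.MP_3a3367_nt_log.SAP

/-!
# Block MID: prime factors near `√x`
-/

set_option autoImplicit false

namespace Pool.Agent.Work.MP_3a3367_nt_log

open Finset Filter
open scoped Classical

/-- The sieve for the pairs `(u, t)`. -/
theorem MID_count (P' P : Finset ℕ) (D' D τ' τ : ℝ) (up' lo' up lo : ℕ → ℝ)
    (hW' : Wt P' D' τ' up' lo') (hW : Wt P D τ up lo)
    (hN' : ∏ p ∈ P', p ≠ 0) (hN : ∏ p ∈ P, p ≠ 0) (x h Y₁ Y₂ : ℕ)
    (hp : ∀ p : ℕ, p.Prime → Y₁ < p → p ≤ Y₂ → ∀ q ∈ P', ¬ q ∣ p) :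
    ∑ p ∈ (Finset.Ioc Y₁ Y₂).filter Nat.Prime, (#((Rg P x h).filter (fun m => p ∣ m)) : ℝ) ≤
      ∑ e ∈ (∏ p ∈ P', p).divisors, ∑ f ∈ (∏ p ∈ P, p).divisors,
        up' e * up f * (NP x h Y₁ Y₂ e f : ℝ) := by
  set N' : ℕ := ∏ p ∈ P', p with hN'def
  set N : ℕ := ∏ p ∈ P, p with hNdef
  let S : Finset (ℕ × ℕ) := (Finset.Ioc Y₁ Y₂ ×ˢ Finset.Icc 1 (x + h)).filter
    (fun v => x < v.1 * v.2 ∧ v.1 * v.2 ≤ x + h)
  let T : Finset (ℕ × ℕ) := S.filter (fun v => (∀ q ∈ P', ¬ q ∣ v.1) ∧ ∀ q ∈ P, ¬ q ∣ v.2)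
  -- step 1
  have h1 : ∑ p ∈ (Finset.Ioc Y₁ Y₂).filter Nat.Prime, #((Rg P x h).filter (fun m => p ∣ m)) ≤ #T := by
    rw [← Finset.card_sigma]
    refine Finset.card_le_card_of_injOn (fun v => (v.1, v.2 / v.1)) ?_ ?_
    · rintro ⟨p, m⟩ hv
      rw [Finset.mem_coe, Finset.mem_sigma] at hv
      simp only [Finset.mem_filter, Finset.mem_Ioc, Rg] at hv
      obtain ⟨⟨⟨hp1, hp2⟩, hpp⟩, ⟨⟨hm1, hm2⟩, hm3⟩, hpm⟩ := hv
      obtain ⟨t, rfl⟩ := hpm
      have hppos : 0 < p := hpp.pos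
      have ht : p * t / p = t := Nat.mul_div_cancel_left t hppos
      have ht0 : 0 < t := by
        by_contra hcon
        have : t = 0 := by omega
        subst this
        omega
      have htle : t ≤ x + h := le_trans (Nat.le_mul_of_pos_left t hppos) hm2
      simp only [T, S, Finset.mem_coe, Finset.mem_filter, Finset.mem_product, Finset.mem_Ioc,
        Finset.mem_Icc, ht]
      refine ⟨⟨⟨⟨hp1, hp2⟩, ht0, htle⟩, hm1, hm2⟩, hp p hpp hp1 hp2, ?_⟩
      intro q hq hqt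
      exact hm3 q hq (hqt.mul_left p)
    · rintro ⟨p, m⟩ hv ⟨p', m'⟩ hv' heq
      rw [Finset.mem_coe, Finset.mem_sigma] at hv hv'
      simp only [Finset.mem_filter] at hv hv'
      simp only [Prod.mk.injEq] at heq
      obtain ⟨rfl, h2⟩ := heq
      have h3 : m = m' := by
        rw [← Nat.div_mul_cancel hv.2.2, ← Nat.div_mul_cancel hv'.2.2, h2]
      rw [h3]
  have h1' : ∑ p ∈ (Finset.Ioc Y₁ Y₂).filter Nat.Prime, (#((Rg P x h).filter (fun m => p ∣ m)) : ℝ) ≤ #T := by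
    exact_mod_cast h1
  refine h1'.trans ?_
  -- step 2
  have h2 : (#T : ℝ) = ∑ v ∈ S, (if ∀ q ∈ P', ¬ q ∣ v.1 then (1 : ℝ) else 0) *
      (if ∀ q ∈ P, ¬ q ∣ v.2 then (1 : ℝ) else 0) := by
    have : ∀ v : ℕ × ℕ, (if ∀ q ∈ P', ¬ q ∣ v.1 then (1 : ℝ) else 0) *
      (if ∀ q ∈ P, ¬ q ∣ v.2 then (1 : ℝ) else 0) =
      if ((∀ q ∈ P', ¬ q ∣ v.1) ∧ ∀ q ∈ P, ¬ q ∣ v.2) then (1 : ℝ) else 0 := by
      intro v
      by_cases ha : ∀ q ∈ P', ¬ q ∣ v.1
      · by_cases hb : ∀ q ∈ P, ¬ q ∣ v.2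
        · rw [if_pos ha, if_pos hb, if_pos ⟨ha, hb⟩, one_mul]
        · rw [if_pos ha, if_neg hb, if_neg (fun hc => hb hc.2), mul_zero]
      · rw [if_neg ha, zero_mul, if_neg (fun hc => ha hc.1)]
    rw [Finset.sum_congr rfl (fun v _ => this v), ← Finset.sum_filter, Finset.sum_const,
      nsmul_eq_mul, mul_one]
  rw [h2]
  have h3 : ∀ v ∈ S, (if ∀ q ∈ P', ¬ q ∣ v.1 then (1 : ℝ) else 0) *
      (if ∀ q ∈ P, ¬ q ∣ v.2 then (1 : ℝ) else 0) ≤
      (∑ e ∈ N'.divisors, if e ∣ v.1 then up' e else 0) *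
      (∑ f ∈ N.divisors, if f ∣ v.2 then up f else 0) := by
    intro v hv
    simp only [S, Finset.mem_filter, Finset.mem_product, Finset.mem_Ioc, Finset.mem_Icc] at hv
    have hv1 : 0 < v.1 := by omega
    have hv2 : 0 < v.2 := by omega
    rw [← SAP_div N' v.1 hN' hv1 up' (fun d hd => (hW'.up_supp d hd).1),
      ← SAP_div N v.2 hN hv2 up (fun d hd => (hW.up_supp d hd).1)]
    have a1 := hW'.up_ge v.1 hv1
    have a2 := hW.up_ge v.2 hv2
    have b1 : (0 : ℝ) ≤ (if ∀ q ∈ P', ¬ q ∣ v.1 then (1 : ℝ) else 0) := by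
      split_ifs <;> norm_num
    have b2 : (0 : ℝ) ≤ (if ∀ q ∈ P, ¬ q ∣ v.2 then (1 : ℝ) else 0) := by
      split_ifs <;> norm_num
    exact mul_le_mul a1 a2 b2 (b1.trans a1)
  refine (Finset.sum_le_sum h3).trans (le_of_eq ?_)
  -- step 3
  have h4 : ∀ v ∈ S, (∑ e ∈ N'.divisors, if e ∣ v.1 then up' e else 0) *
      (∑ f ∈ N.divisors, if f ∣ v.2 then up f else 0) =
      ∑ e ∈ N'.divisors, ∑ f ∈ N.divisors, if e ∣ v.1 ∧ f ∣ v.2 then up' e * up f else 0 := by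
    intro v _
    rw [Finset.sum_mul_sum]
    refine Finset.sum_congr rfl (fun e _ => Finset.sum_congr rfl (fun f _ => ?_))
    by_cases he : e ∣ v.1
    · by_cases hf : f ∣ v.2
      · rw [if_pos he, if_pos hf, if_pos ⟨he, hf⟩]
      · rw [if_pos he, if_neg hf, if_neg (fun hc => hf hc.2), mul_zero]
    · rw [if_neg he, zero_mul, if_neg (fun hc => he hc.1)]
  rw [Finset.sum_congr rfl h4, Finset.sum_comm]
  refine Finset.sum_congr rfl (fun e _ => ?_)
  rw [Finset.sum_comm]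
  refine Finset.sum_congr rfl (fun f _ => ?_)
  rw [← Finset.sum_filter, Finset.sum_const, nsmul_eq_mul, mul_comm]
  congr 2
  unfold NP
  congr 1
  simp only [S]
  rw [Finset.filter_filter]
  refine Finset.filter_congr ?_
  intro v _
  tauto

/-- Number of nonzero weights. -/
theorem MID_num (N : ℕ) (D : ℝ) (hD : 0 ≤ D) (u : ℕ → ℝ) (hub : ∀ d, |u d| ≤ 1)
    (hu : ∀ d, u d ≠ 0 → (d : ℝ) ≤ D) : ∑ d ∈ N.divisors, |u d| ≤ D := by
  have h2 : ∀ d ∈ N.divisors, |u d| ≤ if (d : ℝ) ≤ D then 1 else 0 := by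
    intro d hd
    split_ifs with hdD
    · exact hub d
    · have : u d = 0 := by
        by_contra hcon
        exact hdD (hu d hcon)
      rw [this, abs_zero]
  refine (Finset.sum_le_sum h2).trans ?_
  rw [← Finset.sum_filter, Finset.sum_const, nsmul_eq_mul, mul_one]
  have h4 : N.divisors.filter (fun d : ℕ => (d : ℝ) ≤ D) ⊆ Finset.Icc 1 ⌊D⌋₊ := by
    intro d hd
    rw [Finset.mem_filter] at hd
    rw [Finset.mem_Icc]
    exact ⟨Nat.pos_of_mem_divisors hd.1, Nat.le_floor hd.2⟩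
  have h5 := Finset.card_le_card h4
  rw [Nat.card_Icc] at h5
  have h6 : (#(N.divisors.filter (fun d : ℕ => (d : ℝ) ≤ D)) : ℝ) ≤ (⌊D⌋₊ : ℝ) := by
    have : #(N.divisors.filter (fun d : ℕ => (d : ℝ) ≤ D)) ≤ ⌊D⌋₊ := by omega
    exact_mod_cast this
  exact h6.trans (Nat.floor_le hD)

/-- The weighted sum of the numbers of pairs. -/
theorem MID_sum (N' N : ℕ) (D' D : ℝ) (hD' : 0 ≤ D') (hD : 0 ≤ D) (u' u : ℕ → ℝ)
    (hub' : ∀ d, |u' d| ≤ 1) (hub : ∀ d, |u d| ≤ 1)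
    (hu' : ∀ d, u' d ≠ 0 → (d : ℝ) ≤ D') (hu : ∀ d, u d ≠ 0 → (d : ℝ) ≤ D)
    (F : ℕ → ℕ → ℝ) (A δ : ℝ) (hδ : 0 ≤ δ)
    (hF : ∀ e f : ℕ, 1 ≤ e → 1 ≤ f → (e : ℝ) ≤ D' → (f : ℝ) ≤ D → |F e f - A / (e * f)| ≤ δ) :
    ∑ e ∈ N'.divisors, ∑ f ∈ N.divisors, u' e * u f * F e f ≤
      A * (∑ e ∈ N'.divisors, u' e / e) * (∑ f ∈ N.divisors, u f / f) + D' * D * δ := by
  have h1 : A * (∑ e ∈ N'.divisors, u' e / e) * (∑ f ∈ N.divisors, u f / f) =
      ∑ e ∈ N'.divisors, ∑ f ∈ N.divisors, u' e * u f * (A / (e * f)) := by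
    rw [mul_assoc, Finset.sum_mul_sum, Finset.mul_sum]
    refine Finset.sum_congr rfl (fun e _ => ?_)
    rw [Finset.mul_sum]
    refine Finset.sum_congr rfl (fun f _ => ?_)
    ring
  have h2 : ∑ e ∈ N'.divisors, ∑ f ∈ N.divisors, |u' e| * |u f| * δ ≤ D' * D * δ := by
    have h3 : ∑ e ∈ N'.divisors, ∑ f ∈ N.divisors, |u' e| * |u f| * δ =
        (∑ e ∈ N'.divisors, |u' e|) * (∑ f ∈ N.divisors, |u f|) * δ := by
      rw [Finset.sum_mul_sum, Finset.sum_mul]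
      refine Finset.sum_congr rfl (fun e _ => ?_)
      rw [Finset.sum_mul]
    rw [h3]
    refine mul_le_mul_of_nonneg_right ?_ hδ
    exact mul_le_mul (MID_num N' D' hD' u' hub' hu') (MID_num N D hD u hub hu)
      (Finset.sum_nonneg (fun _ _ => abs_nonneg _)) hD'
  refine le_trans ?_ (add_le_add_right h2 _)
  rw [h1, ← Finset.sum_add_distrib]
  refine Finset.sum_le_sum (fun e he => ?_)
  rw [← Finset.sum_add_distrib]
  refine Finset.sum_le_sum (fun f hf => ?_)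
  by_cases he0 : u' e = 0
  · simp [he0]
  by_cases hf0 : u f = 0
  · simp [hf0]
  have h4 := hF e f (Nat.pos_of_mem_divisors he) (Nat.pos_of_mem_divisors hf) (hu' e he0) (hu f hf0)
  have h5 : u' e * u f * (F e f - A / (e * f)) ≤ |u' e| * |u f| * δ := by
    calc u' e * u f * (F e f - A / (e * f)) ≤ |u' e * u f * (F e f - A / (e * f))| := le_abs_self _
      _ = |u' e| * |u f| * |F e f - A / (e * f)| := by rw [abs_mul, abs_mul]
      _ ≤ |u' e| * |u f| * δ := mul_le_mul_of_nonneg_left h4 (by positivity)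
  have h6 : u' e * u f * F e f = u' e * u f * (A / (e * f)) + u' e * u f * (F e f - A / (e * f)) := by
    ring
  rw [h6]
  exact add_le_add_right h5 _

/-- `VV` is antitone. -/
theorem VV_anti (A B : Finset ℕ) (hAB : A ⊆ B) (hB : ∀ p ∈ B, 1 ≤ p) : VV B ≤ VV A := by
  unfold VV
  rw [← Finset.prod_sdiff hAB]
  have h1 : ∏ p ∈ B \ A, (1 - 1 / (p : ℝ)) ≤ 1 := by
    apply Finset.prod_le_one
    · intro p hp
      have h2 : (1 : ℝ) ≤ p := by exact_mod_cast hB p (Finset.mem_sdiff.1 hp).1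
      have : 1 / (p : ℝ) ≤ 1 := by rw [div_le_one (by linarith)]; exact h2
      linarith
    · intro p hp
      have : 0 ≤ 1 / (p : ℝ) := by positivity
      linarith
  have h2 : 0 ≤ ∏ p ∈ A, (1 - 1 / (p : ℝ)) := by
    apply Finset.prod_nonneg
    intro p hp
    have h2 : (1 : ℝ) ≤ p := by exact_mod_cast hB p (hAB hp)
    have : 1 / (p : ℝ) ≤ 1 := by rw [div_le_one (by linarith)]; exact h2
    linarith
  nlinarith

theorem UP_mem (M : Finset ℕ) (z : ℝ) (hz : 0 ≤ z) (p : ℕ) (hp : p ∈ UP M z) :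
    p.Prime ∧ (p : ℝ) ≤ z := by
  unfold UP at hp
  rw [Finset.mem_sdiff, Finset.mem_filter, Finset.mem_range] at hp
  refine ⟨hp.1.2, ?_⟩
  have h1 : p ≤ ⌊z⌋₊ := by omega
  exact (Nat.le_floor_iff hz).1 h1

theorem UP_sub (M : Finset ℕ) (z : ℝ) : UP M z ⊆ UP ∅ z := by
  intro p hp
  unfold UP at *
  rw [Finset.mem_sdiff] at *
  exact ⟨hp.1, by simp⟩

/-- `C x^a ≤ x^b` for large `x`. -/
theorem ev_rpow (C a b : ℝ) (hab : a < b) : ∀ᶠ x : ℝ in atTop, C * x ^ a ≤ x ^ b := by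
  have h1 := tendsto_rpow_atTop (sub_pos.2 hab)
  filter_upwards [h1.eventually_ge_atTop C, eventually_gt_atTop (0 : ℝ)] with x hx hx0
  have h2 : x ^ b = x ^ (b - a) * x ^ a := by
    rw [← Real.rpow_add hx0]
    congr 1
    ring
  rw [h2]
  exact mul_le_mul_of_nonneg_right hx (Real.rpow_nonneg hx0.le a)

/-- `C log x ≤ x^b` for large `x`. -/
theorem ev_log (C b : ℝ) (hb : 0 < b) : ∀ᶠ x : ℝ in atTop, C * Real.log x ≤ x ^ b := by
  have h1 := (isLittleO_log_rpow_atTop hb)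
  have h2 := h1.def (c := 1 / (|C| + 1)) (by positivity)
  filter_upwards [h2, eventually_ge_atTop (1 : ℝ)] with x hx hx1
  have h3 : 0 ≤ Real.log x := Real.log_nonneg hx1
  rw [Real.norm_of_nonneg h3, Real.norm_of_nonneg (Real.rpow_nonneg (by linarith) b)] at hx
  have h4 : (|C| + 1) * Real.log x ≤ x ^ b := by
    have h5 : 0 < |C| + 1 := by positivity
    rw [one_div, inv_mul_eq_div, le_div_iff₀ h5] at hx
    linarith
  have h6 : C ≤ |C| := le_abs_self C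
  nlinarith

theorem prod_UP_ne (M : Finset ℕ) (z : ℝ) (hz : 0 ≤ z) : ∏ p ∈ UP M z, p ≠ 0 := by
  rw [Finset.prod_ne_zero_iff]
  intro p hp
  exact (UP_mem M z hz p hp).1.ne_zero

set_option maxRecDepth 4000 in
theorem stmt_MID (hFL : Stmt_FL) (hMER : Stmt_MER) (hPC : Stmt_PC) : Stmt_MID := by
  obtain ⟨Cp, c, hCp, hc0, hc1, hPC⟩ := hPC
  obtain ⟨Cm, cm, hCm, hcm, hMER⟩ := hMER
  obtain ⟨s, hs, hFL⟩ := hFL 1 one_pos
  set κ : ℝ := c / 20 with hκ
  have hκ0 : 0 < κ := by positivity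
  have hκ1 : κ ≤ 1 / 200 := by rw [hκ]; linarith
  have hs0 : 0 < s := by linarith
  have hκs : 0 < κ / s := by positivity
  have hκs1 : κ / s ≤ κ := div_le_self hκ0.le hs
  refine ⟨12 * (Cm * s / κ) + 1, κ, κ / s, ?_, hκ0, by linarith, hκs, ?_⟩
  · have : 0 ≤ 12 * (Cm * s / κ) := by positivity
    linarith
  intro β θ hβ hβ1 hθ hθ1
  have hev : ∀ᶠ x : ℝ in atTop, (2 ≤ x ∧ 2 ≤ x ^ θ ∧ 2 ≤ x ^ (κ / s) ∧
      2 * x ^ (κ / s) ≤ x ^ (1 / 2 - β) ∧ 4 * x ^ κ ≤ x ^ (1 / 2 - β) ∧ 2 ≤ x ^ (1 / 2 - β) ∧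
      4 * x ^ (9 / 20 : ℝ) ≤ x ^ (1 / 2 - β - κ)) ∧ 2 * x ^ (1 : ℝ) ≤ x ^ (117 / 100 : ℝ) ∧
      Real.log 2 ≤ β * Real.log x ∧ (3 * Cp * θ / (β * cm)) * Real.log x ≤ x ^ (3 * c / 10) := by
    have hlog : ∀ᶠ x : ℝ in atTop, Real.log 2 ≤ β * Real.log x := by
      filter_upwards [Real.tendsto_log_atTop.eventually_ge_atTop (Real.log 2 / β)] with x hx
      rw [div_le_iff₀ hβ] at hx
      linarith
    have hhalf : 0 < 1 / 2 - β := by linarith
    filter_upwards [eventually_ge_atTop (2 : ℝ), (tendsto_rpow_atTop hθ).eventually_ge_atTop 2,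
      (tendsto_rpow_atTop hκs).eventually_ge_atTop 2,
      ev_rpow 2 (κ / s) (1 / 2 - β) (by linarith), ev_rpow 4 κ (1 / 2 - β) (by linarith),
      (tendsto_rpow_atTop hhalf).eventually_ge_atTop 2,
      ev_rpow 4 (9 / 20) (1 / 2 - β - κ) (by linarith), ev_rpow 2 1 (117 / 100) (by norm_num),
      hlog, ev_log (3 * Cp * θ / (β * cm)) (3 * c / 10) (by positivity)] with x h1 h2 h3 h4 h5 h6 h7 h8 h9 h10
    exact ⟨⟨h1, h2, h3, h4, h5, h6, h7⟩, h8, h9, h10⟩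
  obtain ⟨x₀, hx₀⟩ := (tendsto_natCast_atTop_atTop.eventually hev).exists_forall_of_atTop
  refine ⟨x₀, ?_⟩
  intro x hx h hh1 hh2 M
  obtain ⟨⟨e1, e2, e3, e4, e5, e6, e7⟩, e8, e9, e10⟩ := hx₀ x hx
  clear hx₀ hev
  have hX0 : (0 : ℝ) < x := by linarith
  have hX1 : (1 : ℝ) ≤ x := by linarith
  set X : ℝ := (x : ℝ) with hX
  set z : ℝ := X ^ θ with hz
  set w : ℝ := X ^ (κ / s) with hw
  set Y₁ : ℕ := ⌊X ^ (1 / 2 - β)⌋₊ with hY₁
  set Y₂ : ℕ := ⌊X ^ (1 / 2 + β)⌋₊ with hY₂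
  set E : ℝ := X ^ κ with hE
  set V : ℝ := VV (UP M z) with hV
  have hlogX : 0 < Real.log X := Real.log_pos (by linarith)
  have hE1 : 1 ≤ E := Real.one_le_rpow hX1 hκ0.le
  -- sizes
  have hY₁up : (Y₁ : ℝ) ≤ X ^ (1 / 2 - β) := Nat.floor_le (by positivity)
  have hY₁lo' : X ^ (1 / 2 - β) < Y₁ + 1 := Nat.lt_floor_add_one _
  have hY₁lo : X ^ (1 / 2 - β) / 2 ≤ Y₁ := by linarith
  have hY₂up : (Y₂ : ℝ) ≤ X ^ (1 / 2 + β) := Nat.floor_le (by positivity)
  have hmono : X ^ (1 / 2 - β) ≤ X ^ (1 / 2 + β) :=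
    Real.rpow_le_rpow_of_exponent_le hX1 (by linarith)
  have hY₁₂ : Y₁ ≤ Y₂ := Nat.floor_le_floor hmono
  have hY₁pos : (1 : ℝ) ≤ Y₁ := by linarith
  have hY₂pos : (1 : ℝ) ≤ Y₂ := by
    have : (Y₁ : ℝ) ≤ Y₂ := by exact_mod_cast hY₁₂
    linarith
  -- weights
  obtain ⟨up', lo', hW'⟩ := hFL (UP ∅ w) w e3 (UP_mem ∅ w (by linarith))
  obtain ⟨up, lo, hW⟩ := hFL (UP M z) z e2 (UP_mem M z (by linarith))
  have hws : w ^ s = E := by
    rw [hw, hE, ← Real.rpow_mul hX0.le]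
    congr 1
    field_simp
  have hzs : z ^ s ≤ E := by
    rw [hz, hE, ← Real.rpow_mul hX0.le]
    apply Real.rpow_le_rpow_of_exponent_le hX1
    rw [le_div_iff₀ hs0] at hθ1
    exact hθ1
  -- the count
  have hcount := MID_count (UP ∅ w) (UP M z) (w ^ s) (z ^ s) 1 1 up' lo' up lo hW' hW
    (prod_UP_ne ∅ w (by linarith)) (prod_UP_ne M z (by linarith)) x h Y₁ Y₂ (by
      intro p hpp hp1 hp2 q hq hqp
      obtain ⟨hq1, hq2⟩ := UP_mem ∅ w (by linarith) q hq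
      rw [Nat.prime_dvd_prime_iff_eq hq1 hpp] at hqp
      subst hqp
      have h1 : (Y₁ : ℝ) + 1 ≤ q := by exact_mod_cast hp1
      linarith)
  have hh0 : (1 : ℝ) ≤ h := by
    have h1 : (1 : ℝ) ≤ X ^ (1 / 2 - κ) := Real.one_le_rpow hX1 (by linarith)
    linarith
  have hh0' : 1 ≤ h := by exact_mod_cast hh0
  have hhx : h ≤ x := by
    have h1 : X ^ (1 / 2 : ℝ) ≤ X ^ (1 : ℝ) := Real.rpow_le_rpow_of_exponent_le hX1 (by norm_num)
    rw [Real.rpow_one] at h1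
    have h2 : (h : ℝ) ≤ X := by linarith
    rw [hX] at h2
    exact_mod_cast h2
  set L : ℝ := Real.log ((Y₂ : ℝ) / Y₁) with hL
  set δ : ℝ := Cp * (h / Y₁) + Cp * (Y₂ : ℝ) ^ (1 - c) with hδ
  have hδ0 : 0 ≤ δ := by positivity
  have hF : ∀ e f : ℕ, 1 ≤ e → 1 ≤ f → (e : ℝ) ≤ w ^ s → (f : ℝ) ≤ z ^ s →
      |(NP x h Y₁ Y₂ e f : ℝ) - (h * L) / (e * f)| ≤ δ := by
    intro e f he hf heE hfE
    have he1 : (1 : ℝ) ≤ e := by exact_mod_cast he
    have hf1 : (1 : ℝ) ≤ f := by exact_mod_cast hf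
    have heE' : (e : ℝ) ≤ E := by rw [← hws]; exact heE
    have hfE' : (f : ℝ) ≤ E := hfE.trans hzs
    have hef : (e : ℝ) * f ≤ X ^ (2 * κ) := by
      calc (e : ℝ) * f ≤ E * E := mul_le_mul heE' hfE' (by positivity) (by positivity)
        _ = X ^ (2 * κ) := by
          rw [hE, ← Real.rpow_add hX0]
          congr 1
          ring
    have c1 : 2 * e ≤ Y₁ := by
      have : (2 : ℝ) * e ≤ Y₁ := by linarith
      exact_mod_cast this
    have c2 : ((Y₂ : ℝ) / e) ^ (17 / 10 : ℝ) ≤ (x : ℝ) / (e * f) := by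
      have h1 : (Y₂ : ℝ) / e ≤ X ^ (1 / 2 + β) := (div_le_self (by positivity) he1).trans hY₂up
      have h2 : ((Y₂ : ℝ) / e) ^ (17 / 10 : ℝ) ≤ (X ^ (1 / 2 + β)) ^ (17 / 10 : ℝ) :=
        Real.rpow_le_rpow (by positivity) h1 (by norm_num)
      have h3 : (X ^ (1 / 2 + β)) ^ (17 / 10 : ℝ) ≤ X ^ (1 - 2 * κ) := by
        rw [← Real.rpow_mul hX0.le]
        apply Real.rpow_le_rpow_of_exponent_le hX1
        linarith
      refine h2.trans (h3.trans ?_)
      rw [le_div_iff₀ (by positivity)]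
      calc X ^ (1 - 2 * κ) * (e * f) ≤ X ^ (1 - 2 * κ) * X ^ (2 * κ) :=
            mul_le_mul_of_nonneg_left hef (by positivity)
        _ = X := by
          rw [← Real.rpow_add hX0]
          ring_nf
          exact Real.rpow_one X
    have c3 : 2 * ((x : ℝ) / (e * f)) ≤ ((Y₁ : ℝ) / (2 * e)) ^ (13 / 5 : ℝ) := by
      have h1 : (x : ℝ) / (e * f) ≤ X := div_le_self hX0.le (one_le_mul_of_one_le_of_one_le he1 hf1)
      have h2 : X ^ (9 / 20 : ℝ) ≤ (Y₁ : ℝ) / (2 * e) := by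
        rw [le_div_iff₀ (by positivity)]
        have h3 : X ^ (1 / 2 - β - κ) * E = X ^ (1 / 2 - β) := by
          rw [hE, ← Real.rpow_add hX0]
          congr 1
          ring
        have h4 : X ^ (9 / 20 : ℝ) * (2 * e) ≤ X ^ (9 / 20 : ℝ) * (2 * E) :=
          mul_le_mul_of_nonneg_left (by linarith) (by positivity)
        have h5 : 4 * X ^ (9 / 20 : ℝ) * E ≤ X ^ (1 / 2 - β - κ) * E :=
          mul_le_mul_of_nonneg_right e7 (by positivity)
        linarith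
      have h6 : (X ^ (9 / 20 : ℝ)) ^ (13 / 5 : ℝ) ≤ ((Y₁ : ℝ) / (2 * e)) ^ (13 / 5 : ℝ) :=
        Real.rpow_le_rpow (by positivity) h2 (by norm_num)
      have h7 : (X ^ (9 / 20 : ℝ)) ^ (13 / 5 : ℝ) = X ^ (117 / 100 : ℝ) := by
        rw [← Real.rpow_mul hX0.le]
        norm_num
      rw [h7] at h6
      rw [Real.rpow_one] at e8
      linarith
    have h8 := hPC x h Y₁ Y₂ e f he hf c1 hY₁₂ hh0' hhx c2 c3
    have h9 : (h : ℝ) / (e * f) * Real.log (Y₂ / Y₁) = (h * L) / (e * f) := by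
      rw [hL]
      ring
    rw [h9] at h8
    refine h8.trans ?_
    rw [hδ]
    have h10 : (h : ℝ) / (f * Y₁) ≤ h / Y₁ := by
      apply div_le_div_of_nonneg_left (by positivity) (by positivity)
      exact le_mul_of_one_le_left (by positivity) hf1
    have h11 := mul_le_mul_of_nonneg_left h10 (show (0 : ℝ) ≤ Cp by linarith)
    linarith
  have hsum := MID_sum (∏ p ∈ UP ∅ w, p) (∏ p ∈ UP M z, p) (w ^ s) (z ^ s) (by positivity) (by positivity)
    up' up hW'.up_bd hW.up_bd (fun d hd => (hW'.up_supp d hd).2) (fun d hd => (hW.up_supp d hd).2)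
    (fun e f => (NP x h Y₁ Y₂ e f : ℝ)) (h * L) δ hδ0 hF
  -- the main term
  have hL0 : 0 ≤ L := by
    apply Real.log_nonneg
    rw [le_div_iff₀ (by linarith), one_mul]
    exact_mod_cast hY₁₂
  have hL1 : L ≤ 3 * β * Real.log X := by
    have h1 : (Y₂ : ℝ) / Y₁ ≤ 2 * X ^ (2 * β) := by
      rw [div_le_iff₀ (by linarith)]
      have h2 : X ^ (2 * β) * X ^ (1 / 2 - β) = X ^ (1 / 2 + β) := by
        rw [← Real.rpow_add hX0]
        congr 1
        ring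
      have h3 : X ^ (2 * β) * (X ^ (1 / 2 - β) / 2) ≤ X ^ (2 * β) * Y₁ :=
        mul_le_mul_of_nonneg_left hY₁lo (by positivity)
      linarith
    have h4 : L ≤ Real.log (2 * X ^ (2 * β)) := Real.log_le_log (by positivity) h1
    rw [Real.log_mul (by norm_num) (by positivity), Real.log_rpow hX0] at h4
    linarith
  have hVw : VV (UP ∅ w) ≤ Cm * s / κ / Real.log X := by
    have h1 := (hMER w e3).2.2.2.2.1
    have h2 : Real.log w = κ / s * Real.log X := by rw [hw, Real.log_rpow hX0]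
    rw [h2] at h1
    refine h1.trans (le_of_eq ?_)
    field_simp
  have hVw0 : 0 ≤ ∑ d ∈ (∏ p ∈ UP ∅ w, p).divisors, up' d / d := hW'.up_nonneg
  have hV0 : 0 ≤ ∑ d ∈ (∏ p ∈ UP M z, p).divisors, up d / d := hW.up_nonneg
  have hVlow : cm / (θ * Real.log X) ≤ V := by
    have h1 := (hMER z e2).2.2.2.1
    have h2 : Real.log z = θ * Real.log X := by rw [hz, Real.log_rpow hX0]
    rw [h2] at h1
    refine h1.trans ?_
    exact VV_anti _ _ (UP_sub M z) (fun p hp => (UP_mem ∅ z (by linarith) p hp).1.one_le)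
  have hVpos : 0 < V := lt_of_lt_of_le (by positivity) hVlow
  have hmain : h * L * (∑ e ∈ (∏ p ∈ UP ∅ w, p).divisors, up' e / e) *
      (∑ f ∈ (∏ p ∈ UP M z, p).divisors, up f / f) ≤ 12 * (Cm * s / κ) * β * (h * V) := by
    have h1 : ∑ e ∈ (∏ p ∈ UP ∅ w, p).divisors, up' e / e ≤ 2 * (Cm * s / κ / Real.log X) := by
      have := hW'.up_main
      linarith
    have h2 : ∑ f ∈ (∏ p ∈ UP M z, p).divisors, up f / f ≤ 2 * V := by
      have := hW.up_main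
      linarith
    calc h * L * (∑ e ∈ (∏ p ∈ UP ∅ w, p).divisors, up' e / e) *
        (∑ f ∈ (∏ p ∈ UP M z, p).divisors, up f / f)
        ≤ (h * (3 * β * Real.log X)) * (2 * (Cm * s / κ / Real.log X)) * (2 * V) := by
          apply mul_le_mul _ h2 hV0 (by positivity)
          apply mul_le_mul _ h1 hVw0 (by positivity)
          exact mul_le_mul_of_nonneg_left hL1 (by positivity)
      _ = 12 * (Cm * s / κ) * β * (h * V) := by
          field_simp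
          ring
  -- the error term
  have herr : w ^ s * z ^ s * δ ≤ β * (h * V) := by
    have h1 : w ^ s * z ^ s ≤ X ^ (2 * κ) := by
      calc w ^ s * z ^ s ≤ E * E := mul_le_mul hws.le hzs (by positivity) (by positivity)
        _ = X ^ (2 * κ) := by
          rw [hE, ← Real.rpow_add hX0]
          congr 1
          ring
    have h2 : δ ≤ 3 * Cp * X ^ (1 / 2 + κ - c / 2) := by
      have h3 : (h : ℝ) / Y₁ ≤ 2 * X ^ (1 / 2 + κ - c / 2) := by
        rw [div_le_iff₀ (by linarith)]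
        have h4 : X ^ (1 / 2 : ℝ) ≤ X ^ (1 / 2 + κ - c / 2) * X ^ (1 / 2 - β) := by
          rw [← Real.rpow_add hX0]
          apply Real.rpow_le_rpow_of_exponent_le hX1
          linarith
        have h5 : X ^ (1 / 2 + κ - c / 2) * (X ^ (1 / 2 - β) / 2) ≤ X ^ (1 / 2 + κ - c / 2) * Y₁ :=
          mul_le_mul_of_nonneg_left hY₁lo (by positivity)
        linarith
      have h6 : (Y₂ : ℝ) ^ (1 - c) ≤ X ^ (1 / 2 + κ - c / 2) := by
        have h7 : (Y₂ : ℝ) ^ (1 - c) ≤ (X ^ (1 / 2 + β)) ^ (1 - c) :=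
          Real.rpow_le_rpow (by positivity) hY₂up (by linarith)
        refine h7.trans ?_
        rw [← Real.rpow_mul hX0.le]
        apply Real.rpow_le_rpow_of_exponent_le hX1
        have h8 := mul_pos hβ hc0
        linarith
      rw [hδ]
      have h8 := mul_le_mul_of_nonneg_left h3 (show (0 : ℝ) ≤ Cp by linarith)
      have h9 := mul_le_mul_of_nonneg_left h6 (show (0 : ℝ) ≤ Cp by linarith)
      linarith
    have h3 : w ^ s * z ^ s * δ ≤ X ^ (2 * κ) * (3 * Cp * X ^ (1 / 2 + κ - c / 2)) :=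
      mul_le_mul h1 h2 hδ0 (by positivity)
    refine h3.trans ?_
    have h4 : X ^ (2 * κ) * (3 * Cp * X ^ (1 / 2 + κ - c / 2)) = 3 * Cp * X ^ (1 / 2 + 3 * κ - c / 2) := by
      have : X ^ (2 * κ) * X ^ (1 / 2 + κ - c / 2) = X ^ (1 / 2 + 3 * κ - c / 2) := by
        rw [← Real.rpow_add hX0]
        congr 1
        ring
      rw [← this]
      ring
    rw [h4]
    have h5 : (3 * Cp) * (θ * Real.log X) ≤ β * cm * X ^ (3 * c / 10) := by
      have h6 : (3 * Cp * θ / (β * cm)) * Real.log X * (β * cm) ≤ X ^ (3 * c / 10) * (β * cm) :=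
        mul_le_mul_of_nonneg_right e10 (by positivity)
      have h7 : (3 * Cp * θ / (β * cm)) * Real.log X * (β * cm) = (3 * Cp) * (θ * Real.log X) := by
        field_simp
      linarith
    have h6 : β * (X ^ (1 / 2 - κ) * (cm / (θ * Real.log X))) ≤ β * (h * V) := by
      apply mul_le_mul_of_nonneg_left _ hβ.le
      exact mul_le_mul hh1 hVlow (by positivity) (by positivity)
    refine le_trans ?_ h6
    have h7 : β * (X ^ (1 / 2 - κ) * (cm / (θ * Real.log X))) =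
        (β * cm * X ^ (1 / 2 - κ)) / (θ * Real.log X) := by ring
    rw [h7, le_div_iff₀ (by positivity)]
    have h8 : X ^ (1 / 2 + 3 * κ - c / 2) * X ^ (3 * c / 10) = X ^ (1 / 2 - κ) := by
      rw [← Real.rpow_add hX0]
      congr 1
      rw [hκ]
      ring
    calc 3 * Cp * X ^ (1 / 2 + 3 * κ - c / 2) * (θ * Real.log X)
        = X ^ (1 / 2 + 3 * κ - c / 2) * ((3 * Cp) * (θ * Real.log X)) := by ring
      _ ≤ X ^ (1 / 2 + 3 * κ - c / 2) * (β * cm * X ^ (3 * c / 10)) :=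
          mul_le_mul_of_nonneg_left h5 (by positivity)
      _ = β * cm * X ^ (1 / 2 - κ) := by rw [← h8]; ring
  -- assembly
  have htot : ∑ p ∈ (Finset.Ioc Y₁ Y₂).filter Nat.Prime, (#((Rg (UP M z) x h).filter (fun m => p ∣ m)) : ℝ) ≤
      (12 * (Cm * s / κ) + 1) * β * (h * V) := by
    refine hcount.trans (hsum.trans ?_)
    linarith
  calc ∑ p ∈ (Finset.Ioc Y₁ Y₂).filter Nat.Prime,
      Real.log p * (#((Rg (UP M z) x h).filter (fun m => p ∣ m)) : ℝ)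
      ≤ ∑ p ∈ (Finset.Ioc Y₁ Y₂).filter Nat.Prime,
        Real.log X * (#((Rg (UP M z) x h).filter (fun m => p ∣ m)) : ℝ) := by
        refine Finset.sum_le_sum ?_
        intro p hp
        rw [Finset.mem_filter, Finset.mem_Ioc] at hp
        apply mul_le_mul_of_nonneg_right _ (by positivity)
        apply Real.log_le_log (by exact_mod_cast hp.2.pos)
        have h1 : (p : ℝ) ≤ Y₂ := by exact_mod_cast hp.1.2
        have h2 : X ^ (1 / 2 + β) ≤ X ^ (1 : ℝ) :=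
          Real.rpow_le_rpow_of_exponent_le hX1 (by linarith)
        rw [Real.rpow_one] at h2
        linarith
    _ = Real.log X * ∑ p ∈ (Finset.Ioc Y₁ Y₂).filter Nat.Prime,
        (#((Rg (UP M z) x h).filter (fun m => p ∣ m)) : ℝ) := by rw [Finset.mul_sum]
    _ ≤ Real.log X * ((12 * (Cm * s / κ) + 1) * β * (h * V)) :=
        mul_le_mul_of_nonneg_left htot hlogX.le
    _ = (12 * (Cm * s / κ) + 1) * β * (h * V) * Real.log X := by ring

end Pool.Agent.Work.MP_3a3367_nt_log
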