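import Pool.Agent.Work.MP_3a3367_nt_log.Interface

/-!
# Block PC (helper85): the number of pairs
-/

set_option autoImplicit false

namespace Pool.Agent.Work.MP_3a3367_nt_log

open Finset

namespace PCAux

/-- the number of pairs as a sum over `u` -/
lemma NP_eq (x h Y₁ Y₂ e f : ℕ) (he : 1 ≤ e) (hf : 1 ≤ f) (hx : 1 ≤ x) :
    NP x h Y₁ Y₂ e f = ∑ u ∈ Finset.Ioc (Y₁ / e) (Y₂ / e),
      ((x + h) / (e * f * u) - x / (e * f * u)) := by
  have h1 : NP x h Y₁ Y₂ e f = #((Finset.Ioc (Y₁ / e) (Y₂ / e)).sigma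
      (fun u => Finset.Ioc (x / (e * f * u)) ((x + h) / (e * f * u)))) := by
    unfold NP
    refine Finset.card_nbij' (fun v => ⟨v.1 / e, v.2 / f⟩) (fun w => (e * w.1, f * w.2))
      ?_ ?_ ?_ ?_
    · rintro ⟨u, t⟩ hv
      simp only [Finset.coe_filter, Finset.mem_product, Finset.mem_Ioc, Finset.mem_Icc,
        Set.mem_ofPred_eq] at hv
      obtain ⟨⟨⟨hu1, hu2⟩, ht1, ht2⟩, ⟨u', rfl⟩, ⟨t', rfl⟩, h3, h4⟩ := hv
      have hu' : 0 < u' := by
        rcases Nat.eq_zero_or_pos u' with h | h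
        · subst h; simp at hu1
        · exact h
      have hD : 0 < e * f * u' := by positivity
      simp only [Finset.coe_sigma, Set.mem_sigma_iff, Finset.coe_Ioc, Set.mem_Ioc]
      rw [Nat.mul_div_cancel_left _ (by omega), Nat.mul_div_cancel_left _ (by omega)]
      refine ⟨⟨?_, ?_⟩, ?_, ?_⟩
      · rw [Nat.div_lt_iff_lt_mul (by omega)]
        linarith [mul_comm e u']
      · rw [Nat.le_div_iff_mul_le (by omega)]
        linarith [mul_comm e u']
      · rw [Nat.div_lt_iff_lt_mul hD]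
        calc x < e * u' * (f * t') := h3
          _ = t' * (e * f * u') := by ring
      · rw [Nat.le_div_iff_mul_le hD]
        calc t' * (e * f * u') = e * u' * (f * t') := by ring
          _ ≤ x + h := h4
    · rintro ⟨u', t'⟩ hw
      simp only [Finset.coe_sigma, Set.mem_sigma_iff, Finset.coe_Ioc, Set.mem_Ioc] at hw
      obtain ⟨⟨h1, h2⟩, h3, h4⟩ := hw
      have hu' : 0 < u' := lt_of_le_of_lt (Nat.zero_le _) h1
      have ht' : 0 < t' := lt_of_le_of_lt (Nat.zero_le _) h3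
      have hD : 0 < e * f * u' := by positivity
      rw [Nat.div_lt_iff_lt_mul (by omega)] at h1
      rw [Nat.le_div_iff_mul_le (by omega)] at h2
      rw [Nat.div_lt_iff_lt_mul hD] at h3
      rw [Nat.le_div_iff_mul_le hD] at h4
      have h5 : e * u' * (f * t') = t' * (e * f * u') := by ring
      simp only [Finset.coe_filter, Finset.mem_product, Finset.mem_Ioc, Finset.mem_Icc,
        Set.mem_ofPred_eq]
      refine ⟨⟨⟨?_, ?_⟩, ?_, ?_⟩, dvd_mul_right _ _, dvd_mul_right _ _, ?_, ?_⟩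
      · linarith [mul_comm e u']
      · linarith [mul_comm e u']
      · exact Nat.succ_le_of_lt (by positivity)
      · calc f * t' ≤ e * u' * (f * t') := Nat.le_mul_of_pos_left _ (by positivity)
          _ ≤ x + h := by rw [h5]; exact h4
      · rw [h5]; exact h3
      · rw [h5]; exact h4
    · rintro ⟨u, t⟩ hv
      simp only [Finset.coe_filter, Finset.mem_product, Finset.mem_Ioc, Finset.mem_Icc,
        Set.mem_ofPred_eq] at hv
      obtain ⟨-, hu, ht, -⟩ := hv
      simp only [Nat.mul_div_cancel' hu, Nat.mul_div_cancel' ht]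
    · rintro ⟨u', t'⟩ _
      simp only [Nat.mul_div_cancel_left _ (show 0 < e by omega),
        Nat.mul_div_cancel_left _ (show 0 < f by omega)]
  rw [h1, Finset.card_sigma]
  refine Finset.sum_congr rfl fun u _ => ?_
  rw [Nat.card_Ioc]

lemma div_eq_psi (m D : ℕ) (hD : 0 < D) :
    ((m / D : ℕ) : ℝ) = (m : ℝ) / D - 1 / 2 - psi ((m : ℝ) / D) := by
  have h1 : ⌊(m : ℝ) / D⌋ = ((m / D : ℕ) : ℤ) := by
    have hD' : (0 : ℝ) < D := by exact_mod_cast hD
    rw [Int.floor_eq_iff]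
    constructor
    · rw [le_div_iff₀ hD', Int.cast_natCast]
      have := Nat.div_mul_le_self m D
      have h2 : (((m / D * D : ℕ)) : ℝ) ≤ m := by exact_mod_cast this
      rw [Nat.cast_mul] at h2
      exact h2
    · rw [div_lt_iff₀ hD', Int.cast_natCast]
      have := Nat.lt_mul_div_succ m hD
      have h2 : (m : ℝ) < ((D * (m / D + 1) : ℕ) : ℝ) := by exact_mod_cast this
      rw [Nat.cast_mul, Nat.cast_add, Nat.cast_one] at h2
      linarith [mul_comm (D : ℝ) (((m / D : ℕ) : ℝ) + 1)]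
  have h2 : Int.fract ((m : ℝ) / D) = (m : ℝ) / D - ((m / D : ℕ) : ℝ) := by
    rw [Int.fract, h1, Int.cast_natCast]
  rw [psi, h2]
  ring

/-- harmonic sums -/
lemma harm (a : ℕ) (ha : 1 ≤ a) (b : ℕ) (hab : a ≤ b) :
    ∑ u ∈ Finset.Ioc a b, 1 / (u : ℝ) ≤ Real.log b - Real.log a ∧
    Real.log b - Real.log a - (1 / (a : ℝ) - 1 / (b : ℝ)) ≤ ∑ u ∈ Finset.Ioc a b, 1 / (u : ℝ) := by
  induction b, hab using Nat.le_induction with
  | base => simp
  | succ b hab ih =>
    have hb : (0 : ℝ) < b := by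
      have : 0 < b := by omega
      exact_mod_cast this
    rw [Finset.sum_Ioc_succ_top hab]
    have h1 : Real.log ((b + 1 : ℕ) : ℝ) - Real.log b = Real.log (1 + 1 / b) := by
      rw [← Real.log_div (by positivity) (by positivity)]
      congr 1
      push_cast
      field_simp
    have h2 : Real.log (1 + 1 / (b : ℝ)) ≤ 1 / b := by
      have := Real.log_le_sub_one_of_pos (show (0 : ℝ) < 1 + 1 / b by positivity)
      linarith
    have h3 : 1 / (((b + 1 : ℕ)) : ℝ) ≤ Real.log (1 + 1 / (b : ℝ)) := by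
      have := Real.one_sub_inv_le_log_of_pos (show (0 : ℝ) < 1 + 1 / b by positivity)
      have h4 : 1 - (1 + 1 / (b : ℝ))⁻¹ = 1 / (((b + 1 : ℕ)) : ℝ) := by
        push_cast
        field_simp
        ring
      rw [← h4]
      exact this
    constructor
    · linarith [ih.1]
    · linarith [ih.2]

end PCAux

open PCAux in
/-- Block PC -/
theorem stmt_PC (hVDL : Stmt_VDL) : Stmt_PC := by
  obtain ⟨C, c, hC, hc, hc', hV⟩ := hVDL
  refine ⟨2 * C + 6, c, by linarith, hc, hc', ?_⟩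
  intro x h Y₁ Y₂ e f he hf hY1 hY12 hh hhx hlow hup
  have hx : 1 ≤ x := by omega
  set a := Y₁ / e with ha
  set b := Y₂ / e with hb
  have heR : (1 : ℝ) ≤ e := by exact_mod_cast he
  have hfR : (1 : ℝ) ≤ f := by exact_mod_cast hf
  have he0 : (0 : ℝ) < e := by linarith
  have hf0 : (0 : ℝ) < f := by linarith
  have hhR : (1 : ℝ) ≤ h := by exact_mod_cast hh
  have hhxR : (h : ℝ) ≤ x := by exact_mod_cast hhx
  have hab : a ≤ b := Nat.div_le_div_right hY12
  have ha2 : 2 ≤ a := by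
    rw [ha, Nat.le_div_iff_mul_le (by omega)]
    exact hY1
  have ha0 : (0 : ℝ) < a := by
    have : 0 < a := by omega
    exact_mod_cast this
  have hb0 : (0 : ℝ) < b := by
    have : 0 < b := by omega
    exact_mod_cast this
  have haR : (a : ℝ) ≤ b := by exact_mod_cast hab
  have hY1R : (2 : ℝ) * e ≤ Y₁ := by exact_mod_cast hY1
  have hY10 : (0 : ℝ) < Y₁ := by linarith
  have hY12R : (Y₁ : ℝ) ≤ Y₂ := by exact_mod_cast hY12
  have hY20 : (0 : ℝ) < Y₂ := by linarith
  -- floors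
  have ea1 : (a : ℝ) * e ≤ Y₁ := by
    have := Nat.div_mul_le_self Y₁ e
    exact_mod_cast this
  have ea2 : (Y₁ : ℝ) < (a + 1) * e := by
    have := Nat.lt_mul_div_succ Y₁ (show 0 < e by omega)
    have h2 : (Y₁ : ℝ) < ((e * (Y₁ / e + 1) : ℕ) : ℝ) := by exact_mod_cast this
    push_cast at h2
    linarith [mul_comm (e : ℝ) ((a : ℝ) + 1)]
  have eb1 : (b : ℝ) * e ≤ Y₂ := by
    have := Nat.div_mul_le_self Y₂ e
    exact_mod_cast this
  have eb2 : (Y₂ : ℝ) < (b + 1) * e := by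
    have := Nat.lt_mul_div_succ Y₂ (show 0 < e by omega)
    have h2 : (Y₂ : ℝ) < ((e * (Y₂ / e + 1) : ℕ) : ℝ) := by exact_mod_cast this
    push_cast at h2
    linarith [mul_comm (e : ℝ) ((b : ℝ) + 1)]
  -- `a ≥ Y₁/(2e)`
  have ha3 : (Y₁ : ℝ) / (2 * e) ≤ a := by
    rw [div_le_iff₀ (by positivity)]
    nlinarith
  have hinva : 1 / (a : ℝ) ≤ 2 * e / Y₁ := by
    rw [div_le_div_iff₀ ha0 hY10]
    rw [div_le_iff₀ (by positivity)] at ha3
    linarith
  -- the psi sums
  have hX0 : (0 : ℝ) ≤ (x : ℝ) / (e * f) := by positivity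
  have hbY : (b : ℝ) ≤ Y₂ / e := by
    rw [le_div_iff₀ he0]
    exact eb1
  have hbY' : (b : ℝ) ≤ Y₂ := by
    calc (b : ℝ) ≤ Y₂ / e := hbY
      _ ≤ Y₂ := div_le_self hY20.le heR
  have hl1 : (b : ℝ) ^ (17 / 10 : ℝ) ≤ (x : ℝ) / (e * f) :=
    (Real.rpow_le_rpow hb0.le hbY (by norm_num)).trans hlow
  have hXX : (x : ℝ) / (e * f) ≤ ((x + h : ℕ) : ℝ) / (e * f) := by
    apply div_le_div_of_nonneg_right _ (by positivity)
    push_cast
    linarith
  have hu0 : (Y₁ / (2 * e) : ℝ) ^ (13 / 5 : ℝ) ≤ (a : ℝ) ^ (13 / 5 : ℝ) :=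
    Real.rpow_le_rpow (by positivity) ha3 (by norm_num)
  have hX2 : ((x + h : ℕ) : ℝ) / (e * f) ≤ 2 * ((x : ℝ) / (e * f)) := by
    rw [← mul_div_assoc]
    apply div_le_div_of_nonneg_right _ (by positivity)
    push_cast
    linarith
  have hp1 := hV a b ((x : ℝ) / (e * f)) (by omega) hab hl1 (by linarith)
  have hp2 := hV a b (((x + h : ℕ) : ℝ) / (e * f)) (by omega) hab (by linarith) (by linarith)
  have hbc : (b : ℝ) ^ (1 - c) ≤ (Y₂ : ℝ) ^ (1 - c) :=
    Real.rpow_le_rpow hb0.le hbY' (by linarith)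
  -- the exact formula
  have hNP : (NP x h Y₁ Y₂ e f : ℝ) = (h : ℝ) / (e * f) * ∑ u ∈ Finset.Ioc a b, 1 / (u : ℝ) +
      ∑ u ∈ Finset.Ioc a b, psi ((x : ℝ) / (e * f) / u) -
      ∑ u ∈ Finset.Ioc a b, psi (((x + h : ℕ) : ℝ) / (e * f) / u) := by
    rw [NP_eq x h Y₁ Y₂ e f he hf hx, Nat.cast_sum, Finset.mul_sum, ← Finset.sum_add_distrib,
      ← Finset.sum_sub_distrib]
    refine Finset.sum_congr rfl fun u hu => ?_
    have hu1 : 0 < u := by
      have := (Finset.mem_Ioc.mp hu).1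
      omega
    have huR : (0 : ℝ) < u := by exact_mod_cast hu1
    have hD : 0 < e * f * u := by positivity
    rw [Nat.cast_sub (Nat.div_le_div_right (Nat.le_add_right x h)), div_eq_psi _ _ hD,
      div_eq_psi _ _ hD]
    have h1 : (x : ℝ) / (e * f) / u = (x : ℝ) / ((e * f * u : ℕ) : ℝ) := by
      push_cast
      rw [div_div]
    have h2 : ((x + h : ℕ) : ℝ) / (e * f) / u = ((x + h : ℕ) : ℝ) / ((e * f * u : ℕ) : ℝ) := by
      push_cast
      rw [div_div]
    rw [h1, h2]
    have h3 : (((x + h : ℕ) : ℝ) / ((e * f * u : ℕ) : ℝ)) - (x : ℝ) / ((e * f * u : ℕ) : ℝ) =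
        (h : ℝ) / (e * f) * (1 / u) := by
      push_cast
      field_simp
      ring
    linarith
  -- the main term
  obtain ⟨hh1, hh2⟩ := harm a (by omega) b hab
  have hlog : |∑ u ∈ Finset.Ioc a b, 1 / (u : ℝ) - Real.log (Y₂ / Y₁)| ≤ 3 / a := by
    have e1 : Real.log (Y₂ / Y₁) = Real.log Y₂ - Real.log Y₁ :=
      Real.log_div (by positivity) (by positivity)
    have e2 : Real.log Y₁ - Real.log a - Real.log e ≤ 1 / a := by
      have : Real.log Y₁ ≤ Real.log ((1 + 1 / a) * (a * e)) := by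
        apply Real.log_le_log hY10
        have : (1 + 1 / (a : ℝ)) * (a * e) = (a + 1) * e := by field_simp
        rw [this]
        exact ea2.le
      rw [Real.log_mul (by positivity) (by positivity), Real.log_mul (by positivity) (by positivity)]
        at this
      have h4 := Real.log_le_sub_one_of_pos (show (0 : ℝ) < 1 + 1 / a by positivity)
      linarith
    have e3 : 0 ≤ Real.log Y₁ - Real.log a - Real.log e := by
      have : Real.log (a * e) ≤ Real.log Y₁ := Real.log_le_log (by positivity) ea1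
      rw [Real.log_mul (by positivity) (by positivity)] at this
      linarith
    have e4 : Real.log Y₂ - Real.log b - Real.log e ≤ 1 / b := by
      have : Real.log Y₂ ≤ Real.log ((1 + 1 / b) * (b * e)) := by
        apply Real.log_le_log hY20
        have : (1 + 1 / (b : ℝ)) * (b * e) = (b + 1) * e := by field_simp
        rw [this]
        exact eb2.le
      rw [Real.log_mul (by positivity) (by positivity), Real.log_mul (by positivity) (by positivity)]
        at this
      have h4 := Real.log_le_sub_one_of_pos (show (0 : ℝ) < 1 + 1 / b by positivity)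
      linarith
    have e5 : 0 ≤ Real.log Y₂ - Real.log b - Real.log e := by
      have : Real.log (b * e) ≤ Real.log Y₂ := Real.log_le_log (by positivity) eb1
      rw [Real.log_mul (by positivity) (by positivity)] at this
      linarith
    have e6 : 1 / (b : ℝ) ≤ 1 / a := one_div_le_one_div_of_le ha0 haR
    have e7 : (0 : ℝ) < 1 / b := by positivity
    have e8 : 3 / (a : ℝ) = 3 * (1 / a) := by ring
    rw [e8, abs_le]
    constructor <;> linarith
  have hmain : |(h : ℝ) / (e * f) * ∑ u ∈ Finset.Ioc a b, 1 / (u : ℝ) -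
      h / (e * f) * Real.log (Y₂ / Y₁)| ≤ 6 * (h / (f * Y₁)) := by
    rw [← mul_sub, abs_mul, abs_of_nonneg (by positivity)]
    calc (h : ℝ) / (e * f) * |∑ u ∈ Finset.Ioc a b, 1 / (u : ℝ) - Real.log (Y₂ / Y₁)|
        ≤ (h : ℝ) / (e * f) * (3 / a) := by gcongr
      _ = (h : ℝ) / (e * f) * (3 * (1 / a)) := by ring
      _ ≤ (h : ℝ) / (e * f) * (3 * (2 * e / Y₁)) := by gcongr
      _ = 6 * (h / (f * Y₁)) := by
        field_simp
        ring
  have hfin : (NP x h Y₁ Y₂ e f : ℝ) - h / (e * f) * Real.log (Y₂ / Y₁) =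
      ((h : ℝ) / (e * f) * ∑ u ∈ Finset.Ioc a b, 1 / (u : ℝ) -
        h / (e * f) * Real.log (Y₂ / Y₁)) +
      ∑ u ∈ Finset.Ioc a b, psi ((x : ℝ) / (e * f) / u) -
      ∑ u ∈ Finset.Ioc a b, psi (((x + h : ℕ) : ℝ) / (e * f) / u) := by
    rw [hNP]
    ring
  rw [hfin]
  have h0 : 0 ≤ (h : ℝ) / (f * Y₁) := by positivity
  have h00 : 0 ≤ (Y₂ : ℝ) ^ (1 - c) := by positivity
  have hCb : C * (b : ℝ) ^ (1 - c) ≤ C * (Y₂ : ℝ) ^ (1 - c) :=
    mul_le_mul_of_nonneg_left hbc (by linarith)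
  rw [abs_le] at hp1 hp2 hmain ⊢
  constructor
  · nlinarith
  · nlinarith

end Pool.Agent.Work.MP_3a3367_nt_log
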