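import Pool.Agent.Work.MP_3a3367_nt_log.Interface

/-!
# Block RL: random hitting
-/

set_option autoImplicit false

namespace Pool.Agent.Work.MP_3a3367_nt_log

open Finset Filter MeasureTheory ProbabilityTheory
open scoped Classical

namespace RLAux

universe u

variable {Ω : Type u} [MeasurableSpace Ω]

/-- The event or its complement. -/
noncomputable def ev (E : ℕ → Set Ω) (M : Finset ℕ) (p : ℕ) : Set Ω :=
  if p ∈ M then E p else (E p)ᶜ

omit [MeasurableSpace Ω] in
theorem meas_ev (E : ℕ → Set Ω) (M : Finset ℕ) (p : ℕ) :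
    MeasurableSet[MeasurableSpace.generateFrom {E p}] (ev E M p) := by
  have h : MeasurableSet[MeasurableSpace.generateFrom {E p}] (E p) :=
    MeasurableSpace.measurableSet_generateFrom rfl
  unfold ev
  split_ifs
  · exact h
  · exact h.compl

theorem inter_ev (μ : Measure Ω) [IsProbabilityMeasure μ] (E : ℕ → Set Ω)
    (hI : iIndepSet E μ) (M S : Finset ℕ) :
    μ.real (⋂ p ∈ S, ev E M p) = ∏ p ∈ S, μ.real (ev E M p) := by
  have h := (iIndepSet_iff_iIndep E μ).1 hI
  have h2 := h.meas_biInter (s := ev E M) (S := S) (fun i _ => meas_ev E M i)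
  simp only [Measure.real]
  rw [h2, ENNReal.toReal_prod]

omit [MeasurableSpace Ω] in
theorem moved_eq (E : ℕ → Set Ω) (A M : Finset ℕ) (hM : M ⊆ A) :
    {ω | A.filter (fun p => ω ∈ E p) = M} = ⋂ p ∈ A, ev E M p := by
  ext ω
  simp only [Set.mem_ofPred_eq, Set.mem_iInter]
  constructor
  · intro h p hp
    unfold ev
    split_ifs with hpM
    · rw [← h] at hpM
      exact (Finset.mem_filter.1 hpM).2
    · intro hω
      exact hpM (h ▸ Finset.mem_filter.2 ⟨hp, hω⟩)
  · intro h
    ext p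
    rw [Finset.mem_filter]
    constructor
    · rintro ⟨hp, hω⟩
      by_contra hpM
      have := h p hp
      rw [ev, if_neg hpM] at this
      exact this hω
    · intro hp
      have := h p (hM hp)
      rw [ev, if_pos hp] at this
      exact ⟨hM hp, this⟩

theorem hit (μ : Measure Ω) [IsProbabilityMeasure μ] (E : ℕ → Set Ω)
    (hE : ∀ p, MeasurableSet (E p)) (hI : iIndepSet E μ) (A M G : Finset ℕ) (hM : M ⊆ A)
    (hG : Disjoint G A) (R : ℝ) (hR : R ≤ ∑ q ∈ G, μ.real (E q)) :
    μ.real ({ω | A.filter (fun p => ω ∈ E p) = M} ∩ {ω | ∀ q ∈ G, ω ∉ E q}) ≤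
      μ.real {ω | A.filter (fun p => ω ∈ E p) = M} * Real.exp (-R) := by
  have hset : {ω | A.filter (fun p => ω ∈ E p) = M} ∩ {ω | ∀ q ∈ G, ω ∉ E q} =
      ⋂ p ∈ A ∪ G, ev E M p := by
    rw [moved_eq E A M hM]
    ext ω
    simp only [Set.mem_inter_iff, Set.mem_iInter, Set.mem_ofPred_eq, Finset.mem_union]
    constructor
    · rintro ⟨h1, h2⟩ p hp
      rcases hp with hp | hp
      · exact h1 p hp
      · have hpM : p ∉ M := fun h => (Finset.disjoint_left.1 hG hp) (hM h)
        rw [ev, if_neg hpM]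
        exact h2 p hp
    · intro h
      refine ⟨fun p hp => h p (Or.inl hp), fun q hq => ?_⟩
      have hqM : q ∉ M := fun h' => (Finset.disjoint_left.1 hG hq) (hM h')
      have := h q (Or.inr hq)
      rw [ev, if_neg hqM] at this
      exact this
  rw [hset, inter_ev μ E hI, Finset.prod_union hG.symm, ← inter_ev μ E hI, ← moved_eq E A M hM]
  refine mul_le_mul_of_nonneg_left ?_ measureReal_nonneg
  calc ∏ p ∈ G, μ.real (ev E M p) ≤ ∏ p ∈ G, Real.exp (-μ.real (E p)) := by
        refine Finset.prod_le_prod (fun _ _ => measureReal_nonneg) (fun p hp => ?_)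
        have hpM : p ∉ M := fun h => (Finset.disjoint_left.1 hG hp) (hM h)
        rw [ev, if_neg hpM, probReal_compl_eq_one_sub (hE p)]
        have := Real.add_one_le_exp (-μ.real (E p))
        linarith
    _ = Real.exp (∑ p ∈ G, -μ.real (E p)) := (Real.exp_sum _ _).symm
    _ ≤ Real.exp (-R) := by
        rw [Finset.sum_neg_distrib]
        exact Real.exp_le_exp.2 (by linarith)

end RLAux

open RLAux in
theorem stmt_RL.{u} : Stmt_RL.{u} := by
  intro Ω _ μ _ E hE hI A I G N R hN H
  have hcover : {ω | ∃ i ∈ I (A.filter (fun p => ω ∈ E p)),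
      ∀ q ∈ G (A.filter (fun p => ω ∈ E p)) i, ω ∉ E q} ⊆
      ⋃ M ∈ A.powerset, ⋃ i ∈ I M,
        ({ω | A.filter (fun p => ω ∈ E p) = M} ∩ {ω | ∀ q ∈ G M i, ω ∉ E q}) := by
    intro ω hω
    obtain ⟨i, hi, hq⟩ := hω
    simp only [Set.mem_iUnion]
    exact ⟨A.filter (fun p => ω ∈ E p), Finset.mem_powerset.2 (Finset.filter_subset _ _), i, hi,
      rfl, hq⟩
  have hsum1 : ∑ M ∈ A.powerset, μ.real {ω | A.filter (fun p => ω ∈ E p) = M} ≤ 1 := by
    have hdis : Set.PairwiseDisjoint (↑A.powerset)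
        (fun M : Finset ℕ => {ω | A.filter (fun p => ω ∈ E p) = M}) := by
      intro M _ M' _ hne
      refine Set.disjoint_left.2 (fun ω h1 h2 => hne ?_)
      exact h1.symm.trans h2
    have hms : ∀ M ∈ A.powerset, MeasurableSet {ω | A.filter (fun p => ω ∈ E p) = M} := by
      intro M hM
      rw [moved_eq E A M (Finset.mem_powerset.1 hM)]
      refine Finset.measurableSet_biInter _ (fun p _ => ?_)
      unfold ev
      split_ifs
      · exact hE p
      · exact (hE p).compl
    rw [← measureReal_biUnion_finset hdis hms]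
    exact measureReal_le_one
  calc μ.real {ω | ∃ i ∈ I (A.filter (fun p => ω ∈ E p)),
      ∀ q ∈ G (A.filter (fun p => ω ∈ E p)) i, ω ∉ E q}
      ≤ μ.real (⋃ M ∈ A.powerset, ⋃ i ∈ I M,
        ({ω | A.filter (fun p => ω ∈ E p) = M} ∩ {ω | ∀ q ∈ G M i, ω ∉ E q})) :=
        measureReal_mono hcover (measure_ne_top _ _)
    _ ≤ ∑ M ∈ A.powerset, μ.real (⋃ i ∈ I M,
        ({ω | A.filter (fun p => ω ∈ E p) = M} ∩ {ω | ∀ q ∈ G M i, ω ∉ E q})) :=
        measureReal_biUnion_finset_le _ _
    _ ≤ ∑ M ∈ A.powerset, ∑ i ∈ I M, μ.real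
        ({ω | A.filter (fun p => ω ∈ E p) = M} ∩ {ω | ∀ q ∈ G M i, ω ∉ E q}) :=
        Finset.sum_le_sum (fun M _ => measureReal_biUnion_finset_le _ _)
    _ ≤ ∑ M ∈ A.powerset, ∑ i ∈ I M,
        μ.real {ω | A.filter (fun p => ω ∈ E p) = M} * Real.exp (-R) := by
        refine Finset.sum_le_sum (fun M hM => Finset.sum_le_sum (fun i hi => ?_))
        have hMA := Finset.mem_powerset.1 hM
        obtain ⟨_, h2⟩ := H M hMA
        obtain ⟨h3, h4⟩ := h2 i hi
        exact hit μ E hE hI A M (G M i) hMA h3 R h4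
    _ ≤ ∑ M ∈ A.powerset, μ.real {ω | A.filter (fun p => ω ∈ E p) = M} *
        (N * Real.exp (-R)) := by
        refine Finset.sum_le_sum (fun M hM => ?_)
        rw [Finset.sum_const, nsmul_eq_mul]
        have h1 := (H M (Finset.mem_powerset.1 hM)).1
        have h2 : 0 ≤ μ.real {ω | A.filter (fun p => ω ∈ E p) = M} := measureReal_nonneg
        have h3 := (Real.exp_pos (-R)).le
        have := mul_le_mul_of_nonneg_right h1 (mul_nonneg h2 h3)
        linarith
    _ = (∑ M ∈ A.powerset, μ.real {ω | A.filter (fun p => ω ∈ E p) = M}) *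
        (N * Real.exp (-R)) := by rw [Finset.sum_mul]
    _ ≤ 1 * (N * Real.exp (-R)) :=
        mul_le_mul_of_nonneg_right hsum1 (mul_nonneg hN (Real.exp_pos _).le)
    _ = N * Real.exp (-R) := one_mul _

end Pool.Agent.Work.MP_3a3367_nt_log
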