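import Pool.Agent.Work.MP_3a3367_nt_log.Interface

/-!
# Block SAP: sieve bounds in arithmetic progressions
-/

set_option autoImplicit false

namespace Pool.Agent.Work.MP_3a3367_nt_log

open Finset
open scoped Classical

/-- The number of elements of `(x, x + h]` in a residue class. -/
theorem SAP_class (x h r v : ℕ) (hr : 0 < r) :
    |(#((Finset.Ioc x (x + h)).filter (fun m => m ≡ v [MOD r])) : ℝ) - h / r| ≤ 1 := by
  have h1 := Nat.Ioc_filter_modEq_card x (x + h) hr v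
  have hr' : (0 : ℚ) < r := by exact_mod_cast hr
  set n : ℕ := #((Finset.Ioc x (x + h)).filter (fun m => m ≡ v [MOD r])) with hn
  set A : ℚ := (((x + h : ℕ) : ℚ) - v) / r with hA
  set B : ℚ := ((x : ℚ) - v) / r with hB
  have hAB : A = B + h / r := by
    rw [hA, hB]
    push_cast
    ring
  have h2 : (n : ℤ) = max (⌊A⌋ - ⌊B⌋) 0 := by
    simpa [hn, hA, hB] using h1
  have hle : B ≤ A := by
    rw [hAB]
    have : (0 : ℚ) ≤ h / r := by positivity
    linarith
  have h3 : (n : ℤ) = ⌊A⌋ - ⌊B⌋ := by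
    rw [h2]
    apply max_eq_left
    have := Int.floor_le_floor hle
    linarith
  have h4 : |(n : ℚ) - h / r| ≤ 1 := by
    have h5 : (n : ℚ) = (⌊A⌋ : ℚ) - ⌊B⌋ := by exact_mod_cast h3
    rw [h5, abs_le]
    have a1 := Int.floor_le A
    have a2 := Int.lt_floor_add_one A
    have b1 := Int.floor_le B
    have b2 := Int.lt_floor_add_one B
    constructor <;> linarith
  have h6 : ((|(n : ℚ) - h / r| : ℚ) : ℝ) ≤ ((1 : ℚ) : ℝ) := by exact_mod_cast h4
  push_cast at h6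
  exact h6

/-- The number of elements of `(x, x + h]` which are `≡ c (q)` and divisible by `d`. -/
theorem SAP_class2 (x h q c d : ℕ) (hq : 0 < q) (hd : 0 < d) (hqd : Nat.Coprime q d) :
    |(#((Finset.Ioc x (x + h)).filter (fun m => m ≡ c [MOD q] ∧ d ∣ m)) : ℝ) - h / (q * d)| ≤ 1 := by
  obtain ⟨a, ha1, ha2⟩ := Nat.chineseRemainder hqd c 0
  have h1 : (Finset.Ioc x (x + h)).filter (fun m => m ≡ c [MOD q] ∧ d ∣ m) =
      (Finset.Ioc x (x + h)).filter (fun m => m ≡ a [MOD (q * d)]) := by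
    refine Finset.filter_congr ?_
    intro m _
    rw [← Nat.modEq_and_modEq_iff_modEq_mul hqd]
    constructor
    · rintro ⟨h2, h3⟩
      refine ⟨h2.trans ha1.symm, ?_⟩
      have h4 : m ≡ 0 [MOD d] := (Nat.modEq_zero_iff_dvd).2 h3
      exact h4.trans ha2.symm
    · rintro ⟨h2, h3⟩
      exact ⟨h2.trans ha1, (Nat.modEq_zero_iff_dvd).1 (h3.trans ha2)⟩
  rw [h1]
  have := SAP_class x h (q * d) a (by positivity)
  push_cast at this
  exact this

/-- Sum of weights over the divisors of `m`. -/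
theorem SAP_div (N m : ℕ) (hN : N ≠ 0) (hm : 0 < m) (u : ℕ → ℝ) (hu : ∀ d, u d ≠ 0 → d ∣ N) :
    ∑ d ∈ m.divisors, u d = ∑ d ∈ N.divisors, if d ∣ m then u d else 0 := by
  rw [← Finset.sum_filter]
  symm
  apply Finset.sum_subset_zero_on_sdiff
  · intro d hd
    rw [Finset.mem_filter] at hd
    exact Nat.mem_divisors.2 ⟨hd.2, hm.ne'⟩
  · intro d hd
    rw [Finset.mem_sdiff, Nat.mem_divisors, Finset.mem_filter, Nat.mem_divisors] at hd
    by_contra hcon
    exact hd.2 ⟨⟨hu d hcon, hN⟩, hd.1.1⟩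
  · intro d _
    rfl

/-- Insertion of weights. -/
theorem SAP_swap (N x h q c : ℕ) (hN : N ≠ 0) (u : ℕ → ℝ) (hu : ∀ d, u d ≠ 0 → d ∣ N) :
    ∑ m ∈ (Finset.Ioc x (x + h)).filter (fun m => m ≡ c [MOD q]), ∑ d ∈ m.divisors, u d =
      ∑ d ∈ N.divisors, u d *
        (#((Finset.Ioc x (x + h)).filter (fun m => m ≡ c [MOD q] ∧ d ∣ m)) : ℝ) := by
  have h1 : ∑ m ∈ (Finset.Ioc x (x + h)).filter (fun m => m ≡ c [MOD q]), ∑ d ∈ m.divisors, u d =
      ∑ m ∈ (Finset.Ioc x (x + h)).filter (fun m => m ≡ c [MOD q]),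
        ∑ d ∈ N.divisors, if d ∣ m then u d else 0 := by
    refine Finset.sum_congr rfl ?_
    intro m hm
    rw [Finset.mem_filter, Finset.mem_Ioc] at hm
    exact SAP_div N m hN (by omega) u hu
  rw [h1, Finset.sum_comm]
  refine Finset.sum_congr rfl ?_
  intro d _
  rw [← Finset.sum_filter, Finset.filter_filter, Finset.sum_const, nsmul_eq_mul, mul_comm]

/-- The weighted count. -/
theorem SAP_main (N x h q c : ℕ) (D : ℝ) (_hN : N ≠ 0) (hq : 0 < q) (u : ℕ → ℝ)
    (hu : ∀ d, u d ≠ 0 → d ∣ N ∧ (d : ℝ) ≤ D) (hD : 0 ≤ D) (hub : ∀ d, |u d| ≤ 1)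
    (hqN : Nat.Coprime q N) :
    |(∑ d ∈ N.divisors, u d *
        (#((Finset.Ioc x (x + h)).filter (fun m => m ≡ c [MOD q] ∧ d ∣ m)) : ℝ)) -
      h / q * ∑ d ∈ N.divisors, u d / d| ≤ D := by
  have h1 : (∑ d ∈ N.divisors, u d *
        (#((Finset.Ioc x (x + h)).filter (fun m => m ≡ c [MOD q] ∧ d ∣ m)) : ℝ)) -
      h / q * ∑ d ∈ N.divisors, u d / d =
      ∑ d ∈ N.divisors, u d *
        ((#((Finset.Ioc x (x + h)).filter (fun m => m ≡ c [MOD q] ∧ d ∣ m)) : ℝ) - h / (q * d)) := by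
    rw [Finset.mul_sum, ← Finset.sum_sub_distrib]
    refine Finset.sum_congr rfl ?_
    intro d hd
    have hd0 : d ≠ 0 := (Nat.pos_of_mem_divisors hd).ne'
    have hd1 : (d : ℝ) ≠ 0 := by exact_mod_cast hd0
    have hq1 : (q : ℝ) ≠ 0 := by exact_mod_cast hq.ne'
    field_simp
  rw [h1]
  refine (Finset.abs_sum_le_sum_abs _ _).trans ?_
  have h2 : ∀ d ∈ N.divisors, |u d *
        ((#((Finset.Ioc x (x + h)).filter (fun m => m ≡ c [MOD q] ∧ d ∣ m)) : ℝ) - h / (q * d))| ≤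
      if (d : ℝ) ≤ D then 1 else 0 := by
    intro d hd
    have hdpos : 0 < d := Nat.pos_of_mem_divisors hd
    split_ifs with hdD
    · rw [abs_mul]
      have h3 := SAP_class2 x h q c d hq hdpos (hqN.coprime_dvd_right (Nat.dvd_of_mem_divisors hd))
      calc |u d| * |_| ≤ 1 * 1 := mul_le_mul (hub d) h3 (abs_nonneg _) zero_le_one
        _ = 1 := one_mul 1
    · have : u d = 0 := by
        by_contra hcon
        exact hdD (hu d hcon).2
      rw [this, zero_mul, abs_zero]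
  refine (Finset.sum_le_sum h2).trans ?_
  rw [← Finset.sum_filter, Finset.sum_const, nsmul_eq_mul, mul_one]
  have h4 : N.divisors.filter (fun d : ℕ => (d : ℝ) ≤ D) ⊆ Finset.Icc 1 ⌊D⌋₊ := by
    intro d hd
    rw [Finset.mem_filter] at hd
    rw [Finset.mem_Icc]
    exact ⟨Nat.pos_of_mem_divisors hd.1, Nat.le_floor hd.2⟩
  have h5 := Finset.card_le_card h4
  rw [Nat.card_Icc] at h5
  have h6 : (#(N.divisors.filter (fun d : ℕ => (d : ℝ) ≤ D)) : ℝ) ≤ (⌊D⌋₊ : ℝ) := by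
    have : #(N.divisors.filter (fun d : ℕ => (d : ℝ) ≤ D)) ≤ ⌊D⌋₊ := by omega
    exact_mod_cast this
  exact h6.trans (Nat.floor_le hD)

theorem stmt_SAP (hFL : Stmt_FL) : Stmt_SAP := by
  intro τ hτ
  obtain ⟨s, hs, hmain⟩ := hFL τ hτ
  refine ⟨s, hs, ?_⟩
  intro P z hz hP x h q c hq hqP
  obtain ⟨up, lo, hW⟩ := hmain P z hz hP
  set N : ℕ := ∏ p ∈ P, p with hNdef
  have hN : N ≠ 0 := by
    rw [hNdef, Finset.prod_ne_zero_iff]
    intro p hp
    exact (hP p hp).1.ne_zero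
  have hD : 0 ≤ z ^ s := Real.rpow_nonneg (by linarith) s
  have hqN : Nat.Coprime q N := Nat.Coprime.prod_right (fun p hp => hqP p hp)
  have hcount : (#((Rg P x h).filter (fun m => m ≡ c [MOD q])) : ℝ) =
      ∑ m ∈ (Finset.Ioc x (x + h)).filter (fun m => m ≡ c [MOD q]),
        (if ∀ p ∈ P, ¬ p ∣ m then (1 : ℝ) else 0) := by
    rw [← Finset.sum_filter, Finset.sum_const, nsmul_eq_mul, mul_one]
    congr 2
    unfold Rg
    rw [Finset.filter_filter, Finset.filter_filter]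
    refine Finset.filter_congr ?_
    intro m _
    tauto
  have hhq : (0 : ℝ) ≤ h / q := by positivity
  constructor
  · have h1 := SAP_main N x h q c (z ^ s) hN hq lo hW.lo_supp hD hW.lo_bd hqN
    rw [abs_le] at h1
    have h2 := SAP_swap N x h q c hN lo (fun d hd => (hW.lo_supp d hd).1)
    have h3 : ∑ m ∈ (Finset.Ioc x (x + h)).filter (fun m => m ≡ c [MOD q]), ∑ d ∈ m.divisors, lo d ≤
        (#((Rg P x h).filter (fun m => m ≡ c [MOD q])) : ℝ) := by
      rw [hcount]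
      refine Finset.sum_le_sum ?_
      intro m hm
      rw [Finset.mem_filter, Finset.mem_Ioc] at hm
      exact hW.lo_le m (by omega)
    have h4 : (h : ℝ) / q * ((1 - τ) * VV P) ≤ h / q * ∑ d ∈ N.divisors, lo d / d :=
      mul_le_mul_of_nonneg_left hW.lo_main hhq
    rw [h2] at h3
    linarith
  · have h1 := SAP_main N x h q c (z ^ s) hN hq up hW.up_supp hD hW.up_bd hqN
    rw [abs_le] at h1
    have h2 := SAP_swap N x h q c hN up (fun d hd => (hW.up_supp d hd).1)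
    have h3 : (#((Rg P x h).filter (fun m => m ≡ c [MOD q])) : ℝ) ≤
        ∑ m ∈ (Finset.Ioc x (x + h)).filter (fun m => m ≡ c [MOD q]), ∑ d ∈ m.divisors, up d := by
      rw [hcount]
      refine Finset.sum_le_sum ?_
      intro m hm
      rw [Finset.mem_filter, Finset.mem_Ioc] at hm
      exact hW.up_ge m (by omega)
    have h4 : (h : ℝ) / q * ∑ d ∈ N.divisors, up d / d ≤ h / q * ((1 + τ) * VV P) :=
      mul_le_mul_of_nonneg_left hW.up_main hhq
    rw [h2] at h3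
    linarith

end Pool.Agent.Work.MP_3a3367_nt_log
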