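import Pool.Agent.Work.MP_3a3367_nt_log.Interface

/-!
# Block SQ: squares of large primes in short intervals
-/

set_option autoImplicit false

namespace Pool.Agent.Work.MP_3a3367_nt_log

open Finset
open scoped Classical

/-- The number of multiples of `q` in `(x, x + h]`. -/
theorem SQ_mult (x h q : ℕ) (hq : 0 < q) :
    (#((Finset.Ioc x (x + h)).filter (fun m => q ∣ m)) : ℝ) ≤ h / q + 1 := by
  have h1 : #((Finset.Ioc x (x + h)).filter (fun m => q ∣ m)) = (x + h) / q - x / q := by
    have := Nat.Ioc_filter_dvd_card_eq_div (x + h) q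
    have h2 := Nat.Ioc_filter_dvd_card_eq_div x q
    have h3 : (Finset.Ioc 0 (x + h)).filter (fun m => q ∣ m) =
        (Finset.Ioc 0 x).filter (fun m => q ∣ m) ∪ (Finset.Ioc x (x + h)).filter (fun m => q ∣ m) := by
      ext m
      simp only [Finset.mem_filter, Finset.mem_Ioc, Finset.mem_union]
      constructor
      · rintro ⟨⟨ha, hb⟩, hc⟩
        by_cases hm : m ≤ x
        · exact Or.inl ⟨⟨ha, hm⟩, hc⟩
        · exact Or.inr ⟨⟨by omega, hb⟩, hc⟩
      · rintro (⟨⟨ha, hb⟩, hc⟩ | ⟨⟨ha, hb⟩, hc⟩)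
        · exact ⟨⟨ha, by omega⟩, hc⟩
        · exact ⟨⟨by omega, hb⟩, hc⟩
    have h4 : Disjoint ((Finset.Ioc 0 x).filter (fun m => q ∣ m))
        ((Finset.Ioc x (x + h)).filter (fun m => q ∣ m)) := by
      rw [Finset.disjoint_left]
      intro m hm hm'
      simp only [Finset.mem_filter, Finset.mem_Ioc] at hm hm'
      omega
    rw [h3, Finset.card_union_of_disjoint h4] at this
    omega
  rw [h1]
  have h5 : x / q ≤ (x + h) / q := Nat.div_le_div_right (by omega)
  rw [Nat.cast_sub h5]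
  have hq' : (0 : ℝ) < q := by exact_mod_cast hq
  have h6 : (((x + h) / q : ℕ) : ℝ) ≤ ((x : ℝ) + h) / q := by
    have := @Nat.cast_div_le ℝ _ _ _ (x + h) q
    push_cast at this
    exact this
  have h7 : (x : ℝ) / q - 1 ≤ ((x / q : ℕ) : ℝ) := by
    have h8 : x < q * (x / q + 1) := by
      have := Nat.lt_mul_div_succ x hq
      simpa using this
    have h9 : (x : ℝ) < q * ((x / q : ℕ) + 1) := by exact_mod_cast h8
    rw [sub_le_iff_le_add, div_le_iff₀ hq']
    nlinarith
  have h10 : ((x : ℝ) + h) / q = x / q + h / q := by ring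
  rw [h10] at h6
  linarith

/-- `∑_{a < p ≤ b} 1/p² ≤ 1/a`. -/
theorem SQ_tail (a b : ℕ) (ha : 1 ≤ a) :
    ∑ p ∈ Finset.Ioc a b, 1 / (p : ℝ) ^ 2 ≤ 1 / (a : ℝ) := by
  by_cases hab : a ≤ b
  · have hmain : ∀ n : ℕ, ∑ p ∈ Finset.Ioc a (a + n), 1 / (p : ℝ) ^ 2 ≤ 1 / (a : ℝ) - 1 / ((a + n : ℕ) : ℝ) := by
      intro n
      induction n with
      | zero => simp
      | succ n ih =>
        have h1 : Finset.Ioc a (a + (n + 1)) = insert (a + n + 1) (Finset.Ioc a (a + n)) := by
          ext m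
          simp only [Finset.mem_Ioc, Finset.mem_insert]
          omega
        rw [h1, Finset.sum_insert (by simp)]
        have h2 : (1 : ℝ) / (((a + n + 1 : ℕ) : ℝ)) ^ 2 ≤ 1 / ((a + n : ℕ) : ℝ) - 1 / ((a + (n + 1) : ℕ) : ℝ) := by
          have hc : (0 : ℝ) < ((a + n : ℕ) : ℝ) := by
            have : 0 < a + n := by omega
            exact_mod_cast this
          have hd : ((a + n + 1 : ℕ) : ℝ) = ((a + n : ℕ) : ℝ) + 1 := by push_cast; ring
          have he : ((a + (n + 1) : ℕ) : ℝ) = ((a + n : ℕ) : ℝ) + 1 := by push_cast; ring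
          rw [hd, he]
          set c : ℝ := ((a + n : ℕ) : ℝ)
          rw [div_sub_div _ _ (by positivity) (by positivity), div_le_div_iff₀ (by positivity) (by positivity)]
          nlinarith [hc]
        linarith
    obtain ⟨n, rfl⟩ := Nat.exists_eq_add_of_le hab
    refine (hmain n).trans ?_
    have : (0 : ℝ) ≤ 1 / ((a + n : ℕ) : ℝ) := by positivity
    linarith
  · rw [Finset.Ioc_eq_empty (by omega)]
    simp

theorem stmt_SQ : Stmt_SQ := by
  refine ⟨3, by norm_num, ?_⟩
  intro x h z hz hh hhx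
  have hxpos : 0 < x := by
    by_contra hcon
    have : x = 0 := by omega
    subst this
    simp at hhx
    omega
  have hx1 : (1 : ℝ) ≤ x := by exact_mod_cast hxpos
  have hh1 : (1 : ℝ) ≤ h := by exact_mod_cast hh
  have hsq : (h : ℝ) ^ 2 ≤ x := by
    have := pow_le_pow_left₀ (by positivity) hhx 2
    rwa [Real.sq_sqrt (by positivity)] at this
  have hhx' : h ≤ x := by
    have : (h : ℝ) ≤ x := by nlinarith
    exact_mod_cast this
  set r : ℝ := (x : ℝ) ^ (1 / 3 : ℝ) with hr
  have hr1 : 1 ≤ r := Real.one_le_rpow hx1 (by norm_num)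
  have hr3 : r ^ 3 = x := by
    rw [hr, ← Real.rpow_natCast, ← Real.rpow_mul (by positivity)]
    norm_num
  set y : ℕ := ⌊r⌋₊ with hy
  have hyr : (y : ℝ) ≤ r := Nat.floor_le (by positivity)
  have hyr' : r < y + 1 := Nat.lt_floor_add_one r
  set a : ℕ := ⌊z⌋₊ with ha
  have haz : (a : ℝ) ≤ z := Nat.floor_le (by linarith)
  have haz' : z < a + 1 := Nat.lt_floor_add_one z
  have ha1 : 2 ≤ a := Nat.le_floor (by exact_mod_cast hz)
  have ha1' : (2 : ℝ) ≤ a := by exact_mod_cast ha1
  -- small primes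
  let A : Finset ℕ := (Finset.Ioc a y).biUnion (fun p => (Finset.Ioc x (x + h)).filter (fun m => p ^ 2 ∣ m))
  let B : Finset ℕ := (Finset.Ioc x (x + h)).filter (fun m => ∃ p : ℕ, y < p ∧ p ^ 2 ∣ m)
  have hsub : (Finset.Ioc x (x + h)).filter (fun m => ∃ p : ℕ, p.Prime ∧ z < p ∧ p ^ 2 ∣ m) ⊆ A ∪ B := by
    intro m hm
    simp only [Finset.mem_filter] at hm
    obtain ⟨hm1, p, hp, hzp, hpm⟩ := hm
    rw [Finset.mem_union]
    by_cases hpy : p ≤ y
    · left
      simp only [A, Finset.mem_biUnion, Finset.mem_filter]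
      refine ⟨p, ?_, hm1, hpm⟩
      rw [Finset.mem_Ioc]
      refine ⟨?_, hpy⟩
      have : (a : ℝ) < p := by linarith
      exact_mod_cast this
    · right
      simp only [B, Finset.mem_filter]
      exact ⟨hm1, p, by omega, hpm⟩
  have hA : (#A : ℝ) ≤ 2 * (h / z) + r := by
    have h1 : (#A : ℝ) ≤ ∑ p ∈ Finset.Ioc a y, ((h : ℝ) / (p : ℝ) ^ 2 + 1) := by
      have h2 : #A ≤ ∑ p ∈ Finset.Ioc a y, #((Finset.Ioc x (x + h)).filter (fun m => p ^ 2 ∣ m)) :=
        Finset.card_biUnion_le
      have h3 : (#A : ℝ) ≤ ∑ p ∈ Finset.Ioc a y, (#((Finset.Ioc x (x + h)).filter (fun m => p ^ 2 ∣ m)) : ℝ) := by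
        exact_mod_cast h2
      refine h3.trans (Finset.sum_le_sum ?_)
      intro p hp
      rw [Finset.mem_Ioc] at hp
      have := SQ_mult x h (p ^ 2) (by have : 0 < p := by omega
                                      positivity)
      push_cast at this
      exact this
    refine h1.trans ?_
    rw [Finset.sum_add_distrib]
    have h4 : ∑ p ∈ Finset.Ioc a y, (h : ℝ) / (p : ℝ) ^ 2 = h * ∑ p ∈ Finset.Ioc a y, 1 / (p : ℝ) ^ 2 := by
      rw [Finset.mul_sum]
      refine Finset.sum_congr rfl ?_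
      intro p _
      ring
    rw [h4]
    have h5 := SQ_tail a y (by omega)
    have h6 : (1 : ℝ) / a ≤ 2 / z := by
      rw [div_le_div_iff₀ (by positivity) (by positivity)]
      linarith
    have h7 : (h : ℝ) * ∑ p ∈ Finset.Ioc a y, 1 / (p : ℝ) ^ 2 ≤ 2 * (h / z) := by
      calc (h : ℝ) * ∑ p ∈ Finset.Ioc a y, 1 / (p : ℝ) ^ 2 ≤ h * (2 / z) :=
            mul_le_mul_of_nonneg_left (h5.trans h6) (by positivity)
        _ = 2 * (h / z) := by ring
    have h8 : ∑ _p ∈ Finset.Ioc a y, (1 : ℝ) ≤ r := by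
      rw [Finset.sum_const, nsmul_eq_mul, mul_one]
      have : #(Finset.Ioc a y) ≤ y := by
        rw [Nat.card_Ioc]
        omega
      have h9 : (#(Finset.Ioc a y) : ℝ) ≤ y := by exact_mod_cast this
      linarith
    linarith
  have hB : (#B : ℝ) ≤ 2 * r := by
    have hch : ∀ m ∈ B, ∃ p k : ℕ, y < p ∧ m = p ^ 2 * k := by
      intro m hm
      simp only [B, Finset.mem_filter] at hm
      obtain ⟨hm1, p, hp, k, hk⟩ := hm
      exact ⟨p, k, hp, hk⟩
    choose! P K hPK using hch
    have hmap : ∀ m ∈ B, K m ∈ Finset.Icc 1 ⌊2 * r⌋₊ := by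
      intro m hm
      obtain ⟨h1, h2⟩ := hPK m hm
      have hm' : x < m ∧ m ≤ x + h := by
        simp only [B, Finset.mem_filter, Finset.mem_Ioc] at hm
        exact hm.1
      rw [Finset.mem_Icc]
      constructor
      · by_contra hcon
        have h3 : K m = 0 := by omega
        rw [h3] at h2
        omega
      · apply Nat.le_floor
        have h3 : (r : ℝ) < P m := by
          have : (y : ℝ) + 1 ≤ P m := by exact_mod_cast h1
          linarith
        have h4 : ((P m : ℝ)) ^ 2 * K m ≤ 2 * x := by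
          have : P m ^ 2 * K m ≤ 2 * x := by rw [← h2]; omega
          exact_mod_cast this
        have h5 : r ^ 2 * K m ≤ 2 * r ^ 3 := by
          rw [hr3]
          refine le_trans ?_ h4
          apply mul_le_mul_of_nonneg_right _ (by positivity)
          exact pow_le_pow_left₀ (by positivity) h3.le 2
        have h6 : r ^ 2 * (K m : ℝ) ≤ r ^ 2 * (2 * r) := by nlinarith
        exact le_of_mul_le_mul_left h6 (by positivity)
    have hinj : ∀ m ∈ B, ∀ m' ∈ B, K m = K m' → P m < P m' → False := by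
      intro m hm m' hm' hK hP
      obtain ⟨h1, h2⟩ := hPK m hm
      obtain ⟨h1', h2'⟩ := hPK m' hm'
      have hmm : x < m ∧ m ≤ x + h := by
        simp only [B, Finset.mem_filter, Finset.mem_Ioc] at hm
        exact hm.1
      have hmm' : x < m' ∧ m' ≤ x + h := by
        simp only [B, Finset.mem_filter, Finset.mem_Ioc] at hm'
        exact hm'.1
      rw [← hK] at h2'
      set p := P m
      set p' := P m'
      set k := K m
      have hk1 : 1 ≤ k := by
        by_contra hcon
        have h3 : k = 0 := by omega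
        rw [h3] at h2
        omega
      have h3 : p ^ 2 * k + 2 * p * k ≤ p' ^ 2 * k := by
        have : p + 1 ≤ p' := hP
        have h4 : (p + 1) ^ 2 ≤ p' ^ 2 := Nat.pow_le_pow_left this 2
        have h5 : (p + 1) ^ 2 * k ≤ p' ^ 2 * k := Nat.mul_le_mul_right k h4
        nlinarith
      have h4 : 2 * p * k ≤ h := by omega
      have h5 : 4 * x < (2 * p * k) ^ 2 := by
        have h6 : (2 * p * k) ^ 2 = 4 * (p ^ 2 * k) * k := by ring
        rw [h6]
        have h7 : x < p ^ 2 * k := by rw [← h2]; exact hmm.1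
        nlinarith
      have h6 : (2 * p * k) ^ 2 ≤ h ^ 2 := Nat.pow_le_pow_left h4 2
      have h7 : h ^ 2 ≤ x := by exact_mod_cast hsq
      omega
    have hcard : #B ≤ #(Finset.Icc 1 ⌊2 * r⌋₊) := by
      refine Finset.card_le_card_of_injOn K hmap ?_
      intro m hm m' hm' hK
      rw [Finset.mem_coe] at hm hm'
      rcases lt_trichotomy (P m) (P m') with hlt | heq | hgt
      · exact (hinj m hm m' hm' hK hlt).elim
      · rw [(hPK m hm).2, (hPK m' hm').2, hK, heq]
      · exact (hinj m' hm' m hm hK.symm hgt).elim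
    have h10 : (#B : ℝ) ≤ (⌊2 * r⌋₊ : ℝ) := by
      have : #B ≤ ⌊2 * r⌋₊ := by
        refine hcard.trans ?_
        rw [Nat.card_Icc]
        omega
      exact_mod_cast this
    exact h10.trans (Nat.floor_le (by positivity))
  have hfin : (#((Finset.Ioc x (x + h)).filter (fun m => ∃ p : ℕ, p.Prime ∧ z < p ∧ p ^ 2 ∣ m)) : ℝ) ≤ #A + #B := by
    have h1 := (Finset.card_le_card hsub).trans (Finset.card_union_le A B)
    exact_mod_cast h1
  have hz0 : 0 ≤ (h : ℝ) / z := by positivity
  calc _ ≤ (#A : ℝ) + #B := hfin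
    _ ≤ (2 * (h / z) + r) + 2 * r := add_le_add hA hB
    _ ≤ 3 * (h / z + r) := by linarith

end Pool.Agent.Work.MP_3a3367_nt_log
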