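import Mathlib
import Pool.Agent.Work.MP_3a3367_nt_log.Interface
import Pool.Agent.Work.MP_3a3367_nt_log.ETW

/-!
# Power saving for sums of the sawtooth function, dyadic range (helper21)
-/

set_option autoImplicit false

namespace Pool.Agent.Work.MP_3a3367_nt_log

open Finset
open Pool.Agent.Work.MP_0b7501_nt (ex exp_sum_recip)

lemma vd_core {C c₀ γ : ℝ} (hC : 1 ≤ C) (hγ0 : 0 < γ) (hγ1 : γ ≤ c₀ / 2) (hγ2 : γ ≤ 3 / 20)
    (hexp : ∀ N : ℝ, 1 ≤ N → ∀ A : ℝ, N ^ (8 / 5 : ℝ) ≤ A → A ≤ N ^ (((0 : ℕ) : ℝ) + 2 + 3 / 4) →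
      ∀ x0 M : ℕ, N ≤ x0 → (x0 : ℝ) + M ≤ 3 * N →
      ‖∑ n ∈ range M, ex (A / ((x0 : ℝ) + n))‖ ≤ C * N ^ (1 - c₀))
    (A B : ℕ) (X : ℝ) (hA : 1 ≤ A) (hAB : A ≤ B) (hB : B ≤ 2 * A)
    (hX1 : (A : ℝ) ^ (17 / 10 : ℝ) ≤ X) (hX2 : X ≤ (A : ℝ) ^ (13 / 5 : ℝ)) :
    |∑ u ∈ Ioc A B, psi (X / u)| ≤ (3 + 2 * C) * (A : ℝ) ^ (1 - γ / 3) := by
  have hA1 : (1 : ℝ) ≤ A := by exact_mod_cast hA
  have hA0 : (0 : ℝ) < A := by linarith
  have hX0 : 0 < X := lt_of_lt_of_le (by positivity) hX1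
  have hAγ1 : 1 ≤ (A : ℝ) ^ γ := Real.one_le_rpow hA1 hγ0.le
  set H : ℕ := ⌈(A : ℝ) ^ γ⌉₊ with hH
  have hH1 : (A : ℝ) ^ γ ≤ H := Nat.le_ceil _
  have hH2 : (H : ℝ) ≤ 2 * (A : ℝ) ^ γ := by
    have := (Nat.ceil_lt_add_one (a := (A : ℝ) ^ γ) (by positivity)).le
    linarith
  have hH3 : 1 ≤ H := by
    have : (1 : ℝ) ≤ H := by linarith
    exact_mod_cast this
  have hE0 : 0 ≤ C * (A : ℝ) ^ (1 - c₀) := by positivity
  have hS : ∀ m : ℕ, 1 ≤ m → m < H → ‖∑ u ∈ Ioc A B, ex (m * (X / u))‖ ≤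
      C * (A : ℝ) ^ (1 - c₀) := by
    intro m hm hmH
    have hm1 : (1 : ℝ) ≤ m := by exact_mod_cast hm
    have hm2 : (m : ℝ) ≤ (A : ℝ) ^ γ := (Nat.lt_ceil.1 hmH).le
    have h1 := hexp A hA1 (m * X) ?_ ?_ (A + 1) (B - A) ?_ ?_
    · have h2 : ∑ u ∈ Ioc A B, ex (m * (X / u)) =
          ∑ n ∈ range (B - A), ex (m * X / (((A + 1 : ℕ) : ℝ) + n)) := by
        have h3 : Ioc A B = Ico (A + 1) (B + 1) := by
          ext x
          simp only [mem_Ioc, mem_Ico]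
          omega
        rw [h3, sum_Ico_eq_sum_range]
        have h4 : B + 1 - (A + 1) = B - A := by omega
        rw [h4]
        refine sum_congr rfl fun n _ => ?_
        congr 1
        push_cast
        rw [mul_div_assoc]
      rw [h2]
      exact h1
    · calc (A : ℝ) ^ (8 / 5 : ℝ) ≤ (A : ℝ) ^ (17 / 10 : ℝ) :=
            Real.rpow_le_rpow_of_exponent_le hA1 (by norm_num)
        _ ≤ X := hX1
        _ ≤ m * X := by nlinarith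
    · calc (m : ℝ) * X ≤ (A : ℝ) ^ γ * (A : ℝ) ^ (13 / 5 : ℝ) :=
            mul_le_mul hm2 hX2 hX0.le (by positivity)
        _ = (A : ℝ) ^ (γ + 13 / 5) := (Real.rpow_add hA0 _ _).symm
        _ ≤ _ := Real.rpow_le_rpow_of_exponent_le hA1 (by push_cast; linarith)
    · push_cast; linarith
    · have : A + 1 + (B - A) ≤ 3 * A := by omega
      exact_mod_cast this
  have ha0 : 0 < (A : ℝ) ^ (-(γ / 3)) := by positivity
  have hmain := et_weak (Ioc A B) (fun u => X / u) H hH3 _ _ hE0 ha0 hS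
  refine hmain.trans ?_
  have hcard : (#(Ioc A B) : ℝ) ≤ A := by
    rw [Nat.card_Ioc]
    have : B - A ≤ A := by omega
    exact_mod_cast this
  have h1 : 1 / (4 * ((A : ℝ) ^ (-(γ / 3))) ^ 2 * H) ≤ (A : ℝ) ^ (-(γ / 3)) := by
    have h2 : ((A : ℝ) ^ (-(γ / 3))) ^ 2 * (A : ℝ) ^ γ = (A : ℝ) ^ (γ / 3) := by
      rw [← Real.rpow_natCast, ← Real.rpow_mul hA0.le, ← Real.rpow_add hA0]
      congr 1
      push_cast
      ring
    have h3 : (A : ℝ) ^ (γ / 3) ≤ 4 * ((A : ℝ) ^ (-(γ / 3))) ^ 2 * H := by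
      have h4 : ((A : ℝ) ^ (-(γ / 3))) ^ 2 * (A : ℝ) ^ γ ≤ ((A : ℝ) ^ (-(γ / 3))) ^ 2 * H :=
        mul_le_mul_of_nonneg_left hH1 (by positivity)
      rw [h2] at h4
      have h5 : 0 ≤ ((A : ℝ) ^ (-(γ / 3))) ^ 2 * (H : ℝ) := by positivity
      nlinarith
    have h6 : 0 < (A : ℝ) ^ (γ / 3) := by positivity
    calc 1 / (4 * ((A : ℝ) ^ (-(γ / 3))) ^ 2 * H) ≤ 1 / (A : ℝ) ^ (γ / 3) :=
          one_div_le_one_div_of_le h6 h3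
      _ = (A : ℝ) ^ (-(γ / 3)) := by rw [Real.rpow_neg hA0.le, one_div]
  have h7 : (A : ℝ) * (A : ℝ) ^ (-(γ / 3)) = (A : ℝ) ^ (1 - γ / 3) := by
    rw [← Real.rpow_one_add' hA0.le (by linarith)]
    congr 1
  have h8 : (A : ℝ) ^ γ * (A : ℝ) ^ (1 - c₀) ≤ (A : ℝ) ^ (1 - γ / 3) := by
    rw [← Real.rpow_add hA0]
    exact Real.rpow_le_rpow_of_exponent_le hA1 (by linarith)
  have h9 : (H : ℝ) * (C * (A : ℝ) ^ (1 - c₀)) ≤ 2 * C * (A : ℝ) ^ (1 - γ / 3) := by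
    calc (H : ℝ) * (C * (A : ℝ) ^ (1 - c₀)) ≤ (2 * (A : ℝ) ^ γ) * (C * (A : ℝ) ^ (1 - c₀)) :=
          mul_le_mul_of_nonneg_right hH2 hE0
      _ = 2 * C * ((A : ℝ) ^ γ * (A : ℝ) ^ (1 - c₀)) := by ring
      _ ≤ _ := mul_le_mul_of_nonneg_left h8 (by positivity)
  have h10 : (#(Ioc A B) : ℝ) * (2 * (A : ℝ) ^ (-(γ / 3)) +
      1 / (4 * ((A : ℝ) ^ (-(γ / 3))) ^ 2 * H)) ≤ 3 * (A : ℝ) ^ (1 - γ / 3) := by
    calc _ ≤ (A : ℝ) * (3 * (A : ℝ) ^ (-(γ / 3))) := by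
          apply mul_le_mul hcard (by linarith) (by positivity) hA0.le
      _ = 3 * (A : ℝ) ^ (1 - γ / 3) := by rw [← h7]; ring
  linarith

/-- VD -/
theorem stmt_VD : Stmt_VD := by
  obtain ⟨C, c₀, hC, hc0, _, hexp⟩ := exp_sum_recip 0
  have hγ0 : 0 < min (c₀ / 2) (3 / 20) := lt_min (by linarith) (by norm_num)
  refine ⟨3 + 2 * C, min (c₀ / 2) (3 / 20) / 3, by linarith, by positivity, ?_, ?_⟩
  · have := min_le_right (c₀ / 2) (3 / 20 : ℝ)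
    linarith
  · intro A B X hA hAB hB hX1 hX2
    exact vd_core hC hγ0 (min_le_left _ _) (min_le_right _ _) hexp A B X hA hAB hB hX1 hX2

end Pool.Agent.Work.MP_3a3367_nt_log
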