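import Mathlib
import Pool.Agent.Work.MP_3a3367_nt_log.Interface
import Pool.Agent.Work.MP_3a3367_nt_log.VD

/-!
# Power saving for sums of the sawtooth function, long range (helper21)
-/

set_option autoImplicit false

namespace Pool.Agent.Work.MP_3a3367_nt_log

open Finset

/-- VDL -/
theorem stmt_VDL : Stmt_VDL := by
  obtain ⟨C, c, hC, hc0, hc1, hvd⟩ := stmt_VD
  refine ⟨3 * C, c, by linarith, hc0, hc1, ?_⟩
  intro A B X hA hAB
  induction B using Nat.strong_induction_on with
  | _ B ih =>
    intro hX1 hX2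
    have hA1 : (1 : ℝ) ≤ A := by exact_mod_cast hA
    have hB1 : (1 : ℝ) ≤ B := by exact_mod_cast hA.trans hAB
    have hABr : (A : ℝ) ≤ B := by exact_mod_cast hAB
    by_cases hB : B ≤ 2 * A
    · have h1 := hvd A B X hA hAB hB ((Real.rpow_le_rpow (by positivity) hABr
        (by norm_num)).trans hX1) hX2
      refine h1.trans ?_
      have h2 : (A : ℝ) ^ (1 - c) ≤ (B : ℝ) ^ (1 - c) :=
        Real.rpow_le_rpow (by positivity) hABr (by linarith)
      have h3 : 0 ≤ (B : ℝ) ^ (1 - c) := by positivity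
      nlinarith
    · push Not at hB
      obtain ⟨D, hD⟩ : ∃ D : ℕ, D = (B + 1) / 2 := ⟨_, rfl⟩
      have hD1 : D < B := by omega
      have hD2 : A ≤ D := by omega
      have hD3 : B ≤ 2 * D := by omega
      have hD4 : 3 * D ≤ 2 * B := by omega
      have hDB : (D : ℝ) ≤ B := by exact_mod_cast hD1.le
      have hAD : (A : ℝ) ≤ D := by exact_mod_cast hD2
      have hX1' : (D : ℝ) ^ (17 / 10 : ℝ) ≤ X :=
        (Real.rpow_le_rpow (by positivity) hDB (by norm_num)).trans hX1
      have h1 := ih D hD1 hD2 hX1' hX2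
      have h2 := hvd D B X (hA.trans hD2) hD1.le hD3 hX1' (hX2.trans
        (Real.rpow_le_rpow (by positivity) hAD (by norm_num)))
      have h3 : ∑ u ∈ Ioc A B, psi (X / u) = ∑ u ∈ Ioc A D, psi (X / u) +
          ∑ u ∈ Ioc D B, psi (X / u) := by
        rw [← Finset.sum_union]
        · congr 1
          ext x
          simp only [mem_union, mem_Ioc]
          omega
        · rw [Finset.disjoint_left]
          intro x hx hx'
          simp only [mem_Ioc] at hx hx'
          omega
      rw [h3]
      refine (abs_add_le _ _).trans ?_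
      have h4 : (D : ℝ) ^ (1 - c) ≤ 3 / 4 * (B : ℝ) ^ (1 - c) := by
        have h5 : (D : ℝ) ≤ 2 / 3 * B := by
          have : (3 * D : ℝ) ≤ 2 * B := by exact_mod_cast hD4
          linarith
        have h6 : (D : ℝ) ^ (1 - c) ≤ (2 / 3 * (B : ℝ)) ^ (1 - c) :=
          Real.rpow_le_rpow (by positivity) h5 (by linarith)
        rw [Real.mul_rpow (by norm_num) (by positivity)] at h6
        have h7 : (2 / 3 : ℝ) ^ (1 - c) ≤ 3 / 4 := by
          have h8 : (2 / 3 : ℝ) ^ (1 - c) ≤ (2 / 3 : ℝ) ^ (9 / 10 : ℝ) :=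
            Real.rpow_le_rpow_of_exponent_ge (by norm_num) (by norm_num) (by linarith)
          have h9 : (2 / 3 : ℝ) ^ (9 / 10 : ℝ) ≤ 3 / 4 := by
            rw [← Real.rpow_le_rpow_iff (by positivity) (by norm_num) (z := 10) (by norm_num),
              ← Real.rpow_mul (by norm_num)]
            norm_num
          exact h8.trans h9
        have h10 : 0 ≤ (B : ℝ) ^ (1 - c) := by positivity
        nlinarith
      have h11 : 0 ≤ (B : ℝ) ^ (1 - c) := by positivity
      nlinarith

end Pool.Agent.Work.MP_3a3367_nt_log
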