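import Pool.Agent.Work.MP_3a3367_nt_log.FIN3
import Pool.Agent.Work.MP_3a3367_nt_log.AS
import Pool.Agent.Work.MP_3a3367_nt_log.CT
import Pool.Agent.Work.MP_3a3367_nt_log.MID
import Pool.Agent.Work.MP_3a3367_nt_log.SAP
import Pool.Agent.Work.MP_3a3367_nt_log.FL
import Pool.Agent.Work.MP_3a3367_nt_log.PC
import Pool.Agent.Work.MP_3a3367_nt_log.VDL
import Pool.Agent.Work.MP_3a3367_nt_log.SQ
import Pool.Agent.Work.MP_3a3367_nt_log.MER
import Pool.Agent.Work.MP_3a3367_nt_log.DP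
import Pool.Agent.Work.MP_3a3367_nt_log.RL
import Pool.Agent.Work.MP_3a3367_nt_log.CN1
import Pool.Agent.Work.MP_3a3367_nt_log.CN2
import Pool.Agent.Work.MP_3a3367_nt_log.CN3
import Pool.Agent.Work.MP_3a3367_nt_log.CN4
import Pool.Agent.Work.MP_3a3367_nt_log_h29.SP

/-!
# Assembly
-/

set_option autoImplicit false

namespace Pool.Agent.Work.MP_3a3367_nt_log

open Finset Filter MeasureTheory ProbabilityTheory
open scoped Classical

theorem mid : Stmt_MID := stmt_MID stmt_FL stmt_MER (stmt_PC stmt_VDL)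

theorem ct : Stmt_CT := stmt_CT (stmt_SAP stmt_FL) stmt_MER mid stmt_SQ

theorem as.{u} : Stmt_AS.{u} := stmt_AS (stmt_SAP stmt_FL) stmt_MER ct stmt_DP stmt_RL

theorem fin3.{u} : Stmt_FIN3.{u} :=
  stmt_FIN3 as (stmt_SAP stmt_FL) stmt_MER stmt_CN1 stmt_CN2

theorem window_mono {S : Set ℕ} {n : ℕ} {κ δ κ' δ' : ℝ} (hn : 1 ≤ n) (hκ : κ' ≤ κ) (hδ : δ' ≤ δ)
    (h : (n : ℝ) ^ κ ≤ ((S ∩ {m | n < m ∧ (m : ℝ) ≤ n + (n : ℝ) ^ (1 / 2 - δ)}).ncard : ℝ)) :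
    (n : ℝ) ^ κ' ≤ ((S ∩ {m | n < m ∧ (m : ℝ) ≤ n + (n : ℝ) ^ (1 / 2 - δ')}).ncard : ℝ) := by
  have hn1 : (1 : ℝ) ≤ n := by exact_mod_cast hn
  refine (Real.rpow_le_rpow_of_exponent_le hn1 hκ).trans (h.trans ?_)
  have h1 : (S ∩ {m | n < m ∧ (m : ℝ) ≤ n + (n : ℝ) ^ (1 / 2 - δ)}) ⊆
      (S ∩ {m | n < m ∧ (m : ℝ) ≤ n + (n : ℝ) ^ (1 / 2 - δ')}) := by
    rintro m ⟨h1, h2, h3⟩
    refine ⟨h1, h2, h3.trans ?_⟩
    have := Real.rpow_le_rpow_of_exponent_le hn1 (by linarith : 1 / 2 - δ ≤ 1 / 2 - δ')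
    linarith
  have h2 : (S ∩ {m | n < m ∧ (m : ℝ) ≤ n + (n : ℝ) ^ (1 / 2 - δ')}).Finite := by
    apply (Set.finite_Iic ⌊(n : ℝ) + (n : ℝ) ^ (1 / 2 - δ')⌋₊).subset
    rintro m ⟨_, _, h⟩
    exact Nat.le_floor h
  exact_mod_cast Set.ncard_le_ncard h1 h2

theorem logp (K : ℝ) {κ : ℝ} (hκ : 0 < κ) : ∀ᶠ p : ℕ in atTop, K * (Real.log p / p) ≤
    (p : ℝ) ^ (κ - 1) := by
  have h1 : Tendsto (fun x : ℝ => Real.log x / x ^ κ) atTop (nhds 0) :=
    (isLittleO_log_rpow_atTop hκ).tendsto_div_nhds_zero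
  have h2 : Tendsto (fun p : ℕ => K * (Real.log p / (p : ℝ) ^ κ)) atTop (nhds (K * 0)) :=
    (h1.comp tendsto_natCast_atTop_atTop).const_mul K
  rw [mul_zero] at h2
  filter_upwards [h2.eventually (gt_mem_nhds zero_lt_one), eventually_ge_atTop 1] with p hp hp1
  have hp0 : (0 : ℝ) < p := by exact_mod_cast hp1
  have hpk : 0 < (p : ℝ) ^ κ := Real.rpow_pos_of_pos hp0 _
  rw [Real.rpow_sub_one hp0.ne']
  have h3 : K * (Real.log p / (p : ℝ) ^ κ) * ((p : ℝ) ^ κ / p) ≤ 1 * ((p : ℝ) ^ κ / p) :=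
    mul_le_mul_of_nonneg_right hp.le (by positivity)
  have h4 : K * (Real.log p / (p : ℝ) ^ κ) * ((p : ℝ) ^ κ / p) = K * (Real.log p / p) := by
    field_simp
  rw [h4, one_mul] at h3
  exact h3

/-- The universe of `Ω` does not matter for the constants: both final statements with the same
constants. -/
theorem main.{u} : ∃ K κ δ : ℝ, 0 < κ ∧ 0 < δ ∧
    (∀ (Ω : Type u) [MeasurableSpace Ω] (μ : Measure Ω) [IsProbabilityMeasure μ]
      (E : ℕ → Set Ω), (∀ p, MeasurableSet (E p)) → iIndepSet E μ →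
      (∀ᶠ p : ℕ in atTop, p.Prime → K * (Real.log p / p) ≤ μ.real (E p) ∧
        μ.real (E p) ≤ (p : ℝ) ^ (κ - 1)) → ∀ᵐ ω ∂μ,
        (∀ᶠ N : ℕ in atTop, (#(MV E N ω) : ℝ) ≤
          2 * ∑ p ∈ (Finset.range (N + 1)).filter Nat.Prime, μ.real (E p)) ∧
        ∃ n₀ : ℕ, ∀ u : ℕ → ℤ, (∀ p : ℕ, p.Prime → ((p : ℤ) ∣ u p ↔ ω ∉ E p)) →
          ∀ n : ℕ, n₀ ≤ n → (n : ℝ) ^ κ ≤
            ((Sieve u ∩ {m | n < m ∧ (m : ℝ) ≤ n + (n : ℝ) ^ (1 / 2 - δ)}).ncard : ℝ)) ∧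
    ∃ (C : ℝ) (T : Set ℕ), (∀ p ∈ T, p.Prime) ∧
      (∀ N : ℕ, 2 ≤ N → ((T ∩ Set.Iic N).ncard : ℝ) ≤ C * Real.log N) ∧
        ∃ n₀ : ℕ, ∀ u : ℕ → ℤ, (∀ p : ℕ, p.Prime → ((p : ℤ) ∣ u p ↔ p ∉ T)) →
          ∀ n : ℕ, n₀ ≤ n → (n : ℝ) ^ κ ≤
            ((Sieve u ∩ {m | n < m ∧ (m : ℝ) ≤ n + (n : ℝ) ^ (1 / 2 - δ)}).ncard : ℝ) := by
  obtain ⟨K1, κ1, δ1, hK1, hκ1, -, hδ1, -, h1⟩ := fin3.{u}
  obtain ⟨K0, κ0, δ0, hK0, hκ0, -, hδ0, -, h0⟩ := fin3.{0}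
  set K : ℝ := max (max K1 K0) 12 with hK
  have hKK1 : K1 ≤ K := (le_max_left _ _).trans (le_max_left _ _)
  have hKK0 : K0 ≤ K := (le_max_right _ _).trans (le_max_left _ _)
  have hK12 : 12 ≤ K := le_max_right _ _
  set κ : ℝ := min κ1 κ0 with hκ
  have hκ0' : 0 < κ := lt_min hκ1 hκ0
  set δ : ℝ := min δ1 δ0 with hδ
  have hδ0' : 0 < δ := lt_min hδ1 hδ0
  have hlp : ∀ p : ℕ, 0 ≤ Real.log p / p := fun p =>
    div_nonneg (Real.log_natCast_nonneg p) (Nat.cast_nonneg p)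
  have hlow : ∀ {K' : ℝ} {p : ℕ} {y : ℝ}, K' ≤ K → K * (Real.log p / p) ≤ y →
      K' * (Real.log p / p) ≤ y := fun h h' =>
    (mul_le_mul_of_nonneg_right h (hlp _)).trans h'
  have hupp : ∀ {κ' : ℝ} {p : ℕ} {y : ℝ}, p.Prime → κ ≤ κ' → y ≤ (p : ℝ) ^ (κ - 1) →
      y ≤ (p : ℝ) ^ (κ' - 1) := fun hp h h' =>
    h'.trans (Real.rpow_le_rpow_of_exponent_le (by exact_mod_cast hp.one_lt.le) (by linarith))
  refine ⟨K, κ, δ, hκ0', hδ0', ?_, ?_⟩
  · intro Ω _ μ _ E hE hind hev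
    have hA := h1 μ E hE hind (by
      filter_upwards [hev] with p hp hpp
      exact ⟨hlow hKK1 (hp hpp).1, hupp hpp (min_le_left _ _) (hp hpp).2⟩)
    have hB := stmt_CN4 μ E hE hind (by
      filter_upwards [hev] with p hp hpp
      exact hlow hK12 (hp hpp).1)
    filter_upwards [hA, hB] with ω hω hω'
    refine ⟨hω', ?_⟩
    obtain ⟨n₀, hn₀⟩ := hω
    refine ⟨max n₀ 1, fun u hu n hn => ?_⟩
    exact window_mono ((le_max_right _ _).trans hn) (min_le_left _ _) (min_le_left _ _)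
      (hn₀ u hu n ((le_max_left _ _).trans hn))
  · set r : ℕ → ℝ := fun p => min 1 (K * (Real.log p / p)) with hr
    obtain ⟨Ω, mΩ, μ, hμ, E, hE, hind, hEr⟩ := MP_3a3367_nt_log_h29.stmt_SP r (by
      intro p
      constructor
      · apply le_min zero_le_one
        exact mul_nonneg (by linarith) (hlp p)
      · exact min_le_left _ _)
    have hev : ∀ᶠ p : ℕ in atTop, K * (Real.log p / p) ≤ μ.real (E p) ∧
        μ.real (E p) ≤ (p : ℝ) ^ (κ - 1) := by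
      have h2 : Tendsto (fun p : ℕ => K * (Real.log p / p)) atTop (nhds (K * 0)) := by
        apply Tendsto.const_mul
        have h2 : Tendsto (fun x : ℝ => Real.log x / x) atTop (nhds 0) := by
          have := Real.isLittleO_log_id_atTop
          exact this.tendsto_div_nhds_zero
        exact h2.comp tendsto_natCast_atTop_atTop
      rw [mul_zero] at h2
      filter_upwards [h2.eventually (gt_mem_nhds zero_lt_one), logp K hκ0'] with p hp hp'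
      rw [hEr]
      simp only [hr]
      rw [min_eq_right hp.le]
      exact ⟨le_rfl, hp'⟩
    have hA := h0 μ E hE hind (by
      filter_upwards [hev] with p hp hpp
      exact ⟨hlow hKK0 hp.1, hupp hpp (min_le_right _ _) hp.2⟩)
    have hB := stmt_CN3 μ E hE hind K (by
      filter_upwards with p _
      rw [hEr]
      exact min_le_right _ _)
    obtain ⟨ω, ⟨n₀, hn₀⟩, C, hC⟩ := (hA.and hB).exists
    refine ⟨C, {p | p.Prime ∧ ω ∈ E p}, fun p hp => hp.1, ?_, max n₀ 1, ?_⟩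
    · intro N hN
      have h3 : {p | p.Prime ∧ ω ∈ E p} ∩ Set.Iic N ⊆ ((MV E N ω : Finset ℕ) : Set ℕ) := by
        intro p hp
        unfold MV
        simp only [Finset.coe_filter, Finset.mem_filter, Finset.mem_range, Nat.floor_natCast,
          Set.mem_ofPred_eq]
        exact ⟨⟨Nat.lt_succ_of_le hp.2, hp.1.1⟩, hp.1.2⟩
      have h4 : ({p | p.Prime ∧ ω ∈ E p} ∩ Set.Iic N).ncard ≤ #(MV E N ω) := by
        have := Set.ncard_le_ncard h3 (Finset.finite_toSet _)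
        rwa [Set.ncard_coe_finset] at this
      have h5 := hC N hN
      have h6 : (({p | p.Prime ∧ ω ∈ E p} ∩ Set.Iic N).ncard : ℝ) ≤ (#(MV E N ω) : ℝ) := by
        exact_mod_cast h4
      exact h6.trans h5
    · intro u hu n hn
      refine window_mono ((le_max_right _ _).trans hn) (min_le_right _ _) (min_le_right _ _)
        (hn₀ u ?_ n ((le_max_left _ _).trans hn))
      intro p hp
      rw [hu p hp]
      simp only [Set.mem_ofPred_eq]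
      constructor
      · intro h h'
        exact h ⟨hp, h'⟩
      · intro h h'
        exact h h'.2

end Pool.Agent.Work.MP_3a3367_nt_log
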